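import Pool.Agent.Helper60.AS.Good

/-! Cohomology with compact support of (the interior of) a cube `C0` in `ℂ × ℂ`. -/

set_option autoImplicit false

namespace Pool.Agent.Helper60.AS

open Set

/-- a cube -/
def C0 : Set (ℂ × ℂ) := {p | ∀ i, e4 p i ∈ Icc (0:ℝ) 1}

theorem C0_eq : C0 = e4 ⁻¹' (Set.pi univ fun _ => Icc (0:ℝ) 1) := by
  ext p
  exact ⟨fun h i _ => h i, fun h i => h i (mem_univ i)⟩

theorem C0_convex : Convex ℝ C0 := by
  rw [C0_eq]
  exact (convex_pi fun i _ => convex_Icc 0 1).is_linear_preimage e4.toLinearMap.isLinear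

theorem C0_compact : IsCompact C0 := by
  rw [C0_eq]
  exact e4.toHomeomorph.isCompact_preimage.2 (isCompact_univ_pi fun i => isCompact_Icc)

theorem C0_interior : interior C0 = {p | ∀ i, e4 p i ∈ Ioo (0:ℝ) 1} := by
  have h : interior C0 = e4 ⁻¹' (interior (Set.pi univ fun _ => Icc (0:ℝ) 1)) := by
    rw [C0_eq]
    exact (e4.toHomeomorph.preimage_interior _).symm
  rw [h, interior_pi_set (Set.toFinite _)]
  ext p
  simp [Set.mem_pi, interior_Icc]

theorem C0_int : (interior C0).Nonempty := by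
  rw [C0_interior]
  refine ⟨e4.symm (fun _ => 1 / 2), ?_⟩
  intro i
  simp
  norm_num

/-- faces of the cube -/
def Fc (a : ℕ) : Set (ℂ × ℂ) :=
  {p | (∀ i, e4 p i ∈ Icc (0:ℝ) 1) ∧ ∀ i : Fin 4, a ≤ (i : ℕ) → e4 p i = 1}

/-- the boundary of the face -/
def dF (a : ℕ) : Set (ℂ × ℂ) :=
  {p | p ∈ Fc a ∧ ∃ i : Fin 4, (i : ℕ) < a ∧ (e4 p i = 0 ∨ e4 p i = 1)}

/-- the boundary of the face without the open top -/
def Jf (a : ℕ) : Set (ℂ × ℂ) :=
  {p | p ∈ Fc (a + 1) ∧ ((∃ i : Fin 4, (i : ℕ) < a ∧ (e4 p i = 0 ∨ e4 p i = 1)) ∨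
    ∃ i : Fin 4, (i : ℕ) = a ∧ e4 p i = 0)}

theorem cont_co (i : Fin 4) : Continuous fun p : ℂ × ℂ => e4 p i :=
  (continuous_apply i).comp e4.continuous

theorem Fc_closed (a : ℕ) : IsClosed (Fc a) := by
  have : Fc a = (⋂ i : Fin 4, {p | e4 p i ∈ Icc (0:ℝ) 1}) ∩
      ⋂ i : Fin 4, ⋂ _ : a ≤ (i : ℕ), {p | e4 p i = 1} := by
    ext p; simp [Fc]
  rw [this]
  refine (isClosed_iInter fun i => isClosed_Icc.preimage (cont_co i)).inter ?_
  refine isClosed_iInter fun i => isClosed_iInter fun _ => ?_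
  exact isClosed_eq (cont_co i) continuous_const

theorem Fc_compact (a : ℕ) : IsCompact (Fc a) :=
  C0_compact.of_isClosed_subset (Fc_closed a) fun _ hp => hp.1

theorem dF_closed (a : ℕ) : IsClosed (dF a) := by
  have : dF a = Fc a ∩ ⋃ i : Fin 4, {p | (i : ℕ) < a ∧ (e4 p i = 0 ∨ e4 p i = 1)} := by
    ext p; simp [dF]
  rw [this]
  refine (Fc_closed a).inter (isClosed_iUnion_of_finite fun i => ?_)
  by_cases h : (i : ℕ) < a
  · simp only [h, true_and]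
    exact (isClosed_eq (cont_co i) continuous_const).union (isClosed_eq (cont_co i) continuous_const)
  · simp [h]

theorem Jf_closed (a : ℕ) : IsClosed (Jf a) := by
  have : Jf a = Fc (a + 1) ∩ ((⋃ i : Fin 4, {p | (i : ℕ) < a ∧ (e4 p i = 0 ∨ e4 p i = 1)}) ∪
      ⋃ i : Fin 4, {p | (i : ℕ) = a ∧ e4 p i = 0}) := by
    ext p
    simp only [Jf, mem_inter_iff, mem_union, mem_iUnion]
    rfl
  rw [this]
  refine (Fc_closed _).inter ((isClosed_iUnion_of_finite fun i => ?_).union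
    (isClosed_iUnion_of_finite fun i => ?_))
  · by_cases h : (i : ℕ) < a
    · simp only [h, true_and]
      exact (isClosed_eq (cont_co i) continuous_const).union
        (isClosed_eq (cont_co i) continuous_const)
    · simp [h]
  · by_cases h : (i : ℕ) = a
    · simp only [h, true_and]
      exact isClosed_eq (cont_co i) continuous_const
    · simp [h]

theorem Fc_succ_sub (a : ℕ) : Fc a ⊆ Fc (a + 1) := fun p hp =>
  ⟨hp.1, fun i hi => hp.2 i (by omega)⟩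

theorem union_eq {a : ℕ} (ha : a < 4) : Fc a ∪ Jf a = dF (a + 1) := by
  ext p
  constructor
  · rintro (hp | hp)
    · exact ⟨Fc_succ_sub a hp, ⟨a, ha⟩, by simp, Or.inr (hp.2 ⟨a, ha⟩ (by simp))⟩
    · refine ⟨hp.1, ?_⟩
      rcases hp.2 with ⟨i, hi, h⟩ | ⟨i, hi, h⟩
      · exact ⟨i, by omega, h⟩
      · exact ⟨i, by omega, Or.inl h⟩
  · rintro ⟨hp, i, hi, h⟩
    rcases Nat.lt_or_ge (i : ℕ) a with h1 | h1
    · exact Or.inr ⟨hp, Or.inl ⟨i, h1, h⟩⟩
    · have h2 : (i : ℕ) = a := by omega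
      rcases h with h | h
      · exact Or.inr ⟨hp, Or.inr ⟨i, h2, h⟩⟩
      · left
        refine ⟨hp.1, fun j hj => ?_⟩
        rcases Nat.lt_or_ge a (j : ℕ) with h3 | h3
        · exact hp.2 j h3
        · have : j = i := Fin.ext (by omega)
          rw [this]; exact h

theorem inter_eq {a : ℕ} : Fc a ∩ Jf a = dF a := by
  ext p
  constructor
  · rintro ⟨hp, -, h⟩
    refine ⟨hp, ?_⟩
    rcases h with h | ⟨i, hi, h⟩
    · exact h
    · have := hp.2 i (by omega)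
      rw [h] at this
      exact absurd this (by norm_num)
  · rintro ⟨hp, i, hi, h⟩
    exact ⟨hp, Fc_succ_sub a hp, Or.inl ⟨i, hi, h⟩⟩

theorem Jf_sub_dF {a : ℕ} (ha : a < 4) : Jf a ⊆ dF (a + 1) := by
  rw [← union_eq ha]; exact subset_union_right

theorem dF_sub (a : ℕ) : dF a ⊆ Fc a := fun _ hp => hp.1

theorem Fc_four : Fc 4 = C0 := by
  ext p
  constructor
  · exact fun hp => hp.1
  · exact fun hp => ⟨hp, fun i hi => absurd i.2 (by omega)⟩

theorem dF_four : dF 4 = C0 ∩ (interior C0)ᶜ := by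
  rw [C0_interior]
  ext p
  constructor
  · rintro ⟨hp, i, -, h⟩
    refine ⟨hp.1, fun hp' => ?_⟩
    have := hp' i
    rcases h with h | h <;> rw [h] at this <;> simp at this
  · rintro ⟨hp, hp'⟩
    simp only [mem_compl_iff, mem_ofPred_eq, not_forall] at hp'
    obtain ⟨i, hi⟩ := hp'
    refine ⟨Fc_four ▸ hp, i, i.2, ?_⟩
    have h1 := hp i
    by_contra hcon
    push Not at hcon
    exact hi ⟨lt_of_le_of_ne h1.1 (Ne.symm hcon.1), lt_of_le_of_ne h1.2 hcon.2⟩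

theorem dF_zero : dF 0 = ∅ := by
  ext p
  simp [dF]

/-- push down -/
noncomputable def Kd (i : Fin 4) (s : ℝ) (p : ℂ × ℂ) : ℂ × ℂ :=
  e4.symm (Function.update (e4 p) i ((1 - s) * e4 p i))

theorem e4_Kd (i : Fin 4) (s : ℝ) (p : ℂ × ℂ) :
    e4 (Kd i s p) = Function.update (e4 p) i ((1 - s) * e4 p i) := by
  simp [Kd]

theorem Kd_cont (i : Fin 4) : Continuous fun p : ℝ × (ℂ × ℂ) => Kd i p.1 p.2 := by
  unfold Kd
  refine e4.symm.continuous.comp ?_
  refine Continuous.update (e4.continuous.comp continuous_snd) i ?_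
  exact (continuous_const.sub continuous_fst).mul ((cont_co i).comp continuous_snd)

section
variable {k : Type*} [Field k]

theorem HV_J {a : ℕ} (ha : a < 4) (q : ℕ) :
    HV (cT : ℂ × ℂ → ℂ × ℂ → (k →ₗ[k] k)) (Fc (a + 1)) (Jf a) q := by
  set i0 : Fin 4 := ⟨a, ha⟩ with hi0
  have hi0' : (i0 : ℕ) = a := rfl
  have main : ∀ s ∈ Icc (0:ℝ) 1, ∀ p ∈ Fc (a + 1), Kd i0 s p ∈ Fc (a + 1) := by
    intro s hs p hp
    constructor
    · intro i
      rw [e4_Kd]
      by_cases h : i = i0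
      · subst h
        rw [Function.update_self]
        have := hp.1 i0
        exact ⟨mul_nonneg (by linarith [hs.2]) this.1,
          mul_le_one₀ (by linarith [hs.1]) this.1 this.2⟩
      · rw [Function.update_of_ne h]; exact hp.1 i
    · intro i hi
      rw [e4_Kd]
      have h : i ≠ i0 := by rintro rfl; omega
      rw [Function.update_of_ne h]; exact hp.2 i hi
  refine push_HV (Fc_compact _) (Jf_closed a) (fun p hp => hp.1) (flat_cT _) (Kd i0)
    (Kd_cont i0).continuousOn ?_ ?_ ?_ ?_ q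
  · intro p _
    unfold Kd
    rw [sub_zero, one_mul, Function.update_eq_self, ContinuousLinearEquiv.symm_apply_apply]
  · intro s hs p hp
    exact main s hs p hp
  · intro s hs p hp
    refine ⟨main s hs p hp.1, ?_⟩
    rcases hp.2 with ⟨i, hi, h⟩ | ⟨i, hi, h⟩
    · left
      refine ⟨i, hi, ?_⟩
      rw [e4_Kd]
      have hne : i ≠ i0 := by rintro rfl; omega
      rw [Function.update_of_ne hne]; exact h
    · right
      refine ⟨i, hi, ?_⟩
      have : i = i0 := Fin.ext (by omega)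
      subst this
      rw [e4_Kd, Function.update_self, h, mul_zero]
  · intro p hp
    refine ⟨main 1 (by simp) p hp, Or.inr ⟨i0, rfl, ?_⟩⟩
    rw [e4_Kd, Function.update_self, sub_self, zero_mul]

theorem exc_equiv {a : ℕ} (ha : a < 4) (q : ℕ) :
    Nonempty (H (cT : ℂ × ℂ → ℂ × ℂ → (k →ₗ[k] k)) (dF (a + 1)) (Jf a) q ≃ₗ[k]
      H (cT : ℂ × ℂ → ℂ × ℂ → (k →ₗ[k] k)) (Fc a) (dF a) q) := by
  have h := excision (T := (cT : ℂ × ℂ → ℂ × ℂ → (k →ₗ[k] k))) (Fc_closed a) (Jf_closed a)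
    (flat_cT _) q
  rw [← union_eq ha, ← inter_eq]
  exact ⟨LinearEquiv.ofBijective _ h⟩

theorem conn_equiv {a : ℕ} (ha : a < 4) (q : ℕ) :
    Nonempty (H (cT : ℂ × ℂ → ℂ × ℂ → (k →ₗ[k] k)) (dF (a + 1)) (Jf a) q ≃ₗ[k]
      H (cT : ℂ × ℂ → ℂ × ℂ → (k →ₗ[k] k)) (Fc (a + 1)) (dF (a + 1)) (q + 1)) := by
  have hS := dF_sub (a + 1)
  have hJ := Jf_sub_dF ha
  have hT := flat_cT (k := k) (V := k) (Fc (a + 1))
  have e2 := exact_triple2 hT hS hJ q
  have e3 := exact_triple3 hT hS hJ q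
  have s1 : Subsingleton (H (cT : ℂ × ℂ → ℂ × ℂ → (k →ₗ[k] k)) (Fc (a + 1)) (Jf a) q) :=
    HV_iff_subsingleton.1 (HV_J ha q)
  have s2 : Subsingleton (H (cT : ℂ × ℂ → ℂ × ℂ → (k →ₗ[k] k)) (Fc (a + 1)) (Jf a) (q + 1)) :=
    HV_iff_subsingleton.1 (HV_J ha (q + 1))
  refine ⟨LinearEquiv.ofBijective (Hd cT hT hS q) ⟨?_, ?_⟩⟩
  · rw [injective_iff_map_eq_zero]
    intro x hx
    obtain ⟨y, rfl⟩ := (e2 x).1 hx
    rw [Subsingleton.elim y 0, map_zero]
  · intro x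
    exact (e3 x).1 (Subsingleton.elim _ _)

/-- the cohomology of the pair is one dimensional in degree `a` and zero in the others -/
def OneDim (k : Type*) [Field k] (S S' : Set (ℂ × ℂ)) (a : ℕ) : Prop :=
  (∀ q, q ≠ a → HV (cT : ℂ × ℂ → ℂ × ℂ → (k →ₗ[k] k)) S S' q) ∧
    Nonempty (H (cT : ℂ × ℂ → ℂ × ℂ → (k →ₗ[k] k)) S S' a ≃ₗ[k] k)

theorem oneDim_succ {a : ℕ} (ha : a < 4) (h : OneDim k (Fc a) (dF a) a) :
    OneDim k (Fc (a + 1)) (dF (a + 1)) (a + 1) := by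
  constructor
  · intro q hq
    cases q with
    | zero => exact HV_triple_quot0 (flat_cT _) (dF_sub (a + 1)) (Jf_sub_dF ha) (HV_J ha 0)
    | succ q =>
      have h1 : q ≠ a := by omega
      obtain ⟨e1⟩ := exc_equiv (k := k) ha q
      obtain ⟨e2⟩ := conn_equiv (k := k) ha q
      have : Subsingleton (H (cT : ℂ × ℂ → ℂ × ℂ → (k →ₗ[k] k)) (Fc a) (dF a) q) :=
        HV_iff_subsingleton.1 (h.1 q h1)
      rw [HV_iff_subsingleton]
      exact (e2.symm.trans e1).toEquiv.subsingleton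
  · obtain ⟨e1⟩ := exc_equiv (k := k) ha a
    obtain ⟨e2⟩ := conn_equiv (k := k) ha a
    obtain ⟨e3⟩ := h.2
    exact ⟨(e2.symm.trans e1).trans e3⟩

theorem Fc_zero_convex : Convex ℝ (Fc 0) := by
  have : Fc 0 = e4 ⁻¹' {fun _ => (1:ℝ)} := by
    ext p
    simp only [Fc, mem_ofPred_eq, mem_preimage, mem_singleton_iff, zero_le, forall_true_left]
    constructor
    · intro h; funext i; exact h.2 i
    · intro h; rw [h]; simp
  rw [this]
  exact (convex_singleton _).is_linear_preimage e4.toLinearMap.isLinear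

theorem oneDim_zero : OneDim k (Fc 0) (dF 0) 0 := by
  rw [dF_zero]
  have hT := flat_cT (k := k) (V := k) (Fc 0)
  set p : ℂ × ℂ := e4.symm (fun _ => 1) with hp
  have hpF : p ∈ Fc 0 := by
    constructor
    · intro i; simp [hp]
    · intro i _; simp [hp]
  constructor
  · intro q hq
    cases q with
    | zero => exact absurd rfl hq
    | succ q => exact HV_convex Fc_zero_convex (Fc_compact 0) hT q
  · obtain ⟨h1, h2⟩ := H0_convex Fc_zero_convex (Fc_compact 0) hT hpF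
    let ev : (Zc (cT : ℂ × ℂ → ℂ × ℂ → (k →ₗ[k] k)) (Fc 0) ∅ 0) →ₗ[k] k :=
      { toFun := fun c => (c : List (ℂ × ℂ) → k) [p]
        map_add' := fun _ _ => rfl
        map_smul' := fun _ _ => rfl }
    have hsurj : Function.Surjective ev := by
      intro v
      obtain ⟨c, hc, hv⟩ := h1 v
      exact ⟨⟨c, hc⟩, hv⟩
    have hker : (Bc (cT : ℂ × ℂ → ℂ × ℂ → (k →ₗ[k] k)) (Fc 0) ∅ 0).comap
        (Zc (cT : ℂ × ℂ → ℂ × ℂ → (k →ₗ[k] k)) (Fc 0) ∅ 0).subtype = LinearMap.ker ev := by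
      ext c
      rw [Submodule.mem_comap, LinearMap.mem_ker]
      constructor
      · rintro ⟨b, -, hb⟩
        obtain ⟨ε, hε, h⟩ := hb p hpF
        have h3 := h [p] rfl (by simpa using hε)
        have h4 : (c : List (ℂ × ℂ) → k) [p] = 0 := by simpa using h3
        exact h4
      · intro hc
        exact h2 c c.2 hc
    exact ⟨(Submodule.quotEquivOfEq _ _ hker).trans (ev.quotKerEquivOfSurjective hsurj)⟩

theorem oneDim_four : OneDim k C0 (C0 ∩ (interior C0)ᶜ) 4 := by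
  rw [← dF_four, ← Fc_four]
  exact oneDim_succ (by norm_num) (oneDim_succ (by norm_num) (oneDim_succ (by norm_num)
    (oneDim_succ (by norm_num) oneDim_zero)))

theorem cmp_equiv (q : ℕ) :
    Nonempty (H (cT : ℂ × ℂ → ℂ × ℂ → (k →ₗ[k] k)) univ (interior C0)ᶜ q ≃ₗ[k]
      H (cT : ℂ × ℂ → ℂ × ℂ → (k →ₗ[k] k)) C0 (C0 ∩ (interior C0)ᶜ) q) := by
  have h := excision (T := (cT : ℂ × ℂ → ℂ × ℂ → (k →ₗ[k] k))) C0_compact.isClosed
    (isOpen_interior (s := C0)).isClosed_compl (flat_cT _) q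
  have hu : (univ : Set (ℂ × ℂ)) = C0 ∪ (interior C0)ᶜ := by
    ext p
    simp only [mem_univ, mem_union, mem_compl_iff, true_iff]
    by_cases hp : p ∈ interior C0
    · exact Or.inl (interior_subset hp)
    · exact Or.inr hp
  rw [hu]
  exact ⟨LinearEquiv.ofBijective _ h⟩

theorem oneDim_C0 : OneDim k univ (interior C0)ᶜ 4 := by
  constructor
  · intro q hq
    obtain ⟨e⟩ := cmp_equiv (k := k) q
    have := HV_iff_subsingleton.1 ((oneDim_four (k := k)).1 q hq)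
    rw [HV_iff_subsingleton]
    exact e.toEquiv.subsingleton
  · obtain ⟨e⟩ := cmp_equiv (k := k) 4
    obtain ⟨e'⟩ := (oneDim_four (k := k)).2
    exact ⟨e.trans e'⟩

end

theorem C0_HV {k : Type*} [Field k] {q : ℕ} (hq : q ≠ 4) :
    HV (cT : ℂ × ℂ → ℂ × ℂ → (k →ₗ[k] k)) univ (interior C0)ᶜ q := oneDim_C0.1 q hq

theorem C0_gen {k : Type*} [Field k] :
    ∃ ω ∈ Zc (cT : ℂ × ℂ → ℂ × ℂ → (k →ₗ[k] k)) univ (interior C0)ᶜ 4,
      ω ∉ Bc (cT : ℂ × ℂ → ℂ × ℂ → (k →ₗ[k] k)) univ (interior C0)ᶜ 4 ∧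
      ∀ c ∈ Zc (cT : ℂ × ℂ → ℂ × ℂ → (k →ₗ[k] k)) univ (interior C0)ᶜ 4,
        ∃ a : k, c - a • ω ∈ Bc (cT : ℂ × ℂ → ℂ × ℂ → (k →ₗ[k] k)) univ (interior C0)ᶜ 4 := by
  obtain ⟨e⟩ := (oneDim_C0 (k := k)).2
  obtain ⟨⟨ω, hω⟩, hω1⟩ := H.mk_surjective (T := (cT : ℂ × ℂ → ℂ × ℂ → (k →ₗ[k] k)))
    (S := univ) (S' := (interior C0)ᶜ) 4 (e.symm 1)
  refine ⟨ω, hω, ?_, ?_⟩
  · intro h
    have h1 := (H.mk_eq_zero (T := (cT : ℂ × ℂ → ℂ × ℂ → (k →ₗ[k] k))) ⟨ω, hω⟩).2 h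
    rw [hω1] at h1
    have h2 := congrArg e h1
    simp at h2
  · intro c hc
    obtain ⟨a, ha⟩ : ∃ a : k, e (H.mk (cT : ℂ × ℂ → ℂ × ℂ → (k →ₗ[k] k)) univ (interior C0)ᶜ 4
      ⟨c, hc⟩) = a := ⟨_, rfl⟩
    refine ⟨a, ?_⟩
    have h0 : H.mk (cT : ℂ × ℂ → ℂ × ℂ → (k →ₗ[k] k)) univ (interior C0)ᶜ 4
        (⟨c, hc⟩ - a • ⟨ω, hω⟩) = 0 := by
      rw [map_sub, map_smul, hω1]
      apply e.injective
      rw [map_sub, map_smul, ha, LinearEquiv.apply_symm_apply]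
      simp
    exact (H.mk_eq_zero _).1 h0

end Pool.Agent.Helper60.AS
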