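import Pool.Agent.Helper60.AS.FT

/-! Auxiliary lemmas for base change: rounding package, matrix actions. -/

set_option autoImplicit false

namespace Pool.Agent.Helper60.AS

open Set

section gmlin

variable {Ω k V W : Type*} [CommRing k] [AddCommGroup V] [Module k V] [AddCommGroup W] [Module k W]

theorem pb_add' {Ω' : Type*} (f : Ω → Ω') (b c : List Ω' → V) : pb f (b + c) = pb f b + pb f c := rfl
theorem pb_sub' {Ω' : Type*} (f : Ω → Ω') (b c : List Ω' → V) : pb f (b - c) = pb f b - pb f c := rfl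
theorem pb_smul' {Ω' : Type*} (f : Ω → Ω') (r : k) (c : List Ω' → V) : pb f (r • c) = r • pb f c := rfl

end gmlin

section nz

variable {Ω k V W : Type*} [PseudoMetricSpace Ω] [CommRing k] [AddCommGroup V] [Module k V]
  [AddCommGroup W] [Module k W] {S S' : Set Ω} {m : ℕ} {c : List Ω → V}

theorem NZ.gm' (u : Ω → (V →ₗ[k] W)) (h : NZ S m c) : NZ S m (AS.gm u c) := by
  intro a ha
  obtain ⟨e, he, h⟩ := h a ha
  refine ⟨e, he, fun l hl hx => ?_⟩
  have := h l hl hx
  cases l with
  | nil => rfl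
  | cons x l => rw [gm_cons, this, map_zero]

/-- `F` is an `ε`-rounding near `S` -/
def Rd (S : Set Ω) (ε : ℝ) (F : Ω → Ω) : Prop := ∀ a ∈ S, ∃ δ > 0, ∀ x, dist x a < δ → dist (F x) x < ε

theorem Rd.mono {ε ε' : ℝ} {F : Ω → Ω} (h : Rd S ε F) (hε : ε ≤ ε') : Rd S ε' F := by
  intro a ha
  obtain ⟨δ, hδ, h⟩ := h a ha
  exact ⟨δ, hδ, fun x hx => (h x hx).trans_le hε⟩

theorem Rd.sub {ε : ℝ} {F : Ω → Ω} (h : Rd S ε F) (hS : S' ⊆ S) : Rd S' ε F :=
  fun a ha => h a (hS ha)

theorem NZ.round (hS : IsCompact S) (h : NZ S m c) :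
    ∃ ε > 0, ∀ F : Ω → Ω, Rd S ε F → NZ S m (AS.pb F c) := by
  obtain ⟨ε, hε, h1⟩ := h.uniform hS
  refine ⟨ε / 2, by positivity, fun F hF a ha => ?_⟩
  obtain ⟨δ, hδ, h2⟩ := hF a ha
  refine ⟨min δ (ε / 2), lt_min hδ (by positivity), fun l hl hx => ?_⟩
  refine h1 (l.map F) (by simpa using hl) a ha ?_
  intro y hy
  obtain ⟨x, hx', rfl⟩ := List.mem_map.1 hy
  have h3 := hx x hx'
  have h4 := h2 x (h3.trans_le (min_le_left _ _))
  have h5 := h3.trans_le (min_le_right _ _)
  have := dist_triangle (F x) x a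
  linarith

end nz

section group

variable {Ω G : Type*} [PseudoMetricSpace Ω] [Group G] {T : Ω → Ω → G} {S S' : Set Ω}

theorem GFlat.uniform (hS : IsCompact S) (hT : GFlat T S) : ∃ ε > 0, ∀ a ∈ S, ∀ x y z,
    dist x a < ε → dist y a < ε → dist z a < ε → T x y * T y z = T x z := by
  classical
  let c : List Ω → ℤ := fun l => match l with
    | [x, y, z] => if T x y * T y z = T x z then 0 else 1
    | _ => 0
  have hc : NZ S 3 c := by
    intro a ha
    obtain ⟨e, he, h⟩ := hT a ha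
    refine ⟨e, he, fun l hl hx => ?_⟩
    match l, hl with
    | [x, y, z], _ =>
      simp only [c]
      rw [if_pos (h x y z (hx x (by simp)) (hx y (by simp)) (hx z (by simp)))]
  obtain ⟨e, he, h⟩ := NZ.uniform hS hc
  refine ⟨e, he, fun a ha x y z hx hy hz => ?_⟩
  have := h [x, y, z] rfl a ha (by simp [hx, hy, hz])
  by_contra hne
  simp only [c] at this
  rw [if_neg hne] at this
  exact one_ne_zero this

/-- the gauge relation between `T` and its rounding -/
def RG (T : Ω → Ω → G) (S : Set Ω) (F : Ω → Ω) : Prop := ∀ a ∈ S, ∃ δ > 0, ∀ x y,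
  dist x a < δ → dist y a < δ → T x y * T y (F y) = T x (F x) * T (F x) (F y)

theorem GFlat.round (hS : IsCompact S) (hT : GFlat T S) :
    ∃ ε > 0, ∀ F : Ω → Ω, Rd S ε F → RG T S F := by
  obtain ⟨ε, hε, h⟩ := hT.uniform hS
  refine ⟨ε / 2, by positivity, fun F hF a ha => ?_⟩
  obtain ⟨δ, hδ, h2⟩ := hF a ha
  refine ⟨min δ (ε / 2), lt_min hδ (by positivity), fun x y hx hy => ?_⟩
  have hx2 := hx.trans_le (min_le_right _ _)
  have hy2 := hy.trans_le (min_le_right _ _)
  have hFx := h2 x (hx.trans_le (min_le_left _ _))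
  have hFy := h2 y (hy.trans_le (min_le_left _ _))
  have h3 := dist_triangle (F x) x a
  have h4 := dist_triangle (F y) y a
  rw [h a ha x y (F y) (by linarith) (by linarith) (by linarith),
    h a ha x (F x) (F y) (by linarith) (by linarith) (by linarith)]

end group

end Pool.Agent.Helper60.AS
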