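import Pool.Agent.Helper60.AS.FT
import Pool.Agent.Helper60.AS.BcAux

/-! Base change for coefficient systems given by matrices: (N1) Nakayama, (N2) flat base change,
(N3) torsion, retraction of fields. `T : Ω → Ω → G` is group valued, `ρ : G →* Matrix n n A`. -/

set_option autoImplicit false

namespace Pool.Agent.Helper60.AS

open Set

variable {G A : Type*} [Group G] [CommRing A] {n : ℕ}

/-- the action of a matrix over `A` on `M^n` -/
def matAct (M : Type*) [AddCommGroup M] [Module A M] (B : Matrix (Fin n) (Fin n) A) :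
    (Fin n → M) →ₗ[A] (Fin n → M) where
  toFun v := fun i => ∑ j, B i j • v j
  map_add' v w := by funext i; simp [Finset.sum_add_distrib]
  map_smul' r v := by funext i; simp [Finset.smul_sum, smul_smul, mul_comm]

theorem matAct_one (M : Type*) [AddCommGroup M] [Module A M] :
    matAct M (1 : Matrix (Fin n) (Fin n) A) = LinearMap.id := by
  apply LinearMap.ext; intro v; funext i
  simp [matAct, Matrix.one_apply, ite_smul]

theorem matAct_mul (M : Type*) [AddCommGroup M] [Module A M] (B C : Matrix (Fin n) (Fin n) A) :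
    matAct M (B * C) = matAct M B ∘ₗ matAct M C := by
  apply LinearMap.ext; intro v; funext i
  simp only [matAct, LinearMap.coe_mk, AddHom.coe_mk, LinearMap.comp_apply, Matrix.mul_apply,
    Finset.sum_smul, Finset.smul_sum, smul_smul]
  rw [Finset.sum_comm]

/-- the representation on `M^n` -/
def repM (M : Type*) [AddCommGroup M] [Module A M] (ρ : G →* Matrix (Fin n) (Fin n) A) :
    G →* ((Fin n → M) →ₗ[A] (Fin n → M)) where
  toFun g := matAct M (ρ g)
  map_one' := by rw [map_one]; exact matAct_one M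
  map_mul' g h := by rw [map_mul]; exact matAct_mul M _ _

variable {Ω : Type*} [PseudoMetricSpace Ω]

/-- coefficient system on `M^n` -/
def cs (T : Ω → Ω → G) (ρ : G →* Matrix (Fin n) (Fin n) A) (M : Type*) [AddCommGroup M] [Module A M] :
    Ω → Ω → ((Fin n → M) →ₗ[A] (Fin n → M)) := sys T (repM M ρ)

variable {T : Ω → Ω → G} {S S' : Set Ω}

/-- `s` kills the cohomology in degree `q` -/
def KV {k V : Type*} [CommRing k] [AddCommGroup V] [Module k V] (T : Ω → Ω → (V →ₗ[k] V))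
    (S S' : Set Ω) (q : ℕ) (s : k) : Prop := ∀ c ∈ Zc T S S' q, s • c ∈ Bc T S S' q

section aux

variable {M M' : Type*} [AddCommGroup M] [Module A M] [AddCommGroup M'] [Module A M']

theorem matAct_compLeft (f : M →ₗ[A] M') (B : Matrix (Fin n) (Fin n) A) :
    matAct M' B ∘ₗ f.compLeft (Fin n) = f.compLeft (Fin n) ∘ₗ matAct M B := by
  apply LinearMap.ext; intro v; funext i
  simp [matAct]

omit [PseudoMetricSpace Ω] in
theorem cs_compLeft (f : M →ₗ[A] M') (ρ : G →* Matrix (Fin n) (Fin n) A) (x y : Ω) :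
    cs T ρ M' x y ∘ₗ f.compLeft (Fin n) = f.compLeft (Fin n) ∘ₗ cs T ρ M x y :=
  matAct_compLeft f (ρ (T x y))

/-- `v ↦ v • y` -/
def sv (n : ℕ) (y : M) : (Fin n → A) →ₗ[A] (Fin n → M) := (LinearMap.toSpanSingleton A M y).compLeft (Fin n)

theorem sv_apply (y : M) (v : Fin n → A) (i : Fin n) : sv n y v i = v i • y := rfl

omit [PseudoMetricSpace Ω] in
theorem cs_sv (y : M) (ρ : G →* Matrix (Fin n) (Fin n) A) (x z : Ω) :
    cs T ρ M x z ∘ₗ sv n y = sv n y ∘ₗ cs T ρ A x z := cs_compLeft _ ρ x z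

theorem cs_flat (hT : GFlat T S) (ρ : G →* Matrix (Fin n) (Fin n) A) : Flat (cs T ρ M) S :=
  hT.sys _

/-- the rounded group valued function -/
abbrev rT (T : Ω → Ω → G) (F : Ω → Ω) : Ω → Ω → G := fun x y => T (F x) (F y)

omit [PseudoMetricSpace Ω] in
theorem pT_cs (F : Ω → Ω) (ρ : G →* Matrix (Fin n) (Fin n) A) :
    pT F (cs T ρ M) = cs (rT T F) ρ M := rfl

theorem RG.nz {F : Ω → Ω} (h : RG T S F) (ρ : G →* Matrix (Fin n) (Fin n) A) (c : List Ω → (Fin n → M)) (m : ℕ) :
    NZ S m (dT (cs T ρ M) (gm (tg (cs T ρ M) F) c) - gm (tg (cs T ρ M) F) (dT (cs (rT T F) ρ M) c)) := by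
  intro a ha
  obtain ⟨δ, hδ, h⟩ := h a ha
  refine ⟨δ, hδ, fun l _ hx => ?_⟩
  rw [Pi.sub_apply, sub_eq_zero]
  apply dT_gm
  intro x hx' y hy'
  have := h x y (hx x hx') (hx y hy')
  show repM M ρ (T x y) ∘ₗ repM M ρ (T y (F y)) = repM M ρ (T x (F x)) ∘ₗ repM M ρ (T (F x) (F y))
  have e : repM M ρ (T x y * T y (F y)) = repM M ρ (T x (F x) * T (F x) (F y)) := by rw [this]
  rw [map_mul, map_mul] at e
  exact e

theorem RG.mem_Zc {F : Ω → Ω} (h : RG T S F) (ρ : G →* Matrix (Fin n) (Fin n) A) {c : List Ω → (Fin n → M)}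
    {q : ℕ} (hc : c ∈ Zc (cs (rT T F) ρ M) S S' q) : gm (tg (cs T ρ M) F) c ∈ Zc (cs T ρ M) S S' q := by
  refine ⟨hc.1.gm' _, ?_⟩
  have h1 := (h.nz ρ c (q + 2)).add (hc.2.gm' (tg (cs T ρ M) F))
  rwa [sub_add_cancel] at h1

theorem RG.mem_Bc {F : Ω → Ω} (h : RG T S F) (ρ : G →* Matrix (Fin n) (Fin n) A) {c : List Ω → (Fin n → M)}
    {q : ℕ} (hc : c ∈ Bc (cs (rT T F) ρ M) S S' q) : gm (tg (cs T ρ M) F) c ∈ Bc (cs T ρ M) S S' q := by
  obtain ⟨b, hb, hc⟩ := hc
  refine ⟨gm (tg (cs T ρ M) F) b, hb.gm' _, ?_⟩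
  have h1 := (hc.gm' (tg (cs T ρ M) F)).sub (h.nz ρ b (q + 1))
  rw [gm_sub'] at h1
  have e : gm (tg (cs T ρ M) F) c - gm (tg (cs T ρ M) F) (dT (cs (rT T F) ρ M) b) -
      (dT (cs T ρ M) (gm (tg (cs T ρ M) F) b) - gm (tg (cs T ρ M) F) (dT (cs (rT T F) ρ M) b)) =
      gm (tg (cs T ρ M) F) c - dT (cs T ρ M) (gm (tg (cs T ρ M) F) b) := by abel
  rwa [e] at h1

end aux

/-- finitely valued cochains over a flat module: the equational criterion -/
theorem fin_factor (F : Ω → Ω) (hF : (range F).Finite) (ρ : G →* Matrix (Fin n) (Fin n) A)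
    (M : Type*) [AddCommGroup M] [Module A M] [Module.Flat A M] (q : ℕ) (c : List Ω → (Fin n → M)) :
    ∃ (k : ℕ) (C : Fin k → List Ω → (Fin n → A)) (y : Fin k → M),
      (∀ l : List Ω, l.length = q + 1 → pb F c l = ∑ i, sv n (y i) (C i l)) ∧
      (∀ l : List Ω, l.length = q + 2 → dT (cs (rT T F) ρ M) (pb F c) l = 0 →
        ∀ i, dT (cs (rT T F) ρ A) (C i) l = 0) ∧
      (∀ l : List Ω, l.length = q + 1 → pb F c l = 0 → ∀ i, C i l = 0) := by
  classical
  have : Fintype (range F) := hF.fintype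
  let X := range F
  let F' : Ω → X := fun x => ⟨F x, mem_range_self x⟩
  let J := List.Vector X (q + 1) × Fin n
  let N := J →₀ A
  let m : J → M := fun p => c (p.1.1.map Subtype.val) p.2
  let x : N →ₗ[A] M := Finsupp.linearCombination A m
  let ch : List X → (Fin n → N) := fun l i =>
    if h : l.length = q + 1 then Finsupp.single (⟨l, h⟩, i) 1 else 0
  have hx : ∀ l : List X, l.length = q + 1 → x.compLeft (Fin n) (ch l) = c (l.map Subtype.val) := by
    intro l hl
    funext i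
    show x (ch l i) = _
    have e : ch l i = Finsupp.single (⟨l, hl⟩, i) 1 := dif_pos hl
    rw [e]
    show Finsupp.linearCombination A m (Finsupp.single (⟨l, hl⟩, i) 1) = _
    rw [Finsupp.linearCombination_single, one_smul]
  let TX : X → X → G := fun x y => T x.1 y.1
  let R : Set N := range (fun p : List.Vector X (q + 2) × Fin n => dT (cs TX ρ N) ch p.1.1 p.2) ∪
    range (fun p : J => ch p.1.1 p.2)
  have hR : R.Finite := (finite_range _).union (finite_range _)
  let K : Submodule A N := Submodule.span A (R ∩ {r | x r = 0})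
  have : Module.Finite A K := Module.Finite.span_of_finite A (hR.subset inter_subset_left)
  have hK : x ∘ₗ K.subtype = 0 := by
    have : K ≤ LinearMap.ker x := Submodule.span_le.2 (fun r hr => hr.2)
    apply LinearMap.ext
    intro r
    exact this r.2
  obtain ⟨k, a, y, hya, haf⟩ := Module.Flat.exists_factorization_of_comp_eq_zero_of_free
    (R := A) (M := M) (K := K) (N := J →₀ A) (f := K.subtype) (x := x) hK
  have ha : ∀ r ∈ R, x r = 0 → a r = 0 := fun r hr hxr =>
    congrArg (fun f => f ⟨r, Submodule.subset_span ⟨hr, hxr⟩⟩) haf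
  have hmap : ∀ l : List Ω, (l.map F').map Subtype.val = l.map F := by
    intro l; rw [List.map_map]; rfl
  -- coordinate maps
  let p : Fin k → (N →ₗ[A] A) := fun i => (Finsupp.lapply i) ∘ₗ a
  refine ⟨k, fun i l => (p i).compLeft (Fin n) (ch (l.map F')), fun i => y (Finsupp.single i 1), ?_, ?_, ?_⟩
  · intro l hl
    have h1 : pb F c l = x.compLeft (Fin n) (ch (l.map F')) := by
      rw [hx _ (by simpa using hl), hmap]; rfl
    rw [h1]
    funext j
    rw [Finset.sum_apply]
    simp only [sv_apply]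
    show x (ch (l.map F') j) = _
    rw [hya, LinearMap.comp_apply]
    have h2 : a (ch (l.map F') j) = ∑ i, Finsupp.single i (a (ch (l.map F') j) i) := by
      ext i
      simp
    conv_lhs => rw [h2]
    rw [map_sum]
    refine Finset.sum_congr rfl fun i _ => ?_
    rw [← mul_one (a (ch (l.map F') j) i), ← smul_eq_mul, ← Finsupp.smul_single, map_smul]
    simp [p]
  · intro l hl h i
    have e1 : dT (cs (rT T F) ρ M) (pb F c) l =
        x.compLeft (Fin n) (dT (cs TX ρ N) ch (l.map F')) := by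
      rw [dT_congr (cs (rT T F) ρ M) (c := cm (x.compLeft (Fin n)) (pb F' ch)) l, dT_cm (T := cs (rT T F) ρ N)]
      · show x.compLeft (Fin n) (dT (pT F' (cs TX ρ N)) (pb F' ch) l) = _
        rw [dT_pb]; rfl
      · intro x' y'; exact cs_compLeft _ ρ x' y'
      · intro l' hl' _
        show _ = x.compLeft (Fin n) (ch (l'.map F'))
        rw [hx _ (by rw [List.length_map]; omega), hmap]; rfl
    have e2 : dT (cs (rT T F) ρ A) (fun l => (p i).compLeft (Fin n) (ch (l.map F'))) l =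
        (p i).compLeft (Fin n) (dT (cs TX ρ N) ch (l.map F')) := by
      show dT (cs (rT T F) ρ A) (cm ((p i).compLeft (Fin n)) (pb F' ch)) l = _
      rw [dT_cm (T := cs (rT T F) ρ N)]
      · show (p i).compLeft (Fin n) (dT (pT F' (cs TX ρ N)) (pb F' ch) l) = _
        rw [dT_pb]; rfl
      · intro x' y'; exact cs_compLeft _ ρ x' y'
    rw [e1] at h
    rw [e2]
    funext j
    have h3 : x (dT (cs TX ρ N) ch (l.map F') j) = 0 := congrFun h j
    have h4 := ha _ (Or.inl ⟨(⟨l.map F', by simpa using hl⟩, j), rfl⟩) h3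
    show a (dT (cs TX ρ N) ch (l.map F') j) i = 0
    rw [h4]; rfl
  · intro l hl h i
    have h1 : pb F c l = x.compLeft (Fin n) (ch (l.map F')) := by
      rw [hx _ (by simpa using hl), hmap]; rfl
    rw [h1] at h
    funext j
    have h3 : x (ch (l.map F') j) = 0 := congrFun h j
    have h4 := ha _ (Or.inr ⟨(⟨l.map F', by simpa using hl⟩, j), rfl⟩) h3
    show a (ch (l.map F') j) i = 0
    rw [h4]; rfl

/-- (N2) flat base change: if `s` kills the cohomology with coefficients in `A^n` and acts bijectively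
on the flat module `M` then the cohomology with coefficients in `M^n` vanishes -/
theorem flat_HV [ProperSpace Ω] (hS : IsCompact S) (c1 : IsClosed S') (h1 : S' ⊆ S) (hT : GFlat T S)
    (ρ : G →* Matrix (Fin n) (Fin n) A) (M : Type*) [AddCommGroup M] [Module A M] [Module.Flat A M]
    (s : A) (hs : Function.Bijective (fun m : M => s • m)) (q : ℕ)
    (h : KV (cs T ρ A) S S' q s) : HV (cs T ρ M) S S' q := by
  classical
  intro c hc
  have hS' : IsCompact S' := hS.of_isClosed_subset c1 h1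
  obtain ⟨ε₁, he1, hr1⟩ := rounding hS c1 h1 (cs_flat hT ρ) hc
  obtain ⟨ε₂, he2, hr2⟩ := hT.round hS
  obtain ⟨ε₃, he3, hr3⟩ := hc.1.round hS'
  obtain ⟨ε₄, he4, hr4⟩ := hc.2.round hS
  obtain ⟨F, hFf, hF1, hF2⟩ := exists_round hS c1 h1 (ε := min (min ε₁ ε₂) (min ε₃ ε₄)) (by positivity)
  have hRd : Rd S (min (min ε₁ ε₂) (min ε₃ ε₄)) F := fun a ha => by
    obtain ⟨δ, hδ, h⟩ := hF1 a ha
    exact ⟨δ, hδ, fun x hx => (h x hx).1⟩
  have hRd1 : Rd S ε₂ F := hRd.mono ((min_le_left _ _).trans (min_le_right _ _))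
  have hRd3 : Rd S' ε₃ F := (hRd.mono ((min_le_right _ _).trans (min_le_left _ _))).sub h1
  have hRd4 : Rd S ε₄ F := hRd.mono ((min_le_right _ _).trans (min_le_right _ _))
  obtain ⟨hB, -⟩ := hr1 F (fun a ha => by
    obtain ⟨δ, hδ, h⟩ := hF1 a ha
    exact ⟨δ, hδ, fun x hx => ⟨(h x hx).1.trans_le ((min_le_left _ _).trans (min_le_left _ _)), (h x hx).2⟩⟩) hF2
  have hRG := hr2 F hRd1
  have hz1 := hr3 F hRd3
  have hz2 := hr4 F hRd4
  rw [← dT_pb, pT_cs] at hz2
  obtain ⟨k, C, y, hC1, hC2, hC3⟩ := fin_factor (T := T) F hFf ρ M q c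
  have hCZ : ∀ i, C i ∈ Zc (cs (rT T F) ρ A) S S' q := by
    intro i
    constructor
    · intro a ha
      obtain ⟨e, he, h⟩ := hz1 a ha
      exact ⟨e, he, fun l hl hx => hC3 l hl (h l hl hx) i⟩
    · intro a ha
      obtain ⟨e, he, h⟩ := hz2 a ha
      exact ⟨e, he, fun l hl hx => hC2 l hl (h l hl hx) i⟩
  -- `s • c' ∈ Bc`
  have hsc : s • gm (tg (cs T ρ M) F) (pb F c) ∈ Bc (cs T ρ M) S S' q := by
    have h2 : ∑ i, cm (sv n (y i)) (s • gm (tg (cs T ρ A) F) (C i)) ∈ Bc (cs T ρ M) S S' q :=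
      Submodule.sum_mem _ fun i _ => cm_mem_Bc _ (fun x z => cs_sv (y i) ρ x z) (h _ (hRG.mem_Zc ρ (hCZ i)))
    obtain ⟨b, hb, hb'⟩ := h2
    refine ⟨b, hb, fun a ha => ?_⟩
    obtain ⟨e, he, h3⟩ := hb' a ha
    refine ⟨e, he, fun l hl hx => ?_⟩
    rw [← h3 l hl hx, Pi.sub_apply, Pi.sub_apply]
    congr 1
    rw [Finset.sum_apply, Pi.smul_apply]
    cases l with
    | nil => simp at hl
    | cons z l =>
      rw [gm_cons, hC1 _ hl, map_sum, Finset.smul_sum]
      refine Finset.sum_congr rfl fun i _ => ?_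
      show s • (tg (cs T ρ M) F z ∘ₗ sv n (y i)) (C i (z :: l)) =
        sv n (y i) (s • tg (cs T ρ A) F z (C i (z :: l)))
      rw [map_smul]
      congr 1
      have := cs_sv (T := T) (y i) ρ z (F z)
      exact congrArg (fun f => f (C i (z :: l))) this
  -- divide by `s`
  have hc' : gm (tg (cs T ρ M) F) (pb F c) ∈ Bc (cs T ρ M) S S' q := by
    let e : M ≃ₗ[A] M := LinearEquiv.ofBijective (LinearMap.lsmul A M s) hs
    have h2 := cm_mem_Bc ((e.symm : M →ₗ[A] M).compLeft (Fin n)) (fun x z => cs_compLeft _ ρ x z) hsc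
    have h3 : cm ((e.symm : M →ₗ[A] M).compLeft (Fin n)) (s • gm (tg (cs T ρ M) F) (pb F c)) =
        gm (tg (cs T ρ M) F) (pb F c) := by
      funext l j
      show e.symm (s • (gm (tg (cs T ρ M) F) (pb F c) l j)) = _
      exact e.symm_apply_apply _
    rwa [h3] at h2
  have := (Bc (cs T ρ M) S S' q).add_mem hB hc'
  rwa [sub_add_cancel] at this

/-- (N3) torsion: if the cohomology over the fraction field vanishes then every class over the
domain `A` is torsion -/
theorem torsion_of_frac [ProperSpace Ω] [IsDomain A] {K : Type*} [Field K] [Algebra A K] [IsFractionRing A K]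
    (hS : IsCompact S) (c1 : IsClosed S') (h1 : S' ⊆ S) (hT : GFlat T S)
    (ρ : G →* Matrix (Fin n) (Fin n) A) (q : ℕ) (h : HV (cs T ρ K) S S' q) {c : List Ω → (Fin n → A)}
    (hc : c ∈ Zc (cs T ρ A) S S' q) : ∃ s : A, s ≠ 0 ∧ s • c ∈ Bc (cs T ρ A) S S' q := by
  classical
  have hS' : IsCompact S' := hS.of_isClosed_subset c1 h1
  let ι : A →ₗ[A] K := Algebra.linearMap A K
  have hι : Function.Injective ι := IsFractionRing.injective A K
  have hcK : cm (ι.compLeft (Fin n)) c ∈ Zc (cs T ρ K) S S' q :=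
    cm_mem_Zc _ (fun x z => cs_compLeft _ ρ x z) hc
  obtain ⟨b, hb, hb'⟩ := h hcK
  obtain ⟨ε₁, he1, hr1⟩ := rounding hS c1 h1 (cs_flat hT ρ) hc
  obtain ⟨ε₂, he2, hr2⟩ := hT.round hS
  obtain ⟨ε₃, he3, hr3⟩ := hb.round hS'
  obtain ⟨ε₄, he4, hr4⟩ := hb'.round hS
  obtain ⟨F, hFf, hF1, hF2⟩ := exists_round hS c1 h1 (ε := min (min ε₁ ε₂) (min ε₃ ε₄)) (by positivity)
  have hRd : Rd S (min (min ε₁ ε₂) (min ε₃ ε₄)) F := fun a ha => by
    obtain ⟨δ, hδ, h⟩ := hF1 a ha
    exact ⟨δ, hδ, fun x hx => (h x hx).1⟩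
  have hRd1 : Rd S ε₂ F := hRd.mono ((min_le_left _ _).trans (min_le_right _ _))
  have hRd3 : Rd S' ε₃ F := (hRd.mono ((min_le_right _ _).trans (min_le_left _ _))).sub h1
  have hRd4 : Rd S ε₄ F := hRd.mono ((min_le_right _ _).trans (min_le_right _ _))
  obtain ⟨hB, -⟩ := hr1 F (fun a ha => by
    obtain ⟨δ, hδ, h⟩ := hF1 a ha
    exact ⟨δ, hδ, fun x hx => ⟨(h x hx).1.trans_le ((min_le_left _ _).trans (min_le_left _ _)), (h x hx).2⟩⟩) hF2
  have hRG := hr2 F hRd1
  have hz1 := hr3 F hRd3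
  have hz2 := hr4 F hRd4
  rw [pb_sub', ← dT_pb, pT_cs] at hz2
  -- common denominator of the values of `b` on lists of length `q` in `range F`
  have : Fintype (range F) := hFf.fintype
  obtain ⟨s, hs⟩ := IsLocalization.exist_integer_multiples_of_finite (nonZeroDivisors A)
    (fun p : List.Vector (range F) q × Fin n => b (p.1.1.map Subtype.val) p.2)
  let F' : Ω → range F := fun x => ⟨F x, mem_range_self x⟩
  have hmap : ∀ l : List Ω, (l.map F').map Subtype.val = l.map F := by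
    intro l; rw [List.map_map]; rfl
  have hs' : ∀ l : List Ω, l.length = q → ∀ i, ∃ a : A, ι a = (s : A) • (pb F b l i) := by
    intro l hl i
    obtain ⟨a, ha⟩ := hs (⟨l.map F', by simpa using hl⟩, i)
    refine ⟨a, ?_⟩
    rw [show ι a = algebraMap A K a from rfl, ha]
    show (s : A) • b ((l.map F').map Subtype.val) i = _
    rw [hmap]; rfl
  let b' : List Ω → (Fin n → A) := fun l i => if hl : l.length = q then (hs' l hl i).choose else 0
  have hb'' : ∀ l : List Ω, l.length = q → ι.compLeft (Fin n) (b' l) = ((s : A) • pb F b) l := by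
    intro l hl
    funext i
    have e : b' l i = (hs' l hl i).choose := dif_pos hl
    show ι (b' l i) = (s : A) • pb F b l i
    rw [e]; exact (hs' l hl i).choose_spec
  have hιn : Function.Injective (ι.compLeft (Fin n)) := by
    intro v w hvw
    funext i
    exact hι (congrFun hvw i)
  refine ⟨(s : A), nonZeroDivisors.ne_zero s.2, ?_⟩
  have key : (s : A) • pb F c ∈ Bc (cs (rT T F) ρ A) S S' q := by
    refine ⟨b', ?_, ?_⟩
    · intro a ha
      obtain ⟨e, he, h⟩ := hz1 a ha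
      refine ⟨e, he, fun l hl hx => hιn ?_⟩
      rw [hb'' l hl, map_zero, Pi.smul_apply, h l hl hx, smul_zero]
    · intro a ha
      obtain ⟨e, he, h⟩ := hz2 a ha
      refine ⟨e, he, fun l hl hx => hιn ?_⟩
      have h5 := h l hl hx
      rw [Pi.sub_apply, sub_eq_zero] at h5
      rw [map_zero, Pi.sub_apply, map_sub, sub_eq_zero]
      have e1 : ι.compLeft (Fin n) (dT (cs (rT T F) ρ A) b' l) =
          dT (cs (rT T F) ρ K) (cm (ι.compLeft (Fin n)) b') l := by
        rw [dT_cm (T := cs (rT T F) ρ A)]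
        · rfl
        · intro x z; exact cs_compLeft _ ρ x z
      have e2 : dT (cs (rT T F) ρ K) (cm (ι.compLeft (Fin n)) b') l =
          dT (cs (rT T F) ρ K) ((s : A) • pb F b) l := by
        apply dT_congr
        intro l' hl' _
        exact hb'' l' (by omega)
      rw [e1, e2, dT_smul]
      show ι.compLeft (Fin n) ((s : A) • pb F c l) = (s : A) • dT (cs (rT T F) ρ K) (pb F b) l
      rw [← h5, map_smul]
      rfl
  have h6 := hRG.mem_Bc ρ key
  rw [gm_smul'] at h6
  have h7 := (Bc (cs T ρ A) S S' q).add_mem ((Bc (cs T ρ A) S S' q).smul_mem (s : A) hB) h6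
  rwa [smul_sub, sub_add_cancel] at h7


/-- (N3') with finite generation one `s` works for all classes -/
theorem KV_of_frac {E : Type*} [NormedAddCommGroup E] [NormedSpace ℝ E] [FiniteDimensional ℝ E]
    {T : E → E → G} {S S' : Set E} [IsDomain A] {K : Type*} [Field K] [Algebra A K] [IsFractionRing A K]
    (hS : IsCompact S) (c1 : IsClosed S') (h1 : S' ⊆ S) (hT : GFlat T S)
    (ρ : G →* Matrix (Fin n) (Fin n) A) (q : ℕ) (h : HV (cs T ρ K) S S' q)
    (hfg : FG (cs T ρ A) S S' q) : ∃ s : A, s ≠ 0 ∧ KV (cs T ρ A) S S' q s := by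
  classical
  obtain ⟨Z, hZf, hZ, hspan⟩ := hfg
  have hs : ∀ z : Z, ∃ s : A, s ≠ 0 ∧ s • (z : List E → (Fin n → A)) ∈ Bc (cs T ρ A) S S' q := fun z =>
    torsion_of_frac hS c1 h1 hT ρ q h (hZ z.2)
  choose s hs0 hs1 using hs
  have : Fintype Z := hZf.fintype
  refine ⟨∏ z, s z, Finset.prod_ne_zero_iff.2 fun z _ => hs0 z, fun c hc => ?_⟩
  have h2 : Submodule.span A Z ⊔ Bc (cs T ρ A) S S' q ≤
      (Bc (cs T ρ A) S S' q).comap (LinearMap.lsmul A (List E → (Fin n → A)) (∏ z, s z)) := by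
    refine sup_le (Submodule.span_le.2 ?_) ?_
    · intro z hz
      show (∏ z, s z) • z ∈ Bc (cs T ρ A) S S' q
      rw [← Finset.prod_erase_mul _ _ (Finset.mem_univ (⟨z, hz⟩ : Z)), mul_smul]
      exact Submodule.smul_mem _ _ (hs1 ⟨z, hz⟩)
    · intro z hz
      exact Submodule.smul_mem _ _ hz
  exact h2 (hspan hc)


/-- (N1) Nakayama: `π` a nonzerodivisor of `A`; suppose the cohomology with coefficients in
`(A/π)^n` is killed by the class of `s₀`. Then over `A` it is killed by some `s = s₀^N + π a`. -/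
theorem nakayama (hT : GFlat T S) (h1 : S' ⊆ S) (ρ : G →* Matrix (Fin n) (Fin n) A) (π s₀ : A)
    (hπ : ∀ a : A, π * a = 0 → a = 0) (q : ℕ)
    (hfg : Module.Finite A (H (cs T ρ A) S S' q))
    (h : ∀ c ∈ Zc (cs T ρ (A ⧸ Ideal.span {π})) S S' q, s₀ • c ∈ Bc (cs T ρ (A ⧸ Ideal.span {π})) S S' q) :
    ∃ (N : ℕ) (a : A), KV (cs T ρ A) S S' q (s₀ ^ N + π * a) := by
  classical
  let I : Ideal A := Ideal.span {π}
  let pr : A →ₗ[A] (A ⧸ I) := I.mkQ
  have hpr : Function.Surjective (pr.compLeft (Fin n)) := by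
    intro v
    choose w hw using fun i => I.mkQ_surjective (v i)
    exact ⟨w, funext hw⟩
  have hπn : ∀ v : Fin n → A, π • v = 0 → v = 0 := by
    intro v hv
    funext i
    exact hπ _ (congrFun hv i)
  -- division step
  have step : ∀ c ∈ Zc (cs T ρ A) S S' q, ∃ c' ∈ Zc (cs T ρ A) S S' q,
      s₀ • c - π • c' ∈ Bc (cs T ρ A) S S' q := by
    intro c hc
    obtain ⟨b, hb, hb'⟩ := h _ (cm_mem_Zc (pr.compLeft (Fin n)) (fun x z => cs_compLeft _ ρ x z) hc)
    -- lift `b`
    let b₁ : List Ω → (Fin n → A) := fun l => if b l = 0 then 0 else (hpr (b l)).choose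
    have hb₁ : cm (pr.compLeft (Fin n)) b₁ = b := by
      funext l
      show pr.compLeft (Fin n) (b₁ l) = b l
      by_cases h0 : b l = 0
      · simp only [b₁, if_pos h0, map_zero, h0]
      · simp only [b₁, if_neg h0]
        exact (hpr (b l)).choose_spec
    have hb₁z : NZ S' q b₁ := by
      intro a ha
      obtain ⟨e, he, h⟩ := hb a ha
      exact ⟨e, he, fun l hl hx => if_pos (h l hl hx)⟩
    -- the difference is divisible by `π`
    let g : List Ω → (Fin n → A) := s₀ • c - dT (cs T ρ A) b₁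
    have hg : NZ S (q + 1) (cm (pr.compLeft (Fin n)) g) := by
      have e : cm (pr.compLeft (Fin n)) g = s₀ • cm (pr.compLeft (Fin n)) c - dT (cs T ρ (A ⧸ I)) b := by
        rw [← hb₁, dT_cm (T := cs T ρ A)]
        · funext l
          show pr.compLeft (Fin n) (s₀ • c l - dT (cs T ρ A) b₁ l) = _
          rw [map_sub, map_smul]; rfl
        · intro x z; exact cs_compLeft _ ρ x z
      rw [e]; exact hb'
    have hdiv : ∀ v : Fin n → A, pr.compLeft (Fin n) v = 0 → ∃ w : Fin n → A, π • w = v := by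
      intro v hv
      have : ∀ i, ∃ w : A, π * w = v i := by
        intro i
        have h1 : v i ∈ I := (Submodule.Quotient.mk_eq_zero I).1 (congrFun hv i)
        obtain ⟨w, hw⟩ := Ideal.mem_span_singleton'.1 h1
        exact ⟨w, by rw [mul_comm]; exact hw⟩
      choose w hw using this
      exact ⟨w, funext hw⟩
    let c' : List Ω → (Fin n → A) := fun l =>
      if hl : pr.compLeft (Fin n) (g l) = 0 then (hdiv (g l) hl).choose else 0
    have hc' : ∀ l, pr.compLeft (Fin n) (g l) = 0 → π • c' l = g l := by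
      intro l hl
      simp only [c', dif_pos hl]
      exact (hdiv (g l) hl).choose_spec
    have hgc : NZ S (q + 1) (g - π • c') := by
      intro a ha
      obtain ⟨e, he, h⟩ := hg a ha
      refine ⟨e, he, fun l hl hx => ?_⟩
      rw [Pi.sub_apply, Pi.smul_apply, hc' l (h l hl hx), sub_self]
    have hgS' : NZ S' (q + 1) g := (hc.1.smul s₀).sub (hb₁z.dT _)
    have hgd : NZ S (q + 2) (dT (cs T ρ A) g) := by
      show NZ S (q + 2) (dT (cs T ρ A) (s₀ • c - dT (cs T ρ A) b₁))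
      rw [dT_sub, dT_smul]
      exact (hc.2.smul s₀).sub (nz_dT_dT (cs_flat hT ρ) b₁ _)
    have hz : ∀ {R : Set Ω} {m : ℕ} {f : List Ω → (Fin n → A)}, NZ R m (π • f) → NZ R m f := by
      intro R m f hf a ha
      obtain ⟨e, he, h⟩ := hf a ha
      exact ⟨e, he, fun l hl hx => hπn _ (h l hl hx)⟩
    refine ⟨c', ⟨hz ?_, hz ?_⟩, b₁, hb₁z, ?_⟩
    · have h3 := hgS'.sub (hgc.mono h1)
      rwa [sub_sub_cancel] at h3
    · have h3 := hgd.sub (hgc.dT (cs T ρ A))
      have e : dT (cs T ρ A) g - dT (cs T ρ A) (g - π • c') = π • dT (cs T ρ A) c' := by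
        rw [← dT_sub, sub_sub_cancel, dT_smul]
      rwa [e] at h3
    · have e : s₀ • c - π • c' - dT (cs T ρ A) b₁ = g - π • c' := by
        show _ = s₀ • c - dT (cs T ρ A) b₁ - π • c'
        abel
      rw [e]; exact hgc
  -- Cayley-Hamilton
  let f : Module.End A (H (cs T ρ A) S S' q) := LinearMap.lsmul A _ s₀
  have hf : LinearMap.range f ≤ I • (⊤ : Submodule A (H (cs T ρ A) S S' q)) := by
    rintro _ ⟨z, rfl⟩
    obtain ⟨c, rfl⟩ := H.mk_surjective q z
    obtain ⟨c', hc', hcc⟩ := step c.1 c.2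
    have e : f (H.mk (cs T ρ A) S S' q c) = π • H.mk (cs T ρ A) S S' q ⟨c', hc'⟩ := by
      show s₀ • H.mk (cs T ρ A) S S' q c = _
      rw [← sub_eq_zero, ← map_smul, ← map_smul, ← map_sub, H.mk_eq_zero]
      exact hcc
    rw [e]
    exact Submodule.smul_mem_smul (Ideal.mem_span_singleton_self π) Submodule.mem_top
  obtain ⟨p, hp1, -, hp2, hp3⟩ :=
    LinearMap.exists_monic_and_natDegree_eq_and_coeff_mem_pow_and_aeval_eq_zero A f I hf
  have hev : ∃ a : A, p.eval s₀ = s₀ ^ p.natDegree + π * a := by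
    rw [Polynomial.eval_eq_sum_range, Finset.sum_range_succ, hp1.coeff_natDegree, one_mul]
    have : ∑ x ∈ Finset.range p.natDegree, p.coeff x * s₀ ^ x ∈ I := by
      refine Ideal.sum_mem _ fun x hx => I.mul_mem_right _ ?_
      have hx' := Finset.mem_range.1 hx
      exact Ideal.pow_le_self (by omega) (hp2 x)
    obtain ⟨a, ha⟩ := Ideal.mem_span_singleton'.1 this
    exact ⟨a, by rw [← ha]; ring⟩
  obtain ⟨a, ha⟩ := hev
  refine ⟨p.natDegree, a, fun c hc => ?_⟩
  rw [← ha]
  have h4 : (Polynomial.aeval f p) (H.mk (cs T ρ A) S S' q ⟨c, hc⟩) = 0 := by rw [hp3]; rfl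
  have h5 : Polynomial.aeval f p = LinearMap.lsmul A (H (cs T ρ A) S S' q) (p.eval s₀) := by
    have : f = algebraMap A (Module.End A (H (cs T ρ A) S S' q)) s₀ := rfl
    rw [this, Polynomial.aeval_algebraMap_apply]
    rfl
  rw [h5] at h4
  have h6 : H.mk (cs T ρ A) S S' q (p.eval s₀ • ⟨c, hc⟩) = 0 := by
    rw [map_smul]; exact h4
  exact (H.mk_eq_zero _).1 h6


/-- change of the ring of matrix entries: `ρ' = φ ∘ ρ`, `M` an `A'`-module -/
theorem HV_cs_map {A' : Type*} [CommRing A'] (φ : A →+* A') (ρ : G →* Matrix (Fin n) (Fin n) A)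
    (ρ' : G →* Matrix (Fin n) (Fin n) A') (hρ : ∀ g, ρ' g = (ρ g).map φ) (M : Type*)
    [AddCommGroup M] [Module A M] [Module A' M] (hM : ∀ (a : A) (m : M), φ a • m = a • m) (q : ℕ) :
    HV (cs T ρ M) S S' q ↔ HV (cs T ρ' M) S S' q := by
  apply HV_congr_scalar
  intro x y v
  funext i
  show ∑ j, ρ (T x y) i j • v j = ∑ j, ρ' (T x y) i j • v j
  refine Finset.sum_congr rfl fun j _ => ?_
  rw [hρ, Matrix.map_apply, hM]

/-- a direct summand (in particular a subfield of a field, for matrices over the subfield) -/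
theorem HV_cs_retract (ρ : G →* Matrix (Fin n) (Fin n) A) (M M' : Type*)
    [AddCommGroup M] [Module A M] [AddCommGroup M'] [Module A M'] (i : M →ₗ[A] M') (r : M' →ₗ[A] M)
    (hr : ∀ m, r (i m) = m) (q : ℕ) (h : HV (cs T ρ M') S S' q) : HV (cs T ρ M) S S' q := by
  intro c hc
  have h2 := cm_mem_Bc (r.compLeft (Fin n)) (fun x z => cs_compLeft r ρ x z)
    (h (cm_mem_Zc (i.compLeft (Fin n)) (fun x z => cs_compLeft i ρ x z) hc))
  have e : cm (r.compLeft (Fin n)) (cm (i.compLeft (Fin n)) c) = c := by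
    funext l j
    exact hr _
  rwa [e] at h2

/-- isomorphic modules -/
theorem HV_cs_congr (ρ : G →* Matrix (Fin n) (Fin n) A) (M M' : Type*)
    [AddCommGroup M] [Module A M] [AddCommGroup M'] [Module A M'] (e : M ≃ₗ[A] M') (q : ℕ) :
    HV (cs T ρ M) S S' q ↔ HV (cs T ρ M') S S' q :=
  ⟨fun h => HV_cs_retract ρ M' M (e.symm : M' →ₗ[A] M) (e : M →ₗ[A] M') (fun m => e.apply_symm_apply m) q h,
   fun h => HV_cs_retract ρ M M' (e : M →ₗ[A] M') (e.symm : M' →ₗ[A] M) (fun m => e.symm_apply_apply m) q h⟩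


/-- conjugate representations -/
theorem HV_cs_conj (ρ ρ' : G →* Matrix (Fin n) (Fin n) A) (M : Type*) [AddCommGroup M] [Module A M]
    (P Q : Matrix (Fin n) (Fin n) A) (h1 : P * Q = 1) (h2 : Q * P = 1) (h : ∀ g, ρ' g = P * ρ g * Q)
    (hS : S' ⊆ S) (q : ℕ) : HV (cs T ρ M) S S' q ↔ HV (cs T ρ' M) S S' q := by
  have hP : ∀ x y, cs T ρ' M x y ∘ₗ matAct M P = matAct M P ∘ₗ cs T ρ M x y := by
    intro x y
    show matAct M (ρ' (T x y)) ∘ₗ matAct M P = matAct M P ∘ₗ matAct M (ρ (T x y))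
    rw [← matAct_mul, ← matAct_mul, h, mul_assoc, h2, mul_one]
  have hQ : ∀ x y, cs T ρ M x y ∘ₗ matAct M Q = matAct M Q ∘ₗ cs T ρ' M x y := by
    intro x y
    show matAct M (ρ (T x y)) ∘ₗ matAct M Q = matAct M Q ∘ₗ matAct M (ρ' (T x y))
    rw [← matAct_mul, ← matAct_mul, h, ← mul_assoc, ← mul_assoc, h2, one_mul]
  have hPQ : matAct M P ∘ₗ matAct M Q = LinearMap.id := by rw [← matAct_mul, h1, matAct_one]
  have hQP : matAct M Q ∘ₗ matAct M P = LinearMap.id := by rw [← matAct_mul, h2, matAct_one]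
  constructor
  · intro hv c hc
    have h3 := cm_mem_Bc (matAct M P) hP (hv (cm_mem_Zc (matAct M Q) hQ hc))
    have e : cm (matAct M P) (cm (matAct M Q) c) = c := by
      funext l
      exact congrArg (fun f => f (c l)) hPQ
    rwa [e] at h3
  · intro hv c hc
    have h3 := cm_mem_Bc (matAct M Q) hQ (hv (cm_mem_Zc (matAct M P) hP hc))
    have e : cm (matAct M Q) (cm (matAct M P) c) = c := by
      funext l
      exact congrArg (fun f => f (c l)) hQP
    rwa [e] at h3

end Pool.Agent.Helper60.AS
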