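import Pool.Agent.Helper60.AS.Ball

/-! Comparison of the compactly supported cohomology of convex bodies. -/

set_option autoImplicit false

namespace Pool.Agent.Helper60.AS

open Set Topology

namespace Body

section gen

variable {Ω k V : Type*} [PseudoMetricSpace Ω] [CommRing k] [AddCommGroup V] [Module k V]
variable {T : Ω → Ω → (V →ₗ[k] V)} {S S₁ S₂ S' S'' : Set Ω} {q : ℕ}

/-- degree zero coboundaries vanish -/
theorem mem_Bc_zero {c : List Ω → V} : c ∈ Bc T S S' 0 ↔ NZ S 1 c := by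
  constructor
  · rintro ⟨b, _, h⟩ a ha
    obtain ⟨e, he, h1⟩ := h a ha
    refine ⟨e, he, fun l hl hx => ?_⟩
    have h2 := h1 l (by simpa using hl) hx
    match l, hl with
    | [x], _ => simpa using h2
  · intro h
    exact ⟨0, NZ.zero, by rw [dT_zero, sub_zero]; exact h⟩

/-- coboundaries: the primitive may be any cochain vanishing near `S'` -/
theorem mem_Bc_succ {c : List Ω → V} : c ∈ Bc T S S' (q + 1) ↔
    ∃ b, NZ S' (q + 1) b ∧ NZ S (q + 2) (c - dT T b) := Iff.rfl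

theorem NZ.mem_Bc {c : List Ω → V} (h : NZ S (q + 1) c) : c ∈ Bc T S S' q :=
  ⟨0, NZ.zero, by rw [dT_zero, sub_zero]; exact h⟩

/-- excision for vanishing -/
theorem HV_excise (c1 : IsClosed S₁) (c2 : IsClosed S₂) (h : HV T S₁ (S₁ ∩ S₂) q) :
    HV T (S₁ ∪ S₂) S₂ q := by
  rintro c ⟨hc1, hc2⟩
  have hc : c ∈ Zc T S₁ (S₁ ∩ S₂) q := ⟨hc1.mono inter_subset_right, hc2.mono subset_union_left⟩
  cases q with
  | zero =>
    rw [mem_Bc_zero]
    exact (mem_Bc_zero.1 (h hc)).union hc1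
  | succ q =>
    obtain ⟨b, hb, hb'⟩ := h hc
    obtain ⟨b1, b2, rfl, h1, h2⟩ := NZ.inter_split c1 c2 (Nat.succ_pos q) hb
    refine ⟨b2, h2, NZ.union ?_ ?_⟩
    · have e : c - dT T b2 = (c - dT T (b1 + b2)) + dT T b1 := by rw [dT_add]; abel
      rw [e]
      exact hb'.add (h1.dT T)
    · exact hc1.sub (h2.dT T)

/-- in a triple: if the smaller pair `(S', S'')` is acyclic then relative classes can be moved -/
theorem move_surj (hT : Flat T S) (h : S' ⊆ S) (hv : HV T S' S'' q) {c : List Ω → V}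
    (hc : c ∈ Zc T S S'' q) : ∃ c' ∈ Zc T S S' q, c - c' ∈ Bc T S S'' q := by
  obtain ⟨b, hb, hb'⟩ := hv (⟨hc.1, hc.2.mono h⟩ : c ∈ Zc T S' S'' q)
  refine ⟨c - dT T b, ⟨hb', ?_⟩, ?_⟩
  · rw [dT_sub]
    exact hc.2.sub (nz_dT_dT hT b _)
  · refine ⟨b, hb, ?_⟩
    have e : c - (c - dT T b) - dT T b = 0 := by abel
    rw [e]
    exact NZ.zero

theorem move_inj (hT : Flat T S) (h : S' ⊆ S) (h' : S'' ⊆ S') (hv : ∀ q, HV T S' S'' q)
    {c : List Ω → V} (hc : NZ S' (q + 1) c) (hb : c ∈ Bc T S S'' q) : c ∈ Bc T S S' q := by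
  cases q with
  | zero => exact mem_Bc_zero.2 (mem_Bc_zero.1 hb)
  | succ q =>
    obtain ⟨b, hb, hb'⟩ := hb
    have hz : b ∈ Zc T S' S'' q := by
      refine ⟨hb, ?_⟩
      have e : dT T b = c - (c - dT T b) := by abel
      rw [e]
      exact hc.sub (hb'.mono h)
    obtain ⟨e, he, he'⟩ := hv q hz
    refine ⟨b - dT T e, he', ?_⟩
    have e2 : c - dT T (b - dT T e) = (c - dT T b) + dT T (dT T e) := by rw [dT_sub]; abel
    rw [e2]
    exact hb'.add (nz_dT_dT hT e _)

end gen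

section push

variable {E : Type*} [NormedAddCommGroup E] [NormedSpace ℝ E] [ProperSpace E]

/-- the gauge of `C` with respect to the point `p` -/
noncomputable def ga (C : Set E) (p x : E) : ℝ := gauge ((fun y => p + y) ⁻¹' C) (x - p)

variable {C C₁ C₂ : Set E} {p : E}

theorem ga_convex (hC : Convex ℝ C) : Convex ℝ ((fun y => p + y) ⁻¹' C) :=
  hC.translate_preimage_right p

theorem ga_nhds (hp : p ∈ interior C) : (fun y => p + y) ⁻¹' C ∈ 𝓝 (0 : E) := by
  apply (continuous_const.add continuous_id).continuousAt.preimage_mem_nhds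
  simpa using mem_interior_iff_mem_nhds.1 hp

theorem ga_le_one (hC : Convex ℝ C) (hc : IsClosed C) (hp : p ∈ interior C) {x : E} :
    ga C p x ≤ 1 ↔ x ∈ C := by
  have hcl : IsClosed ((fun y => p + y) ⁻¹' C) := hc.preimage (continuous_const.add continuous_id)
  rw [ga, gauge_le_one_iff_mem_closure (ga_convex hC) (ga_nhds hp), hcl.closure_eq]
  simp

theorem interior_pre : interior ((fun y => p + y) ⁻¹' C) = (fun y => p + y) ⁻¹' (interior C) :=
  ((Homeomorph.addLeft p).preimage_interior C).symm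

theorem ga_lt_one (hC : Convex ℝ C) (hp : p ∈ interior C) {x : E} :
    ga C p x < 1 ↔ x ∈ interior C := by
  rw [ga, gauge_lt_one_iff_mem_interior (ga_convex hC) (ga_nhds hp), interior_pre]
  simp

theorem ga_cont (hC : Convex ℝ C) (hp : p ∈ interior C) : Continuous (ga C p) :=
  (continuous_gauge (ga_convex hC) (ga_nhds hp)).comp (continuous_id.sub continuous_const)

theorem ga_pos (hc : IsCompact C) (hp : p ∈ interior C) {x : E} (hx : x ≠ p) : 0 < ga C p x := by
  rw [ga, gauge_pos (absorbent_nhds_zero (ga_nhds hp))]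
  · exact sub_ne_zero.2 hx
  · have hcc : IsCompact ((fun y => p + y) ⁻¹' C) := by
      have : (fun y => p + y) ⁻¹' C = (fun y => -p + y) '' C := by
        ext y
        simp only [mem_preimage, mem_image]
        constructor
        · intro h; exact ⟨p + y, h, by abel⟩
        · rintro ⟨z, hz, rfl⟩; simpa using hz
      rw [this]
      exact hc.image (continuous_const.add continuous_id)
    exact NormedSpace.isVonNBounded_of_isBounded ℝ hcc.isBounded

theorem ga_ray {x : E} {τ : ℝ} (hτ : 0 ≤ τ) : ga C p (p + τ • (x - p)) = τ * ga C p x := by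
  rw [ga, ga, add_sub_cancel_left, gauge_smul_of_nonneg hτ, smul_eq_mul]

/-- the region between two convex bodies can be pushed to the outer boundary -/
theorem ring_HV {k V : Type*} [CommRing k] [AddCommGroup V] [Module k V]
    {T : E → E → (V →ₗ[k] V)} (h1 : Convex ℝ C₁) (h2 : Convex ℝ C₂) (hc : IsCompact C₂)
    (hsub : C₁ ⊆ C₂) (hne : (interior C₁).Nonempty) (hT : Flat T C₂) (q : ℕ) :
    HV T (C₂ \ interior C₁) (C₂ \ interior C₂) q := by
  obtain ⟨p, hp⟩ := hne
  have hp2 : p ∈ interior C₂ := interior_mono hsub hp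
  set γ := ga C₂ p with hγ
  have hcomp : IsCompact (C₂ \ interior C₁) := hc.diff isOpen_interior
  have hsub' : C₂ \ interior C₂ ⊆ C₂ \ interior C₁ :=
    diff_subset_diff_right (interior_mono hsub)
  have hnp : ∀ x ∈ C₂ \ interior C₁, x ≠ p := by
    rintro x hx rfl
    exact hx.2 hp
  have hγpos : ∀ x ∈ C₂ \ interior C₁, 0 < γ x := fun x hx => ga_pos hc hp2 (hnp x hx)
  have hγle : ∀ x ∈ C₂ \ interior C₁, γ x ≤ 1 := fun x hx =>
    (ga_le_one h2 hc.isClosed hp2).2 hx.1
  -- the scaling factor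
  let τ : ℝ → E → ℝ := fun s x => 1 + s * ((γ x)⁻¹ - 1)
  have hτ1 : ∀ s ∈ Icc (0 : ℝ) 1, ∀ x ∈ C₂ \ interior C₁, 1 ≤ τ s x := by
    intro s hs x hx
    have h3 : 1 ≤ (γ x)⁻¹ := one_le_inv₀ (hγpos x hx) |>.2 (hγle x hx)
    have : 0 ≤ s * ((γ x)⁻¹ - 1) := mul_nonneg hs.1 (by linarith)
    show 1 ≤ 1 + s * ((γ x)⁻¹ - 1)
    linarith
  have hτγ : ∀ s, ∀ x ∈ C₂ \ interior C₁, τ s x * γ x = γ x + s * (1 - γ x) := by
    intro s x hx
    have := (hγpos x hx).ne'
    show (1 + s * ((γ x)⁻¹ - 1)) * γ x = γ x + s * (1 - γ x)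
    field_simp
  let K : ℝ → E → E := fun s x => p + τ s x • (x - p)
  have hKγ : ∀ s ∈ Icc (0 : ℝ) 1, ∀ x ∈ C₂ \ interior C₁, γ (K s x) = γ x + s * (1 - γ x) := by
    intro s hs x hx
    rw [← hτγ s x hx]
    exact ga_ray (by linarith [hτ1 s hs x hx])
  have hmaps : ∀ s ∈ Icc (0:ℝ) 1, MapsTo (K s) (C₂ \ interior C₁) (C₂ \ interior C₁) := by
    intro s hs x hx
    refine ⟨?_, ?_⟩
    · rw [← ga_le_one h2 hc.isClosed hp2, ← hγ, hKγ s hs x hx]
      have := hγle x hx
      nlinarith [hs.1, hs.2]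
    · intro hmem
      have h3 := hτ1 s hs x hx
      apply hx.2
      have hpos : 0 < τ s x := by linarith
      have e : x = (1 - (τ s x)⁻¹) • p + (τ s x)⁻¹ • K s x := by
        show x = (1 - (τ s x)⁻¹) • p + (τ s x)⁻¹ • (p + τ s x • (x - p))
        rw [smul_add, smul_smul, inv_mul_cancel₀ hpos.ne', one_smul, sub_smul, one_smul]
        abel
      rw [e]
      exact h1.interior hp hmem (by have := inv_le_one_of_one_le₀ h3; linarith)
        (inv_nonneg.2 hpos.le) (by ring)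
  have hbd : ∀ x ∈ C₂ \ interior C₂, γ x = 1 := by
    intro x hx
    refine le_antisymm (hγle x (hsub' hx)) ?_
    by_contra hlt
    exact hx.2 ((ga_lt_one h2 hp2).1 (not_le.1 hlt))
  refine push_HV hcomp (hc.isClosed.sdiff isOpen_interior) hsub' (hT.mono diff_subset) K ?_ ?_
    hmaps ?_ ?_ q
  · -- continuity
    have hγc : Continuous γ := ga_cont h2 hp2
    have c1 : ContinuousOn (fun z : ℝ × E => (γ z.2)⁻¹) (Icc 0 1 ×ˢ (C₂ \ interior C₁)) :=
      ContinuousOn.inv₀ (hγc.comp continuous_snd).continuousOn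
        fun z hz => (hγpos z.2 hz.2).ne'
    have c2 : ContinuousOn (fun z : ℝ × E => 1 + z.1 * ((γ z.2)⁻¹ - 1))
        (Icc 0 1 ×ˢ (C₂ \ interior C₁)) :=
      continuousOn_const.add (continuous_fst.continuousOn.mul (c1.sub continuousOn_const))
    exact continuousOn_const.add (c2.smul (continuous_snd.continuousOn.sub continuousOn_const))
  · intro x _
    show p + (1 + 0 * ((γ x)⁻¹ - 1)) • (x - p) = x
    simp
  · intro s _ x hx
    have h3 : K s x = x := by
      show p + (1 + s * ((γ x)⁻¹ - 1)) • (x - p) = x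
      rw [hbd x hx]
      simp
    rw [h3]
    exact hx
  · intro x hx
    have h3 := hKγ 1 ⟨zero_le_one, le_rfl⟩ x hx
    have h4 : γ (K 1 x) = 1 := by rw [h3]; ring
    refine ⟨(hmaps 1 ⟨zero_le_one, le_rfl⟩ hx).1, fun hmem => ?_⟩
    have := (ga_lt_one h2 hp2).2 hmem
    rw [← hγ, h4] at this
    exact lt_irrefl _ this

/-- the complements of the interiors of two convex bodies -/
theorem body_HV {k V : Type*} [CommRing k] [AddCommGroup V] [Module k V]
    {T : E → E → (V →ₗ[k] V)} (h1 : Convex ℝ C₁) (h2 : Convex ℝ C₂) (hc : IsCompact C₂)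
    (hsub : C₁ ⊆ C₂) (hne : (interior C₁).Nonempty) (hT : Flat T C₂) (q : ℕ) :
    HV T (interior C₁)ᶜ (interior C₂)ᶜ q := by
  have e1 : (C₂ \ interior C₁) ∪ (interior C₂)ᶜ = (interior C₁)ᶜ := by
    ext x
    simp only [mem_union, mem_sdiff, mem_compl_iff]
    constructor
    · rintro (h | h)
      · exact h.2
      · exact fun h' => h (interior_mono hsub h')
    · intro h
      by_cases hx : x ∈ C₂
      · exact Or.inl ⟨hx, h⟩
      · exact Or.inr fun h' => hx (interior_subset h')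
  have e2 : (C₂ \ interior C₁) ∩ (interior C₂)ᶜ = C₂ \ interior C₂ := by
    ext x
    simp only [mem_inter_iff, mem_sdiff, mem_compl_iff]
    constructor
    · rintro ⟨h, h'⟩
      exact ⟨h.1, h'⟩
    · rintro ⟨h, h'⟩
      exact ⟨⟨h, fun h'' => h' (interior_mono hsub h'')⟩, h'⟩
  rw [← e1]
  apply HV_excise (hc.isClosed.sdiff isOpen_interior) isOpen_interior.isClosed_compl
  rw [e2]
  exact ring_HV h1 h2 hc hsub hne hT q

end push

section four

variable {k : Type*} [Field k] {C C₁ C₂ : Set (ℂ × ℂ)} {q : ℕ}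

/-- abbreviation: the constant system -/
abbrev ct (k : Type*) [Field k] : ℂ × ℂ → ℂ × ℂ → (k →ₗ[k] k) := cT

theorem surj (h1 : Convex ℝ C₁) (h2 : Convex ℝ C₂) (hc : IsCompact C₂)
    (hsub : C₁ ⊆ C₂) (hne : (interior C₁).Nonempty) {c : List (ℂ × ℂ) → k}
    (hz : c ∈ Zc (ct k) univ (interior C₂)ᶜ q) :
    ∃ c' ∈ Zc (ct k) univ (interior C₁)ᶜ q, c - c' ∈ Bc (ct k) univ (interior C₂)ᶜ q :=
  move_surj (flat_cT _) (subset_univ _) (body_HV h1 h2 hc hsub hne (flat_cT _) q) hz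

theorem inj (h1 : Convex ℝ C₁) (h2 : Convex ℝ C₂) (hc : IsCompact C₂)
    (hsub : C₁ ⊆ C₂) (hne : (interior C₁).Nonempty) {c : List (ℂ × ℂ) → k}
    (hz : c ∈ Zc (ct k) univ (interior C₁)ᶜ q) (hb : c ∈ Bc (ct k) univ (interior C₂)ᶜ q) :
    c ∈ Bc (ct k) univ (interior C₁)ᶜ q :=
  move_inj (flat_cT _) (subset_univ _) (compl_subset_compl.2 (interior_mono hsub))
    (fun q => body_HV h1 h2 hc hsub hne (flat_cT _) q) hz.1 hb

/-- a large ball -/
theorem exists_big {O : Set (ℂ × ℂ)} (hbd : Bornology.IsBounded O) :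
    ∃ D : Set (ℂ × ℂ), Convex ℝ D ∧ IsCompact D ∧ O ⊆ interior D ∧ C0 ⊆ D := by
  obtain ⟨R, hR⟩ := (hbd.union C0_compact.isBounded).subset_ball (0 : ℂ × ℂ)
  refine ⟨Metric.closedBall 0 R, convex_closedBall _ _, isCompact_closedBall _ _, ?_, ?_⟩
  · exact (subset_union_left.trans hR).trans Metric.ball_subset_interior_closedBall
  · exact (subset_union_right.trans hR).trans Metric.ball_subset_closedBall

/-- vanishing for all convex bodies outside degree four -/
theorem vanish (hC : Convex ℝ C) (hc : IsCompact C) (hne : (interior C).Nonempty) (hq : q ≠ 4) :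
    HV (ct k) univ (interior C)ᶜ q := by
  obtain ⟨D, hD, hDc, hOD, hCD⟩ := exists_big hc.isBounded
  have hCD' : C ⊆ D := hOD.trans interior_subset
  have hDv : HV (ct k) univ (interior D)ᶜ q := by
    intro c hz
    obtain ⟨c', hc', hb⟩ := surj C0_convex hD hDc hCD C0_int hz
    have h1 := C0_HV hq hc'
    have h2 := Bc_mono (T := ct k) (le_refl univ)
      (compl_subset_compl.2 (interior_mono hCD)) q h1
    have e : c = (c - c') + c' := by abel
    rw [e]
    exact Submodule.add_mem _ hb h2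
  intro c hz
  exact inj hC hD hDc hCD' hne hz (hDv ⟨hz.1.mono (compl_subset_compl.2 (interior_mono hCD')), hz.2⟩)

/-- the fundamental functional -/
theorem exists_I {O : Set (ℂ × ℂ)} (hbd : Bornology.IsBounded O) :
    ∃ I : (List (ℂ × ℂ) → k) →ₗ[k] k, (∀ c ∈ Bc (ct k) univ Oᶜ 4, I c = 0) ∧
      ∀ C : Set (ℂ × ℂ), Convex ℝ C → IsCompact C → (interior C).Nonempty → C ⊆ O →
        (∃ ω ∈ Zc (ct k) univ (interior C)ᶜ 4, I ω = 1) ∧
        (∀ c ∈ Zc (ct k) univ (interior C)ᶜ 4, I c = 0 → c ∈ Bc (ct k) univ (interior C)ᶜ 4) := by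
  obtain ⟨D, hD, hDc, hOD, hCD⟩ := exists_big hbd
  obtain ⟨ω, hω, hω0, hgen⟩ := C0_gen (k := k)
  have hωD : ω ∉ Bc (ct k) univ (interior D)ᶜ 4 := fun h =>
    hω0 (inj C0_convex hD hDc hCD C0_int hω h)
  obtain ⟨I0, hI0, hI0'⟩ := Submodule.exists_le_ker_of_notMem hωD
  have hI0ω : I0 ω ≠ 0 := hI0
  refine ⟨(I0 ω)⁻¹ • I0, ?_, ?_⟩
  · intro c hc
    have h1 : c ∈ Bc (ct k) univ (interior D)ᶜ 4 :=
      Bc_mono (T := ct k) (le_refl univ) (compl_subset_compl.2 hOD) 4 hc
    have h2 := hI0' h1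
    rw [LinearMap.mem_ker] at h2
    rw [LinearMap.smul_apply, h2, smul_zero]
  · intro C hC hCc hne hCO
    have hCD' : C ⊆ D := (hCO.trans hOD).trans interior_subset
    have hkill : ∀ c ∈ Bc (ct k) univ (interior D)ᶜ 4, I0 c = 0 := fun c hc =>
      LinearMap.mem_ker.1 (hI0' hc)
    have hωz : ω ∈ Zc (ct k) univ (interior D)ᶜ 4 :=
      ⟨hω.1.mono (compl_subset_compl.2 (interior_mono hCD)), hω.2⟩
    constructor
    · obtain ⟨ω', hω', hb⟩ := surj hC hD hDc hCD' hne hωz
      refine ⟨ω', hω', ?_⟩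
      have h1 := hkill _ hb
      rw [map_sub, sub_eq_zero] at h1
      rw [LinearMap.smul_apply, ← h1, smul_eq_mul, inv_mul_cancel₀ hI0ω]
    · intro c hz hI
      have hz' : c ∈ Zc (ct k) univ (interior D)ᶜ 4 :=
        ⟨hz.1.mono (compl_subset_compl.2 (interior_mono hCD')), hz.2⟩
      obtain ⟨c', hc', hb⟩ := surj C0_convex hD hDc hCD C0_int hz'
      obtain ⟨a, ha⟩ := hgen c' hc'
      have ha' : c' - a • ω ∈ Bc (ct k) univ (interior D)ᶜ 4 :=
        Bc_mono (T := ct k) (le_refl univ) (compl_subset_compl.2 (interior_mono hCD)) 4 ha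
      have hsum : c - a • ω ∈ Bc (ct k) univ (interior D)ᶜ 4 := by
        have e : c - a • ω = (c - c') + (c' - a • ω) := by abel
        rw [e]
        exact Submodule.add_mem _ hb ha'
      have h1 := hkill _ hsum
      rw [LinearMap.smul_apply, smul_eq_mul, mul_eq_zero] at hI
      have h2 : I0 c = 0 := hI.resolve_left (inv_ne_zero hI0ω)
      rw [map_sub, map_smul, h2, zero_sub, neg_eq_zero, smul_eq_mul, mul_eq_zero] at h1
      have ha0 : a = 0 := h1.resolve_right hI0ω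
      rw [ha0, zero_smul, sub_zero] at hsum
      exact inj hC hD hDc hCD' hne hz hsum

end four

end Body

end Pool.Agent.Helper60.AS
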