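import Pool.Agent.Helper60.AS.Exact

/-! Change of coefficients: maps and short exact sequences of coefficient systems. -/

set_option autoImplicit false
set_option linter.unusedVariables false

namespace Pool.Agent.Helper60.AS

open Set

variable {Ω k V W U : Type*} [PseudoMetricSpace Ω] [CommRing k] [AddCommGroup V] [Module k V]
  [AddCommGroup W] [Module k W] [AddCommGroup U] [Module k U]
variable {T : Ω → Ω → (V →ₗ[k] V)} {TW : Ω → Ω → (W →ₗ[k] W)} {TU : Ω → Ω → (U →ₗ[k] U)}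
variable {S S' : Set Ω} {q : ℕ}

/-- apply a linear map to the values of a cochain -/
def cm (φ : V →ₗ[k] W) (c : List Ω → V) : List Ω → W := fun l => φ (c l)

omit [PseudoMetricSpace Ω] in
theorem cm_add (φ : V →ₗ[k] W) (b c : List Ω → V) : cm φ (b + c) = cm φ b + cm φ c := by
  funext l; simp [cm]

omit [PseudoMetricSpace Ω] in
theorem cm_sub (φ : V →ₗ[k] W) (b c : List Ω → V) : cm φ (b - c) = cm φ b - cm φ c := by
  funext l; simp [cm]

omit [PseudoMetricSpace Ω] in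
theorem cm_neg (φ : V →ₗ[k] W) (c : List Ω → V) : cm φ (-c) = - cm φ c := by
  funext l; simp [cm]

omit [PseudoMetricSpace Ω] in
theorem cm_smul (φ : V →ₗ[k] W) (r : k) (c : List Ω → V) : cm φ (r • c) = r • cm φ c := by
  funext l; simp [cm]

omit [PseudoMetricSpace Ω] in
theorem cm_zero (φ : V →ₗ[k] W) : cm φ (0 : List Ω → V) = 0 := by
  funext l; simp [cm]

theorem NZ.cm {n : ℕ} {c : List Ω → V} (φ : V →ₗ[k] W) (h : NZ S n c) : NZ S n (AS.cm φ c) := by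
  intro a ha
  obtain ⟨e, he, h'⟩ := h a ha
  exact ⟨e, he, fun l hl hx => by rw [AS.cm, h' l hl hx, map_zero]⟩

theorem NZ.of_cm {n : ℕ} {c : List Ω → V} {φ : V →ₗ[k] W} (inj : Function.Injective φ)
    (h : NZ S n (AS.cm φ c)) : NZ S n c := by
  intro a ha
  obtain ⟨e, he, h'⟩ := h a ha
  exact ⟨e, he, fun l hl hx => inj (by rw [map_zero]; exact h' l hl hx)⟩

omit [PseudoMetricSpace Ω] in
theorem dT_cm (φ : V →ₗ[k] W) (h : ∀ x y, TW x y ∘ₗ φ = φ ∘ₗ T x y) (c : List Ω → V) :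
    dT TW (cm φ c) = cm φ (dT T c) := by
  funext l
  cases l with
  | nil => simp [cm]
  | cons x l =>
    have h2 : d0 (fun l' => cm φ c (x :: l')) l = φ (d0 (fun l' => c (x :: l')) l) :=
      d0_map φ.toAddMonoidHom (fun l' => c (x :: l')) l
    have h3 : cm φ (dT T c) (x :: l) = φ (dT T c (x :: l)) := rfl
    rw [dT_cons, h2, h3, dT_cons, map_sub]
    congr 1
    cases l with
    | nil => simp
    | cons y l =>
      rw [tw_cons, tw_cons]
      exact LinearMap.congr_fun (h x y) (c (y :: l))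

theorem cm_mem_Zc (φ : V →ₗ[k] W) (h : ∀ x y, TW x y ∘ₗ φ = φ ∘ₗ T x y) {c : List Ω → V}
    (hc : c ∈ Zc T S S' q) : cm φ c ∈ Zc TW S S' q := by
  refine ⟨hc.1.cm φ, ?_⟩
  rw [dT_cm φ h]
  exact hc.2.cm φ

theorem cm_mem_Bc (φ : V →ₗ[k] W) (h : ∀ x y, TW x y ∘ₗ φ = φ ∘ₗ T x y) {c : List Ω → V}
    (hc : c ∈ Bc T S S' q) : cm φ c ∈ Bc TW S S' q := by
  obtain ⟨b, hb, hcb⟩ := hc
  refine ⟨cm φ b, hb.cm φ, ?_⟩
  rw [dT_cm φ h, ← cm_sub]
  exact hcb.cm φ

/-- induced map on cohomology -/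
noncomputable def Hcm (φ : V →ₗ[k] W) (h : ∀ x y, TW x y ∘ₗ φ = φ ∘ₗ T x y) (S S' : Set Ω) (q : ℕ) :
    H T S S' q →ₗ[k] H TW S S' q :=
  Submodule.mapQ _ _
    ({ toFun := fun c => ⟨cm φ c.1, cm_mem_Zc φ h c.2⟩
       map_add' := fun a b => by ext l; simp [cm]
       map_smul' := fun r a => by ext l; simp [cm] } : Zc T S S' q →ₗ[k] Zc TW S S' q)
    (fun c hc => cm_mem_Bc φ h hc)

theorem Hcm_mk (φ : V →ₗ[k] W) (h : ∀ x y, TW x y ∘ₗ φ = φ ∘ₗ T x y) {c : List Ω → V}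
    (hc : c ∈ Zc T S S' q) :
    Hcm φ h S S' q (H.mk T S S' q ⟨c, hc⟩) = H.mk TW S S' q ⟨cm φ c, cm_mem_Zc φ h hc⟩ := rfl

section lifts

/-- lift a cochain along a surjection, keeping zeros. -/
theorem exists_lift_surj {p : W →ₗ[k] U} (surj : Function.Surjective p) (u : List Ω → U) :
    ∃ w : List Ω → W, cm p w = u ∧ ∀ (R : Set Ω) (n : ℕ), NZ R n u → NZ R n w := by
  classical
  choose s hs using surj
  refine ⟨fun l => if u l = 0 then 0 else s (u l), ?_, ?_⟩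
  · funext l
    by_cases h : u l = 0
    · simp [cm, h]
    · simp [cm, h, hs]
  · intro R n h a ha
    obtain ⟨e, he, h'⟩ := h a ha
    exact ⟨e, he, fun l hl hx => if_pos (h' l hl hx)⟩

/-- lift a cochain which is killed by `p` near `S`. -/
theorem exists_lift_inj {i : V →ₗ[k] W} {p : W →ₗ[k] U} (inj : Function.Injective i)
    (ex : Function.Exact i p) (w : List Ω → W) :
    ∃ v : List Ω → V, (∀ (R : Set Ω) (n : ℕ), NZ R n (cm p w) → NZ R n (w - cm i v)) ∧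
      ∀ (R : Set Ω) (n : ℕ), NZ R n w → NZ R n v := by
  classical
  have hx : ∀ l : List Ω, ∃ v : V, p (w l) = 0 → i v = w l := by
    intro l
    by_cases h : p (w l) = 0
    · obtain ⟨v, hv⟩ := (ex (w l)).1 h
      exact ⟨v, fun _ => hv⟩
    · exact ⟨0, fun h' => absurd h' h⟩
  choose v hv using hx
  refine ⟨v, ?_, ?_⟩
  · intro R n h a ha
    obtain ⟨e, he, h'⟩ := h a ha
    refine ⟨e, he, fun l hl hx => ?_⟩
    show w l - i (v l) = 0
    rw [hv l (h' l hl hx), sub_self]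
  · intro R n h a ha
    obtain ⟨e, he, h'⟩ := h a ha
    refine ⟨e, he, fun l hl hx => inj ?_⟩
    rw [hv l (by rw [h' l hl hx, map_zero]), map_zero, h' l hl hx]

end lifts

section ses

variable (i : V →ₗ[k] W) (p : W →ₗ[k] U) (hi : ∀ x y, TW x y ∘ₗ i = i ∘ₗ T x y)
  (hp : ∀ x y, TU x y ∘ₗ p = p ∘ₗ TW x y) (inj : Function.Injective i)
  (surj : Function.Surjective p) (ex : Function.Exact i p)

include ex in
omit [PseudoMetricSpace Ω] in
theorem cm_cm_zero (v : List Ω → V) : cm p (cm i v) = 0 := by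
  funext l
  exact (ex (i (v l))).2 ⟨v l, rfl⟩

include hi hp inj surj ex in
/-- the key construction: if `p w` is a coboundary then `w` is cohomologous to some `i v`. -/
theorem coef_key (hT : Flat TW S) {w : List Ω → W} (hw : w ∈ Zc TW S S' q)
    (hpw : cm p w ∈ Bc TU S S' q) : ∃ v ∈ Zc T S S' q, w - cm i v ∈ Bc TW S S' q := by
  obtain ⟨b, hb, hwb⟩ := hpw
  obtain ⟨β, rfl, hβ⟩ := exists_lift_surj surj b
  have hβ' : NZ S' q β := hβ _ _ hb
  obtain ⟨v, hv, hv'⟩ := exists_lift_inj inj ex (w - dT TW β)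
  have hpz : NZ S (q + 1) (cm p (w - dT TW β)) := by
    rw [cm_sub, ← dT_cm p hp]
    exact hwb
  have hv1 : NZ S (q + 1) (w - dT TW β - cm i v) := hv _ _ hpz
  have hv2 : NZ S' (q + 1) v := hv' _ _ (hw.1.sub (hβ'.dT TW))
  refine ⟨v, ⟨hv2, ?_⟩, β, hβ', NZ.of_eq hv1 (by abel)⟩
  refine NZ.of_cm inj ?_
  rw [← dT_cm i hi]
  have e : dT TW (cm i v) = dT TW w - dT TW (dT TW β) - dT TW (w - dT TW β - cm i v) := by
    rw [dT_sub, dT_sub]; abel
  rw [e]
  exact (hw.2.sub (nz_dT_dT hT β _)).sub (hv1.dT TW)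

include inj surj ex in
theorem coef_exact1 (S S' : Set Ω) (hT : Flat TW S) (q : ℕ) :
    Function.Exact (Hcm i hi S S' q) (Hcm p hp S S' q) := by
  intro x
  obtain ⟨⟨w, hw⟩, rfl⟩ := H.mk_surjective q x
  rw [Hcm_mk, H.mk_eq_zero]
  constructor
  · intro h
    obtain ⟨v, hv, hwv⟩ := coef_key i p hi hp inj surj ex hT hw h
    refine ⟨H.mk T S S' q ⟨v, hv⟩, ?_⟩
    rw [Hcm_mk, H.mk_eq_mk]
    show cm i v - w ∈ _
    have := (Bc TW S S' q).neg_mem hwv
    rwa [neg_sub] at this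
  · rintro ⟨y, hy⟩
    obtain ⟨⟨v, hv⟩, rfl⟩ := H.mk_surjective q y
    rw [Hcm_mk, H.mk_eq_mk] at hy
    have h1 := cm_mem_Bc p hp hy
    show cm p w ∈ _
    have e : cm p w = - cm p (cm i v - w) := by
      rw [cm_sub, cm_cm_zero i p ex]; abel
    rw [e]
    exact (Bc TU S S' q).neg_mem h1

include inj in
theorem coef_inj0 (S S' : Set Ω) : Function.Injective (Hcm i hi S S' 0) := by
  rw [injective_iff_map_eq_zero]
  intro x hx
  obtain ⟨⟨v, hv⟩, rfl⟩ := H.mk_surjective 0 x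
  rw [Hcm_mk, H.mk_eq_zero, mem_Bc_zero] at hx
  rw [H.mk_eq_zero, mem_Bc_zero]
  exact NZ.of_cm inj hx

/-- naturality of the connecting relation: `p w = u` (on short lists near `S`) and `dT w = i v`
there. This is the elementwise form of the connecting map. -/
def Cd (i : V →ₗ[k] W) (p : W →ₗ[k] U) (TW : Ω → Ω → (W →ₗ[k] W)) (S S' : Set Ω) (q : ℕ)
    (u : List Ω → U) (v : List Ω → V) : Prop :=
  ∃ w : List Ω → W, NZ S' (q + 1) w ∧ NZ S (q + 1) (cm p w - u) ∧ NZ S (q + 2) (dT TW w - cm i v)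

theorem Cd.add {u u' : List Ω → U} {v v' : List Ω → V} (h : Cd i p TW S S' q u v)
    (h' : Cd i p TW S S' q u' v') : Cd i p TW S S' q (u + u') (v + v') := by
  obtain ⟨w, h1, h2, h3⟩ := h
  obtain ⟨w', h1', h2', h3'⟩ := h'
  refine ⟨w + w', h1.add h1', NZ.of_eq (h2.add h2') ?_, NZ.of_eq (h3.add h3') ?_⟩
  · rw [cm_add]; abel
  · rw [cm_add, dT_add]; abel

theorem Cd.smul (r : k) {u : List Ω → U} {v : List Ω → V} (h : Cd i p TW S S' q u v) :
    Cd i p TW S S' q (r • u) (r • v) := by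
  obtain ⟨w, h1, h2, h3⟩ := h
  refine ⟨r • w, h1.smul r, NZ.of_eq (h2.smul r) ?_, NZ.of_eq (h3.smul r) ?_⟩
  · rw [cm_smul, smul_sub]
  · rw [cm_smul, dT_smul, smul_sub]

theorem Cd.sub {u u' : List Ω → U} {v v' : List Ω → V} (h : Cd i p TW S S' q u v)
    (h' : Cd i p TW S S' q u' v') : Cd i p TW S S' q (u - u') (v - v') := by
  obtain ⟨w, h1, h2, h3⟩ := h
  obtain ⟨w', h1', h2', h3'⟩ := h'
  refine ⟨w - w', h1.sub h1', NZ.of_eq (h2.sub h2') ?_, NZ.of_eq (h3.sub h3') ?_⟩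
  · rw [cm_sub]; abel
  · rw [cm_sub, dT_sub]; abel

include hi hp inj surj ex in
/-- every cocycle `u` has a `v` related to it -/
theorem Cd_exists (hT : Flat TW S) (hS : S' ⊆ S) {u : List Ω → U} (hu : u ∈ Zc TU S S' q) :
    ∃ v ∈ Zc T S S' (q + 1), Cd i p TW S S' q u v := by
  obtain ⟨w, rfl, hw⟩ := exists_lift_surj surj u
  have hw' : NZ S' (q + 1) w := hw _ _ hu.1
  obtain ⟨v, hv, hv'⟩ := exists_lift_inj inj ex (dT TW w)
  have hpz : NZ S (q + 2) (cm p (dT TW w)) := by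
    rw [← dT_cm p hp]
    exact hu.2
  have hv1 : NZ S (q + 2) (dT TW w - cm i v) := hv _ _ hpz
  have hv2 : NZ S' (q + 2) v := hv' _ _ (hw'.dT TW)
  refine ⟨v, ⟨hv2, ?_⟩, w, hw', NZ.of_eq NZ.zero (sub_self _), hv1⟩
  refine NZ.of_cm inj ?_
  rw [← dT_cm i hi]
  have e : dT TW (cm i v) = dT TW (dT TW w) - dT TW (dT TW w - cm i v) := by
    rw [dT_sub]; abel
  rw [e]
  exact (nz_dT_dT hT w _).sub (hv1.dT TW)

include hi hp inj surj ex in
/-- if `i v` is a coboundary then `v` is related to some cocycle `u` -/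
theorem Cd_of_zero (hT : Flat TW S) (hS : S' ⊆ S) {v : List Ω → V} (hv : v ∈ Zc T S S' (q + 1))
    (h : cm i v ∈ Bc TW S S' (q + 1)) : ∃ u ∈ Zc TU S S' q, Cd i p TW S S' q u v := by
  obtain ⟨b, hb, hvb⟩ := h
  have hvb : NZ S (q + 2) (cm i v - dT TW b) := hvb
  refine ⟨cm p b, ⟨hb.cm p, ?_⟩, b, hb, NZ.of_eq NZ.zero (sub_self _), hvb.sub_comm⟩
  rw [dT_cm p hp]
  have e : cm p (dT TW b) = - cm p (cm i v - dT TW b) := by
    rw [cm_sub, cm_cm_zero i p ex]; abel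
  rw [e]
  exact (hvb.cm p).neg

include hi hp inj surj ex in
/-- if `u` is a coboundary then so is `v` (for related `u`, `v`); any degree `q` -/
theorem Cd_zero (hT : Flat TW S) (hS : S' ⊆ S) {u : List Ω → U} {v : List Ω → V}
    (h : Cd i p TW S S' q u v) (hu : u ∈ Bc TU S S' q) (hv : v ∈ Zc T S S' (q + 1)) :
    v ∈ Bc T S S' (q + 1) := by
  obtain ⟨w, hw, hwu, hwv⟩ := h
  obtain ⟨b, hb, hub⟩ := hu
  obtain ⟨β, rfl, hβ⟩ := exists_lift_surj surj b
  have hβ' : NZ S' q β := hβ _ _ hb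
  obtain ⟨v', hv1, hv2⟩ := exists_lift_inj inj ex (w - dT TW β)
  have hpz : NZ S (q + 1) (cm p (w - dT TW β)) := by
    refine NZ.of_eq (hwu.add hub) ?_
    rw [cm_sub, ← dT_cm p hp]; abel
  have hv1' : NZ S (q + 1) (w - dT TW β - cm i v') := hv1 _ _ hpz
  have hv2' : NZ S' (q + 1) v' := hv2 _ _ (hw.sub (hβ'.dT TW))
  refine ⟨v', hv2', NZ.of_cm inj ?_⟩
  have e : cm i (v - dT T v') = -(dT TW w - cm i v) + dT TW (dT TW β) +
      dT TW (w - dT TW β - cm i v') := by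
    rw [cm_sub, ← dT_cm i hi, dT_sub, dT_sub]; abel
  rw [e]
  exact (hwv.neg.add (nz_dT_dT hT β _)).add (hv1'.dT TW)

/-- restriction of the relation to smaller pairs -/
theorem Cd.mono {S₁ S₁' : Set Ω} {u : List Ω → U} {v : List Ω → V} (h : Cd i p TW S S' q u v)
    (h1 : S₁ ⊆ S) (h2 : S₁' ⊆ S') : Cd i p TW S₁ S₁' q u v := by
  obtain ⟨w, hw, hwu, hwv⟩ := h
  exact ⟨w, hw.mono h2, hwu.mono h1, hwv.mono h1⟩

include hi hp inj surj ex in
theorem Cd_unique (hT : Flat TW S) (hS : S' ⊆ S) {u : List Ω → U} {v v' : List Ω → V}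
    (h : Cd i p TW S S' q u v) (h' : Cd i p TW S S' q u v') (hv : v ∈ Zc T S S' (q + 1))
    (hv' : v' ∈ Zc T S S' (q + 1)) : v - v' ∈ Bc T S S' (q + 1) := by
  refine Cd_zero i p hi hp inj surj ex hT hS (Cd.sub i p h h') ?_ (Submodule.sub_mem _ hv hv')
  rw [sub_self]
  exact Submodule.zero_mem _

include hi hp inj surj ex in
theorem coef_connect_aux (S S' : Set Ω) (hT : Flat TW S) (hS : S' ⊆ S) (q : ℕ) :
    ∃ δ : H TU S S' q →ₗ[k] H T S S' (q + 1),
      ∀ (u : List Ω → U) (hu : u ∈ Zc TU S S' q) (v : List Ω → V) (hv : v ∈ Zc T S S' (q + 1)),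
        Cd i p TW S S' q u v → δ (H.mk TU S S' q ⟨u, hu⟩) = H.mk T S S' (q + 1) ⟨v, hv⟩ := by
  have hex : ∀ u : Zc TU S S' q, ∃ v : Zc T S S' (q + 1), Cd i p TW S S' q (u : List Ω → U) v := by
    intro u
    obtain ⟨v, hv, h⟩ := Cd_exists i p hi hp inj surj ex hT hS u.2
    exact ⟨⟨v, hv⟩, h⟩
  choose f hf using hex
  let F : Zc TU S S' q →ₗ[k] H T S S' (q + 1) :=
    { toFun := fun u => H.mk T S S' (q + 1) (f u)
      map_add' := by
        intro u u'
        rw [← map_add, H.mk_eq_mk]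
        exact Cd_unique i p hi hp inj surj ex hT hS (hf (u + u')) (Cd.add i p (hf u) (hf u'))
          (f (u + u')).2 (f u + f u').2
      map_smul' := by
        intro r u
        rw [RingHom.id_apply, ← map_smul, H.mk_eq_mk]
        exact Cd_unique i p hi hp inj surj ex hT hS (hf (r • u)) (Cd.smul i p r (hf u))
          (f (r • u)).2 (r • f u).2 }
  refine ⟨Submodule.liftQ _ F ?_, ?_⟩
  · intro u hu
    rw [LinearMap.mem_ker]
    show H.mk T S S' (q + 1) (f u) = 0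
    rw [H.mk_eq_zero]
    exact Cd_zero i p hi hp inj surj ex hT hS (hf u) hu (f u).2
  · intro u hu v hv h
    show H.mk T S S' (q + 1) (f ⟨u, hu⟩) = _
    rw [H.mk_eq_mk]
    exact Cd_unique i p hi hp inj surj ex hT hS (hf ⟨u, hu⟩) h (f ⟨u, hu⟩).2 hv

include inj surj ex in
/-- there is a connecting map making the coefficient sequence exact; it is given by the
relation `Cd`. -/
theorem coef_connect' (S S' : Set Ω) (hT : Flat TW S) (hS : S' ⊆ S) (q : ℕ) :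
    ∃ δ : H TU S S' q →ₗ[k] H T S S' (q + 1),
      Function.Exact (Hcm p hp S S' q) δ ∧ Function.Exact δ (Hcm i hi S S' (q + 1)) ∧
      ∀ (u : List Ω → U) (hu : u ∈ Zc TU S S' q) (v : List Ω → V) (hv : v ∈ Zc T S S' (q + 1)),
        Cd i p TW S S' q u v → δ (H.mk TU S S' q ⟨u, hu⟩) = H.mk T S S' (q + 1) ⟨v, hv⟩ := by
  obtain ⟨δ, hδ⟩ := coef_connect_aux i p hi hp inj surj ex S S' hT hS q
  refine ⟨δ, ?_, ?_, hδ⟩
  · intro x
    obtain ⟨⟨u, hu⟩, rfl⟩ := H.mk_surjective q x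
    obtain ⟨v, hv, w, hw, hwu, hwv⟩ := Cd_exists i p hi hp inj surj ex hT hS hu
    rw [hδ u hu v hv ⟨w, hw, hwu, hwv⟩, H.mk_eq_zero]
    constructor
    · rintro ⟨b, hb, hvb⟩
      have hvb : NZ S (q + 2) (v - dT T b) := hvb
      have hz : w - cm i b ∈ Zc TW S S' q := by
        refine ⟨hw.sub (hb.cm i), NZ.of_eq (hwv.add (hvb.cm i)) ?_⟩
        rw [dT_sub, cm_sub, dT_cm i hi]; abel
      refine ⟨H.mk TW S S' q ⟨w - cm i b, hz⟩, ?_⟩
      rw [Hcm_mk, H.mk_eq_mk]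
      refine mem_Bc_of_NZ (NZ.of_eq hwu ?_)
      show cm p (w - cm i b) - u = cm p w - u
      rw [cm_sub, cm_cm_zero i p ex, sub_zero]
    · rintro ⟨y, hy⟩
      obtain ⟨⟨w', hw'⟩, rfl⟩ := H.mk_surjective q y
      rw [Hcm_mk, H.mk_eq_mk] at hy
      have h0 : Cd i p TW S S' q (cm p w') 0 := by
        refine ⟨w', hw'.1, NZ.of_eq NZ.zero (sub_self _), ?_⟩
        rw [cm_zero, sub_zero]
        exact hw'.2
      have h1 : Cd i p TW S S' q (cm p w' - u) (0 - v) :=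
        Cd.sub i p h0 ⟨w, hw, hwu, hwv⟩
      have h2 := Cd_zero i p hi hp inj surj ex hT hS h1 hy
        (Submodule.sub_mem _ (Submodule.zero_mem _) hv)
      rw [zero_sub] at h2
      exact (Submodule.neg_mem_iff _).1 h2
  · intro x
    obtain ⟨⟨v, hv⟩, rfl⟩ := H.mk_surjective (q + 1) x
    rw [Hcm_mk, H.mk_eq_zero]
    constructor
    · intro h
      obtain ⟨u, hu, huv⟩ := Cd_of_zero i p hi hp inj surj ex hT hS hv h
      exact ⟨H.mk TU S S' q ⟨u, hu⟩, hδ u hu v hv huv⟩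
    · rintro ⟨y, hy⟩
      obtain ⟨⟨u, hu⟩, rfl⟩ := H.mk_surjective q y
      obtain ⟨v', hv', h⟩ := Cd_exists i p hi hp inj surj ex hT hS hu
      rw [hδ u hu v' hv' h, H.mk_eq_mk] at hy
      have h1 := cm_mem_Bc i hi hy
      obtain ⟨w, hw, hwu, hwv⟩ := h
      have h2 : cm i v' ∈ Bc TW S S' (q + 1) := ⟨w, hw, hwv.sub_comm⟩
      have h3 := Submodule.sub_mem _ h2 h1
      show cm i v ∈ _
      have e : cm i v' - cm i (v' - v) = cm i v := by rw [cm_sub]; abel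
      rwa [e] at h3

include inj surj ex in
/-- there is a connecting map making the coefficient sequence exact -/
theorem coef_connect (S S' : Set Ω) (hT : Flat TW S) (hS : S' ⊆ S) (q : ℕ) :
    ∃ δ : H TU S S' q →ₗ[k] H T S S' (q + 1),
      Function.Exact (Hcm p hp S S' q) δ ∧ Function.Exact δ (Hcm i hi S S' (q + 1)) := by
  obtain ⟨δ, h1, h2, -⟩ := coef_connect' i p hi hp inj surj ex S S' hT hS q
  exact ⟨δ, h1, h2⟩

include hi hp inj surj ex in
theorem HV_ext (hT : Flat TW S) (hS : S' ⊆ S) (h1 : HV T S S' q) (h2 : HV TU S S' q) :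
    HV TW S S' q := by
  intro w hw
  obtain ⟨v, hv, hwv⟩ := coef_key i p hi hp inj surj ex hT hw (h2 (cm_mem_Zc p hp hw))
  have h3 := cm_mem_Bc i hi (h1 hv)
  have := Submodule.add_mem _ hwv h3
  rwa [sub_add_cancel] at this

end ses

section gauge

omit [PseudoMetricSpace Ω] in
theorem gm_add' (u : Ω → (V →ₗ[k] W)) (b c : List Ω → V) : gm u (b + c) = gm u b + gm u c := by
  funext l
  cases l with
  | nil => simp
  | cons x l => simp

omit [PseudoMetricSpace Ω] in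
theorem gm_sub' (u : Ω → (V →ₗ[k] W)) (b c : List Ω → V) : gm u (b - c) = gm u b - gm u c := by
  funext l
  cases l with
  | nil => simp
  | cons x l => simp

omit [PseudoMetricSpace Ω] in
theorem gm_smul' (u : Ω → (V →ₗ[k] W)) (r : k) (c : List Ω → V) : gm u (r • c) = r • gm u c := by
  funext l
  cases l with
  | nil => simp
  | cons x l => simp

theorem NZ.gm {n : ℕ} {c : List Ω → V} (u : Ω → (V →ₗ[k] W)) (h : NZ S n c) :
    NZ S n (AS.gm u c) := by
  intro a ha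
  obtain ⟨e, he, h'⟩ := h a ha
  refine ⟨e, he, fun l hl hx => ?_⟩
  cases l with
  | nil => rfl
  | cons x l => rw [gm_cons, h' _ hl hx, map_zero]

/-- `u` intertwines `T` and `T'` near `S` -/
def Inter (T : Ω → Ω → (V →ₗ[k] V)) (TW : Ω → Ω → (W →ₗ[k] W)) (u : Ω → (V →ₗ[k] W))
    (S : Set Ω) : Prop :=
  ∀ a ∈ S, ∃ ε > 0, ∀ x y, dist x a < ε → dist y a < ε → TW x y ∘ₗ u y = u x ∘ₗ T x y

variable {u : Ω → (V →ₗ[k] W)}

theorem Inter.nz_dT (h : Inter T TW u S) (c : List Ω → V) (n : ℕ) :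
    NZ S n (dT TW (gm u c) - gm u (dT T c)) := by
  intro a ha
  obtain ⟨e, he, h'⟩ := h a ha
  refine ⟨e, he, fun l hl hx => ?_⟩
  show dT TW (gm u c) l - gm u (dT T c) l = 0
  rw [dT_gm T TW u c l fun x hx' y hy => h' x y (hx x hx') (hx y hy), sub_self]

theorem Inter.mem_Zc (h : Inter T TW u S) {c : List Ω → V} (hc : c ∈ Zc T S S' q) :
    gm u c ∈ Zc TW S S' q := by
  refine ⟨hc.1.gm u, NZ.of_eq ((h.nz_dT c _).add (hc.2.gm u)) ?_⟩
  abel

theorem Inter.mem_Bc (h : Inter T TW u S) {c : List Ω → V} (hc : c ∈ Bc T S S' q) :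
    gm u c ∈ Bc TW S S' q := by
  obtain ⟨b, hb, hcb⟩ := hc
  refine ⟨gm u b, hb.gm u, NZ.of_eq ((hcb.gm u).sub (h.nz_dT b _)) ?_⟩
  rw [gm_sub']; abel

/-- the map on cohomology induced by a local intertwiner -/
noncomputable def Hgm (h : Inter T TW u S) (S' : Set Ω) (q : ℕ) :
    H T S S' q →ₗ[k] H TW S S' q :=
  Submodule.mapQ _ _
    ({ toFun := fun c => ⟨gm u c.1, h.mem_Zc c.2⟩
       map_add' := fun a b => Subtype.ext (gm_add' u a.1 b.1)
       map_smul' := fun r a => Subtype.ext (gm_smul' u r a.1) } : Zc T S S' q →ₗ[k] Zc TW S S' q)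
    (fun c hc => h.mem_Bc hc)

theorem Hgm_mk (h : Inter T TW u S) {c : List Ω → V} (hc : c ∈ Zc T S S' q) :
    Hgm h S' q (H.mk T S S' q ⟨c, hc⟩) = H.mk TW S S' q ⟨gm u c, h.mem_Zc hc⟩ := rfl

/-- gauge equivalent systems: isomorphism of cohomology, given by `c ↦ gm u c` -/
theorem gauge_H_equiv {T T' : Ω → Ω → (V →ₗ[k] V)} (u : Ω → (V ≃ₗ[k] V))
    (h : Inter T T' (fun x => (u x : V →ₗ[k] V)) S) (S' : Set Ω) (q : ℕ) :
    ∃ E : H T S S' q ≃ₗ[k] H T' S S' q, ∀ x, E x = Hgm h S' q x := by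
  have h' : Inter T' T (fun x => ((u x).symm : V →ₗ[k] V)) S := by
    intro a ha
    obtain ⟨e, he, h2⟩ := h a ha
    refine ⟨e, he, fun x y hx hy => ?_⟩
    ext v
    have h3 := LinearMap.congr_fun (h2 x y hx hy) ((u y).symm v)
    simp only [LinearMap.comp_apply, LinearEquiv.coe_coe, LinearEquiv.apply_symm_apply] at h3 ⊢
    rw [h3, LinearEquiv.symm_apply_apply]
  have e1 : ∀ x : H T S S' q, Hgm h' S' q (Hgm h S' q x) = x := by
    intro x
    obtain ⟨⟨c, hc⟩, rfl⟩ := H.mk_surjective q x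
    rw [Hgm_mk, Hgm_mk, H.mk_eq_mk]
    refine mem_Bc_of_NZ (NZ.congr (b := 0) NZ.zero fun l hl => ?_)
    cases l with
    | nil => simp at hl
    | cons x l =>
      show (u x).symm (u x (c (x :: l))) - c (x :: l) = 0
      rw [LinearEquiv.symm_apply_apply, sub_self]
  have e2 : ∀ x : H T' S S' q, Hgm h S' q (Hgm h' S' q x) = x := by
    intro x
    obtain ⟨⟨c, hc⟩, rfl⟩ := H.mk_surjective q x
    rw [Hgm_mk, Hgm_mk, H.mk_eq_mk]
    refine mem_Bc_of_NZ (NZ.congr (b := 0) NZ.zero fun l hl => ?_)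
    cases l with
    | nil => simp at hl
    | cons x l =>
      show u x ((u x).symm (c (x :: l))) - c (x :: l) = 0
      rw [LinearEquiv.apply_symm_apply, sub_self]
  exact ⟨LinearEquiv.ofLinearMap (Hgm h S' q) (Hgm h' S' q) (LinearMap.ext e2) (LinearMap.ext e1),
    fun x => rfl⟩

end gauge

/-- gauge equivalent systems: isomorphism of cohomology compatible with restriction to `R` -/
theorem gauge_H {T T' : Ω → Ω → (V →ₗ[k] V)} (u : Ω → (V ≃ₗ[k] V))
    (h : ∀ a ∈ S, ∃ ε > 0, ∀ x y, dist x a < ε → dist y a < ε →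
      T' x y ∘ₗ (u y : V →ₗ[k] V) = (u x : V →ₗ[k] V) ∘ₗ T x y) (hS : S' ⊆ S) (q : ℕ) :
    Nonempty (H T S S' q ≃ₗ[k] H T' S S' q) := by
  obtain ⟨E, -⟩ := gauge_H_equiv (T := T) (T' := T') (S := S) u h S' q
  exact ⟨E⟩

/-- gauge equivalent systems have the same cohomology. `u x : V ≃ₗ V`. -/
theorem gauge_HV {T T' : Ω → Ω → (V →ₗ[k] V)} (u : Ω → (V ≃ₗ[k] V))
    (h : ∀ a ∈ S, ∃ ε > 0, ∀ x y, dist x a < ε → dist y a < ε →
      T' x y ∘ₗ (u y : V →ₗ[k] V) = (u x : V →ₗ[k] V) ∘ₗ T x y) (hS : S' ⊆ S) :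
    HV T S S' q ↔ HV T' S S' q := by
  obtain ⟨E⟩ := gauge_H (T := T) (T' := T') u h hS q
  rw [HV_iff_subsingleton, HV_iff_subsingleton]
  exact ⟨fun _ => E.symm.injective.subsingleton, fun _ => E.injective.subsingleton⟩

end Pool.Agent.Helper60.AS
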