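import Pool.Agent.Helper60.AS.Germ

/-! Cup product of list cochains with twisted coefficients, and the Leibniz rule. -/

set_option autoImplicit false

namespace Pool.Agent.Helper60.AS

open Set

section untwisted

variable {Ω k V W U : Type*} [CommRing k] [AddCommGroup V] [Module k V]
  [AddCommGroup W] [Module k W] [AddCommGroup U] [Module k U]

/-- untwisted cup product with front face of `i + 1` points -/
def ov (β : V →ₗ[k] W →ₗ[k] U) (i : ℕ) (φ : List Ω → V) (ψ : List Ω → W) : List Ω → U :=
  fun l => β (φ (l.take (i + 1))) (ψ (l.drop i))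

theorem ov_succ_cons (β : V →ₗ[k] W →ₗ[k] U) (i : ℕ) (φ : List Ω → V) (ψ : List Ω → W) (x : Ω)
    (l : List Ω) : ov β (i + 1) φ ψ (x :: l) = ov β i (fun l' => φ (x :: l')) ψ l := rfl

theorem ov_zero_cons (β : V →ₗ[k] W →ₗ[k] U) (φ : List Ω → V) (ψ : List Ω → W) (x : Ω)
    (l : List Ω) : ov β 0 φ ψ (x :: l) = β (φ [x]) (ψ (x :: l)) := rfl

theorem ov_sub_left (β : V →ₗ[k] W →ₗ[k] U) (i : ℕ) (φ φ' : List Ω → V) (ψ : List Ω → W) :
    ov β i (φ - φ') ψ = ov β i φ ψ - ov β i φ' ψ := by
  funext l
  simp [ov]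

/-- the untwisted Leibniz rule -/
theorem d0_ov (β : V →ₗ[k] W →ₗ[k] U) (i : ℕ) : ∀ (φ : List Ω → V) (ψ : List Ω → W) (l : List Ω),
    i + 2 ≤ l.length →
    d0 (ov β i φ ψ) l = ov β (i + 1) (d0 φ) ψ l + (-1 : k) ^ i • ov β i φ (d0 ψ) l := by
  induction i with
  | zero =>
    intro φ ψ l hl
    match l, hl with
    | x :: y :: m, _ =>
      have h1 : (fun l' => ov β 0 φ ψ (x :: l')) = fun l' => β (φ [x]) (ψ (x :: l')) := rfl
      have h2 : d0 (fun l' => β (φ [x]) (ψ (x :: l'))) (y :: m) =
          β (φ [x]) (d0 (fun l' => ψ (x :: l')) (y :: m)) :=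
        d0_map (β (φ [x])).toAddMonoidHom (fun l' => ψ (x :: l')) (y :: m)
      rw [d0_cons, h1, h2, ov_zero_cons, ov_succ_cons, ov_zero_cons, ov_zero_cons]
      rw [show d0 ψ (x :: y :: m) = ψ (y :: m) - d0 (fun l' => ψ (x :: l')) (y :: m) from
        d0_cons _ _ _]
      have h3 : d0 φ [x, y] = φ [y] - φ [x] := by simp [d0_cons]
      rw [h3]
      simp
  | succ i ih =>
    intro φ ψ l hl
    match l, hl with
    | x :: l, hl =>
      have hl' : i + 2 ≤ l.length := by simpa using hl
      have h1 : (fun l' => ov β (i + 1) φ ψ (x :: l')) = ov β i (fun l' => φ (x :: l')) ψ := rfl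
      rw [d0_cons, h1, ih _ _ _ hl', ov_succ_cons, ov_succ_cons]
      have h2 : (fun l' => d0 φ (x :: l')) = φ - d0 (fun l' => φ (x :: l')) := by
        funext l'; rfl
      rw [h2, ov_sub_left, Pi.sub_apply, pow_succ]
      module

end untwisted

section twisted

variable {Ω k V : Type*} [CommRing k] [AddCommGroup V] [Module k V]

/-- translate the values of a cochain to the fibre over `x` -/
def trx (T : Ω → Ω → (V →ₗ[k] V)) (x : Ω) (g : List Ω → V) : List Ω → V := fun m => tw T x m (g m)

/-- twisted cup product with front face of `i + 1` points -/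
def cup (T : Ω → Ω → (V →ₗ[k] V)) (B : V →ₗ[k] V →ₗ[k] k) (i : ℕ) (f g : List Ω → V) :
    List Ω → k
  | [] => 0
  | x :: l => ov B i f (trx T x g) (x :: l)

variable {T : Ω → Ω → (V →ₗ[k] V)} {B : V →ₗ[k] V →ₗ[k] k} {i : ℕ}

@[simp] theorem cup_nil (f g : List Ω → V) : cup T B i f g [] = 0 := rfl

theorem cup_cons (f g : List Ω → V) (x : Ω) (l : List Ω) :
    cup T B i f g (x :: l) = B (f ((x :: l).take (i + 1)))
      (tw T x ((x :: l).drop i) (g ((x :: l).drop i))) := rfl

theorem cup_add_left (f f' g : List Ω → V) : cup T B i (f + f') g = cup T B i f g + cup T B i f' g := by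
  funext l
  cases l with
  | nil => simp
  | cons x l => simp [cup_cons]

theorem cup_smul_left (a : k) (f g : List Ω → V) : cup T B i (a • f) g = a • cup T B i f g := by
  funext l
  cases l with
  | nil => simp
  | cons x l => simp [cup_cons]

theorem cup_add_right (f g g' : List Ω → V) : cup T B i f (g + g') = cup T B i f g + cup T B i f g' := by
  funext l
  cases l with
  | nil => simp
  | cons x l => simp [cup_cons, tw_add]

theorem cup_smul_right (a : k) (f g : List Ω → V) : cup T B i f (a • g) = a • cup T B i f g := by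
  funext l
  cases l with
  | nil => simp
  | cons x l => simp [cup_cons, tw_smul]

/-- the cup product as a bilinear map -/
def cupL (T : Ω → Ω → (V →ₗ[k] V)) (B : V →ₗ[k] V →ₗ[k] k) (i : ℕ) :
    (List Ω → V) →ₗ[k] (List Ω → V) →ₗ[k] (List Ω → k) :=
  LinearMap.mk₂ k (cup T B i) cup_add_left cup_smul_left cup_add_right cup_smul_right

@[simp] theorem cupL_apply (f g : List Ω → V) : cupL T B i f g = cup T B i f g := rfl

theorem tw_sub' (T : Ω → Ω → (V →ₗ[k] V)) (x : Ω) (l : List Ω) (v w : V) :
    tw T x l (v - w) = tw T x l v - tw T x l w := by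
  cases l <;> simp

theorem d0_trx (g : List Ω → V) (x : Ω) (m : List Ω)
    (h : ∀ y ∈ m, ∀ z ∈ m, T x y ∘ₗ T y z = T x z) :
    tw T x m (dT T g m) = d0 (trx T x g) m := by
  cases m with
  | nil => simp
  | cons z m =>
    have h1 : (fun l' => trx T x g (z :: l')) = fun l' => T x z (g (z :: l')) := rfl
    have h2 : d0 (fun l' => T x z (g (z :: l'))) m = T x z (d0 (fun l' => g (z :: l')) m) :=
      d0_map (T x z).toAddMonoidHom (fun l' => g (z :: l')) m
    rw [tw_cons, dT_cons, map_sub, d0_cons, h1, h2]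
    congr 1
    cases m with
    | nil => simp [trx]
    | cons w m =>
      rw [tw_cons, trx, tw_cons, ← LinearMap.comp_apply, h z (by simp) w (by simp)]

theorem tw_cT {x : Ω} {l : List Ω} (hl : l ≠ []) (a : k) :
    tw (cT : Ω → Ω → (k →ₗ[k] k)) x l a = a := by
  cases l with
  | nil => exact absurd rfl hl
  | cons y l => rfl

/-- the Leibniz rule -/
theorem dT_cup (hinv : ∀ x y v w, B (T x y v) (T x y w) = B v w) (f g : List Ω → V) (l : List Ω)
    (hl : i + 2 ≤ l.length)
    (h : ∀ x ∈ l, ∀ y ∈ l, ∀ z ∈ l, T x y ∘ₗ T y z = T x z ∧ T x x = LinearMap.id) :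
    dT (cT : Ω → Ω → (k →ₗ[k] k)) (cup T B i f g) l = cup T B (i + 1) (dT T f) g l +
      (-1 : k) ^ i • cup T B i f (dT T g) l := by
  match l, hl with
  | x :: y :: l, hl =>
    have hl' : i + 1 ≤ (y :: l).length := by simpa using hl
    -- the zeroth face
    have e1 : cup T B i f g (y :: l) = ov B i (trx T x f) (trx T x g) (y :: l) := by
      have hne : (y :: l).drop i ≠ [] := by
        intro hn
        have := congrArg List.length hn
        rw [List.length_drop, List.length_nil] at this
        omega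
      obtain ⟨z, m, hz⟩ := List.exists_cons_of_ne_nil hne
      have hzl : z ∈ y :: l := by
        have : z ∈ (y :: l).drop i := by rw [hz]; simp
        exact List.mem_of_mem_drop this
      have ht : (y :: l).take (i + 1) = y :: l.take i := rfl
      rw [cup_cons, ov, trx, trx, ht, tw_cons, hz, tw_cons, tw_cons, ← hinv x y,
        ← (h x (by simp) y (by simp) z (List.mem_cons_of_mem _ hzl)).1]
      rfl
    have e2 : cup T B (i + 1) (dT T f) g (x :: y :: l) =
        ov B i (trx T x f) (trx T x g) (y :: l) -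
          ov B i (d0 (fun l' => f (x :: l'))) (trx T x g) (y :: l) := by
      have h1 : cup T B (i + 1) (dT T f) g (x :: y :: l) =
        ov B i (fun l' => dT T f (x :: l')) (trx T x g) (y :: l) := rfl
      have h2 : (fun l' => dT T f (x :: l')) = trx T x f - d0 (fun l' => f (x :: l')) := by
        funext l'; rfl
      rw [h1, h2, ov_sub_left]
      rfl
    have e3 : cup T B i f (dT T g) (x :: y :: l) = ov B i f (d0 (trx T x g)) (x :: y :: l) := by
      rw [cup_cons, ov, d0_trx]
      intro a ha b hb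
      exact (h x (by simp) a (List.mem_of_mem_drop ha) b (List.mem_of_mem_drop hb)).1
    rw [dT_cons, tw_cT (by simp), e1, e2, e3]
    have e4 : (fun l' => cup T B i f g (x :: l')) = fun l' => ov B i f (trx T x g) (x :: l') := rfl
    rw [e4]
    cases i with
    | zero =>
      have h1 : (fun l' => ov B 0 f (trx T x g) (x :: l')) =
        fun l' => B (f [x]) (trx T x g (x :: l')) := rfl
      have h2 : d0 (fun l' => B (f [x]) (trx T x g (x :: l'))) (y :: l) =
          B (f [x]) (d0 (fun l' => trx T x g (x :: l')) (y :: l)) :=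
        d0_map (B (f [x])).toAddMonoidHom (fun l' => trx T x g (x :: l')) (y :: l)
      rw [h1, h2, ov_zero_cons, ov_zero_cons, ov_zero_cons]
      rw [show d0 (trx T x g) (x :: y :: l) = trx T x g (y :: l) -
        d0 (fun l' => trx T x g (x :: l')) (y :: l) from d0_cons _ _ _]
      have h3 : d0 (fun l' => f (x :: l')) [y] = f [x] := by simp [d0_cons]
      rw [h3]
      simp
    | succ i =>
      have h1 : (fun l' => ov B (i + 1) f (trx T x g) (x :: l')) =
        ov B i (fun l' => f (x :: l')) (trx T x g) := rfl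
      rw [h1, d0_ov B i _ _ _ (by simpa using hl),
        ov_succ_cons B i f (d0 (trx T x g)) x (y :: l), pow_succ]
      simp only [smul_eq_mul]
      ring

end twisted

section germs

variable {Ω k V : Type*} [PseudoMetricSpace Ω] [CommRing k] [AddCommGroup V] [Module k V]
variable {T : Ω → Ω → (V →ₗ[k] V)} {B : V →ₗ[k] V →ₗ[k] k} {i j n : ℕ} {a : Ω} {S : Set Ω}
  {f g : List Ω → V}

theorem NA.cup_left (hf : NA a (i + 1) f) (hn : i + 1 ≤ n) : NA a n (AS.cup T B i f g) := by
  obtain ⟨e, he, h⟩ := hf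
  refine ⟨e, he, fun l hl hx => ?_⟩
  cases l with
  | nil => rfl
  | cons x l =>
    rw [cup_cons, h ((x :: l).take (i + 1)) (by rw [List.length_take]; omega)
      (fun y hy => hx y (List.mem_of_mem_take hy)), map_zero]
    rfl

theorem NA.cup_right (hg : NA a (j + 1) g) (hn : n = i + j + 1) : NA a n (AS.cup T B i f g) := by
  obtain ⟨e, he, h⟩ := hg
  refine ⟨e, he, fun l hl hx => ?_⟩
  cases l with
  | nil => rfl
  | cons x l =>
    rw [cup_cons, h ((x :: l).drop i) (by rw [List.length_drop]; omega)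
      (fun y hy => hx y (List.mem_of_mem_drop hy))]
    have : tw T x ((x :: l).drop i) (0 : V) = 0 := by
      cases (x :: l).drop i <;> simp
    rw [this, map_zero]

theorem NZ.cup_left (hf : NZ S (i + 1) f) (hn : i + 1 ≤ n) : NZ S n (AS.cup T B i f g) :=
  fun a ha => (hf a ha).cup_left hn

theorem NZ.cup_right (hg : NZ S (j + 1) g) (hn : n = i + j + 1) : NZ S n (AS.cup T B i f g) :=
  fun a ha => (hg a ha).cup_right hn

/-- Leibniz rule near a point -/
theorem NA.leibniz (hinv : ∀ x y v w, B (T x y v) (T x y w) = B v w) (hT : FlatAt T a)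
    (f g : List Ω → V) (hn : i + 2 ≤ n) :
    NA a n (AS.dT (cT : Ω → Ω → (k →ₗ[k] k)) (cup T B i f g) - cup T B (i + 1) (AS.dT T f) g -
      (-1 : k) ^ i • cup T B i f (AS.dT T g)) := by
  obtain ⟨e, he, h⟩ := hT
  refine ⟨e, he, fun l hl hx => ?_⟩
  rw [Pi.sub_apply, Pi.sub_apply, dT_cup hinv f g l (by omega)
    (fun x hx' y hy z hz => h x y z (hx x hx') (hx y hy) (hx z hz)), Pi.smul_apply]
  abel

end germs

end Pool.Agent.Helper60.AS
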