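import Mathlib

/-!
Alexander-Spanier cochains on lists with twisted coefficients.

* a cochain is a function `c : List Ω → V`; its degree `q` part is the restriction to lists of
  length `q + 1`.
* a coefficient system is `T : Ω → Ω → (V →ₗ[k] V)`; it is `Flat` on `S` if near each point of
  `S` (in the ambient space `Ω`) `T x y ∘ T y z = T x z` and `T x x = 1`.
* `NZ S n c`: `c` vanishes on lists of length `n` which are close to a point of `S`.
* `Zc T S S' q`, `Bc T S S' q`: relative cocycles and coboundaries of degree `q` of `(S, S')`.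
-/

set_option autoImplicit false

namespace Pool.Agent.Helper60.AS

open Set

section lists

variable {Ω V W : Type*} [AddCommGroup V] [AddCommGroup W]

/-- value of the untwisted (augmented) coboundary on a list. -/
def dv0 : List Ω → (List Ω → V) → V
  | [], _ => 0
  | x :: l, c => c l - dv0 l (fun l' => c (x :: l'))

/-- untwisted coboundary -/
def d0 (c : List Ω → V) : List Ω → V := fun l => dv0 l c

@[simp] theorem d0_nil (c : List Ω → V) : d0 c [] = 0 := rfl

theorem d0_cons (c : List Ω → V) (x : Ω) (l : List Ω) :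
    d0 c (x :: l) = c l - d0 (fun l' => c (x :: l')) l := rfl

theorem d0_add (b c : List Ω → V) : d0 (b + c) = d0 b + d0 c := by
  funext l
  induction l generalizing b c with
  | nil => simp
  | cons x l ih =>
    have h1 : (fun l' => (b + c) (x :: l')) = (fun l' => b (x :: l')) + (fun l' => c (x :: l')) := rfl
    rw [d0_cons, h1, ih]
    simp only [d0_cons, Pi.add_apply]
    abel

@[simp] theorem d0_zero : d0 (0 : List Ω → V) = 0 := by
  have := d0_add (0 : List Ω → V) 0
  simpa using this

theorem d0_neg (c : List Ω → V) : d0 (-c) = - d0 c := by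
  have h := d0_add (-c) c
  rw [neg_add_cancel, d0_zero] at h
  exact eq_neg_of_add_eq_zero_left h.symm

theorem d0_sub (b c : List Ω → V) : d0 (b - c) = d0 b - d0 c := by
  rw [sub_eq_add_neg, d0_add, d0_neg, ← sub_eq_add_neg]

theorem d0_d0 (c : List Ω → V) : d0 (d0 c) = 0 := by
  funext l
  induction l generalizing c with
  | nil => simp
  | cons x l ih =>
    have h1 : (fun l' => d0 c (x :: l')) = c - d0 (fun l' => c (x :: l')) := by
      funext l'
      simp [d0_cons]
    rw [d0_cons, h1, d0_sub]
    simp only [Pi.sub_apply, ih]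
    simp

/-- pullback along a map of points. -/
def pb {Ω' : Type*} (f : Ω → Ω') (c : List Ω' → V) : List Ω → V := fun l => c (l.map f)

theorem d0_pb {Ω' : Type*} (f : Ω → Ω') (c : List Ω' → V) : d0 (pb f c) = pb f (d0 c) := by
  funext l
  induction l generalizing c with
  | nil => simp [pb]
  | cons x l ih =>
    have h1 : (fun l' => pb f c (x :: l')) = pb f (fun l' => c (f x :: l')) := rfl
    rw [d0_cons, h1, ih]
    simp [pb, d0_cons]

/-- untwisted coboundary and additive maps -/
theorem d0_map (φ : V →+ W) (c : List Ω → V) (l : List Ω) :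
    d0 (fun l => φ (c l)) l = φ (d0 c l) := by
  induction l generalizing c with
  | nil => simp
  | cons x l ih =>
    rw [d0_cons, d0_cons, map_sub, ih (fun l' => c (x :: l'))]

/-- `d0 c l` depends only on the values of `c` on sublists of `l` of length one less. -/
theorem d0_congr {b c : List Ω → V} (l : List Ω)
    (h : ∀ l' : List Ω, l'.length + 1 = l.length → l' ⊆ l → b l' = c l') : d0 b l = d0 c l := by
  induction l generalizing b c with
  | nil => rfl
  | cons x l ih =>
    rw [d0_cons, d0_cons, h l (by simp) (List.subset_cons_self _ _)]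
    congr 1
    apply ih
    intro l' hl' hs
    apply h
    · simp [hl']
    · exact List.cons_subset_cons _ hs

theorem d0_eq_zero {c : List Ω → V} (l : List Ω)
    (h : ∀ l' : List Ω, l'.length + 1 = l.length → l' ⊆ l → c l' = 0) : d0 c l = 0 := by
  rw [d0_congr (c := (0 : List Ω → V)) l (by simpa using h)]
  simp

/-- untwisted prism operator -/
def prv {Ω' : Type*} (f g : Ω → Ω') : List Ω → (List Ω' → V) → V
  | [], _ => 0
  | x :: l, c => c (f x :: g x :: l.map g) - prv f g l (fun l' => c (f x :: l'))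

/-- prism operator (it does not need the coefficient system: the value lies over `f x₀`) -/
def pr {Ω' : Type*} (f g : Ω → Ω') (c : List Ω' → V) : List Ω → V := fun l => prv f g l c

@[simp] theorem pr_nil {Ω' : Type*} (f g : Ω → Ω') (c : List Ω' → V) : pr f g c [] = 0 := rfl

theorem pr_cons {Ω' : Type*} (f g : Ω → Ω') (c : List Ω' → V) (x : Ω) (l : List Ω) :
    pr f g c (x :: l) = c (f x :: g x :: l.map g) - pr f g (fun l' => c (f x :: l')) l := rfl

theorem pr_add {Ω' : Type*} (f g : Ω → Ω') (b c : List Ω' → V) :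
    pr f g (b + c) = pr f g b + pr f g c := by
  funext l
  induction l generalizing b c with
  | nil => simp
  | cons x l ih =>
    have h1 : (fun l' => (b + c) (f x :: l')) = (fun l' => b (f x :: l')) + (fun l' => c (f x :: l')) := rfl
    rw [pr_cons, h1, ih]
    simp only [pr_cons, Pi.add_apply]
    abel

@[simp] theorem pr_zero {Ω' : Type*} (f g : Ω → Ω') : pr f g (0 : List Ω' → V) = 0 := by
  have := pr_add f g (0 : List Ω' → V) 0
  simpa using this

theorem pr_neg {Ω' : Type*} (f g : Ω → Ω') (c : List Ω' → V) : pr f g (-c) = - pr f g c := by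
  have h := pr_add f g (-c) c
  rw [neg_add_cancel, pr_zero] at h
  exact eq_neg_of_add_eq_zero_left h.symm

theorem pr_sub {Ω' : Type*} (f g : Ω → Ω') (b c : List Ω' → V) :
    pr f g (b - c) = pr f g b - pr f g c := by
  rw [sub_eq_add_neg, pr_add, pr_neg, ← sub_eq_add_neg]

/-- the untwisted prism identity. -/
theorem prism0 {Ω' : Type*} (f g : Ω → Ω') (c : List Ω' → V) :
    d0 (pr f g c) + pr f g (d0 c) = pb g c - pb f c := by
  funext l
  induction l generalizing c with
  | nil => simp [pb]
  | cons x l ih =>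
    simp only [Pi.add_apply, Pi.sub_apply] at ih ⊢
    have h1 : (fun l' => pr f g c (x :: l')) =
        pb g (fun l' => c (f x :: g x :: l')) - pr f g (fun l' => c (f x :: l')) := by
      funext l'
      simp [pr_cons, pb]
    have h2 : (fun l' => d0 c (f x :: l')) = c - d0 (fun l' => c (f x :: l')) := by
      funext l'
      simp [d0_cons]
    rw [d0_cons, h1, d0_sub, pr_cons, h2, pr_sub, d0_pb]
    have h3 := ih (fun l' => c (f x :: l'))
    simp only [Pi.sub_apply, pb, List.map_cons, d0_cons] at h3 ⊢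
    have h4 : pr f g (d0 fun l' => c (f x :: l')) l =
      c (f x :: l.map g) - c (f x :: l.map f) - d0 (pr f g fun l' => c (f x :: l')) l := by
      rw [← h3]; abel
    rw [h4]
    abel

/-- `pr f g c l` depends only on the values of `c` on lists of points of `f '' l ∪ g '' l`. -/
theorem pr_congr {Ω' : Type*} (f g : Ω → Ω') (l : List Ω) :
    ∀ (b c : List Ω' → V), (∀ l' : List Ω', l'.length = l.length + 1 →
      (∀ y ∈ l', ∃ x ∈ l, y = f x ∨ y = g x) → b l' = c l') → pr f g b l = pr f g c l := by
  induction l with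
  | nil => intro b c _; rfl
  | cons x l ih =>
    intro b c h
    rw [pr_cons, pr_cons, h (f x :: g x :: l.map g) (by simp) _,
      ih (fun l' => b (f x :: l')) (fun l' => c (f x :: l'))]
    · intro l' hl' hm
      apply h
      · simp [hl']
      · intro y hy
        rcases List.mem_cons.1 hy with rfl | hy
        · exact ⟨x, by simp, Or.inl rfl⟩
        · obtain ⟨z, hz, h'⟩ := hm y hy
          exact ⟨z, List.mem_cons_of_mem _ hz, h'⟩
    · intro y hy
      rcases List.mem_cons.1 hy with rfl | hy
      · exact ⟨x, by simp, Or.inl rfl⟩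
      rcases List.mem_cons.1 hy with rfl | hy
      · exact ⟨x, by simp, Or.inr rfl⟩
      obtain ⟨z, hz, rfl⟩ := List.mem_map.1 hy
      exact ⟨z, List.mem_cons_of_mem _ hz, Or.inr rfl⟩

end lists

section twisted

variable {Ω Ω' k V W : Type*} [CommRing k] [AddCommGroup V] [Module k V]
  [AddCommGroup W] [Module k W]

/-- the twist of the zeroth face -/
def tw (T : Ω → Ω → (V →ₗ[k] V)) (x : Ω) : List Ω → V → V
  | [], _ => 0
  | y :: _, v => T x y v

@[simp] theorem tw_nil (T : Ω → Ω → (V →ₗ[k] V)) (x : Ω) (v : V) : tw T x [] v = 0 := rfl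
@[simp] theorem tw_cons (T : Ω → Ω → (V →ₗ[k] V)) (x y : Ω) (l : List Ω) (v : V) :
    tw T x (y :: l) v = T x y v := rfl

theorem tw_add (T : Ω → Ω → (V →ₗ[k] V)) (x : Ω) (l : List Ω) (v w : V) :
    tw T x l (v + w) = tw T x l v + tw T x l w := by
  cases l <;> simp

theorem tw_smul (T : Ω → Ω → (V →ₗ[k] V)) (x : Ω) (l : List Ω) (a : k) (v : V) :
    tw T x l (a • v) = a • tw T x l v := by
  cases l <;> simp

/-- twisted coboundary -/
def dT (T : Ω → Ω → (V →ₗ[k] V)) (c : List Ω → V) : List Ω → V
  | [] => 0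
  | x :: l => tw T x l (c l) - d0 (fun l' => c (x :: l')) l

@[simp] theorem dT_nil (T : Ω → Ω → (V →ₗ[k] V)) (c : List Ω → V) : dT T c [] = 0 := rfl
theorem dT_cons (T : Ω → Ω → (V →ₗ[k] V)) (c : List Ω → V) (x : Ω) (l : List Ω) :
    dT T c (x :: l) = tw T x l (c l) - d0 (fun l' => c (x :: l')) l := rfl
@[simp] theorem dT_one (T : Ω → Ω → (V →ₗ[k] V)) (c : List Ω → V) (x : Ω) :
    dT T c [x] = 0 := by simp [dT_cons]
theorem dT_two (T : Ω → Ω → (V →ₗ[k] V)) (c : List Ω → V) (x y : Ω) :
    dT T c [x, y] = T x y (c [y]) - c [x] := by simp [dT_cons, d0_cons]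
theorem dT_three (T : Ω → Ω → (V →ₗ[k] V)) (c : List Ω → V) (x y z : Ω) :
    dT T c [x, y, z] = T x y (c [y, z]) - c [x, z] + c [x, y] := by
  simp [dT_cons, d0_cons]; abel

theorem dT_add (T : Ω → Ω → (V →ₗ[k] V)) (b c : List Ω → V) :
    dT T (b + c) = dT T b + dT T c := by
  funext l
  cases l with
  | nil => simp
  | cons x l =>
    have h1 : (fun l' => (b + c) (x :: l')) = (fun l' => b (x :: l')) + (fun l' => c (x :: l')) := rfl
    rw [dT_cons, h1, d0_add, Pi.add_apply, Pi.add_apply, Pi.add_apply, tw_add, dT_cons, dT_cons]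
    abel

theorem dT_smul (T : Ω → Ω → (V →ₗ[k] V)) (a : k) (c : List Ω → V) :
    dT T (a • c) = a • dT T c := by
  funext l
  cases l with
  | nil => simp
  | cons x l =>
    have h1 : d0 (fun l' => (a • c) (x :: l')) l = a • d0 (fun l' => c (x :: l')) l :=
      d0_map (DistribSMul.toAddMonoidHom V a) (fun l' => c (x :: l')) l
    rw [dT_cons, h1, Pi.smul_apply, Pi.smul_apply, tw_smul, dT_cons, smul_sub]

/-- the twisted coboundary as a linear map -/
def dL (T : Ω → Ω → (V →ₗ[k] V)) : (List Ω → V) →ₗ[k] (List Ω → V) where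
  toFun := dT T
  map_add' := dT_add T
  map_smul' := dT_smul T

@[simp] theorem dL_apply (T : Ω → Ω → (V →ₗ[k] V)) (c : List Ω → V) : dL T c = dT T c := rfl

theorem dT_zero (T : Ω → Ω → (V →ₗ[k] V)) : dT T (0 : List Ω → V) = 0 := (dL T).map_zero
theorem dT_neg (T : Ω → Ω → (V →ₗ[k] V)) (c : List Ω → V) : dT T (-c) = - dT T c :=
  (dL T).map_neg c
theorem dT_sub (T : Ω → Ω → (V →ₗ[k] V)) (b c : List Ω → V) :
    dT T (b - c) = dT T b - dT T c := (dL T).map_sub b c

/-- `dT T c l` depends only on the values of `c` on sublists of `l` of length one less. -/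
theorem dT_congr (T : Ω → Ω → (V →ₗ[k] V)) {b c : List Ω → V} (l : List Ω)
    (h : ∀ l' : List Ω, l'.length + 1 = l.length → l' ⊆ l → b l' = c l') :
    dT T b l = dT T c l := by
  cases l with
  | nil => rfl
  | cons x l =>
    rw [dT_cons, dT_cons, h l (by simp) (List.subset_cons_self _ _)]
    congr 1
    apply d0_congr
    intro l' hl' hs
    apply h
    · simp [hl']
    · exact List.cons_subset_cons _ hs

theorem dT_congr_T {T T' : Ω → Ω → (V →ₗ[k] V)} (c : List Ω → V) (l : List Ω)
    (h : ∀ x ∈ l, ∀ y ∈ l, T x y = T' x y) : dT T c l = dT T' c l := by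
  cases l with
  | nil => rfl
  | cons x l =>
    cases l with
    | nil => simp
    | cons y l =>
      rw [dT_cons, dT_cons, tw_cons, tw_cons, h x (by simp) y (by simp)]

/-- `d ∘ d = 0` where the system is multiplicative. -/
theorem dT_dT (T : Ω → Ω → (V →ₗ[k] V)) (c : List Ω → V) (l : List Ω)
    (h : ∀ x ∈ l, ∀ y ∈ l, ∀ z ∈ l, T x y ∘ₗ T y z = T x z) : dT T (dT T c) l = 0 := by
  cases l with
  | nil => rfl
  | cons x l =>
    have h1 : (fun l' => dT T c (x :: l')) =
        (fun l' => tw T x l' (c l')) - d0 (fun l' => c (x :: l')) := by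
      funext l'
      rfl
    rw [dT_cons, h1, d0_sub, d0_d0, sub_zero]
    cases l with
    | nil => simp
    | cons y l =>
      rw [tw_cons, d0_cons, dT_cons, map_sub]
      have h2 : d0 (fun l' => tw T x (y :: l') (c (y :: l'))) l =
          T x y (d0 (fun l' => c (y :: l')) l) :=
        d0_map (T x y).toAddMonoidHom (fun l' => c (y :: l')) l
      rw [h2]
      have h3 : T x y (tw T y l (c l)) = tw T x l (c l) := by
        cases l with
        | nil => simp
        | cons z l =>
          rw [tw_cons, tw_cons, ← h x (by simp) y (by simp) z (by simp)]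
          rfl
      rw [h3]
      abel

/-- pullback of a coefficient system -/
def pT (f : Ω' → Ω) (T : Ω → Ω → (V →ₗ[k] V)) : Ω' → Ω' → (V →ₗ[k] V) :=
  fun x y => T (f x) (f y)

theorem dT_pb (f : Ω' → Ω) (T : Ω → Ω → (V →ₗ[k] V)) (c : List Ω → V) :
    dT (pT f T) (pb f c) = pb f (dT T c) := by
  funext l
  cases l with
  | nil => rfl
  | cons x l =>
    have h1 : (fun l' => pb f c (x :: l')) = pb f (fun l' => c (f x :: l')) := rfl
    rw [dT_cons, h1, d0_pb]
    simp only [pb, List.map_cons, dT_cons]
    congr 1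
    cases l <;> simp [pT]

/-- multiply a cochain by a (point dependent) linear map on the fibre over the first point -/
def gm (u : Ω → (V →ₗ[k] W)) (c : List Ω → V) : List Ω → W
  | [] => 0
  | x :: l => u x (c (x :: l))

@[simp] theorem gm_nil (u : Ω → (V →ₗ[k] W)) (c : List Ω → V) : gm u c [] = 0 := rfl
@[simp] theorem gm_cons (u : Ω → (V →ₗ[k] W)) (c : List Ω → V) (x : Ω) (l : List Ω) :
    gm u c (x :: l) = u x (c (x :: l)) := rfl

/-- gauge transformations / coefficient maps commute with the coboundary. -/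
theorem dT_gm (T : Ω → Ω → (V →ₗ[k] V)) (T' : Ω → Ω → (W →ₗ[k] W)) (u : Ω → (V →ₗ[k] W))
    (c : List Ω → V) (l : List Ω) (h : ∀ x ∈ l, ∀ y ∈ l, T' x y ∘ₗ u y = u x ∘ₗ T x y) :
    dT T' (gm u c) l = gm u (dT T c) l := by
  cases l with
  | nil => rfl
  | cons x l =>
    have h2 : d0 (fun l' => gm u c (x :: l')) l = u x (d0 (fun l' => c (x :: l')) l) :=
      d0_map (u x).toAddMonoidHom (fun l' => c (x :: l')) l
    rw [dT_cons, h2, gm_cons, dT_cons, map_sub]
    congr 1
    cases l with
    | nil => simp
    | cons y l =>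
      rw [tw_cons, tw_cons, gm_cons, ← LinearMap.comp_apply, h x (by simp) y (by simp)]
      rfl

theorem map_pr {Ω₁ Ω₂ : Type*} (f g : Ω₁ → Ω₂) (m : List Ω₁) :
    ∀ (e : List Ω₂ → V) (φ : V →ₗ[k] V), φ (pr f g e m) = pr f g (fun l' => φ (e l')) m := by
  induction m with
  | nil => intro e φ; simp
  | cons z m ih =>
    intro e φ
    rw [pr_cons, pr_cons, map_sub, ih]

/-- the twisted prism identity. -/
theorem prism (T : Ω → Ω → (V →ₗ[k] V)) (f g : Ω' → Ω) (c : List Ω → V) (x : Ω') (l : List Ω') :
    dT (pT f T) (pr f g c) (x :: l) + pr f g (dT T c) (x :: l) =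
      T (f x) (g x) (pb g c (x :: l)) - pb f c (x :: l) := by
  have h1 : (fun l' => pr f g c (x :: l')) =
      pb g (fun l' => c (f x :: g x :: l')) - pr f g (fun l' => c (f x :: l')) := by
    funext l'
    simp [pr_cons, pb]
  have h2 : (fun l' => dT T c (f x :: l')) =
      (fun l' => tw T (f x) l' (c l')) - d0 (fun l' => c (f x :: l')) := by
    funext l'
    rfl
  have h5 : tw (pT f T) x l (pr f g c l) = pr f g (fun l' => tw T (f x) l' (c l')) l := by
    cases l with
    | nil => simp
    | cons y l =>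
      rw [tw_cons, pr_cons, pr_cons, map_sub, map_pr]
      simp only [tw_cons, pT]
  have h3 := congrFun (prism0 f g (fun l' => c (f x :: l'))) l
  simp only [Pi.add_apply, Pi.sub_apply, pb] at h3
  have h4 : pr f g (d0 fun l' => c (f x :: l')) l =
    c (f x :: l.map g) - c (f x :: l.map f) - d0 (pr f g fun l' => c (f x :: l')) l := by
    rw [← h3]; abel
  rw [dT_cons, h1, d0_sub, pr_cons, h2, pr_sub, d0_pb, h5, Pi.sub_apply, Pi.sub_apply, h4]
  simp only [dT_cons, tw_cons, d0_cons, List.map_cons, pb]
  abel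

end twisted

end Pool.Agent.Helper60.AS
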