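import Pool.Agent.Helper60.AS.Germ

/-! Long exact sequence of a triple, Mayer-Vietoris, excision (cochain level and for `H`). -/

set_option autoImplicit false
set_option linter.unusedVariables false

namespace Pool.Agent.Helper60.AS

open Set

variable {Ω k V : Type*} [PseudoMetricSpace Ω] [CommRing k] [AddCommGroup V] [Module k V]
variable {T : Ω → Ω → (V →ₗ[k] V)} {S S' S'' S₁ S₁' S₂ S₂' : Set Ω} {b c : List Ω → V} {q : ℕ}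

/-! ### auxiliary lemmas -/

theorem NZ.congr {n : ℕ} (h : NZ S n b) (e : ∀ l : List Ω, l.length = n → c l = b l) : NZ S n c := by
  intro a ha
  obtain ⟨ε, hε, h'⟩ := h a ha
  exact ⟨ε, hε, fun l hl hx => by rw [e l hl, h' l hl hx]⟩

theorem NZ.of_eq {n : ℕ} (h : NZ S n b) (e : c = b) : NZ S n c := e ▸ h

theorem NZ.sub_comm {n : ℕ} (h : NZ S n (b - c)) : NZ S n (c - b) := by
  have := h.neg
  rwa [neg_sub] at this

theorem mem_Bc_of_NZ (h : NZ S (q + 1) c) : c ∈ Bc T S S' q :=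
  ⟨0, NZ.zero, by rw [dT_zero, sub_zero]; exact h⟩

theorem mem_Bc_zero : c ∈ Bc T S S' 0 ↔ NZ S 1 c := by
  constructor
  · rintro ⟨b, -, h⟩
    refine NZ.congr h fun l hl => ?_
    obtain ⟨x, rfl⟩ := List.length_eq_one_iff.1 hl
    simp
  · exact fun h => mem_Bc_of_NZ h

theorem dT_mem_Bc (hb : NZ S' q b) : dT T b ∈ Bc T S S' q :=
  ⟨b, hb, by rw [sub_self]; exact NZ.zero⟩

/-- splitting of a coboundary; this also works in degree `0`. -/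
theorem dT_split (T : Ω → Ω → (V →ₗ[k] V)) (h1 : IsClosed S₁) (h2 : IsClosed S₂)
    (hb : NZ (S₁ ∩ S₂) q b) :
    ∃ b₁ b₂ e : List Ω → V, NZ S₁ q b₁ ∧ NZ S₂ q b₂ ∧ NZ univ (q + 1) e ∧
      dT T b = dT T b₁ + dT T b₂ + e := by
  rcases Nat.eq_zero_or_pos q with rfl | hq
  · refine ⟨0, 0, dT T b, NZ.zero, NZ.zero, ?_, by simp [dT_zero]⟩
    refine NZ.congr (b := 0) NZ.zero fun l hl => ?_
    obtain ⟨x, rfl⟩ := List.length_eq_one_iff.1 hl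
    simp
  · obtain ⟨b₁, b₂, rfl, hb₁, hb₂⟩ := NZ.inter_split h1 h2 hq hb
    exact ⟨b₁, b₂, 0, hb₁, hb₂, NZ.zero, by rw [dT_add, add_zero]⟩

theorem Hres_mk {h : S₂ ⊆ S₁} {h' : S₂' ⊆ S₁'} (c : Zc T S₁ S₁' q) :
    Hres T h h' q (H.mk T S₁ S₁' q c) = H.mk T S₂ S₂' q ⟨c, Zc_mono h h' q c.2⟩ := rfl

theorem Hd_mk (hT : Flat T S) (h : S' ⊆ S) (c : Zc T S' S'' q) :
    Hd T hT h q (H.mk T S' S'' q c) =
      H.mk T S S' (q + 1) ⟨dT T c, ⟨c.2.2, nz_dT_dT hT _ _⟩⟩ := rfl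

theorem H.mk_eq_mk (c c' : Zc T S S' q) :
    H.mk T S S' q c = H.mk T S S' q c' ↔ (c : List Ω → V) - c' ∈ Bc T S S' q := by
  rw [← sub_eq_zero, ← map_sub, H.mk_eq_zero]
  rfl

/-! ### triples `S'' ⊆ S' ⊆ S` -/

theorem exact_triple1 (hT : Flat T S) (h : S' ⊆ S) (h' : S'' ⊆ S') (q : ℕ) :
    Function.Exact (Hres T (le_refl S) h' q : H T S S' q →ₗ[k] H T S S'' q)
      (Hres T h (le_refl S'') q : H T S S'' q →ₗ[k] H T S' S'' q) := by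
  intro x
  obtain ⟨⟨c, hc⟩, rfl⟩ := H.mk_surjective q x
  rw [Hres_mk, H.mk_eq_zero]
  constructor
  · rintro ⟨b, hb, hcb⟩
    refine ⟨H.mk T S S' q ⟨c - dT T b, hcb, ?_⟩, ?_⟩
    · rw [dT_sub]
      exact hc.2.sub (nz_dT_dT hT b _)
    · rw [Hres_mk, H.mk_eq_mk]
      show c - dT T b - c ∈ _
      have e : c - dT T b - c = -dT T b := by abel
      rw [e]
      exact (Bc T S S'' q).neg_mem (dT_mem_Bc hb)
  · rintro ⟨y, hy⟩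
    obtain ⟨⟨c', hc'⟩, rfl⟩ := H.mk_surjective q y
    rw [Hres_mk, H.mk_eq_mk] at hy
    have h1 : c' ∈ Bc T S' S'' q := mem_Bc_of_NZ hc'.1
    have h2 : c' - c ∈ Bc T S' S'' q := Bc_mono h (le_refl S'') q hy
    have e : c = c' - (c' - c) := by abel
    show c ∈ _
    rw [e]
    exact (Bc T S' S'' q).sub_mem h1 h2

theorem exact_triple2 (hT : Flat T S) (h : S' ⊆ S) (h' : S'' ⊆ S') (q : ℕ) :
    Function.Exact (Hres T h (le_refl S'') q : H T S S'' q →ₗ[k] H T S' S'' q)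
      (Hd T hT h q : H T S' S'' q →ₗ[k] H T S S' (q + 1)) := by
  intro x
  obtain ⟨⟨c, hc⟩, rfl⟩ := H.mk_surjective q x
  rw [Hd_mk, H.mk_eq_zero]
  constructor
  · rintro ⟨b, hb, hcb⟩
    refine ⟨H.mk T S S'' q ⟨c - b, hc.1.sub (hb.mono h'), ?_⟩, ?_⟩
    · rw [dT_sub]
      exact hcb
    · rw [Hres_mk, H.mk_eq_mk]
      show c - b - c ∈ _
      have e : c - b - c = -b := by abel
      rw [e]
      exact (Bc T S' S'' q).neg_mem (mem_Bc_of_NZ hb)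
  · rintro ⟨y, hy⟩
    obtain ⟨⟨c', hc'⟩, rfl⟩ := H.mk_surjective q y
    rw [Hres_mk, H.mk_eq_mk] at hy
    obtain ⟨b, hb, hb'⟩ := hy
    show dT T c ∈ _
    have hb' : NZ S' (q + 1) (c' - c - dT T b) := hb'
    refine ⟨-(c' - c - dT T b), hb'.neg, ?_⟩
    have e : dT T c - dT T (-(c' - c - dT T b)) = dT T c' - dT T (dT T b) := by
      rw [dT_neg, dT_sub, dT_sub]; abel
    rw [e]
    exact hc'.2.sub (nz_dT_dT hT b _)

theorem exact_triple3 (hT : Flat T S) (h : S' ⊆ S) (h' : S'' ⊆ S') (q : ℕ) :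
    Function.Exact (Hd T hT h q : H T S' S'' q →ₗ[k] H T S S' (q + 1))
      (Hres T (le_refl S) h' (q + 1) : H T S S' (q + 1) →ₗ[k] H T S S'' (q + 1)) := by
  intro x
  obtain ⟨⟨c, hc⟩, rfl⟩ := H.mk_surjective (q + 1) x
  rw [Hres_mk, H.mk_eq_zero]
  constructor
  · rintro ⟨b, hb, hcb⟩
    have hcb : NZ S (q + 2) (c - dT T b) := hcb
    have hb2 : NZ S' (q + 2) (dT T b) := by
      have := hc.1.sub (hcb.mono h)
      rwa [sub_sub_cancel] at this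
    refine ⟨H.mk T S' S'' q ⟨b, hb, hb2⟩, ?_⟩
    rw [Hd_mk, H.mk_eq_mk]
    exact mem_Bc_of_NZ hcb.sub_comm
  · rintro ⟨y, hy⟩
    obtain ⟨⟨c', hc'⟩, rfl⟩ := H.mk_surjective q y
    rw [Hd_mk, H.mk_eq_mk] at hy
    have h1 : dT T c' ∈ Bc T S S'' (q + 1) := dT_mem_Bc hc'.1
    have h2 : dT T c' - c ∈ Bc T S S'' (q + 1) := Bc_mono (le_refl S) h' (q + 1) hy
    have e : c = dT T c' - (dT T c' - c) := by abel
    show c ∈ _
    rw [e]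
    exact (Bc T S S'' (q + 1)).sub_mem h1 h2

theorem inj_triple0 (hT : Flat T S) (h : S' ⊆ S) (h' : S'' ⊆ S') :
    Function.Injective (Hres T (le_refl S) h' 0 : H T S S' 0 →ₗ[k] H T S S'' 0) := by
  rw [injective_iff_map_eq_zero]
  intro x hx
  obtain ⟨⟨c, hc⟩, rfl⟩ := H.mk_surjective 0 x
  rw [Hres_mk, H.mk_eq_zero, mem_Bc_zero] at hx
  rw [H.mk_eq_zero, mem_Bc_zero]
  exact hx

theorem HV_triple_mid (hT : Flat T S) (h : S' ⊆ S) (h' : S'' ⊆ S')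
    (h1 : HV T S S' q) (h2 : HV T S' S'' q) : HV T S S'' q := by
  intro c hc
  obtain ⟨b, hb, hcb⟩ := h2 (Zc_mono h (le_refl S'') q hc)
  have h3 : c - dT T b ∈ Bc T S S' q := by
    apply h1
    refine ⟨hcb, ?_⟩
    rw [dT_sub]
    exact hc.2.sub (nz_dT_dT hT b _)
  have h4 := Bc_mono (le_refl S) h' q h3
  have h5 : dT T b ∈ Bc T S S'' q := dT_mem_Bc hb
  have := (Bc T S S'' q).add_mem h4 h5
  rwa [sub_add_cancel] at this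

theorem HV_triple_sub (hT : Flat T S) (h : S' ⊆ S) (h' : S'' ⊆ S')
    (h1 : HV T S S'' q) (h2 : HV T S S' (q + 1)) : HV T S' S'' q := by
  intro c hc
  obtain ⟨b, hb, hcb⟩ := h2 (show dT T c ∈ Zc T S S' (q + 1) from ⟨hc.2, nz_dT_dT hT _ _⟩)
  have h3 : c - b ∈ Zc T S S'' q := by
    refine ⟨hc.1.sub (hb.mono h'), ?_⟩
    rw [dT_sub]
    exact hcb
  have h4 := Bc_mono h (le_refl S'') q (h1 h3)
  have h5 : b ∈ Bc T S' S'' q := mem_Bc_of_NZ hb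
  have := (Bc T S' S'' q).add_mem h4 h5
  rwa [sub_add_cancel] at this

theorem HV_triple_quot (hT : Flat T S) (h : S' ⊆ S) (h' : S'' ⊆ S')
    (h1 : HV T S' S'' q) (h2 : HV T S S'' (q + 1)) : HV T S S' (q + 1) := by
  intro c hc
  obtain ⟨b, hb, hcb⟩ := h2 (Zc_mono (le_refl S) h' (q + 1) hc)
  have hcb : NZ S (q + 2) (c - dT T b) := hcb
  have hb2 : NZ S' (q + 2) (dT T b) := by
    have := hc.1.sub (hcb.mono h)
    rwa [sub_sub_cancel] at this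
  obtain ⟨a, ha, hab⟩ := h1 (show b ∈ Zc T S' S'' q from ⟨hb, hb2⟩)
  refine ⟨b - dT T a, hab, ?_⟩
  have e : c - dT T (b - dT T a) = (c - dT T b) + dT T (dT T a) := by
    rw [dT_sub]; abel
  rw [e]
  exact hcb.add (nz_dT_dT hT a _)

theorem HV_triple_quot0 (hT : Flat T S) (h : S' ⊆ S) (h' : S'' ⊆ S')
    (h2 : HV T S S'' 0) : HV T S S' 0 := by
  intro c hc
  have := h2 (Zc_mono (le_refl S) h' 0 hc)
  rw [mem_Bc_zero] at this ⊢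
  exact this

/-- `HV` in terms of the quotient -/
theorem HV_iff_subsingleton : HV T S S' q ↔ Subsingleton (H T S S' q) := by
  rw [Submodule.Quotient.subsingleton_iff, Submodule.comap_subtype_eq_top]
  rfl

/-! ### Mayer-Vietoris for closed pairs -/

/-- gluing of two relative cocycles which agree up to a coboundary on the intersection -/
theorem mv_glue (c1 : IsClosed S₁) (c2 : IsClosed S₂) (c1' : IsClosed S₁') (c2' : IsClosed S₂')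
    (h1 : S₁' ⊆ S₁) (h2 : S₂' ⊆ S₂) (hT : Flat T (S₁ ∪ S₂)) {c₁ c₂ : List Ω → V}
    (hc1 : c₁ ∈ Zc T S₁ S₁' q) (hc2 : c₂ ∈ Zc T S₂ S₂' q)
    (h : c₁ - c₂ ∈ Bc T (S₁ ∩ S₂) (S₁' ∩ S₂') q) :
    ∃ c ∈ Zc T (S₁ ∪ S₂) (S₁' ∪ S₂') q, c - c₁ ∈ Bc T S₁ S₁' q ∧ c - c₂ ∈ Bc T S₂ S₂' q := by
  obtain ⟨b, hb, hr⟩ := h
  obtain ⟨b₁, b₂, e, hb₁, hb₂, he, hbe⟩ := dT_split T c1' c2' hb
  obtain ⟨r₁, r₂, hrr, hr₁, hr₂⟩ := NZ.inter_split c1 c2 (Nat.succ_pos q) hr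
  have hT1 : Flat T S₁ := hT.mono subset_union_left
  have hT2 : Flat T S₂ := hT.mono subset_union_right
  have key : c₁ - dT T b₁ - r₁ = c₂ + dT T b₂ + r₂ + e := by
    have : c₁ = c₂ + dT T b + (r₁ + r₂) := by rw [← hrr]; abel
    rw [this, hbe]; abel
  refine ⟨c₁ - dT T b₁ - r₁, ⟨NZ.union ?_ ?_, NZ.union ?_ ?_⟩, ?_, ?_⟩
  · exact (hc1.1.sub (hb₁.dT T)).sub (hr₁.mono h1)
  · rw [key]
    exact ((hc2.1.add (hb₂.dT T)).add (hr₂.mono h2)).add (he.mono (subset_univ _))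
  · rw [dT_sub, dT_sub]
    exact (hc1.2.sub (nz_dT_dT hT1 _ _)).sub (hr₁.dT T)
  · rw [key, dT_add, dT_add, dT_add]
    exact ((hc2.2.add (nz_dT_dT hT2 _ _)).add (hr₂.dT T)).add
      ((he.mono (subset_univ _)).dT T)
  · refine ⟨-b₁, hb₁.neg, ?_⟩
    refine NZ.of_eq hr₁.neg ?_
    rw [dT_neg]; abel
  · refine ⟨b₂, hb₂, ?_⟩
    refine NZ.of_eq (hr₂.add (he.mono (subset_univ _))) ?_
    rw [key]; abel

/-- the Mayer-Vietoris connecting relation: `c = δ h` -/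
def MVd (T : Ω → Ω → (V →ₗ[k] V)) (S₁ S₁' S₂ S₂' : Set Ω) (q : ℕ) (h c : List Ω → V) : Prop :=
  ∃ b₁ b₂ : List Ω → V, NZ S₁' (q + 1) b₁ ∧ NZ S₂' (q + 1) b₂ ∧ NZ S₁ (q + 2) (c - dT T b₁) ∧
    NZ S₂ (q + 2) (c - dT T b₂) ∧ NZ (S₁ ∩ S₂) (q + 1) (h - (b₁ - b₂))

theorem mvd_exists (c1 : IsClosed S₁) (c2 : IsClosed S₂) (c1' : IsClosed S₁') (c2' : IsClosed S₂')
    (h1 : S₁' ⊆ S₁) (h2 : S₂' ⊆ S₂) (hT : Flat T (S₁ ∪ S₂)) {h : List Ω → V}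
    (hh : h ∈ Zc T (S₁ ∩ S₂) (S₁' ∩ S₂') q) :
    ∃ c ∈ Zc T (S₁ ∪ S₂) (S₁' ∪ S₂') (q + 1), MVd T S₁ S₁' S₂ S₂' q h c := by
  obtain ⟨b₁, b₂, hbb, hb₁, hb₂⟩ := NZ.inter_split c1' c2' (Nat.succ_pos q) hh.1
  obtain ⟨r₁, r₂, hrr, hr₁, hr₂⟩ := NZ.inter_split c1 c2 (Nat.succ_pos (q + 1)) hh.2
  have hT1 : Flat T S₁ := hT.mono subset_union_left
  have hT2 : Flat T S₂ := hT.mono subset_union_right
  have key : dT T b₁ - r₁ = -dT T b₂ + r₂ := by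
    have : dT T b₁ + dT T b₂ = r₁ + r₂ := by rw [← dT_add, ← hbb, hrr]
    have e2 : dT T b₁ - r₁ - (-dT T b₂ + r₂) = (dT T b₁ + dT T b₂) - (r₁ + r₂) := by abel
    rw [← sub_eq_zero, e2, this, sub_self]
  refine ⟨dT T b₁ - r₁, ⟨NZ.union ?_ ?_, NZ.union ?_ ?_⟩, b₁, -b₂, hb₁, hb₂.neg, ?_, ?_, ?_⟩
  · exact (hb₁.dT T).sub (hr₁.mono h1)
  · rw [key]; exact (hb₂.dT T).neg.add (hr₂.mono h2)
  · rw [dT_sub]; exact (nz_dT_dT hT1 _ _).sub (hr₁.dT T)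
  · rw [key, dT_add, dT_neg]; exact (nz_dT_dT hT2 _ _).neg.add (hr₂.dT T)
  · exact NZ.of_eq hr₁.neg (by abel)
  · refine NZ.of_eq hr₂ ?_
    rw [key, dT_neg]; abel
  · refine NZ.of_eq (NZ.zero) ?_
    rw [hbb]; abel

/-- a class which dies on both pieces comes from the intersection -/
theorem mvd_of_zero (c1 : IsClosed S₁) (c2 : IsClosed S₂) (c1' : IsClosed S₁') (c2' : IsClosed S₂')
    (h1 : S₁' ⊆ S₁) (h2 : S₂' ⊆ S₂) (hT : Flat T (S₁ ∪ S₂)) {c : List Ω → V}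
    (hc : c ∈ Zc T (S₁ ∪ S₂) (S₁' ∪ S₂') (q + 1)) (hc1 : c ∈ Bc T S₁ S₁' (q + 1))
    (hc2 : c ∈ Bc T S₂ S₂' (q + 1)) :
    ∃ h ∈ Zc T (S₁ ∩ S₂) (S₁' ∩ S₂') q, MVd T S₁ S₁' S₂ S₂' q h c := by
  obtain ⟨b₁, hb₁, hcb₁⟩ := hc1
  obtain ⟨b₂, hb₂, hcb₂⟩ := hc2
  refine ⟨b₁ - b₂, ⟨(hb₁.mono inter_subset_left).sub (hb₂.mono inter_subset_right), ?_⟩,
    b₁, b₂, hb₁, hb₂, hcb₁, hcb₂, ?_⟩
  · refine NZ.of_eq ((NZ.mono hcb₂ inter_subset_right).sub (NZ.mono hcb₁ inter_subset_left)) ?_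
    rw [dT_sub]; abel
  · exact NZ.of_eq NZ.zero (by abel)

/-- `δ h = 0` iff `h` is a difference of cocycles on the two pieces -/
theorem mvd_eq_zero (c1 : IsClosed S₁) (c2 : IsClosed S₂) (c1' : IsClosed S₁') (c2' : IsClosed S₂')
    (h1 : S₁' ⊆ S₁) (h2 : S₂' ⊆ S₂) (hT : Flat T (S₁ ∪ S₂)) {h c : List Ω → V}
    (hh : h ∈ Zc T (S₁ ∩ S₂) (S₁' ∩ S₂') q) (hhc : MVd T S₁ S₁' S₂ S₂' q h c) :
    c ∈ Bc T (S₁ ∪ S₂) (S₁' ∪ S₂') (q + 1) ↔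
      ∃ c₁ ∈ Zc T S₁ S₁' q, ∃ c₂ ∈ Zc T S₂ S₂' q, h - (c₁ - c₂) ∈ Bc T (S₁ ∩ S₂) (S₁' ∩ S₂') q := by
  obtain ⟨b₁, b₂, hb₁, hb₂, hcb₁, hcb₂, hhb⟩ := hhc
  have hT1 : Flat T S₁ := hT.mono subset_union_left
  have hT2 : Flat T S₂ := hT.mono subset_union_right
  constructor
  · rintro ⟨b, hb, hcb⟩
    have hcb : NZ (S₁ ∪ S₂) (q + 2) (c - dT T b) := hcb
    refine ⟨b₁ - b, ⟨hb₁.sub (hb.mono subset_union_left), ?_⟩,
      b₂ - b, ⟨hb₂.sub (hb.mono subset_union_right), ?_⟩, ?_⟩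
    · refine NZ.of_eq ((hcb.mono subset_union_left).sub hcb₁) ?_
      rw [dT_sub]; abel
    · refine NZ.of_eq ((hcb.mono subset_union_right).sub hcb₂) ?_
      rw [dT_sub]; abel
    · refine mem_Bc_of_NZ (NZ.of_eq hhb ?_)
      abel
  · rintro ⟨c₁, hc₁, c₂, hc₂, b, hb, hr⟩
    obtain ⟨β₁, β₂, e, hβ₁, hβ₂, he, hbe⟩ := dT_split T c1' c2' hb
    have hr' : NZ (S₁ ∩ S₂) (q + 1) ((b₁ - b₂) - (c₁ - c₂) - dT T b) :=
      NZ.of_eq (hr.sub hhb) (by abel)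
    obtain ⟨r₁, r₂, hrr, hr₁, hr₂⟩ := NZ.inter_split c1 c2 (Nat.succ_pos q) hr'
    have key : b₁ - c₁ - dT T β₁ - r₁ = b₂ - c₂ + dT T β₂ + r₂ + e := by
      have : b₁ = b₂ + (c₁ - c₂) + dT T b + (r₁ + r₂) := by rw [← hrr]; abel
      rw [this, hbe]; abel
    refine ⟨b₁ - c₁ - dT T β₁ - r₁, NZ.union ?_ ?_, NZ.union ?_ ?_⟩
    · exact ((hb₁.sub hc₁.1).sub (hβ₁.dT T)).sub (hr₁.mono h1)
    · rw [key]
      exact (((hb₂.sub hc₂.1).add (hβ₂.dT T)).add (hr₂.mono h2)).add (he.mono (subset_univ _))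
    · refine NZ.of_eq (((hcb₁.add hc₁.2).add (nz_dT_dT hT1 β₁ _)).add (hr₁.dT T)) ?_
      rw [dT_sub, dT_sub, dT_sub]; abel
    · refine NZ.of_eq ((((hcb₂.add hc₂.2).sub (nz_dT_dT hT2 β₂ _)).sub (hr₂.dT T)).sub
        ((he.mono (subset_univ _)).dT T)) ?_
      rw [key, dT_add, dT_add, dT_add, dT_sub]; abel

theorem HV_union (c1 : IsClosed S₁) (c2 : IsClosed S₂) (c1' : IsClosed S₁') (c2' : IsClosed S₂')
    (h1 : S₁' ⊆ S₁) (h2 : S₂' ⊆ S₂) (hT : Flat T (S₁ ∪ S₂)) (v1 : HV T S₁ S₁' (q + 1))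
    (v2 : HV T S₂ S₂' (q + 1)) (v : HV T (S₁ ∩ S₂) (S₁' ∩ S₂') q) :
    HV T (S₁ ∪ S₂) (S₁' ∪ S₂') (q + 1) := by
  intro c hc
  obtain ⟨h, hh, hhc⟩ := mvd_of_zero c1 c2 c1' c2' h1 h2 hT hc
    (v1 (Zc_mono subset_union_left subset_union_left _ hc))
    (v2 (Zc_mono subset_union_right subset_union_right _ hc))
  rw [mvd_eq_zero c1 c2 c1' c2' h1 h2 hT hh hhc]
  refine ⟨0, Submodule.zero_mem _, 0, Submodule.zero_mem _, ?_⟩
  rw [sub_zero, sub_zero]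
  exact v hh

theorem HV_union0 (c1 : IsClosed S₁) (c2 : IsClosed S₂) (c1' : IsClosed S₁') (c2' : IsClosed S₂')
    (h1 : S₁' ⊆ S₁) (h2 : S₂' ⊆ S₂) (hT : Flat T (S₁ ∪ S₂)) (v1 : HV T S₁ S₁' 0)
    (v2 : HV T S₂ S₂' 0) : HV T (S₁ ∪ S₂) (S₁' ∪ S₂') 0 := by
  intro c hc
  have a1 := v1 (Zc_mono subset_union_left subset_union_left _ hc)
  have a2 := v2 (Zc_mono subset_union_right subset_union_right _ hc)
  rw [mem_Bc_zero] at a1 a2 ⊢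
  exact a1.union a2

theorem HV_inter (c1 : IsClosed S₁) (c2 : IsClosed S₂) (c1' : IsClosed S₁') (c2' : IsClosed S₂')
    (h1 : S₁' ⊆ S₁) (h2 : S₂' ⊆ S₂) (hT : Flat T (S₁ ∪ S₂)) (v1 : HV T S₁ S₁' q)
    (v2 : HV T S₂ S₂' q) (v : HV T (S₁ ∪ S₂) (S₁' ∪ S₂') (q + 1)) :
    HV T (S₁ ∩ S₂) (S₁' ∩ S₂') q := by
  intro h hh
  obtain ⟨c, hc, hhc⟩ := mvd_exists c1 c2 c1' c2' h1 h2 hT hh
  obtain ⟨c₁, hc₁, c₂, hc₂, hb⟩ := (mvd_eq_zero c1 c2 c1' c2' h1 h2 hT hh hhc).1 (v hc)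
  have a1 := Bc_mono inter_subset_left inter_subset_left q (v1 hc₁) (S₂ := S₁ ∩ S₂) (S₂' := S₁' ∩ S₂')
  have a2 := Bc_mono inter_subset_right inter_subset_right q (v2 hc₂) (S₂ := S₁ ∩ S₂) (S₂' := S₁' ∩ S₂')
  have := Submodule.add_mem _ hb (Submodule.sub_mem _ a1 a2)
  rwa [sub_add_cancel] at this

theorem HV_left (c1 : IsClosed S₁) (c2 : IsClosed S₂) (c1' : IsClosed S₁') (c2' : IsClosed S₂')
    (h1 : S₁' ⊆ S₁) (h2 : S₂' ⊆ S₂) (hT : Flat T (S₁ ∪ S₂)) (v1 : HV T (S₁ ∪ S₂) (S₁' ∪ S₂') q)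
    (v : HV T (S₁ ∩ S₂) (S₁' ∩ S₂') q) : HV T S₁ S₁' q := by
  intro c₁ hc₁
  have h0 : c₁ - 0 ∈ Bc T (S₁ ∩ S₂) (S₁' ∩ S₂') q := by
    rw [sub_zero]
    exact v (Zc_mono inter_subset_left inter_subset_left _ hc₁)
  obtain ⟨c, hc, hcc, -⟩ := mv_glue c1 c2 c1' c2' h1 h2 hT hc₁ (Submodule.zero_mem _) h0
  have a1 := Bc_mono subset_union_left subset_union_left q (v1 hc) (S₂ := S₁) (S₂' := S₁')
  have := Submodule.sub_mem _ a1 hcc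
  rwa [sub_sub_cancel] at this

/-! ### excision -/

/-- excision (no flatness is needed) -/
theorem excision0 (T : Ω → Ω → (V →ₗ[k] V)) (c1 : IsClosed S₁) (c2 : IsClosed S₂) (q : ℕ) :
    Function.Bijective (Hres T subset_union_left inter_subset_right q :
      H T (S₁ ∪ S₂) S₂ q →ₗ[k] H T S₁ (S₁ ∩ S₂) q) := by
  constructor
  · rw [injective_iff_map_eq_zero]
    intro x hx
    obtain ⟨⟨c, hc⟩, rfl⟩ := H.mk_surjective q x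
    rw [Hres_mk, H.mk_eq_zero] at hx
    rw [H.mk_eq_zero]
    obtain ⟨b, hb, hcb⟩ := hx
    obtain ⟨b₁, b₂, e, hb₁, hb₂, he, hbe⟩ := dT_split T c1 c2 hb
    refine ⟨b₂, hb₂, NZ.union ?_ ?_⟩
    · refine NZ.of_eq ((NZ.add hcb (hb₁.dT T)).add (he.mono (subset_univ _))) ?_
      show c - dT T b₂ = c - dT T b + dT T b₁ + e
      rw [hbe]; abel
    · exact NZ.sub hc.1 (hb₂.dT T)
  · intro x
    obtain ⟨⟨c, hc⟩, rfl⟩ := H.mk_surjective q x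
    obtain ⟨r₁, r₂, hrr, hr₁, hr₂⟩ := NZ.inter_split c1 c2 (Nat.succ_pos q) hc.1
    refine ⟨H.mk T (S₁ ∪ S₂) S₂ q ⟨r₂, hr₂, NZ.union ?_ (hr₂.dT T)⟩, ?_⟩
    · refine NZ.of_eq (hc.2.sub (hr₁.dT T)) ?_
      rw [hrr, dT_add]; abel
    · rw [Hres_mk, H.mk_eq_mk]
      refine mem_Bc_of_NZ (NZ.of_eq hr₁.neg ?_)
      show r₂ - c = -r₁
      rw [hrr]; abel

theorem excision (c1 : IsClosed S₁) (c2 : IsClosed S₂) (hT : Flat T (S₁ ∪ S₂)) (q : ℕ) :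
    Function.Bijective (Hres T subset_union_left inter_subset_right q :
      H T (S₁ ∪ S₂) S₂ q →ₗ[k] H T S₁ (S₁ ∩ S₂) q) := excision0 T c1 c2 q

/-- excision when `T` is only flat on `S₁` (enough, because cochains vanish near `S₂`) -/
theorem excision' (c1 : IsClosed S₁) (c2 : IsClosed S₂) (hT : Flat T S₁) (q : ℕ) :
    Function.Bijective (Hres T subset_union_left inter_subset_right q :
      H T (S₁ ∪ S₂) S₂ q →ₗ[k] H T S₁ (S₁ ∩ S₂) q) := excision0 T c1 c2 q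

/-- cohomology of a disjoint union of two closed sets -/
theorem disj_bij (c1 : IsClosed S₁) (c2 : IsClosed S₂) (hd : Disjoint S₁ S₂) (q : ℕ) :
    Function.Bijective ((Hres T subset_union_left (le_refl ∅) q : H T (S₁ ∪ S₂) ∅ q →ₗ[k] H T S₁ ∅ q).prod
      (Hres T subset_union_right (le_refl ∅) q : H T (S₁ ∪ S₂) ∅ q →ₗ[k] H T S₂ ∅ q)) := by
  have hemp : S₁ ∩ S₂ = ∅ := disjoint_iff_inter_eq_empty.1 hd
  constructor
  · rw [injective_iff_map_eq_zero]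
    intro x hx
    obtain ⟨⟨c, hc⟩, rfl⟩ := H.mk_surjective q x
    have hx1 : Hres T subset_union_left (le_refl ∅) q (H.mk T (S₁ ∪ S₂) ∅ q ⟨c, hc⟩) =
        (0 : H T S₁ ∅ q) := congrArg Prod.fst hx
    have hx2 : Hres T subset_union_right (le_refl ∅) q (H.mk T (S₁ ∪ S₂) ∅ q ⟨c, hc⟩) =
        (0 : H T S₂ ∅ q) := congrArg Prod.snd hx
    rw [Hres_mk, H.mk_eq_zero] at hx1 hx2
    clear hx
    have hx := And.intro hx1 hx2
    obtain ⟨⟨b₁, -, hb₁⟩, ⟨b₂, -, hb₂⟩⟩ := hx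
    have hb₁ : NZ S₁ (q + 1) (c - dT T b₁) := hb₁
    have hb₂ : NZ S₂ (q + 1) (c - dT T b₂) := hb₂
    rw [H.mk_eq_zero]
    have h0 : NZ (S₁ ∩ S₂) q (b₁ - b₂) := by rw [hemp]; exact NZ.empty
    obtain ⟨r₁, r₂, e, hr₁, hr₂, he, hre⟩ := dT_split T c1 c2 h0
    refine ⟨b₁ - r₁, NZ.empty, NZ.union ?_ ?_⟩
    · refine NZ.of_eq (hb₁.add (hr₁.dT T)) ?_
      show c - dT T (b₁ - r₁) = c - dT T b₁ + dT T r₁
      rw [dT_sub]; abel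
    · refine NZ.of_eq ((hb₂.sub (hr₂.dT T)).sub (he.mono (subset_univ _))) ?_
      show c - dT T (b₁ - r₁) = c - dT T b₂ - dT T r₂ - e
      have e1 : dT T b₁ = dT T b₂ + (dT T r₁ + dT T r₂ + e) := by
        rw [← hre, dT_sub]; abel
      rw [dT_sub, e1]; abel
  · rintro ⟨x, y⟩
    obtain ⟨⟨c₁, hc₁⟩, rfl⟩ := H.mk_surjective q x
    obtain ⟨⟨c₂, hc₂⟩, rfl⟩ := H.mk_surjective q y
    have h0 : NZ (S₁ ∩ S₂) (q + 1) (c₁ - c₂) := by rw [hemp]; exact NZ.empty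
    obtain ⟨r₁, r₂, hrr, hr₁, hr₂⟩ := NZ.inter_split c1 c2 (Nat.succ_pos q) h0
    have key : c₁ - r₁ = c₂ + r₂ := by
      have : c₁ = c₂ + (r₁ + r₂) := by rw [← hrr]; abel
      rw [this]; abel
    refine ⟨H.mk T (S₁ ∪ S₂) ∅ q ⟨c₁ - r₁, NZ.empty, NZ.union ?_ ?_⟩, ?_⟩
    · rw [dT_sub]; exact hc₁.2.sub (hr₁.dT T)
    · rw [key, dT_add]; exact hc₂.2.add (hr₂.dT T)
    · refine Prod.ext ?_ ?_
      · show Hres T subset_union_left (le_refl ∅) q (H.mk T (S₁ ∪ S₂) ∅ q _) = H.mk T S₁ ∅ q _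
        rw [Hres_mk, H.mk_eq_mk]
        exact mem_Bc_of_NZ (NZ.of_eq hr₁.neg (by show c₁ - r₁ - c₁ = -r₁; abel))
      · show Hres T subset_union_right (le_refl ∅) q (H.mk T (S₁ ∪ S₂) ∅ q _) = H.mk T S₂ ∅ q _
        rw [Hres_mk, H.mk_eq_mk]
        refine mem_Bc_of_NZ (NZ.of_eq hr₂ ?_)
        show c₁ - r₁ - c₂ = r₂
        rw [key]; abel

omit [PseudoMetricSpace Ω] in
theorem dT_congr_scalar {k' : Type*} [CommRing k'] [Module k' V] {T' : Ω → Ω → (V →ₗ[k'] V)}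
    (h : ∀ x y v, T x y v = T' x y v) (c : List Ω → V) : dT T c = dT T' c := by
  funext l
  cases l with
  | nil => rfl
  | cons x l =>
    rw [dT_cons, dT_cons]
    congr 1
    cases l with
    | nil => rfl
    | cons y l => exact h x y _

/-- the scalar ring does not matter for `HV` -/
theorem HV_congr_scalar {k' : Type*} [CommRing k'] [Module k' V] {T' : Ω → Ω → (V →ₗ[k'] V)}
    (h : ∀ x y v, T x y v = T' x y v) : HV T S S' q ↔ HV T' S S' q := by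
  have hz : ∀ c : List Ω → V, c ∈ Zc T S S' q ↔ c ∈ Zc T' S S' q := by
    intro c
    rw [mem_Zc, mem_Zc, dT_congr_scalar h]
  have hb : ∀ c : List Ω → V, c ∈ Bc T S S' q ↔ c ∈ Bc T' S S' q := by
    intro c
    rw [mem_Bc, mem_Bc]
    simp only [dT_congr_scalar h]
  constructor
  · intro hv c hc
    exact (hb c).1 (hv ((hz c).2 hc))
  · intro hv c hc
    exact (hb c).2 (hv ((hz c).1 hc))

end Pool.Agent.Helper60.AS
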