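import Pool.Agent.Helper60.AS.Cup
import Pool.Agent.Helper60.AS.Exact

/-! The duality pairing and the five lemma (Mayer-Vietoris step). -/

set_option autoImplicit false

namespace Pool.Agent.Helper60.AS

open Set

namespace Dual

/-! ### linear algebra -/

section la

variable {k W X : Type*} [Field k] [AddCommGroup W] [Module k W] [AddCommGroup X] [Module k X]

/-- factorisation of functionals -/
theorem factor {Z : Type*} [AddCommGroup Z] [Module k Z] (F : Z →ₗ[k] X) (lam : Z →ₗ[k] k)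
    (h : ∀ z, F z = 0 → lam z = 0) : ∃ μ : X →ₗ[k] k, ∀ z, μ (F z) = lam z := by
  have h1 : lam ∈ (LinearMap.ker F).dualAnnihilator := by
    rw [Submodule.mem_dualAnnihilator]
    intro z hz
    exact h z (LinearMap.mem_ker.1 hz)
  rw [← LinearMap.range_dualMap_eq_dualAnnihilator_ker] at h1
  obtain ⟨μ, hμ⟩ := h1
  exact ⟨μ, fun z => LinearMap.congr_fun hμ z⟩

theorem la1 (Z B₁ B₂ : Submodule k W) (lam : W →ₗ[k] k)
    (h : ∀ w ∈ Z, w ∈ B₁ → w ∈ B₂ → lam w = 0) : ∃ φ₁ φ₂ : W →ₗ[k] k,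
      (∀ w ∈ B₁, φ₁ w = 0) ∧ (∀ w ∈ B₂, φ₂ w = 0) ∧ ∀ w ∈ Z, lam w = φ₁ w - φ₂ w := by
  let F : Z →ₗ[k] (W ⧸ B₁) × (W ⧸ B₂) :=
    (B₁.mkQ ∘ₗ Z.subtype).prod (B₂.mkQ ∘ₗ Z.subtype)
  obtain ⟨μ, hμ⟩ := factor F (lam ∘ₗ Z.subtype) (by
    rintro ⟨z, hz⟩ h0
    have h1 : (B₁.mkQ z, B₂.mkQ z) = (0, 0) := h0
    rw [Prod.mk.injEq, Submodule.mkQ_apply, Submodule.mkQ_apply, Submodule.Quotient.mk_eq_zero,
      Submodule.Quotient.mk_eq_zero] at h1
    exact h z hz h1.1 h1.2)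
  refine ⟨μ ∘ₗ (LinearMap.inl k _ _) ∘ₗ B₁.mkQ, -(μ ∘ₗ (LinearMap.inr k _ _) ∘ₗ B₂.mkQ), ?_, ?_, ?_⟩
  · intro w hw
    have : B₁.mkQ w = 0 := by rwa [Submodule.mkQ_apply, Submodule.Quotient.mk_eq_zero]
    simp only [LinearMap.comp_apply, this, map_zero]
  · intro w hw
    have : B₂.mkQ w = 0 := by rwa [Submodule.mkQ_apply, Submodule.Quotient.mk_eq_zero]
    simp only [LinearMap.neg_apply, LinearMap.comp_apply, this, map_zero, neg_zero]
  · intro w hw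
    have h1 := hμ ⟨w, hw⟩
    have h2 : F ⟨w, hw⟩ = LinearMap.inl k _ _ (B₁.mkQ w) + LinearMap.inr k _ _ (B₂.mkQ w) := by
      simp [F]
    rw [h2, map_add] at h1
    simp only [LinearMap.neg_apply, LinearMap.comp_apply, sub_neg_eq_add]
    exact h1.symm

theorem la2 (R : Submodule k (W × W)) (B : Submodule k W) (lam : W →ₗ[k] k)
    (h : ∀ p ∈ R, p.2 ∈ B → lam p.1 = 0) : ∃ ψ : W →ₗ[k] k, (∀ w ∈ B, ψ w = 0) ∧
      ∀ p ∈ R, ψ p.2 = lam p.1 := by
  let F : R →ₗ[k] (W ⧸ B) := B.mkQ ∘ₗ (LinearMap.snd k W W) ∘ₗ R.subtype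
  obtain ⟨μ, hμ⟩ := factor F (lam ∘ₗ (LinearMap.fst k W W) ∘ₗ R.subtype) (by
    rintro ⟨p, hp⟩ h0
    have h1 : B.mkQ p.2 = 0 := h0
    rw [Submodule.mkQ_apply, Submodule.Quotient.mk_eq_zero] at h1
    exact h p hp h1)
  refine ⟨μ ∘ₗ B.mkQ, ?_, ?_⟩
  · intro w hw
    have : B.mkQ w = 0 := by rwa [Submodule.mkQ_apply, Submodule.Quotient.mk_eq_zero]
    rw [LinearMap.comp_apply, this, map_zero]
  · intro p hp
    exact hμ ⟨p, hp⟩

end la

section pairing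

variable {Ω k V : Type*} [PseudoMetricSpace Ω] [Field k] [AddCommGroup V] [Module k V]
variable {T : Ω → Ω → (V →ₗ[k] V)} {B : V →ₗ[k] V →ₗ[k] k} {O : Set Ω}
variable {I : (List Ω → k) →ₗ[k] k} {i j : ℕ} {Q U Q₁ Q₂ U₁ U₂ Y S : Set Ω}

/-- the standing assumptions -/
structure Ctx (T : Ω → Ω → (V →ₗ[k] V)) (B : V →ₗ[k] V →ₗ[k] k) (O : Set Ω)
    (I : (List Ω → k) →ₗ[k] k) : Prop where
  flat : Flat T O
  inv : ∀ x y v w, B (T x y v) (T x y w) = B v w
  kill : ∀ c ∈ Bc (cT : Ω → Ω → (k →ₗ[k] k)) univ Oᶜ 4, I c = 0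

variable (h : Ctx T B O I)

include h

theorem Ctx.nz {c : List Ω → k} (hc : NZ univ 5 c) : I c = 0 :=
  h.kill c ⟨0, NZ.zero, by rw [dT_zero, sub_zero]; exact hc⟩

theorem Ctx.exact {e : List Ω → k} (he : NZ Oᶜ 4 e) :
    I (dT (cT : Ω → Ω → (k →ₗ[k] k)) e) = 0 :=
  h.kill _ ⟨e, he, by rw [sub_self]; exact NZ.zero⟩

theorem Ctx.congr {c c' : List Ω → k} (hc : NZ univ 5 (c - c')) : I c = I c' := by
  have := h.nz hc
  rwa [map_sub, sub_eq_zero] at this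

theorem Ctx.left_zero (hij : i + j = 4) {f g : List Ω → V} (hf : NZ Y (i + 1) f)
    (hg : NZ S (j + 1) g) (hYS : Y ∪ S = univ) : I (cup T B i f g) = 0 := by
  apply h.nz
  rw [← hYS]
  exact (hf.cup_left (by omega)).union (hg.cup_right (by omega))

theorem Ctx.leibniz (hij : i + j = 3) (hS : S ⊆ O) {b g : List Ω → V} (hg : NZ Sᶜ (j + 1) g) :
    I (cup T B (i + 1) (dT T b) g) + (-1 : k) ^ i * I (cup T B i b (dT T g)) = 0 := by
  have he : NZ Sᶜ 4 (cup T B i b g) := hg.cup_right (by omega)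
  have h1 := h.exact (he.mono (compl_subset_compl.2 hS))
  have h2 : NZ univ 5 (dT (cT : Ω → Ω → (k →ₗ[k] k)) (cup T B i b g) -
      cup T B (i + 1) (dT T b) g - (-1 : k) ^ i • cup T B i b (dT T g)) := by
    rw [← union_compl_self S]
    apply NZ.union
    · intro a ha
      exact NA.leibniz h.inv (h.flat a (hS ha)) b g (by omega)
    · refine ((he.dT _).sub (hg.cup_right (by omega))).sub (NZ.smul _ ?_)
      exact (hg.dT T).cup_right (by omega)
  have h3 := h.nz h2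
  rw [map_sub, map_sub, h1, map_smul, smul_eq_mul] at h3
  linear_combination -h3

/-- cocycles pair trivially with coboundaries -/
theorem Ctx.zb (hij : i + j = 4) (hU : U ⊆ Y) (hY : Y ⊆ O) {f g : List Ω → V}
    (hf : f ∈ Zc T Y ∅ i) (hg : g ∈ Bc T univ Uᶜ j) : I (cup T B i f g) = 0 := by
  obtain ⟨b, hb, hb'⟩ := hg
  have e : cup T B i f g = cup T B i f (g - dT T b) + cup T B i f (dT T b) := by
    rw [← cup_add_right]; congr 1; abel
  have e1 : I (cup T B i f (g - dT T b)) = 0 := h.nz (hb'.cup_right (by omega))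
  rw [e, map_add, e1, zero_add]
  cases j with
  | zero =>
    apply h.nz
    have : NZ (univ : Set Ω) 1 (dT T b) := by
      intro a _
      refine ⟨1, one_pos, fun l hl _ => ?_⟩
      match l, hl with
      | [x], _ => simp
    exact this.cup_right (j := 0) (by omega)
  | succ j =>
    have h1 := h.leibniz (i := i) (j := j) (by omega) (hU.trans hY) (b := f) (g := b) hb
    have h2 : I (cup T B (i + 1) (dT T f) b) = 0 :=
      h.left_zero (by omega) hf.2 hb (by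
        rw [eq_univ_iff_forall]
        intro x
        by_cases hx : x ∈ U
        · exact Or.inl (hU hx)
        · exact Or.inr hx)
    rw [h2, zero_add] at h1
    exact (mul_eq_zero.1 h1).resolve_left (pow_ne_zero _ (neg_ne_zero.2 one_ne_zero))

/-- coboundaries pair trivially with cocycles -/
theorem Ctx.bz (hij : i + j = 4) (hU : U ⊆ Y) (hY : Y ⊆ O) {f g : List Ω → V}
    (hf : f ∈ Bc T Y ∅ i) (hg : g ∈ Zc T univ Uᶜ j) : I (cup T B i f g) = 0 := by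
  have hYU : Y ∪ Uᶜ = univ := by
    rw [eq_univ_iff_forall]
    intro x
    by_cases hx : x ∈ U
    · exact Or.inl (hU hx)
    · exact Or.inr hx
  obtain ⟨b, _, hb'⟩ := hf
  have e : cup T B i f g = cup T B i (f - dT T b) g + cup T B i (dT T b) g := by
    rw [← cup_add_left]; congr 1; abel
  have e1 : I (cup T B i (f - dT T b) g) = 0 := h.left_zero hij hb' hg.1 hYU
  rw [e, map_add, e1, zero_add]
  cases i with
  | zero =>
    apply h.nz
    have : NZ (univ : Set Ω) 1 (dT T b) := by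
      intro a _
      refine ⟨1, one_pos, fun l hl _ => ?_⟩
      match l, hl with
      | [x], _ => simp
    exact NZ.cup_left (i := 0) this (by omega)
  | succ i =>
    have h1 := h.leibniz (i := i) (j := j) (by omega) (hU.trans hY) (b := b) (g := g) hg.1
    have h2 : I (cup T B i b (dT T g)) = 0 := h.nz (hg.2.cup_right (by omega))
    rw [h2, mul_zero, add_zero] at h1
    exact h1

omit h

/-! ### Mayer-Vietoris with compact supports -/

/-- the connecting relation `g' = ∂ g` -/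
def Dl (T : Ω → Ω → (V →ₗ[k] V)) (U₁ U₂ : Set Ω) (j : ℕ) (g g' : List Ω → V) : Prop :=
  ∃ g₁ g₂ : List Ω → V, NZ U₁ᶜ (j + 1) g₁ ∧ NZ U₂ᶜ (j + 1) g₂ ∧ NZ univ (j + 1) (g - (g₁ + g₂)) ∧
    NZ univ (j + 2) (g' - dT T g₁)

theorem Dl.add {g g' m m' : List Ω → V} (h1 : Dl T U₁ U₂ j g g') (h2 : Dl T U₁ U₂ j m m') :
    Dl T U₁ U₂ j (g + m) (g' + m') := by
  obtain ⟨g₁, g₂, a1, a2, a3, a4⟩ := h1
  obtain ⟨m₁, m₂, b1, b2, b3, b4⟩ := h2
  refine ⟨g₁ + m₁, g₂ + m₂, a1.add b1, a2.add b2, ?_, ?_⟩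
  · have e : g + m - (g₁ + m₁ + (g₂ + m₂)) = (g - (g₁ + g₂)) + (m - (m₁ + m₂)) := by abel
    rw [e]; exact a3.add b3
  · have e : g' + m' - dT T (g₁ + m₁) = (g' - dT T g₁) + (m' - dT T m₁) := by rw [dT_add]; abel
    rw [e]; exact a4.add b4

theorem Dl.smul {g g' : List Ω → V} (a : k) (h1 : Dl T U₁ U₂ j g g') :
    Dl T U₁ U₂ j (a • g) (a • g') := by
  obtain ⟨g₁, g₂, a1, a2, a3, a4⟩ := h1
  refine ⟨a • g₁, a • g₂, a1.smul a, a2.smul a, ?_, ?_⟩
  · have e : a • g - (a • g₁ + a • g₂) = a • (g - (g₁ + g₂)) := by module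
    rw [e]; exact a3.smul a
  · have e : a • g' - dT T (a • g₁) = a • (g' - dT T g₁) := by rw [dT_smul]; module
    rw [e]; exact a4.smul a

theorem nz_dd (hT : Flat T U) {b : List Ω → V} {n : ℕ} (hb : NZ Uᶜ n b) :
    NZ univ (n + 2) (dT T (dT T b)) := by
  rw [← union_compl_self U]
  exact (nz_dT_dT hT b _).union ((hb.dT T).dT T)

theorem Dl.exists (o1 : IsOpen U₁) (o2 : IsOpen U₂) {g : List Ω → V}
    (hg : NZ (U₁ ∪ U₂)ᶜ (j + 1) g) : ∃ g', Dl T U₁ U₂ j g g' := by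
  rw [compl_union] at hg
  obtain ⟨g₁, g₂, rfl, a1, a2⟩ :=
    NZ.inter_split o1.isClosed_compl o2.isClosed_compl (Nat.succ_pos j) hg
  exact ⟨dT T g₁, g₁, g₂, a1, a2, by rw [sub_self]; exact NZ.zero, by rw [sub_self]; exact NZ.zero⟩

theorem Dl.zc (hT : Flat T U₁) {g g' : List Ω → V} (hg : g ∈ Zc T univ (U₁ ∪ U₂)ᶜ j)
    (h1 : Dl T U₁ U₂ j g g') : g' ∈ Zc T univ (U₁ ∩ U₂)ᶜ (j + 1) := by
  obtain ⟨g₁, g₂, a1, a2, a3, a4⟩ := h1
  constructor
  · rw [compl_inter]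
    apply NZ.union
    · have e : g' = (g' - dT T g₁) + dT T g₁ := by abel
      rw [e]; exact (a4.mono (subset_univ _)).add (a1.dT T)
    · have e : g' = (g' - dT T g₁) + (dT T g - dT T (g - (g₁ + g₂)) - dT T g₂) := by
        rw [dT_sub, dT_add]; abel
      rw [e]
      exact (a4.mono (subset_univ _)).add (((hg.2.mono (subset_univ _)).sub
        ((a3.mono (subset_univ _)).dT T)).sub (a2.dT T))
  · have e : dT T g' = dT T (g' - dT T g₁) + dT T (dT T g₁) := by rw [dT_sub]; abel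
    rw [e]
    exact (a4.dT T).add (nz_dd hT a1)

/-- exactness at `H_c(U₁ ∪ U₂)` -/
theorem Dl.split {g g' : List Ω → V} (hg : g ∈ Zc T univ (U₁ ∪ U₂)ᶜ j)
    (h1 : Dl T U₁ U₂ j g g') (hb : g' ∈ Bc T univ (U₁ ∩ U₂)ᶜ (j + 1)) :
    ∃ m₁ ∈ Zc T univ U₁ᶜ j, ∃ m₂ ∈ Zc T univ U₂ᶜ j, NZ univ (j + 1) (g - (m₁ + m₂)) := by
  obtain ⟨g₁, g₂, a1, a2, a3, a4⟩ := h1
  obtain ⟨b, hb, hb'⟩ := hb
  rw [compl_inter] at hb
  have hd : NZ univ (j + 2) (dT T (g₁ - b)) := by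
    have e : dT T (g₁ - b) = (g' - dT T b) - (g' - dT T g₁) := by rw [dT_sub]; abel
    rw [e]; exact hb'.sub a4
  refine ⟨g₁ - b, ⟨a1.sub (hb.mono subset_union_left), hd⟩, g₂ + b,
    ⟨a2.add (hb.mono subset_union_right), ?_⟩, ?_⟩
  · have e : dT T (g₂ + b) = dT T g - dT T (g - (g₁ + g₂)) - dT T (g₁ - b) := by
      rw [dT_sub, dT_add, dT_sub, dT_add]; abel
    rw [e]
    exact (hg.2.sub (a3.dT T)).sub hd
  · have e : g - (g₁ - b + (g₂ + b)) = g - (g₁ + g₂) := by abel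
    rw [e]; exact a3

/-- exactness at `H_c(U₁ ∩ U₂)` -/
theorem Dl.lift {g' : List Ω → V} (h1 : g' ∈ Bc T univ U₁ᶜ (j + 1))
    (h2 : g' ∈ Bc T univ U₂ᶜ (j + 1)) : ∃ g ∈ Zc T univ (U₁ ∪ U₂)ᶜ j, Dl T U₁ U₂ j g g' := by
  obtain ⟨b₁, a1, a2⟩ := h1
  obtain ⟨b₂, c1, c2⟩ := h2
  refine ⟨b₁ - b₂, ⟨?_, ?_⟩, b₁, -b₂, a1, c1.neg, ?_, a2⟩
  · rw [compl_union]
    exact (a1.mono inter_subset_left).sub (c1.mono inter_subset_right)
  · have e : dT T (b₁ - b₂) = (g' - dT T b₂) - (g' - dT T b₁) := by rw [dT_sub]; abel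
    rw [e]; exact c2.sub a2
  · have e : b₁ - b₂ - (b₁ + -b₂) = 0 := by abel
    rw [e]; exact NZ.zero

include h

/-- the connecting maps are adjoint up to sign -/
theorem Ctx.adj (hij : i + 1 + j = 4) (s1 : U₁ ⊆ Q₁) (s2 : U₂ ⊆ Q₂) (q1 : Q₁ ⊆ O) (q2 : Q₂ ⊆ O)
    {hh c g g' : List Ω → V} (hc : MVd T Q₁ ∅ Q₂ ∅ i hh c)
    (hg : g ∈ Zc T univ (U₁ ∪ U₂)ᶜ j) (hd : Dl T U₁ U₂ j g g') :
    I (cup T B (i + 1) c g) = (-1 : k) ^ (i + 1) * I (cup T B i hh g') := by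
  have hg' := hd.zc (h.flat.mono (s1.trans q1)) hg
  obtain ⟨b₁, b₂, -, -, c1, c2, c3⟩ := hc
  obtain ⟨g₁, g₂, a1, a2, a3, a4⟩ := hd
  have hU1 : Q₁ ∪ U₁ᶜ = univ := by
    rw [eq_univ_iff_forall]; intro x
    by_cases hx : x ∈ U₁
    · exact Or.inl (s1 hx)
    · exact Or.inr hx
  have hU2 : Q₂ ∪ U₂ᶜ = univ := by
    rw [eq_univ_iff_forall]; intro x
    by_cases hx : x ∈ U₂
    · exact Or.inl (s2 hx)
    · exact Or.inr hx
  have hU12 : (Q₁ ∩ Q₂) ∪ (U₁ ∩ U₂)ᶜ = univ := by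
    rw [eq_univ_iff_forall]; intro x
    by_cases hx : x ∈ U₁ ∩ U₂
    · exact Or.inl ⟨s1 hx.1, s2 hx.2⟩
    · exact Or.inr hx
  -- first piece
  have e1 : I (cup T B (i + 1) c g₁) = -((-1 : k) ^ i * I (cup T B i b₁ (dT T g₁))) := by
    have z := h.left_zero (i := i + 1) (j := j) (by omega) c1 a1 hU1
    have z2 := h.leibniz (i := i) (j := j) (by omega) (s1.trans q1) (b := b₁) a1
    have e : cup T B (i + 1) c g₁ = cup T B (i + 1) (c - dT T b₁) g₁ +
        cup T B (i + 1) (dT T b₁) g₁ := by rw [← cup_add_left]; congr 1; abel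
    rw [e, map_add, z, zero_add]
    linear_combination z2
  have e2 : I (cup T B (i + 1) c g₂) = -((-1 : k) ^ i * I (cup T B i b₂ (dT T g₂))) := by
    have z := h.left_zero (i := i + 1) (j := j) (by omega) c2 a2 hU2
    have z2 := h.leibniz (i := i) (j := j) (by omega) (s2.trans q2) (b := b₂) a2
    have e : cup T B (i + 1) c g₂ = cup T B (i + 1) (c - dT T b₂) g₂ +
        cup T B (i + 1) (dT T b₂) g₂ := by rw [← cup_add_left]; congr 1; abel
    rw [e, map_add, z, zero_add]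
    linear_combination z2
  have e3 : I (cup T B (i + 1) c (g - (g₁ + g₂))) = 0 := h.nz (a3.cup_right (by omega))
  have e4 : I (cup T B (i + 1) c g) = I (cup T B (i + 1) c g₁) + I (cup T B (i + 1) c g₂) := by
    have e : cup T B (i + 1) c g = cup T B (i + 1) c (g - (g₁ + g₂)) +
        (cup T B (i + 1) c g₁ + cup T B (i + 1) c g₂) := by
      rw [← cup_add_right, ← cup_add_right]; congr 1; abel
    rw [e, map_add, map_add, e3, zero_add]
  -- the second faces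
  have e5 : I (cup T B i b₂ (dT T g₂)) = - I (cup T B i b₂ (dT T g₁)) := by
    have z : NZ univ (j + 2) (dT T g₂ + dT T g₁) := by
      have e : dT T g₂ + dT T g₁ = dT T g - dT T (g - (g₁ + g₂)) := by rw [dT_sub, dT_add]; abel
      rw [e]; exact hg.2.sub (a3.dT T)
    have z2 : I (cup T B i b₂ (dT T g₂ + dT T g₁)) = 0 := h.nz (z.cup_right (by omega))
    rw [cup_add_right, map_add] at z2
    linear_combination z2
  have e6 : I (cup T B i hh g') = I (cup T B i b₁ (dT T g₁)) - I (cup T B i b₂ (dT T g₁)) := by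
    have z1 : I (cup T B i (hh - (b₁ - b₂)) g') = 0 :=
      h.left_zero (i := i) (j := j + 1) (by omega) c3 hg'.1 hU12
    have z2 : I (cup T B i (b₁ - b₂) (g' - dT T g₁)) = 0 := h.nz (a4.cup_right (by omega))
    have e : cup T B i hh g' = cup T B i (hh - (b₁ - b₂)) g' +
        (cup T B i (b₁ - b₂) (g' - dT T g₁) + cup T B i (b₁ - b₂) (dT T g₁)) := by
      rw [← cup_add_right, sub_add_cancel, ← cup_add_left, sub_add_cancel]
    have e' : cup T B i (b₁ - b₂) (dT T g₁) =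
        cup T B i b₁ (dT T g₁) - cup T B i b₂ (dT T g₁) := by
      rw [eq_sub_iff_add_eq, ← cup_add_left]
      congr 1; abel
    rw [e, map_add, z1, zero_add, map_add, z2, zero_add, e', map_sub]
  rw [e4, e1, e2, e5, e6, pow_succ]
  ring

omit h

/-- duality between `Q` and `U` -/
structure PDual (T : Ω → Ω → (V →ₗ[k] V)) (B : V →ₗ[k] V →ₗ[k] k)
    (I : (List Ω → k) →ₗ[k] k) (Q U : Set Ω) : Prop where
  inj : ∀ i j, i + j = 4 → ∀ f ∈ Zc T Q ∅ i,
    (∀ g ∈ Zc T univ Uᶜ j, I (cup T B i f g) = 0) → f ∈ Bc T Q ∅ i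
  surj : ∀ i j, i + j = 4 → ∀ φ : (List Ω → V) →ₗ[k] k, (∀ g ∈ Bc T univ Uᶜ j, φ g = 0) →
    ∃ f ∈ Zc T Q ∅ i, ∀ g ∈ Zc T univ Uᶜ j, I (cup T B i f g) = φ g
  top : ∀ q, 5 ≤ q → Zc T univ Uᶜ q ≤ Bc T univ Uᶜ q

theorem NZ.Bc_univ {q : ℕ} {g : List Ω → V} (hg : NZ univ (q + 1) g) : g ∈ Bc T univ S q :=
  ⟨0, NZ.zero, by rw [dT_zero, sub_zero]; exact hg⟩

/-- functional of the front cochain -/
noncomputable def PL (T : Ω → Ω → (V →ₗ[k] V)) (B : V →ₗ[k] V →ₗ[k] k)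
    (I : (List Ω → k) →ₗ[k] k) (i : ℕ) (f : List Ω → V) : (List Ω → V) →ₗ[k] k :=
  I ∘ₗ cupL T B i f

theorem PL_apply (f g : List Ω → V) : PL T B I i f g = I (cup T B i f g) := rfl

theorem PL_sub (f f' g : List Ω → V) :
    I (cup T B i (f - f') g) = I (cup T B i f g) - I (cup T B i f' g) := by
  have : cup T B i (f - f') g = cup T B i f g - cup T B i f' g := by
    rw [eq_sub_iff_add_eq, ← cup_add_left]; congr 1; abel
  rw [this, map_sub]

include h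

/-- the Mayer-Vietoris step -/
theorem Ctx.union (o1 : IsOpen U₁) (o2 : IsOpen U₂) (c1 : IsClosed Q₁) (c2 : IsClosed Q₂)
    (s1 : U₁ ⊆ Q₁) (s2 : U₂ ⊆ Q₂) (q1 : Q₁ ⊆ O) (q2 : Q₂ ⊆ O) (d1 : PDual T B I Q₁ U₁)
    (d2 : PDual T B I Q₂ U₂) (d12 : PDual T B I (Q₁ ∩ Q₂) (U₁ ∩ U₂)) :
    PDual T B I (Q₁ ∪ Q₂) (U₁ ∪ U₂) := by
  have hTQ : Flat T (Q₁ ∪ Q₂) := h.flat.mono (union_subset q1 q2)
  have hTU1 : Flat T U₁ := h.flat.mono (s1.trans q1)
  have m1 : (U₁ ∪ U₂)ᶜ ⊆ U₁ᶜ := compl_subset_compl.2 subset_union_left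
  have m2 : (U₁ ∪ U₂)ᶜ ⊆ U₂ᶜ := compl_subset_compl.2 subset_union_right
  have m3 : U₁ᶜ ⊆ (U₁ ∩ U₂)ᶜ := compl_subset_compl.2 inter_subset_left
  have m4 : U₂ᶜ ⊆ (U₁ ∩ U₂)ᶜ := compl_subset_compl.2 inter_subset_right
  refine ⟨?_, ?_, ?_⟩
  · -- injectivity
    intro i j hij f hf hP
    have f1 : f ∈ Zc T Q₁ ∅ i := Zc_mono subset_union_left (le_refl _) i hf
    have f2 : f ∈ Zc T Q₂ ∅ i := Zc_mono subset_union_right (le_refl _) i hf
    have b1 : f ∈ Bc T Q₁ ∅ i := d1.inj i j hij f f1 fun g hg =>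
      hP g (Zc_mono (le_refl _) m1 j hg)
    have b2 : f ∈ Bc T Q₂ ∅ i := d2.inj i j hij f f2 fun g hg =>
      hP g (Zc_mono (le_refl _) m2 j hg)
    cases i with
    | zero =>
      have z : ∀ {S : Set Ω}, f ∈ Bc T S ∅ 0 → NZ S 1 f := by
        rintro S ⟨b, _, hb⟩ a ha
        obtain ⟨e, he, h1⟩ := hb a ha
        refine ⟨e, he, fun l hl hx => ?_⟩
        have h2 := h1 l (by simpa using hl) hx
        match l, hl with
        | [x], _ => simpa using h2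
      exact ⟨0, NZ.zero, by rw [dT_zero, sub_zero]; exact (z b1).union (z b2)⟩
    | succ i =>
      have hf' : f ∈ Zc T (Q₁ ∪ Q₂) (∅ ∪ ∅) (i + 1) := by simpa using hf
      obtain ⟨hh, hz, hmv⟩ := mvd_of_zero c1 c2 isClosed_empty isClosed_empty
        (empty_subset _) (empty_subset _) hTQ hf' b1 b2
      have hz' : hh ∈ Zc T (Q₁ ∩ Q₂) ∅ i := by simpa using hz
      -- the functional of `hh`
      obtain ⟨φ₁, φ₂, p1, p2, p3⟩ := la1 (Zc T univ (U₁ ∩ U₂)ᶜ (j + 1)) (Bc T univ U₁ᶜ (j + 1))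
        (Bc T univ U₂ᶜ (j + 1)) (PL T B I i hh) (by
          intro g' _ w1 w2
          obtain ⟨g, hg, hd⟩ := Dl.lift w1 w2
          have h1 := h.adj (by omega) s1 s2 q1 q2 hmv hg hd
          rw [hP g hg] at h1
          rw [PL_apply]
          exact (mul_eq_zero.1 h1.symm).resolve_left (pow_ne_zero _ (neg_ne_zero.2 one_ne_zero)))
      obtain ⟨f₁, z1, w1⟩ := d1.surj i (j + 1) (by omega) φ₁ p1
      obtain ⟨f₂, z2, w2⟩ := d2.surj i (j + 1) (by omega) φ₂ p2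
      have hb : hh - (f₁ - f₂) ∈ Bc T (Q₁ ∩ Q₂) ∅ i := by
        refine d12.inj i (j + 1) (by omega) _ ?_ ?_
        · exact Submodule.sub_mem _ hz' (Submodule.sub_mem _
            (Zc_mono inter_subset_left (le_refl _) i z1)
            (Zc_mono inter_subset_right (le_refl _) i z2))
        · intro g hg
          rw [PL_sub, PL_sub, w1 g (Zc_mono (le_refl _) m3 _ hg),
            w2 g (Zc_mono (le_refl _) m4 _ hg), ← PL_apply, p3 g hg, sub_self]
      have hfin := (mvd_eq_zero c1 c2 isClosed_empty isClosed_empty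
        (empty_subset _) (empty_subset _) hTQ hz hmv).2 ⟨f₁, z1, f₂, z2, by simpa using hb⟩
      simpa using hfin
  · -- surjectivity
    intro i j hij φ hφ
    obtain ⟨f₁, z1, w1⟩ := d1.surj i j hij φ fun g hg => hφ g (Bc_mono (le_refl _) m1 j hg)
    obtain ⟨f₂, z2, w2⟩ := d2.surj i j hij φ fun g hg => hφ g (Bc_mono (le_refl _) m2 j hg)
    have hb : f₁ - f₂ ∈ Bc T (Q₁ ∩ Q₂) ∅ i := by
      refine d12.inj i j hij _ ?_ ?_
      · exact Submodule.sub_mem _ (Zc_mono inter_subset_left (le_refl _) i z1)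
          (Zc_mono inter_subset_right (le_refl _) i z2)
      · intro g hg
        rw [PL_sub, w1 g (Zc_mono (le_refl _) m3 _ hg), w2 g (Zc_mono (le_refl _) m4 _ hg),
          sub_self]
    obtain ⟨f, hf, hf1, hf2⟩ := mv_glue c1 c2 isClosed_empty isClosed_empty
      (empty_subset _) (empty_subset _) hTQ z1 z2 (by simpa using hb)
    have hf' : f ∈ Zc T (Q₁ ∪ Q₂) ∅ i := by simpa using hf
    let lam : (List Ω → V) →ₗ[k] k := φ - PL T B I i f
    have hlam : ∀ g, lam g = φ g - I (cup T B i f g) := fun g => rfl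
    have l1 : ∀ g ∈ Zc T univ U₁ᶜ j, lam g = 0 := by
      intro g hg
      have := h.bz hij s1 q1 hf1 hg
      rw [PL_sub, w1 g hg] at this
      rw [hlam]
      linear_combination -this
    have l2 : ∀ g ∈ Zc T univ U₂ᶜ j, lam g = 0 := by
      intro g hg
      have := h.bz hij s2 q2 hf2 hg
      rw [PL_sub, w2 g hg] at this
      rw [hlam]
      linear_combination -this
    have l3 : ∀ g, NZ univ (j + 1) g → lam g = 0 := by
      intro g hg
      rw [hlam, hφ g (NZ.Bc_univ hg), h.nz (hg.cup_right (by omega)), sub_zero]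
    -- `lam` depends only on `∂ g`
    have l4 : ∀ g ∈ Zc T univ (U₁ ∪ U₂)ᶜ j, ∀ g', Dl T U₁ U₂ j g g' →
        g' ∈ Bc T univ (U₁ ∩ U₂)ᶜ (j + 1) → lam g = 0 := by
      intro g hg g' hd hb
      obtain ⟨m₁, hm1, m₂, hm2, hm⟩ := hd.split hg hb
      have e : g = (g - (m₁ + m₂)) + (m₁ + m₂) := by abel
      rw [e, map_add, map_add, l1 _ hm1, l2 _ hm2, l3 _ hm]
      simp
    cases i with
    | zero =>
      refine ⟨f, hf', fun g hg => ?_⟩
      obtain ⟨g', hd⟩ := Dl.exists (T := T) o1 o2 hg.1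
      have h1 := l4 g hg g' hd (d12.top _ (by omega) (hd.zc hTU1 hg))
      rw [hlam] at h1
      exact (sub_eq_zero.1 h1).symm
    | succ i =>
      let R : Submodule k ((List Ω → V) × (List Ω → V)) :=
        { carrier := {p | p.1 ∈ Zc T univ (U₁ ∪ U₂)ᶜ j ∧ Dl T U₁ U₂ j p.1 p.2}
          add_mem' := fun {a b} ha hb => ⟨Submodule.add_mem _ ha.1 hb.1, ha.2.add hb.2⟩
          zero_mem' := ⟨Submodule.zero_mem _, 0, 0, NZ.zero, NZ.zero,
            by simpa using (NZ.zero : NZ (univ : Set Ω) (j + 1) (0 : List Ω → V)),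
            by simpa [dT_zero] using (NZ.zero : NZ (univ : Set Ω) (j + 2) (0 : List Ω → V))⟩
          smul_mem' := fun a {b} hb => ⟨Submodule.smul_mem _ a hb.1, hb.2.smul a⟩ }
      obtain ⟨ψ, hψ1, hψ2⟩ := la2 R (Bc T univ (U₁ ∩ U₂)ᶜ (j + 1)) lam (by
        rintro ⟨g, g'⟩ ⟨hg, hd⟩ hb
        exact l4 g hg g' hd hb)
      obtain ⟨hh, hz, hw⟩ := d12.surj i (j + 1) (by omega) ψ hψ1
      obtain ⟨c, hc, hmv⟩ := mvd_exists c1 c2 isClosed_empty isClosed_empty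
        (empty_subset _) (empty_subset _) hTQ (h := hh) (q := i) (by simpa using hz)
      have hc' : c ∈ Zc T (Q₁ ∪ Q₂) ∅ (i + 1) := by simpa using hc
      refine ⟨f + (-1 : k) ^ (i + 1) • c, Submodule.add_mem _ hf' (Submodule.smul_mem _ _ hc'), ?_⟩
      intro g hg
      obtain ⟨g', hd⟩ := Dl.exists (T := T) o1 o2 hg.1
      have h1 := h.adj (by omega) s1 s2 q1 q2 hmv hg hd
      have h2 := hw g' (hd.zc hTU1 hg)
      have h3 : ψ g' = lam g := hψ2 (g, g') ⟨hg, hd⟩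
      rw [cup_add_left, cup_smul_left, map_add, map_smul, h1, h2, h3, hlam, smul_eq_mul,
        ← mul_assoc, ← mul_pow, neg_one_mul, neg_neg, one_pow, one_mul]
      ring
  · -- vanishing above the dimension
    intro q hq g hg
    obtain ⟨g', hd⟩ := Dl.exists (T := T) o1 o2 hg.1
    obtain ⟨m₁, hm1, m₂, hm2, hm⟩ := hd.split hg (d12.top _ (by omega) (hd.zc hTU1 hg))
    have e : g = (g - (m₁ + m₂)) + (m₁ + m₂) := by abel
    rw [e]
    exact Submodule.add_mem _ (NZ.Bc_univ hm) (Submodule.add_mem _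
      (Bc_mono (le_refl _) m1 q (d1.top q hq hm1)) (Bc_mono (le_refl _) m2 q (d2.top q hq hm2)))

omit h in
/-- the empty set -/
theorem PDual.empty : PDual T B I ∅ ∅ := by
  have key : ∀ {q : ℕ} {g : List Ω → V}, g ∈ Zc T univ (∅ : Set Ω)ᶜ q → NZ univ (q + 1) g := by
    intro q g hg
    have := hg.1
    rwa [compl_empty] at this
  refine ⟨?_, ?_, ?_⟩
  · intro i j _ f _ _
    exact ⟨0, NZ.zero, NZ.empty⟩
  · intro i j _ φ hφ
    refine ⟨0, Submodule.zero_mem _, fun g hg => ?_⟩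
    rw [hφ g (NZ.Bc_univ (key hg))]
    have : cup T B i 0 g = 0 := by
      have := cup_smul_left (T := T) (B := B) (i := i) (0 : k) (0 : List Ω → V) g
      simpa using this
    rw [this, map_zero]
  · intro q _ g hg
    exact NZ.Bc_univ (key hg)

end pairing

end Dual

end Pool.Agent.Helper60.AS
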