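import Pool.Agent.Helper60.AS.Dual1
import Pool.Agent.Helper60.AS.Body

/-! Duality for one convex body. -/

set_option autoImplicit false

namespace Pool.Agent.Helper60.AS

open Set

namespace Dual

section gauge

variable {k V : Type*} [Field k] [AddCommGroup V] [Module k V]

/-- isometries of a form -/
def Iso (B : V →ₗ[k] V →ₗ[k] k) : Subgroup (V ≃ₗ[k] V) where
  carrier := {g | ∀ v w, B (g v) (g w) = B v w}
  mul_mem' := by
    intro a b ha hb v w
    show B (a (b v)) (a (b w)) = B v w
    rw [ha, hb]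
  one_mem' := fun v w => rfl
  inv_mem' := by
    intro a ha v w
    show B (a.symm v) (a.symm w) = B v w
    rw [← ha (a.symm v) (a.symm w)]
    simp

variable {E : Type*} [NormedAddCommGroup E] [NormedSpace ℝ E]

/-- a flat isometric system is gauge trivial near a convex set -/
theorem exists_gauge [FiniteDimensional k V] {T : E → E → (V →ₗ[k] V)} {B : V →ₗ[k] V →ₗ[k] k}
    {C : Set E} (hC : Convex ℝ C) (hT : Flat T C) (hinv : ∀ x y v w, B (T x y v) (T x y w) = B v w)
    (hB : ∀ v, (∀ w, B v w = 0) → v = 0) {p : E} (hp : p ∈ C) :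
    ∃ u : E → (V ≃ₗ[k] V), (∀ x v w, B (u x v) (u x w) = B v w) ∧
      ∀ a ∈ C, ∃ ε > 0, ∀ x y, dist x a < ε → dist y a < ε → ∀ v, u x (T x y v) = u y v := by
  have hinj : ∀ x y, Function.Injective (T x y) := by
    intro x y
    rw [injective_iff_map_eq_zero]
    intro v hv
    apply hB
    intro w
    rw [← hinv x y v w, hv, map_zero]
    rfl
  let Tg : E → E → Iso B := fun x y =>
    ⟨LinearEquiv.ofInjectiveEndo (T x y) (hinj x y), fun v w => hinv x y v w⟩
  have hTg : ∀ x y v, (Tg x y).1 v = T x y v := fun x y v => rfl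
  have hflat : GFlat Tg C := by
    intro a ha
    obtain ⟨e, he, h⟩ := hT a ha
    refine ⟨e, he, fun x y z hx hy hz => ?_⟩
    apply Subtype.ext
    apply LinearEquiv.ext
    intro v
    exact LinearMap.congr_fun (h x y z hx hy hz).1 v
  obtain ⟨v, hv⟩ := gauge_trivial (T := Tg) (S := C) (R := C) (p := p)
    (K := fun s x => x + s • (p - x)) hflat (by
      intro s _ a _
      exact (continuous_snd.add (continuous_fst.smul
        (continuous_const.sub continuous_snd))).continuousAt) (by
      intro s hs a ha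
      have e : a + s • (p - a) = (1 - s) • a + s • p := by
        rw [smul_sub, sub_smul, one_smul]; abel
      show a + s • (p - a) ∈ C
      rw [e]
      exact hC ha hp (by linarith [hs.2]) hs.1 (by ring)) (by intro x; simp) (by intro x; simp)
  refine ⟨fun x => (v x).1, fun x => (v x).2, fun a ha => ?_⟩
  obtain ⟨e, he, h⟩ := hv a ha
  refine ⟨e, he, fun x y hx hy w => ?_⟩
  have h1 := h x y hx hy
  have h2 : v x * Tg x y = v y := by rw [h1, mul_inv_cancel_left]
  have h3 := congrArg (fun g : Iso B => g.1 w) h2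
  exact h3

end gauge

section gm

variable {Ω k V W : Type*} [PseudoMetricSpace Ω] [CommRing k] [AddCommGroup V] [Module k V]
  [AddCommGroup W] [Module k W] {T : Ω → Ω → (V →ₗ[k] V)} {T' : Ω → Ω → (W →ₗ[k] W)}
  {U S : Set Ω} {q n : ℕ} {u : Ω → (V →ₗ[k] W)} {c : List Ω → V}

theorem NA.gm {a : Ω} (hc : NA a n c) : NA a n (AS.gm u c) := by
  obtain ⟨e, he, h⟩ := hc
  refine ⟨e, he, fun l hl hx => ?_⟩
  cases l with
  | nil => rfl
  | cons x l => rw [gm_cons, h _ hl hx, map_zero]

theorem NZ.gm (hc : NZ S n c) : NZ S n (AS.gm u c) := fun a ha => NA.gm (hc a ha)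

theorem gm_sub (c c' : List Ω → V) : gm u (c - c') = gm u c - gm u c' := by
  funext l
  cases l with
  | nil => simp
  | cons x l => simp

/-- intertwining near `U` -/
def Tw (T : Ω → Ω → (V →ₗ[k] V)) (T' : Ω → Ω → (W →ₗ[k] W)) (u : Ω → (V →ₗ[k] W)) (U : Set Ω) :
    Prop := ∀ a ∈ U, ∃ ε > 0, ∀ x y, dist x a < ε → dist y a < ε → T' x y ∘ₗ u y = u x ∘ₗ T x y

theorem Tw.dT (hu : Tw T T' u U) (c : List Ω → V) (n : ℕ) :
    NZ U n (AS.dT T' (gm u c) - gm u (AS.dT T c)) := by
  intro a ha
  obtain ⟨e, he, h⟩ := hu a ha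
  refine ⟨e, he, fun l _ hx => ?_⟩
  rw [Pi.sub_apply, dT_gm T T' u c l (fun x hx' y hy => h x y (hx x hx') (hx y hy)), sub_self]

theorem Tw.zc (hu : Tw T T' u U) (hc : c ∈ Zc T univ Uᶜ q) : gm u c ∈ Zc T' univ Uᶜ q := by
  refine ⟨NZ.gm hc.1, ?_⟩
  rw [← union_compl_self U]
  apply NZ.union
  · have e : AS.dT T' (gm u c) = (AS.dT T' (gm u c) - gm u (AS.dT T c)) + gm u (AS.dT T c) := by
      abel
    rw [e]
    exact (hu.dT c _).add (NZ.gm (hc.2.mono (subset_univ _)))
  · exact (NZ.gm hc.1).dT T'

theorem Tw.bc (hu : Tw T T' u U) (hc : c ∈ Bc T univ Uᶜ q) : gm u c ∈ Bc T' univ Uᶜ q := by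
  obtain ⟨b, hb, hb'⟩ := hc
  refine ⟨gm u b, NZ.gm hb, ?_⟩
  rw [← union_compl_self U]
  apply NZ.union
  · have e : gm u c - AS.dT T' (gm u b) =
        gm u (c - AS.dT T b) - (AS.dT T' (gm u b) - gm u (AS.dT T b)) := by rw [gm_sub]; abel
    rw [e]
    exact (NZ.gm (hb'.mono (subset_univ _))).sub (hu.dT b _)
  · have e : gm u c = gm u (c - AS.dT T b) + gm u (AS.dT T b) := by rw [gm_sub]; abel
    rw [e]
    exact ((NZ.gm (hb'.mono (subset_univ _))).add (NZ.gm (hb.dT T))).sub ((NZ.gm hb).dT T')

end gm

section one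

variable {k V : Type*} [Field k] [AddCommGroup V] [Module k V] [FiniteDimensional k V]
variable {T : ℂ × ℂ → ℂ × ℂ → (V →ₗ[k] V)} {B : V →ₗ[k] V →ₗ[k] k} {O C : Set (ℂ × ℂ)}
  {I : (List (ℂ × ℂ) → k) →ₗ[k] k}

open Body

/-- the scalar components -/
noncomputable def gl (u : ℂ × ℂ → (V ≃ₗ[k] V)) (lam : V →ₗ[k] k) :
    (List (ℂ × ℂ) → V) → (List (ℂ × ℂ) → k) :=
  gm fun x => lam ∘ₗ (u x : V →ₗ[k] V)

/-- a vector times a scalar cochain -/
noncomputable def gr (u : ℂ × ℂ → (V ≃ₗ[k] V)) (w : V) :
    (List (ℂ × ℂ) → k) → (List (ℂ × ℂ) → V) :=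
  gm fun x => ((u x).symm : V →ₗ[k] V) ∘ₗ LinearMap.toSpanSingleton k V w

theorem gl_cons (u : ℂ × ℂ → (V ≃ₗ[k] V)) (lam : V →ₗ[k] k) (g : List (ℂ × ℂ) → V) (x : ℂ × ℂ)
    (l : List (ℂ × ℂ)) : gl u lam g (x :: l) = lam (u x (g (x :: l))) := rfl

theorem gr_cons (u : ℂ × ℂ → (V ≃ₗ[k] V)) (w : V) (g : List (ℂ × ℂ) → k) (x : ℂ × ℂ)
    (l : List (ℂ × ℂ)) : gr u w g (x :: l) = (u x).symm (g (x :: l) • w) := rfl

theorem NZ_cons {Ω X : Type*} [PseudoMetricSpace Ω] [AddCommGroup X] {S : Set Ω} {n : ℕ}
    {c : List Ω → X} (h : ∀ x l, c (x :: l) = 0) : NZ S (n + 1) c := by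
  intro a _
  refine ⟨1, one_pos, fun l hl _ => ?_⟩
  match l, hl with
  | x :: l, _ => exact h x l

theorem one (h : Ctx T B O I) (hB : ∀ v, (∀ w, B v w = 0) → v = 0) (hC : Convex ℝ C)
    (hc : IsCompact C) (hne : (interior C).Nonempty) (hCO : C ⊆ O)
    (hI : (∃ ω ∈ Zc (ct k) univ (interior C)ᶜ 4, I ω = 1) ∧
      (∀ c ∈ Zc (ct k) univ (interior C)ᶜ 4, I c = 0 → c ∈ Bc (ct k) univ (interior C)ᶜ 4)) :
    PDual T B I C (interior C) := by
  obtain ⟨p, hp⟩ := hne
  have hpC : p ∈ C := interior_subset hp
  have hTC : Flat T C := h.flat.mono hCO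
  obtain ⟨u, huB, hu⟩ := exists_gauge hC hTC h.inv hB hpC
  have hu' : ∀ a ∈ interior C, ∃ ε > 0, ∀ x y, dist x a < ε → dist y a < ε →
      ∀ v, u x (T x y v) = u y v := fun a ha => hu a (interior_subset ha)
  -- intertwining
  have twl : ∀ lam : V →ₗ[k] k,
      Tw T (ct k) (fun x => lam ∘ₗ (u x : V →ₗ[k] V)) (interior C) := by
    intro lam a ha
    obtain ⟨e, he, h1⟩ := hu' a ha
    refine ⟨e, he, fun x y hx hy => ?_⟩
    apply LinearMap.ext
    intro v
    show lam (u y v) = lam (u x (T x y v))
    rw [h1 x y hx hy v]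
  have twr : ∀ w : V, Tw (ct k) T
      (fun x => ((u x).symm : V →ₗ[k] V) ∘ₗ LinearMap.toSpanSingleton k V w) (interior C) := by
    intro w a ha
    obtain ⟨e, he, h1⟩ := hu' a ha
    refine ⟨e, he, fun x y hx hy => ?_⟩
    apply LinearMap.ext
    intro r
    show T x y ((u y).symm (r • w)) = (u x).symm (r • w)
    rw [LinearEquiv.eq_symm_apply, h1 x y hx hy, LinearEquiv.apply_symm_apply]
  -- components
  let b := Module.finBasis k V
  have hdec : ∀ g : List (ℂ × ℂ) → V, ∀ x l,
      (∑ m, gr u (b m) (gl u (b.coord m) g)) (x :: l) = g (x :: l) := by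
    intro g x l
    rw [Finset.sum_apply]
    have : ∀ m, gr u (b m) (gl u (b.coord m) g) (x :: l) =
        (u x).symm (b.coord m (u x (g (x :: l))) • b m) := fun m => rfl
    simp only [this]
    rw [← map_sum, LinearEquiv.symm_apply_eq]
    exact b.sum_repr _
  -- vanishing
  have hvan : ∀ q, q ≠ 4 → HV T univ (interior C)ᶜ q := by
    intro q hq g hg
    have h1 : ∀ m, gr u (b m) (gl u (b.coord m) g) ∈ Bc T univ (interior C)ᶜ q := by
      intro m
      exact (twr (b m)).bc (vanish hC hc ⟨p, hp⟩ hq ((twl (b.coord m)).zc hg))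
    have h2 : (∑ m, gr u (b m) (gl u (b.coord m) g)) ∈ Bc T univ (interior C)ᶜ q :=
      Submodule.sum_mem _ fun m _ => h1 m
    have e : g = (g - ∑ m, gr u (b m) (gl u (b.coord m) g)) +
        ∑ m, gr u (b m) (gl u (b.coord m) g) := by abel
    rw [e]
    refine Submodule.add_mem _ (NZ.Bc_univ (NZ_cons fun x l => ?_)) h2
    rw [Pi.sub_apply, hdec, sub_self]
  obtain ⟨⟨ω, hω, hω1⟩, hI2⟩ := hI
  -- the pairing in degree (0, 4)
  have hpair : ∀ (f : List (ℂ × ℂ) → V) (w₀ : V),
      (∀ a ∈ C, ∃ ε > 0, ∀ x, dist x a < ε → u x (f [x]) = w₀) →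
      ∀ g ∈ Zc T univ (interior C)ᶜ 4, I (cup T B 0 f g) = I (gl u (B w₀) g) := by
    intro f w₀ hf g hg
    apply h.congr
    rw [← union_compl_self (interior C)]
    apply NZ.union
    · intro a ha
      obtain ⟨e1, he1, h1⟩ := hf a (interior_subset ha)
      obtain ⟨e2, he2, h2⟩ := hTC a (interior_subset ha)
      refine ⟨min e1 e2, lt_min he1 he2, fun l hl hx => ?_⟩
      match l, hl with
      | x :: l, _ =>
        have hx0 := hx x (by simp)
        have hx1 := lt_of_lt_of_le hx0 (min_le_left _ _)
        have hx2 := lt_of_lt_of_le hx0 (min_le_right _ _)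
        have h3 : T x x = LinearMap.id := (h2 x x x hx2 hx2 hx2).2
        rw [Pi.sub_apply, cup_cons, gl_cons]
        have h4 : (x :: l).take (0 + 1) = [x] := rfl
        rw [h4, List.drop_zero, tw_cons, h3, LinearMap.id_apply, ← h1 x hx1, huB, sub_self]
    · exact (hg.1.cup_right (by omega)).sub (NZ.gm hg.1)
  refine ⟨?_, ?_, ?_⟩
  · intro i j hij f hf hP
    cases i with
    | succ i => exact HV_convex hC hc hTC i hf
    | zero =>
      have hj : j = 4 := by omega
      subst hj
      -- `u x (f [x])` is locally constant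
      have hloc : ∀ a ∈ C, ∃ ε > 0, ∀ x y, dist x a < ε → dist y a < ε →
          u x (f [x]) = u y (f [y]) := by
        intro a ha
        obtain ⟨e1, he1, h1⟩ := hf.2 a ha
        obtain ⟨e2, he2, h2⟩ := hu a ha
        refine ⟨min e1 e2, lt_min he1 he2, fun x y hx hy => ?_⟩
        have h3 := h1 [x, y] rfl (by
          intro z hz
          rcases List.mem_pair.1 hz with rfl | rfl
          · exact lt_of_lt_of_le hx (min_le_left _ _)
          · exact lt_of_lt_of_le hy (min_le_left _ _))
        rw [dT_two, sub_eq_zero] at h3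
        rw [← h3, h2 x y (lt_of_lt_of_le hx (min_le_right _ _))
          (lt_of_lt_of_le hy (min_le_right _ _))]
      have hconst : ∀ a ∈ C, u a (f [a]) = u p (f [p]) := by
        letI : TopologicalSpace V := ⊥
        haveI : DiscreteTopology V := ⟨rfl⟩
        intro a ha
        refine hC.isPreconnected.constant (f := fun x => u x (f [x])) ?_ ha hpC
        intro y hy
        obtain ⟨e, he, h1⟩ := hloc y hy
        have h2 : (fun x => u x (f [x])) =ᶠ[nhds y] fun _ => u y (f [y]) := by
          filter_upwards [Metric.ball_mem_nhds y he] with x hx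
          exact h1 x y hx (by simpa using he)
        exact ((continuousAt_const (y := u y (f [y]))).congr h2.symm).continuousWithinAt
      have hf0 : ∀ a ∈ C, ∃ ε > 0, ∀ x, dist x a < ε → u x (f [x]) = u p (f [p]) := by
        intro a ha
        obtain ⟨e, he, h1⟩ := hloc a ha
        refine ⟨e, he, fun x hx => ?_⟩
        rw [h1 x a hx (by simpa using he), hconst a ha]
      have hw0 : u p (f [p]) = 0 := by
        apply hB
        intro w
        have h1 : gr u w ω ∈ Zc T univ (interior C)ᶜ 4 := (twr w).zc hω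
        have h2 := hP _ h1
        rw [hpair f _ hf0 _ h1] at h2
        have h3 : I (gl u (B (u p (f [p]))) (gr u w ω)) = I (B (u p (f [p])) w • ω) := by
          apply h.congr
          apply NZ_cons
          intro x l
          rw [Pi.sub_apply, gl_cons, gr_cons, LinearEquiv.apply_symm_apply, map_smul,
            Pi.smul_apply, smul_eq_mul, smul_eq_mul, mul_comm, sub_self]
        rw [h3, map_smul, hω1, smul_eq_mul, mul_one] at h2
        exact h2
      refine ⟨0, NZ.zero, ?_⟩
      rw [dT_zero, sub_zero]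
      intro a ha
      obtain ⟨e, he, h1⟩ := hf0 a ha
      refine ⟨e, he, fun l hl hx => ?_⟩
      match l, hl with
      | [x], _ =>
        have h2 := h1 x (hx x (by simp))
        rw [hw0] at h2
        exact (LinearEquiv.map_eq_zero_iff (u x)).1 h2
  · intro i j hij φ hφ
    cases i with
    | succ i =>
      refine ⟨0, Submodule.zero_mem _, fun g hg => ?_⟩
      rw [hφ g (hvan j (by omega) hg)]
      have : cup T B (i + 1) 0 g = 0 := by
        have := cup_smul_left (T := T) (B := B) (i := i + 1) (0 : k) (0 : List (ℂ × ℂ) → V) g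
        simpa using this
      rw [this, map_zero]
    | zero =>
      have hj : j = 4 := by omega
      subst hj
      -- the vector of the functional
      have gr_add : ∀ w w' : V, gr u (w + w') ω = gr u w ω + gr u w' ω := by
        intro w w'
        funext l
        cases l with
        | nil => simp [gr]
        | cons x l => rw [Pi.add_apply, gr_cons, gr_cons, gr_cons, smul_add, map_add]
      have gr_smul : ∀ (r : k) (w : V), gr u (r • w) ω = r • gr u w ω := by
        intro r w
        funext l
        cases l with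
        | nil => simp [gr]
        | cons x l => rw [Pi.smul_apply, gr_cons, gr_cons, smul_comm, map_smul]
      let ev : V →ₗ[k] k :=
        { toFun := fun w => φ (gr u w ω)
          map_add' := fun w w' => by rw [gr_add, map_add]
          map_smul' := fun r w => by rw [gr_smul, map_smul, RingHom.id_apply] }
      have hBinj : Function.Injective B := by
        rw [injective_iff_map_eq_zero]
        intro v hv
        exact hB v fun w => by rw [hv]; rfl
      have hBsurj : Function.Surjective B := by
        have hfr : Module.finrank k V = Module.finrank k (V →ₗ[k] k) :=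
          (Subspace.dual_finrank_eq (K := k) (V := V)).symm
        exact (LinearMap.injective_iff_surjective_of_finrank_eq_finrank hfr).1 hBinj
      obtain ⟨w₀, hw₀⟩ := hBsurj ev
      let f : List (ℂ × ℂ) → V := fun l =>
        match l with
        | [] => 0
        | x :: _ => (u x).symm w₀
      have hfx : ∀ x, f [x] = (u x).symm w₀ := fun x => rfl
      have hf : f ∈ Zc T C ∅ 0 := by
        refine ⟨NZ.empty, ?_⟩
        intro a ha
        obtain ⟨e, he, h1⟩ := hu a ha
        refine ⟨e, he, fun l hl hx => ?_⟩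
        match l, hl with
        | [x, y], _ =>
          rw [dT_two, hfx, hfx, sub_eq_zero, LinearEquiv.eq_symm_apply,
            h1 x y (hx x (by simp)) (hx y (by simp)), LinearEquiv.apply_symm_apply]
      refine ⟨f, hf, fun g hg => ?_⟩
      rw [hpair f w₀ (fun a _ => ⟨1, one_pos, fun x _ => by
        rw [hfx, LinearEquiv.apply_symm_apply]⟩) g hg]
      -- the class of `g`
      have hcl : ∀ m, gl u (b.coord m) g - I (gl u (b.coord m) g) • ω ∈
          Bc (ct k) univ (interior C)ᶜ 4 := by
        intro m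
        apply hI2
        · exact Submodule.sub_mem _ ((twl (b.coord m)).zc hg) (Submodule.smul_mem _ _ hω)
        · rw [map_sub, map_smul, hω1, smul_eq_mul, mul_one, sub_self]
      have hgr : ∀ m, φ (gr u (b m) (gl u (b.coord m) g)) =
          I (gl u (b.coord m) g) * B w₀ (b m) := by
        intro m
        have h1 := hφ _ ((twr (b m)).bc (hcl m))
        rw [gm_sub, map_sub, sub_eq_zero] at h1
        have h2 : gm (fun x => ((u x).symm : V →ₗ[k] V) ∘ₗ LinearMap.toSpanSingleton k V (b m))
            (gl u (b.coord m) g) = gr u (b m) (gl u (b.coord m) g) := rfl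
        rw [h2] at h1
        rw [h1]
        have h3 : gm (fun x => ((u x).symm : V →ₗ[k] V) ∘ₗ LinearMap.toSpanSingleton k V (b m))
            (I (gl u (b.coord m) g) • ω) = I (gl u (b.coord m) g) • gr u (b m) ω := by
          funext l
          cases l with
          | nil => simp [gr]
          | cons x l =>
            rw [Pi.smul_apply, gr_cons, gm_cons]
            simp [mul_smul]
        rw [h3, map_smul, smul_eq_mul]
        congr 1
        have h4 : ev (b m) = φ (gr u (b m) ω) := rfl
        rw [← h4, hw₀]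
      have hsum : φ g = ∑ m, I (gl u (b.coord m) g) * B w₀ (b m) := by
        have e : g = (g - ∑ m, gr u (b m) (gl u (b.coord m) g)) +
            ∑ m, gr u (b m) (gl u (b.coord m) g) := by abel
        have h0 : φ (g - ∑ m, gr u (b m) (gl u (b.coord m) g)) = 0 := by
          apply hφ
          refine NZ.Bc_univ (NZ_cons fun x l => ?_)
          rw [Pi.sub_apply, hdec, sub_self]
        conv_lhs => rw [e]
        rw [map_add, h0, zero_add, map_sum]
        exact Finset.sum_congr rfl fun m _ => hgr m
      rw [hsum]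
      have hB0 : gl u (B w₀) g = ∑ m, B w₀ (b m) • gl u (b.coord m) g := by
        funext l
        cases l with
        | nil => simp [gl]
        | cons x l =>
          rw [Finset.sum_apply, gl_cons]
          conv_lhs => rw [← b.sum_repr (u x (g (x :: l)))]
          rw [map_sum]
          refine Finset.sum_congr rfl fun m _ => ?_
          rw [map_smul, Pi.smul_apply, gl_cons, smul_eq_mul, smul_eq_mul, mul_comm]
          rfl
      rw [hB0, map_sum]
      refine Finset.sum_congr rfl fun m _ => ?_
      rw [map_smul, smul_eq_mul, mul_comm]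
  · intro q hq
    exact hvan q (by omega)

/-- duality for good families of convex sets -/
theorem good (h : Ctx T B O I) (hB : ∀ v, (∀ w, B v w = 0) → v = 0)
    (hI : ∀ C : Set (ℂ × ℂ), Convex ℝ C → IsCompact C → (interior C).Nonempty → C ⊆ O →
      (∃ ω ∈ Zc (ct k) univ (interior C)ᶜ 4, I ω = 1) ∧
      (∀ c ∈ Zc (ct k) univ (interior C)ᶜ 4, I c = 0 → c ∈ Bc (ct k) univ (interior C)ᶜ 4))
    {ι : Type} [DecidableEq ι] (s : Finset ι) : ∀ (D : ι → Set (ℂ × ℂ)),
    (∀ i ∈ s, Convex ℝ (D i) ∧ IsCompact (D i)) →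
    (∀ t ⊆ s, t.Nonempty → (⋂ i ∈ t, D i).Nonempty → (interior (⋂ i ∈ t, D i)).Nonempty) →
    (⋃ i ∈ s, D i) ⊆ O → PDual T B I (⋃ i ∈ s, D i) (⋃ i ∈ s, interior (D i)) := by
  induction s using Finset.induction_on with
  | empty =>
    intro D _ _ _
    simp only [Finset.notMem_empty, iUnion_of_empty, iUnion_empty]
    exact PDual.empty
  | insert a s ha ih =>
    intro D hD hg hO
    have hO1 : (⋃ i ∈ s, D i) ⊆ O := by
      refine subset_trans ?_ hO
      exact biUnion_subset_biUnion_left fun i hi => Finset.mem_insert_of_mem hi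
    have hOa : D a ⊆ O := by
      refine subset_trans ?_ hO
      exact subset_biUnion_of_mem (u := D) (Finset.mem_coe.2 (Finset.mem_insert_self a s))
    have ha' := hD a (Finset.mem_insert_self _ _)
    have d1 : PDual T B I (⋃ i ∈ s, D i) (⋃ i ∈ s, interior (D i)) :=
      ih D (fun i hi => hD i (Finset.mem_insert_of_mem hi))
        (fun t ht => hg t (ht.trans (Finset.subset_insert _ _))) hO1
    have d2 : PDual T B I (D a) (interior (D a)) := by
      rcases (D a).eq_empty_or_nonempty with he | hne
      · rw [he, interior_empty]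
        exact PDual.empty
      · have h1 := hg {a} (by simp) (Finset.singleton_nonempty a)
        rw [Finset.set_biInter_singleton] at h1
        exact one h hB ha'.1 ha'.2 (h1 hne) hOa (hI _ ha'.1 ha'.2 (h1 hne) hOa)
    have d12 : PDual T B I ((⋃ i ∈ s, D i) ∩ D a) ((⋃ i ∈ s, interior (D i)) ∩ interior (D a)) := by
      have e1 : (⋃ i ∈ s, D i) ∩ D a = ⋃ i ∈ s, (D i ∩ D a) := by
        rw [iUnion₂_inter]
      have e2 : (⋃ i ∈ s, interior (D i)) ∩ interior (D a) = ⋃ i ∈ s, interior (D i ∩ D a) := by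
        rw [iUnion₂_inter]
        simp only [interior_inter]
      rw [e1, e2]
      refine ih (fun i => D i ∩ D a) ?_ ?_ ?_
      · intro i hi
        have hi' := hD i (Finset.mem_insert_of_mem hi)
        exact ⟨hi'.1.inter ha'.1, hi'.2.inter ha'.2⟩
      · intro t ht htn hne
        have e3 : (⋂ i ∈ t, (D i ∩ D a)) = ⋂ i ∈ insert a t, D i := by
          ext x
          simp only [mem_iInter, mem_inter_iff, Finset.mem_insert]
          constructor
          · intro hx i hi
            rcases hi with rfl | hi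
            · obtain ⟨j, hj⟩ := htn
              exact (hx j hj).2
            · exact (hx i hi).1
          · intro hx i hi
            exact ⟨hx i (Or.inr hi), hx a (Or.inl rfl)⟩
        rw [e3] at hne ⊢
        exact hg _ (Finset.insert_subset_insert _ ht) (Finset.insert_nonempty _ _) hne
      · rw [← e1]
        exact inter_subset_left.trans hO1
    have e1 : (⋃ i ∈ insert a s, D i) = (⋃ i ∈ s, D i) ∪ D a := by
      rw [Finset.set_biUnion_insert, union_comm]
    have e2 : (⋃ i ∈ insert a s, interior (D i)) = (⋃ i ∈ s, interior (D i)) ∪ interior (D a) := by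
      rw [Finset.set_biUnion_insert, union_comm]
    rw [e1, e2]
    have hcl : IsClosed (⋃ i ∈ s, D i) := by
      apply isClosed_biUnion_finset
      intro i hi
      exact (hD i (Finset.mem_insert_of_mem hi)).2.isClosed
    refine h.union (isOpen_biUnion fun i _ => isOpen_interior) isOpen_interior hcl
      ha'.2.isClosed ?_ interior_subset hO1 hOa d1 d2 d12
    exact iUnion₂_mono fun i _ => interior_subset

end one

end Dual

end Pool.Agent.Helper60.AS
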