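import Pool.Agent.Helper60.AS.HI

/-! Finite generation of the cohomology of compact retracts of open sets (over noetherian rings). -/

set_option autoImplicit false
set_option linter.unusedSectionVars false
set_option linter.unusedVariables false

namespace Pool.Agent.Helper60.AS

open Set

variable {E A V : Type*} [NormedAddCommGroup E] [NormedSpace ℝ E] [FiniteDimensional ℝ E]
  [CommRing A] [AddCommGroup V] [Module A V]

/-- `S` is a compact retract of an open subset of `E` -/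
def CR (S : Set E) : Prop := IsCompact S ∧ ∃ (U : Set E) (ρ : E → E), IsOpen U ∧ S ⊆ U ∧
  ContinuousOn ρ U ∧ MapsTo ρ U S ∧ ∀ x ∈ S, ρ x = x

/-- cochain level finite generation: finitely many cocycles generate `Zc` over `A` modulo `Bc` -/
def FG (T : E → E → (V →ₗ[A] V)) (S S' : Set E) (q : ℕ) : Prop :=
  ∃ Z : Set (List E → V), Z.Finite ∧ Z ⊆ Zc T S S' q ∧
    (Zc T S S' q : Submodule A (List E → V)) ≤ Submodule.span A Z ⊔ Bc T S S' q

theorem FG_iff {T : E → E → (V →ₗ[A] V)} {S S' : Set E} {q : ℕ} :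
    FG T S S' q ↔ Module.Finite A (H T S S' q) := by
  constructor
  · rintro ⟨Z, hZ, hZc, hle⟩
    have : Finite Z := hZ
    refine ⟨⟨(Set.toFinite (Set.range (fun z : Z => H.mk T S S' q ⟨z, hZc z.2⟩))).toFinset, ?_⟩⟩
    rw [Set.Finite.coe_toFinset, eq_top_iff]
    rintro x -
    obtain ⟨c, rfl⟩ := H.mk_surjective q x
    obtain ⟨z, hz, b, hb, e⟩ := Submodule.mem_sup.1 (hle c.2)
    have hspan : ∀ z ∈ Submodule.span A Z, ∃ hz' : z ∈ Zc T S S' q,
        H.mk T S S' q ⟨z, hz'⟩ ∈ Submodule.span A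
          (Set.range (fun z : Z => H.mk T S S' q ⟨z, hZc z.2⟩)) := by
      intro z hz
      induction hz using Submodule.span_induction with
      | mem x hx => exact ⟨hZc hx, Submodule.subset_span ⟨⟨x, hx⟩, rfl⟩⟩
      | zero => exact ⟨Submodule.zero_mem _, by
          have : (⟨0, Submodule.zero_mem _⟩ : Zc T S S' q) = 0 := rfl
          rw [this, map_zero]; exact Submodule.zero_mem _⟩
      | add x y _ _ hx hy =>
        obtain ⟨hx1, hx2⟩ := hx
        obtain ⟨hy1, hy2⟩ := hy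
        refine ⟨Submodule.add_mem _ hx1 hy1, ?_⟩
        have : (⟨x + y, Submodule.add_mem _ hx1 hy1⟩ : Zc T S S' q) = ⟨x, hx1⟩ + ⟨y, hy1⟩ := rfl
        rw [this, map_add]; exact Submodule.add_mem _ hx2 hy2
      | smul a x _ hx =>
        obtain ⟨hx1, hx2⟩ := hx
        refine ⟨Submodule.smul_mem _ a hx1, ?_⟩
        have : (⟨a • x, Submodule.smul_mem _ a hx1⟩ : Zc T S S' q) = a • ⟨x, hx1⟩ := rfl
        rw [this, map_smul]; exact Submodule.smul_mem _ a hx2
    obtain ⟨hz1, hz2⟩ := hspan z hz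
    have : H.mk T S S' q c = H.mk T S S' q ⟨z, hz1⟩ := by
      rw [← sub_eq_zero, ← map_sub, H.mk_eq_zero]
      have h3 : ((c - ⟨z, hz1⟩ : Zc T S S' q) : List E → V) = b := by
        rw [Submodule.coe_sub, ← e]; abel
      rw [h3]; exact hb
    rw [this]; exact hz2
  · intro h
    obtain ⟨s, hs⟩ := h.1
    choose f hf using fun x : H T S S' q => H.mk_surjective (T := T) (S := S) (S' := S') q x
    refine ⟨(fun x => ((f x : Zc T S S' q) : List E → V)) '' (s : Set (H T S S' q)),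
      s.finite_toSet.image _, ?_, ?_⟩
    · rintro _ ⟨x, _, rfl⟩
      exact (f x).2
    · intro c hc
      have h1 : H.mk T S S' q ⟨c, hc⟩ ∈ Submodule.span A (s : Set (H T S S' q)) := by
        rw [hs]; trivial
      have h2 : ∀ y ∈ Submodule.span A (s : Set (H T S S' q)), ∃ z ∈ Submodule.span A
          ((fun x => ((f x : Zc T S S' q) : List E → V)) '' (s : Set (H T S S' q))),
          ∃ hz : z ∈ Zc T S S' q, H.mk T S S' q ⟨z, hz⟩ = y := by
        intro y hy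
        induction hy using Submodule.span_induction with
        | mem x hx => exact ⟨f x, Submodule.subset_span ⟨x, hx, rfl⟩, (f x).2, hf x⟩
        | zero => exact ⟨0, Submodule.zero_mem _, Submodule.zero_mem _, map_zero _⟩
        | add x y _ _ hx hy =>
          obtain ⟨z, hz, hz1, hz2⟩ := hx
          obtain ⟨w, hw, hw1, hw2⟩ := hy
          refine ⟨z + w, Submodule.add_mem _ hz hw, Submodule.add_mem _ hz1 hw1, ?_⟩
          rw [← hz2, ← hw2, ← map_add]; rfl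
        | smul a x _ hx =>
          obtain ⟨z, hz, hz1, hz2⟩ := hx
          refine ⟨a • z, Submodule.smul_mem _ a hz, Submodule.smul_mem _ a hz1, ?_⟩
          rw [← hz2, ← map_smul]; rfl
      obtain ⟨z, hz, hz1, hz2⟩ := h2 _ h1
      refine Submodule.mem_sup.2 ⟨z, hz, c - z, ?_, by abel⟩
      rw [eq_comm, ← sub_eq_zero, ← map_sub, H.mk_eq_zero] at hz2
      exact hz2

theorem FG_of_HV {T : E → E → (V →ₗ[A] V)} {S S' : Set E} {q : ℕ} (h : HV T S S' q) :
    FG T S S' q :=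
  ⟨∅, Set.finite_empty, Set.empty_subset _, h.trans le_sup_right⟩

/-! ### linearity of the Mayer-Vietoris relation -/

theorem ft_MVd_add {T : E → E → (V →ₗ[A] V)} {S₁ S₁' S₂ S₂' : Set E} {q : ℕ} {h c h' c' : List E → V}
    (H1 : MVd T S₁ S₁' S₂ S₂' q h c) (H2 : MVd T S₁ S₁' S₂ S₂' q h' c') :
    MVd T S₁ S₁' S₂ S₂' q (h + h') (c + c') := by
  obtain ⟨b₁, b₂, h1, h2, h3, h4, h5⟩ := H1
  obtain ⟨b₁', b₂', h1', h2', h3', h4', h5'⟩ := H2
  refine ⟨b₁ + b₁', b₂ + b₂', h1.add h1', h2.add h2', ?_, ?_, ?_⟩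
  · have e : c + c' - dT T (b₁ + b₁') = (c - dT T b₁) + (c' - dT T b₁') := by rw [dT_add]; abel
    rw [e]; exact h3.add h3'
  · have e : c + c' - dT T (b₂ + b₂') = (c - dT T b₂) + (c' - dT T b₂') := by rw [dT_add]; abel
    rw [e]; exact h4.add h4'
  · have e : h + h' - (b₁ + b₁' - (b₂ + b₂')) = (h - (b₁ - b₂)) + (h' - (b₁' - b₂')) := by abel
    rw [e]; exact h5.add h5'

theorem ft_MVd_smul {T : E → E → (V →ₗ[A] V)} {S₁ S₁' S₂ S₂' : Set E} {q : ℕ} {h c : List E → V}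
    (r : A) (H1 : MVd T S₁ S₁' S₂ S₂' q h c) : MVd T S₁ S₁' S₂ S₂' q (r • h) (r • c) := by
  obtain ⟨b₁, b₂, h1, h2, h3, h4, h5⟩ := H1
  refine ⟨r • b₁, r • b₂, h1.smul r, h2.smul r, ?_, ?_, ?_⟩
  · rw [dT_smul, ← smul_sub]; exact h3.smul r
  · rw [dT_smul, ← smul_sub]; exact h4.smul r
  · rw [← smul_sub, ← smul_sub]; exact h5.smul r

theorem ft_MVd_zero {T : E → E → (V →ₗ[A] V)} {S₁ S₁' S₂ S₂' : Set E} {q : ℕ} :
    MVd T S₁ S₁' S₂ S₂' q (0 : List E → V) 0 := by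
  refine ⟨0, 0, NZ.zero, NZ.zero, ?_, ?_, ?_⟩
  · rw [dT_zero, sub_zero]; exact NZ.zero
  · rw [dT_zero, sub_zero]; exact NZ.zero
  · rw [sub_zero, sub_zero]; exact NZ.zero

/-- degree zero coboundaries vanish near `S` -/
theorem ft_mem_Bc_zero {T : E → E → (V →ₗ[A] V)} {S : Set E} {c : List E → V} :
    c ∈ Bc T S ∅ 0 ↔ NZ S 1 c := by
  constructor
  · rintro ⟨b, -, h⟩ a ha
    obtain ⟨e, he, h⟩ := h a ha
    refine ⟨e, he, fun l hl hx => ?_⟩
    have h1 := h l hl hx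
    match l, hl with
    | [x], _ => rwa [Pi.sub_apply, dT_one, sub_zero] at h1
  · intro h
    refine ⟨0, NZ.zero, ?_⟩
    rw [dT_zero, sub_zero]; exact h

/-! ### the Mayer-Vietoris step -/

theorem FG_union0 [IsNoetherianRing A] {T : E → E → (V →ₗ[A] V)} {S₁ S₂ : Set E}
    (f1 : FG T S₁ ∅ 0) (f2 : FG T S₂ ∅ 0) : FG T (S₁ ∪ S₂) ∅ 0 := by
  rw [FG_iff] at f1 f2 ⊢
  let f : H T (S₁ ∪ S₂) ∅ 0 →ₗ[A] H T S₁ ∅ 0 × H T S₂ ∅ 0 :=
    (Hres T subset_union_left (le_refl ∅) 0).prod (Hres T subset_union_right (le_refl ∅) 0)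
  have hf : Function.Injective f := by
    rw [← LinearMap.ker_eq_bot, eq_bot_iff]
    intro x hx
    obtain ⟨c, rfl⟩ := H.mk_surjective 0 x
    rw [LinearMap.mem_ker] at hx
    have hx1 : Hres T (subset_union_left : S₁ ⊆ S₁ ∪ S₂) (le_refl ∅) 0 (H.mk T (S₁ ∪ S₂) ∅ 0 c) = 0 :=
      congrArg Prod.fst hx
    have hx2 : Hres T (subset_union_right : S₂ ⊆ S₁ ∪ S₂) (le_refl ∅) 0 (H.mk T (S₁ ∪ S₂) ∅ 0 c) = 0 :=
      congrArg Prod.snd hx
    have h1 : (c : List E → V) ∈ Bc T S₁ ∅ 0 := by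
      exact (H.mk_eq_zero (T := T) (S := S₁) (S' := ∅)
        (Submodule.inclusion (Zc_mono subset_union_left (le_refl ∅) 0) c)).1 hx1
    have h2 : (c : List E → V) ∈ Bc T S₂ ∅ 0 := by
      exact (H.mk_eq_zero (T := T) (S := S₂) (S' := ∅)
        (Submodule.inclusion (Zc_mono subset_union_right (le_refl ∅) 0) c)).1 hx2
    rw [ft_mem_Bc_zero] at h1 h2
    rw [Submodule.mem_bot, H.mk_eq_zero, ft_mem_Bc_zero]
    exact h1.union h2
  exact Module.Finite.of_injective f hf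

theorem FG_union [IsNoetherianRing A] {T : E → E → (V →ₗ[A] V)} {S₁ S₂ : Set E}
    (c1 : IsClosed S₁) (c2 : IsClosed S₂) (hT : Flat T (S₁ ∪ S₂)) {q : ℕ}
    (f1 : FG T S₁ ∅ (q + 1)) (f2 : FG T S₂ ∅ (q + 1)) (f3 : FG T (S₁ ∩ S₂) ∅ q) :
    FG T (S₁ ∪ S₂) ∅ (q + 1) := by
  classical
  rw [FG_iff] at f1 f2 ⊢
  let f : H T (S₁ ∪ S₂) ∅ (q + 1) →ₗ[A] H T S₁ ∅ (q + 1) × H T S₂ ∅ (q + 1) :=
    (Hres T subset_union_left (le_refl ∅) (q + 1)).prod
      (Hres T subset_union_right (le_refl ∅) (q + 1))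
  obtain ⟨Z, hZ, hZc, hle⟩ := f3
  have ce : IsClosed (∅ : Set E) := isClosed_empty
  -- connecting elements
  have hδ : ∀ z : Z, ∃ c : Zc T (S₁ ∪ S₂) ∅ (q + 1), MVd T S₁ ∅ S₂ ∅ q z c := by
    intro z
    have hz : (z : List E → V) ∈ Zc T (S₁ ∩ S₂) (∅ ∩ ∅) q := by
      rw [Set.inter_self]; exact hZc z.2
    obtain ⟨c, hc, h⟩ := mvd_exists c1 c2 ce ce (empty_subset _) (empty_subset _) hT hz
    rw [Set.union_self] at hc
    exact ⟨⟨c, hc⟩, h⟩
  choose δ hδ using hδ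
  have : Finite Z := hZ
  let N : Submodule A (H T (S₁ ∪ S₂) ∅ (q + 1)) :=
    Submodule.span A (Set.range fun z : Z => H.mk T (S₁ ∪ S₂) ∅ (q + 1) (δ z))
  have hN : N.FG := Submodule.fg_span (Set.finite_range _)
  have hspan : ∀ h ∈ Submodule.span A Z, ∃ c : Zc T (S₁ ∪ S₂) ∅ (q + 1),
      MVd T S₁ ∅ S₂ ∅ q h c ∧ H.mk T (S₁ ∪ S₂) ∅ (q + 1) c ∈ N := by
    intro h hh
    induction hh using Submodule.span_induction with
    | mem x hx => exact ⟨δ ⟨x, hx⟩, hδ ⟨x, hx⟩, Submodule.subset_span ⟨⟨x, hx⟩, rfl⟩⟩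
    | zero => exact ⟨0, ft_MVd_zero, by rw [map_zero]; exact Submodule.zero_mem _⟩
    | add x y _ _ hx hy =>
      obtain ⟨c, hc1, hc2⟩ := hx
      obtain ⟨d, hd1, hd2⟩ := hy
      exact ⟨c + d, ft_MVd_add hc1 hd1, by rw [map_add]; exact Submodule.add_mem _ hc2 hd2⟩
    | smul a x _ hx =>
      obtain ⟨c, hc1, hc2⟩ := hx
      exact ⟨a • c, ft_MVd_smul a hc1, by rw [map_smul]; exact Submodule.smul_mem _ a hc2⟩
  have hker : LinearMap.ker f ≤ N := by
    intro x hx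
    obtain ⟨c, rfl⟩ := H.mk_surjective (q + 1) x
    rw [LinearMap.mem_ker] at hx
    have hx1 : Hres T (subset_union_left : S₁ ⊆ S₁ ∪ S₂) (le_refl ∅) (q + 1)
        (H.mk T (S₁ ∪ S₂) ∅ (q + 1) c) = 0 := congrArg Prod.fst hx
    have hx2 : Hres T (subset_union_right : S₂ ⊆ S₁ ∪ S₂) (le_refl ∅) (q + 1)
        (H.mk T (S₁ ∪ S₂) ∅ (q + 1) c) = 0 := congrArg Prod.snd hx
    have h1 : (c : List E → V) ∈ Bc T S₁ ∅ (q + 1) := by
      exact (H.mk_eq_zero (T := T) (S := S₁) (S' := ∅)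
        (Submodule.inclusion (Zc_mono subset_union_left (le_refl ∅) (q + 1)) c)).1 hx1
    have h2 : (c : List E → V) ∈ Bc T S₂ ∅ (q + 1) := by
      exact (H.mk_eq_zero (T := T) (S := S₂) (S' := ∅)
        (Submodule.inclusion (Zc_mono subset_union_right (le_refl ∅) (q + 1)) c)).1 hx2
    have hcc : (c : List E → V) ∈ Zc T (S₁ ∪ S₂) (∅ ∪ ∅) (q + 1) := by
      rw [Set.union_self]; exact c.2
    obtain ⟨h, hh, hhc⟩ := mvd_of_zero c1 c2 ce ce (empty_subset _) (empty_subset _) hT hcc h1 h2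
    rw [Set.inter_self] at hh
    obtain ⟨z, hz, b, hb, e⟩ := Submodule.mem_sup.1 (hle hh)
    obtain ⟨d, hd1, hd2⟩ := hspan z hz
    have hM : MVd T S₁ ∅ S₂ ∅ q b ((c : List E → V) - d) := by
      have h3 := ft_MVd_add hhc (ft_MVd_smul (-1) hd1)
      have e1 : h + (-1 : A) • z = b := by rw [← e, neg_smul, one_smul]; abel
      have e2 : (c : List E → V) + (-1 : A) • (d : List E → V) = c - d := by
        rw [neg_smul, one_smul, sub_eq_add_neg]
      rwa [e1, e2] at h3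
    have hbZ : b ∈ Zc T (S₁ ∩ S₂) (∅ ∩ ∅) q := by
      rw [Set.inter_self]
      have hz' : z ∈ Zc T (S₁ ∩ S₂) ∅ q := (Submodule.span_le.2 hZc) hz
      have : b = h - z := by rw [← e]; abel
      rw [this]; exact Submodule.sub_mem _ hh hz'
    have h4 := (mvd_eq_zero c1 c2 ce ce (empty_subset _) (empty_subset _) hT hbZ hM).2
      ⟨0, Submodule.zero_mem _, 0, Submodule.zero_mem _, by
        rw [Set.inter_self, sub_zero, sub_zero]; exact hb⟩
    rw [Set.union_self] at h4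
    have h5 : H.mk T (S₁ ∪ S₂) ∅ (q + 1) c = H.mk T (S₁ ∪ S₂) ∅ (q + 1) d := by
      rw [← sub_eq_zero, ← map_sub, H.mk_eq_zero]
      exact h4
    rw [h5]; exact hd2
  have hk : (LinearMap.ker f).FG := hN.of_le hker
  refine ⟨Submodule.fg_of_fg_map_of_fg_inf_ker f ?_ ?_⟩
  · have : IsNoetherian A (H T S₁ ∅ (q + 1) × H T S₂ ∅ (q + 1)) := isNoetherian_of_isNoetherianRing_of_finite _ _
    exact IsNoetherian.noetherian _
  · rw [top_inf_eq]; exact hk

/-! ### convex sets -/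

theorem FG_empty {T : E → E → (V →ₗ[A] V)} {q : ℕ} : FG T (∅ : Set E) ∅ q := by
  apply FG_of_HV
  intro c _
  exact ⟨0, NZ.empty, NZ.empty⟩

theorem FG_convex [Module.Finite A V] {T : E → E → (V →ₗ[A] V)} {C : Set E}
    (hC : Convex ℝ C) (hc : IsCompact C) (hT : Flat T C) (q : ℕ) : FG T C ∅ q := by
  have : ProperSpace E := FiniteDimensional.proper_real E
  rcases q with _ | q
  · rcases C.eq_empty_or_nonempty with rfl | ⟨p, hp⟩
    · exact FG_empty
    obtain ⟨h1, h2⟩ := H0_convex hC hc hT hp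
    obtain ⟨s, hs⟩ := (inferInstance : Module.Finite A V).1
    choose f hf hfp using h1
    refine ⟨f '' (s : Set V), s.finite_toSet.image _, ?_, ?_⟩
    · rintro _ ⟨v, _, rfl⟩
      exact hf v
    · intro c hc
      have h3 : ∀ v ∈ Submodule.span A (s : Set V), ∃ z ∈ Submodule.span A (f '' (s : Set V)),
          z [p] = v := by
        intro v hv
        induction hv using Submodule.span_induction with
        | mem x hx => exact ⟨f x, Submodule.subset_span ⟨x, hx, rfl⟩, hfp x⟩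
        | zero => exact ⟨0, Submodule.zero_mem _, rfl⟩
        | add x y _ _ hx hy =>
          obtain ⟨z, hz, hz2⟩ := hx
          obtain ⟨w, hw, hw2⟩ := hy
          exact ⟨z + w, Submodule.add_mem _ hz hw, by rw [Pi.add_apply, hz2, hw2]⟩
        | smul a x _ hx =>
          obtain ⟨z, hz, hz2⟩ := hx
          exact ⟨a • z, Submodule.smul_mem _ a hz, by rw [Pi.smul_apply, hz2]⟩
      obtain ⟨z, hz, hzp⟩ := h3 (c [p]) (by rw [hs]; trivial)
      have hzc : z ∈ Zc T C ∅ 0 := by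
        refine (Submodule.span_le.2 ?_) hz
        rintro _ ⟨v, _, rfl⟩
        exact hf v
      refine Submodule.mem_sup.2 ⟨z, hz, c - z, ?_, by abel⟩
      apply h2 _ (Submodule.sub_mem _ hc hzc)
      rw [Pi.sub_apply, hzp, sub_self]
  · exact FG_of_HV (HV_convex hC hc hT q)

/-- unions of a list of compact convex sets -/
theorem FG_convex_list [IsNoetherianRing A] [Module.Finite A V] {T : E → E → (V →ₗ[A] V)}
    (n : ℕ) : ∀ (L : List (Set E)), L.length = n → (∀ C ∈ L, Convex ℝ C ∧ IsCompact C) →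
    Flat T (⋃ C ∈ L, C) → ∀ q, FG T (⋃ C ∈ L, C) ∅ q := by
  induction n with
  | zero =>
    intro L hL _ _ q
    rw [List.length_eq_zero_iff] at hL
    subst hL
    simp only [List.not_mem_nil, Set.iUnion_of_empty, Set.iUnion_empty]
    exact FG_empty
  | succ n ih =>
    intro L hL hC hT q
    match L, hL with
    | C :: L, hL =>
      have hLn : L.length = n := by simpa using hL
      have e1 : (⋃ D ∈ C :: L, D) = C ∪ ⋃ D ∈ L, D := by
        ext x
        simp only [List.mem_cons, Set.mem_iUnion, Set.mem_union, exists_prop]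
        constructor
        · rintro ⟨D, rfl | hD, hx⟩
          · exact Or.inl hx
          · exact Or.inr ⟨D, hD, hx⟩
        · rintro (hx | ⟨D, hD, hx⟩)
          · exact ⟨C, Or.inl rfl, hx⟩
          · exact ⟨D, Or.inr hD, hx⟩
      rw [e1] at hT ⊢
      have hCC := hC C (by simp)
      have hCL : ∀ D ∈ L, Convex ℝ D ∧ IsCompact D := fun D hD => hC D (by simp [hD])
      have f1 : ∀ q, FG T C ∅ q := FG_convex hCC.1 hCC.2 (hT.mono subset_union_left)
      have f2 : ∀ q, FG T (⋃ D ∈ L, D) ∅ q := ih L hLn hCL (hT.mono subset_union_right)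
      rcases q with _ | q
      · exact FG_union0 (f1 0) (f2 0)
      have e2 : C ∩ (⋃ D ∈ L, D) = ⋃ D ∈ L.map (fun D => C ∩ D), D := by
        ext x
        simp only [Set.mem_inter_iff, Set.mem_iUnion, List.mem_map, exists_prop]
        constructor
        · rintro ⟨hx, D, hD, hxD⟩
          exact ⟨C ∩ D, ⟨D, hD, rfl⟩, hx, hxD⟩
        · rintro ⟨_, ⟨D, hD, rfl⟩, hx, hxD⟩
          exact ⟨hx, D, hD, hxD⟩
      have f3 : FG T (C ∩ (⋃ D ∈ L, D)) ∅ q := by
        have hT3 : Flat T (C ∩ (⋃ D ∈ L, D)) := hT.mono (fun x hx => Or.inl hx.1)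
        rw [e2] at hT3 ⊢
        apply ih _ (by simpa using hLn) _ hT3
        intro D' hD'
        obtain ⟨D, hD, rfl⟩ := List.mem_map.1 hD'
        exact ⟨hCC.1.inter (hCL D hD).1, hCC.2.inter (hCL D hD).2⟩
      have cL : IsClosed (⋃ D ∈ L, D) := by
        have : (⋃ D ∈ L, D) = ⋃ D ∈ {D | D ∈ L}, D := rfl
        rw [this]
        exact (List.finite_toSet L).isClosed_biUnion (fun D hD => (hCL D hD).2.isClosed)
      exact FG_union hCC.2.isClosed cL hT (f1 (q + 1)) (f2 (q + 1)) f3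

/-- finite unions of compact convex sets -/
theorem FG_convex_union [IsNoetherianRing A] [Module.Finite A V] {T : E → E → (V →ₗ[A] V)}
    (s : Finset (Set E)) (hs : ∀ C ∈ s, Convex ℝ C ∧ IsCompact C)
    (hT : Flat T (⋃ C ∈ s, C)) (q : ℕ) : FG T (⋃ C ∈ s, C) ∅ q := by
  have e : (⋃ C ∈ s, C) = ⋃ C ∈ s.toList, C := by
    ext x
    simp only [Set.mem_iUnion, Finset.mem_toList]
  rw [e] at hT ⊢
  exact FG_convex_list s.toList.length s.toList rfl (fun C hC => hs C (by simpa using hC)) hT q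

/-! ### retracts -/

theorem ft_gm_NZ {u : E → (V →ₗ[A] V)} {S : Set E} {n : ℕ} {c : List E → V} (h : NZ S n c) :
    NZ S n (gm u c) := by
  intro a ha
  obtain ⟨e, he, h⟩ := h a ha
  refine ⟨e, he, fun l hl hx => ?_⟩
  cases l with
  | nil => rfl
  | cons x l => rw [gm_cons, h _ hl hx, map_zero]

theorem ft_gm_sub {u : E → (V →ₗ[A] V)} (b c : List E → V) : gm u (b - c) = gm u b - gm u c := by
  funext l
  cases l with
  | nil => simp
  | cons x l => simp

theorem ft_gm_rel {T T' : E → E → (V →ₗ[A] V)} {u : E → (V →ₗ[A] V)} {S : Set E}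
    (h : ∀ a ∈ S, ∃ ε > 0, ∀ x y, dist x a < ε → dist y a < ε → T x y ∘ₗ u y = u x ∘ₗ T' x y)
    (c : List E → V) (n : ℕ) : NZ S n (dT T (gm u c) - gm u (dT T' c)) := by
  intro a ha
  obtain ⟨e, he, h⟩ := h a ha
  refine ⟨e, he, fun l hl hx => ?_⟩
  rw [Pi.sub_apply, dT_gm T' T u c l (fun x hx' y hy => h x y (hx x hx') (hx y hy)), sub_self]

theorem ft_gm_mem_Zc {T T' : E → E → (V →ₗ[A] V)} {u : E → (V →ₗ[A] V)} {S S' : Set E} {q : ℕ}
    (h : ∀ a ∈ S, ∃ ε > 0, ∀ x y, dist x a < ε → dist y a < ε → T x y ∘ₗ u y = u x ∘ₗ T' x y)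
    {c : List E → V} (hc : c ∈ Zc T' S S' q) : gm u c ∈ Zc T S S' q := by
  refine ⟨ft_gm_NZ hc.1, ?_⟩
  have e : dT T (gm u c) = (dT T (gm u c) - gm u (dT T' c)) + gm u (dT T' c) := by abel
  rw [e]
  exact (ft_gm_rel h c _).add (ft_gm_NZ hc.2)

theorem ft_gm_mem_Bc {T T' : E → E → (V →ₗ[A] V)} {u : E → (V →ₗ[A] V)} {S S' : Set E} {q : ℕ}
    (h : ∀ a ∈ S, ∃ ε > 0, ∀ x y, dist x a < ε → dist y a < ε → T x y ∘ₗ u y = u x ∘ₗ T' x y)
    {c : List E → V} (hc : c ∈ Bc T' S S' q) : gm u c ∈ Bc T S S' q := by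
  obtain ⟨b, hb, h2⟩ := hc
  refine ⟨gm u b, ft_gm_NZ hb, ?_⟩
  have e : gm u c - dT T (gm u b) = gm u (c - dT T' b) - (dT T (gm u b) - gm u (dT T' b)) := by
    rw [ft_gm_sub]; abel
  rw [e]
  exact (ft_gm_NZ h2).sub (ft_gm_rel h b _)

/-- `gm u` as a linear map -/
def ft_gmL (u : E → (V →ₗ[A] V)) : (List E → V) →ₗ[A] (List E → V) where
  toFun := gm u
  map_add' := by
    intro b c
    funext l
    cases l with
    | nil => simp
    | cons x l => simp
  map_smul' := by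
    intro r c
    funext l
    cases l with
    | nil => simp
    | cons x l => simp

/-- (FT) -/
theorem FG_CR [IsNoetherianRing A] [Module.Finite A V] {T : E → E → (V →ₗ[A] V)} {S : Set E}
    (hS : CR S) (hT : Flat T S) (q : ℕ) : FG T S ∅ q := by
  classical
  have : ProperSpace E := FiniteDimensional.proper_real E
  obtain ⟨hcomp, U, r, hU, hSU, hr, hm, hid⟩ := hS
  have hrc : ∀ a ∈ U, ContinuousAt r a := fun a ha => hr.continuousAt (hU.mem_nhds ha)
  -- a finite union of closed balls between `S` and `U`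
  obtain ⟨s, hs, hSs, hsU⟩ : ∃ s : Finset (Set E), (∀ C ∈ s, Convex ℝ C ∧ IsCompact C) ∧
      (S ⊆ ⋃ C ∈ s, C) ∧ (⋃ C ∈ s, C) ⊆ U := by
    have h1 : ∀ x : S, ∃ ρ > 0, Metric.closedBall (x : E) ρ ⊆ U := fun x =>
      Metric.nhds_basis_closedBall.mem_iff.1 (hU.mem_nhds (hSU x.2))
    choose ρ hρ hρU using h1
    obtain ⟨t, ht⟩ := hcomp.elim_finite_subcover (fun x : S => Metric.ball (x : E) (ρ x))
      (fun x => Metric.isOpen_ball) (fun x hx => Set.mem_iUnion.2 ⟨⟨x, hx⟩,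
        Metric.mem_ball_self (hρ _)⟩)
    refine ⟨t.image (fun x : S => Metric.closedBall (x : E) (ρ x)), ?_, ?_, ?_⟩
    · intro C hC
      obtain ⟨x, _, rfl⟩ := Finset.mem_image.1 hC
      exact ⟨convex_closedBall _ _, isCompact_closedBall _ _⟩
    · intro x hx
      obtain ⟨y, hy, hxy⟩ := Set.mem_iUnion₂.1 (ht hx)
      exact Set.mem_iUnion₂.2 ⟨_, Finset.mem_image_of_mem _ hy, Metric.ball_subset_closedBall hxy⟩
    · intro x hx
      obtain ⟨C, hC, hxC⟩ := Set.mem_iUnion₂.1 hx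
      obtain ⟨y, _, rfl⟩ := Finset.mem_image.1 hC
      exact hρU y hxC
  set Q : Set E := ⋃ C ∈ s, C with hQ
  have hrQ : ∀ a ∈ Q, ContinuousAt r a := fun a ha => hrc a (hsU ha)
  have hmQ : MapsTo r Q S := fun a ha => hm (hsU ha)
  have hT' : Flat (pT r T) Q := Flat.pT hT hrQ hmQ
  obtain ⟨Z, hZ, hZc, hle⟩ := FG_convex_union s hs hT' q
  -- the gauge relation
  have hg : ∀ a ∈ S, ∃ ε > 0, ∀ x y, dist x a < ε → dist y a < ε →
      T x y ∘ₗ tg T r y = tg T r x ∘ₗ pT r T x y := by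
    intro a ha
    obtain ⟨e, he, h⟩ := hT a ha
    obtain ⟨d, hd, h2⟩ := Metric.continuousAt_iff.1 (hrc a (hSU ha)) e he
    refine ⟨min e d, lt_min he hd, fun x y hx hy => ?_⟩
    have hrx : dist (r x) a < e := by
      have := h2 (hx.trans_le (min_le_right _ _)); rwa [hid a ha] at this
    have hry : dist (r y) a < e := by
      have := h2 (hy.trans_le (min_le_right _ _)); rwa [hid a ha] at this
    have hx' := hx.trans_le (min_le_left _ _)
    have hy' := hy.trans_le (min_le_left _ _)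
    show T x y ∘ₗ T y (r y) = T x (r x) ∘ₗ T (r x) (r y)
    rw [(h x y (r y) hx' hy' hry).1, (h x (r x) (r y) hx' hrx hry).1]
  refine ⟨gm (tg T r) '' Z, hZ.image _, ?_, ?_⟩
  · rintro _ ⟨z, hz, rfl⟩
    exact ft_gm_mem_Zc hg (Zc_mono hSs (le_refl ∅) q (hZc hz))
  · intro c hc
    have h1 : pb r c ∈ Zc (pT r T) Q ∅ q :=
      pb_mem_Zc hrQ (fun a ha => ha.elim) hmQ (fun a ha => ha.elim) hc
    obtain ⟨z, hz, b, hb, e⟩ := Submodule.mem_sup.1 (hle h1)
    have h2 : c - gm (tg T r) (pb r c) ∈ Bc T S ∅ q :=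
      contig hT (empty_subset _) (fun a ha => ⟨hrc a (hSU ha), hid a ha⟩) hc
    have h3 : gm (tg T r) b ∈ Bc T S ∅ q := ft_gm_mem_Bc hg (Bc_mono hSs (le_refl ∅) q hb)
    have h4 : gm (tg T r) z ∈ Submodule.span A (gm (tg T r) '' Z) := by
      have h5 : ft_gmL (tg T r) z ∈ (Submodule.span A Z).map (ft_gmL (tg T r)) :=
        Submodule.mem_map_of_mem hz
      rw [Submodule.map_span] at h5
      exact h5
    have h6 : gm (tg T r) (pb r c) = gm (tg T r) z + gm (tg T r) b := by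
      rw [← e]; exact (ft_gmL (tg T r)).map_add z b
    refine Submodule.mem_sup.2 ⟨gm (tg T r) z, h4, gm (tg T r) b + (c - gm (tg T r) (pb r c)),
      Submodule.add_mem _ h3 h2, ?_⟩
    rw [h6]; abel

/-- relative version -/
theorem FG_CR_rel [IsNoetherianRing A] [Module.Finite A V] {T : E → E → (V →ₗ[A] V)} {S S' : Set E}
    (hS : CR S) (hS' : CR S') (h : S' ⊆ S) (hT : Flat T S) (q : ℕ) : FG T S S' q := by
  have f1 : ∀ q, FG T S ∅ q := FG_CR hS hT
  have f2 : ∀ q, FG T S' ∅ q := FG_CR hS' (hT.mono h)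
  rcases q with _ | q
  · have f := f1 0
    rw [FG_iff] at f ⊢
    exact Module.Finite.of_injective _ (inj_triple0 hT h (empty_subset S'))
  · have g1 := f1 (q + 1)
    have g2 := f2 q
    rw [FG_iff] at g1 g2 ⊢
    have ex := exact_triple3 hT h (empty_subset S') q
    have hk : LinearMap.ker (Hres T (le_refl S) (empty_subset S') (q + 1) :
        H T S S' (q + 1) →ₗ[A] H T S ∅ (q + 1)) = LinearMap.range (Hd T hT h q :
        H T S' ∅ q →ₗ[A] H T S S' (q + 1)) := by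
      ext x
      rw [LinearMap.mem_ker, LinearMap.mem_range]
      exact ex x
    refine ⟨Submodule.fg_of_fg_map_of_fg_inf_ker (Hres T (le_refl S) (empty_subset S') (q + 1) :
        H T S S' (q + 1) →ₗ[A] H T S ∅ (q + 1)) ?_ ?_⟩
    · have : IsNoetherian A (H T S ∅ (q + 1)) := isNoetherian_of_isNoetherianRing_of_finite _ _
      exact IsNoetherian.noetherian _
    · rw [top_inf_eq, hk, ← Submodule.map_top]
      exact g2.1.map _

end Pool.Agent.Helper60.AS
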