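import Pool.Agent.Helper60.AS.Defs

/-! Germs near closed sets, relative cocycles and cohomology. -/

set_option autoImplicit false

namespace Pool.Agent.Helper60.AS

open Set

section germs

variable {Ω V : Type*} [PseudoMetricSpace Ω] [AddCommGroup V]

/-- `c` vanishes on the lists of length `n` near the point `a` -/
def NA (a : Ω) (n : ℕ) (c : List Ω → V) : Prop :=
  ∃ ε > 0, ∀ l : List Ω, l.length = n → (∀ x ∈ l, dist x a < ε) → c l = 0

/-- `c` vanishes on the lists of length `n` near (each point of) `S` -/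
def NZ (S : Set Ω) (n : ℕ) (c : List Ω → V) : Prop := ∀ a ∈ S, NA a n c

variable {a : Ω} {n : ℕ} {S S₁ S₂ : Set Ω} {b c : List Ω → V}

theorem NA.zero : NA a n (0 : List Ω → V) := ⟨1, one_pos, fun _ _ _ => rfl⟩

theorem NA.add (hb : NA a n b) (hc : NA a n c) : NA a n (b + c) := by
  obtain ⟨e1, h1, hb⟩ := hb
  obtain ⟨e2, h2, hc⟩ := hc
  refine ⟨min e1 e2, lt_min h1 h2, fun l hl hx => ?_⟩
  rw [Pi.add_apply, hb l hl fun x hxl => (hx x hxl).trans_le (min_le_left _ _),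
    hc l hl fun x hxl => (hx x hxl).trans_le (min_le_right _ _), add_zero]

theorem NA.neg (hc : NA a n c) : NA a n (-c) := by
  obtain ⟨e2, h2, hc⟩ := hc
  exact ⟨e2, h2, fun l hl hx => by rw [Pi.neg_apply, hc l hl hx, neg_zero]⟩

theorem NA.sub (hb : NA a n b) (hc : NA a n c) : NA a n (b - c) := by
  rw [sub_eq_add_neg]; exact hb.add hc.neg

theorem NZ.zero : NZ S n (0 : List Ω → V) := fun _ _ => NA.zero
theorem NZ.add (hb : NZ S n b) (hc : NZ S n c) : NZ S n (b + c) := fun a ha => (hb a ha).add (hc a ha)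
theorem NZ.neg (hc : NZ S n c) : NZ S n (-c) := fun a ha => (hc a ha).neg
theorem NZ.sub (hb : NZ S n b) (hc : NZ S n c) : NZ S n (b - c) := fun a ha => (hb a ha).sub (hc a ha)
theorem NZ.mono (hc : NZ S₂ n c) (h : S₁ ⊆ S₂) : NZ S₁ n c := fun a ha => hc a (h ha)
theorem NZ.empty : NZ (∅ : Set Ω) n c := fun _ ha => ha.elim
theorem NZ.union (h1 : NZ S₁ n c) (h2 : NZ S₂ n c) : NZ (S₁ ∪ S₂) n c := by
  rintro a (ha | ha)
  exacts [h1 a ha, h2 a ha]

/-- closed sets: `N (S₁ ∩ S₂) = N S₁ + N S₂`. -/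
theorem NZ.inter_split (h1 : IsClosed S₁) (h2 : IsClosed S₂) (hn : 0 < n) (hc : NZ (S₁ ∩ S₂) n c) :
    ∃ c₁ c₂ : List Ω → V, c = c₁ + c₂ ∧ NZ S₁ n c₁ ∧ NZ S₂ n c₂ := by
  classical
  rcases S₁.eq_empty_or_nonempty with he1 | hne1
  · refine ⟨c, 0, by simp, ?_, NZ.zero⟩
    rw [he1]; exact NZ.empty
  rcases S₂.eq_empty_or_nonempty with he2 | hne2
  · refine ⟨0, c, by simp, NZ.zero, ?_⟩
    rw [he2]; exact NZ.empty
  let P : List Ω → Prop := fun l => ∃ x m, l = x :: m ∧ Metric.infDist x S₂ < Metric.infDist x S₁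
  refine ⟨fun l => if P l then c l else 0, fun l => if P l then 0 else c l, ?_, ?_, ?_⟩
  · funext l
    by_cases h : P l <;> simp [h]
  · intro a ha
    by_cases ha2 : a ∈ S₂
    · obtain ⟨e, he, h⟩ := hc a ⟨ha, ha2⟩
      refine ⟨e, he, fun l hl hx => ?_⟩
      simp only [h l hl hx, ite_self]
    · have hpos : 0 < Metric.infDist a S₂ := (h2.notMem_iff_infDist_pos hne2).1 ha2
      refine ⟨Metric.infDist a S₂ / 2, by positivity, fun l hl hx => ?_⟩
      refine if_neg ?_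
      rintro ⟨x, m, rfl, hlt⟩
      have hxa := hx x (by simp)
      have h3 : Metric.infDist x S₁ ≤ dist x a := Metric.infDist_le_dist_of_mem ha
      have h4 : Metric.infDist a S₂ ≤ Metric.infDist x S₂ + dist a x :=
        Metric.infDist_le_infDist_add_dist
      rw [dist_comm a x] at h4
      linarith
  · intro a ha
    by_cases ha1 : a ∈ S₁
    · obtain ⟨e, he, h⟩ := hc a ⟨ha1, ha⟩
      refine ⟨e, he, fun l hl hx => ?_⟩
      simp only [h l hl hx, ite_self]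
    · have hpos : 0 < Metric.infDist a S₁ := (h1.notMem_iff_infDist_pos hne1).1 ha1
      refine ⟨Metric.infDist a S₁ / 2, by positivity, fun l hl hx => ?_⟩
      refine if_pos ?_
      cases l with
      | nil => simp at hl; omega
      | cons x m =>
        refine ⟨x, m, rfl, ?_⟩
        have hxa := hx x (by simp)
        have h3 : Metric.infDist x S₂ ≤ dist x a := Metric.infDist_le_dist_of_mem ha
        have h4 : Metric.infDist a S₁ ≤ Metric.infDist x S₁ + dist a x :=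
          Metric.infDist_le_infDist_add_dist
        rw [dist_comm a x] at h4
        linarith

end germs

section tw

variable {Ω k V : Type*} [PseudoMetricSpace Ω] [CommRing k] [AddCommGroup V] [Module k V]

/-- the system is flat near the point `a` -/
def FlatAt (T : Ω → Ω → (V →ₗ[k] V)) (a : Ω) : Prop :=
  ∃ ε > 0, ∀ x y z, dist x a < ε → dist y a < ε → dist z a < ε →
    T x y ∘ₗ T y z = T x z ∧ T x x = LinearMap.id

/-- the system is flat near `S` -/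
def Flat (T : Ω → Ω → (V →ₗ[k] V)) (S : Set Ω) : Prop := ∀ a ∈ S, FlatAt T a

/-- the constant system -/
def cT : Ω → Ω → (V →ₗ[k] V) := fun _ _ => LinearMap.id

theorem flat_cT (S : Set Ω) : Flat (cT : Ω → Ω → (V →ₗ[k] V)) S :=
  fun _ _ => ⟨1, one_pos, fun _ _ _ _ _ _ => ⟨rfl, rfl⟩⟩

variable {T : Ω → Ω → (V →ₗ[k] V)} {a : Ω} {n : ℕ} {S S' S'' : Set Ω} {b c : List Ω → V}

theorem Flat.mono (h : Flat T S) (hS : S' ⊆ S) : Flat T S' := fun a ha => h a (hS ha)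

theorem NA.dT (T : Ω → Ω → (V →ₗ[k] V)) (hc : NA a n c) : NA a (n + 1) (dT T c) := by
  obtain ⟨e, he, h⟩ := hc
  refine ⟨e, he, fun l hl hx => ?_⟩
  rw [dT_congr T (c := 0) l, dT_zero]
  · rfl
  · intro l' hl' hs
    exact h l' (by omega) fun x hxl => hx x (hs hxl)

theorem NZ.dT (T : Ω → Ω → (V →ₗ[k] V)) (hc : NZ S n c) : NZ S (n + 1) (dT T c) :=
  fun a ha => (hc a ha).dT T

theorem NA.smul (r : k) (hc : NA a n c) : NA a n (r • c) := by
  obtain ⟨e2, h2, hc⟩ := hc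
  exact ⟨e2, h2, fun l hl hx => by rw [Pi.smul_apply, hc l hl hx, smul_zero]⟩

theorem NZ.smul (r : k) (hc : NZ S n c) : NZ S n (r • c) := fun a ha => (hc a ha).smul r

theorem nz_dT_dT (hT : Flat T S) (c : List Ω → V) (n : ℕ) : NZ S n (AS.dT T (AS.dT T c)) := by
  intro a ha
  obtain ⟨e, he, h⟩ := hT a ha
  refine ⟨e, he, fun l _ hx => ?_⟩
  exact dT_dT T c l fun x hx' y hy z hz => (h x y z (hx x hx') (hx y hy) (hx z hz)).1

/-- relative cocycles of degree `q` of the pair `(S, S')`. -/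
def Zc (T : Ω → Ω → (V →ₗ[k] V)) (S S' : Set Ω) (q : ℕ) : Submodule k (List Ω → V) where
  carrier := {c | NZ S' (q + 1) c ∧ NZ S (q + 2) (dT T c)}
  add_mem' := by
    rintro b c ⟨hb, hb'⟩ ⟨hc, hc'⟩
    refine ⟨hb.add hc, ?_⟩
    rw [dT_add]; exact hb'.add hc'
  zero_mem' := ⟨NZ.zero, by rw [dT_zero]; exact NZ.zero⟩
  smul_mem' := by
    rintro r c ⟨hc, hc'⟩
    refine ⟨hc.smul r, ?_⟩
    rw [dT_smul]; exact hc'.smul r

/-- relative coboundaries of degree `q` of the pair `(S, S')`. -/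
def Bc (T : Ω → Ω → (V →ₗ[k] V)) (S S' : Set Ω) (q : ℕ) : Submodule k (List Ω → V) where
  carrier := {c | ∃ b, NZ S' q b ∧ NZ S (q + 1) (c - dT T b)}
  add_mem' := by
    rintro c c' ⟨b, hb, h⟩ ⟨b', hb', h'⟩
    refine ⟨b + b', hb.add hb', ?_⟩
    rw [dT_add]
    have : c + c' - (dT T b + dT T b') = (c - dT T b) + (c' - dT T b') := by abel
    rw [this]; exact h.add h'
  zero_mem' := ⟨0, NZ.zero, by rw [dT_zero, sub_zero]; exact NZ.zero⟩
  smul_mem' := by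
    rintro r c ⟨b, hb, h⟩
    refine ⟨r • b, hb.smul r, ?_⟩
    rw [dT_smul, ← smul_sub]; exact h.smul r

theorem mem_Zc {q : ℕ} : c ∈ Zc T S S' q ↔ NZ S' (q + 1) c ∧ NZ S (q + 2) (dT T c) := Iff.rfl
theorem mem_Bc {q : ℕ} : c ∈ Bc T S S' q ↔ ∃ b, NZ S' q b ∧ NZ S (q + 1) (c - dT T b) := Iff.rfl

/-- relative Alexander-Spanier cohomology of `(S, S')` with coefficients in the system `T`.
(`S' ⊆ S` and `Flat T S` are needed for this to be meaningful.) -/
abbrev H (T : Ω → Ω → (V →ₗ[k] V)) (S S' : Set Ω) (q : ℕ) : Type _ :=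
  (Zc T S S' q) ⧸ (Bc T S S' q).comap (Zc T S S' q).subtype

/-- vanishing of the cohomology in degree `q` -/
def HV (T : Ω → Ω → (V →ₗ[k] V)) (S S' : Set Ω) (q : ℕ) : Prop := Zc T S S' q ≤ Bc T S S' q

/-- class of a cocycle -/
noncomputable def H.mk (T : Ω → Ω → (V →ₗ[k] V)) (S S' : Set Ω) (q : ℕ) :
    Zc T S S' q →ₗ[k] H T S S' q := (((Bc T S S' q).comap (Zc T S S' q).subtype).mkQ)

theorem H.mk_surjective (q : ℕ) : Function.Surjective (H.mk T S S' q) := Submodule.mkQ_surjective _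

theorem H.mk_eq_zero {q : ℕ} (c : Zc T S S' q) : H.mk T S S' q c = 0 ↔ (c : List Ω → V) ∈ Bc T S S' q := by
  exact Submodule.Quotient.mk_eq_zero _

theorem Bc_le_Zc (hT : Flat T S) (hS : S' ⊆ S) (q : ℕ) : Bc T S S' q ≤ Zc T S S' q := by
  rintro c ⟨b, hb, h⟩
  have e : c = (c - AS.dT T b) + AS.dT T b := by abel
  constructor
  · rw [e]; exact (h.mono hS).add (hb.dT T)
  · rw [e, dT_add]; exact (h.dT T).add (nz_dT_dT hT b _)

theorem Zc_mono {S₁ S₁' S₂ S₂' : Set Ω} (h : S₂ ⊆ S₁) (h' : S₂' ⊆ S₁') (q : ℕ) :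
    Zc T S₁ S₁' q ≤ Zc T S₂ S₂' q := fun _ hc => ⟨hc.1.mono h', hc.2.mono h⟩

theorem Bc_mono {S₁ S₁' S₂ S₂' : Set Ω} (h : S₂ ⊆ S₁) (h' : S₂' ⊆ S₁') (q : ℕ) :
    Bc T S₁ S₁' q ≤ Bc T S₂ S₂' q := by
  rintro c ⟨b, hb, hc⟩
  exact ⟨b, hb.mono h', hc.mono h⟩

/-- restriction `H(S₁,S₁') → H(S₂,S₂')` for `S₂ ⊆ S₁`, `S₂' ⊆ S₁'` (this includes
`H(S,S') → H(S)` and extension by zero `H_c(U) → H_c(W)`, where `H_c(U) = H(univ, Uᶜ)`). -/
noncomputable def Hres (T : Ω → Ω → (V →ₗ[k] V)) {S₁ S₁' S₂ S₂' : Set Ω} (h : S₂ ⊆ S₁) (h' : S₂' ⊆ S₁')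
    (q : ℕ) : H T S₁ S₁' q →ₗ[k] H T S₂ S₂' q :=
  Submodule.mapQ _ _ (Submodule.inclusion (Zc_mono h h' q)) (by
    intro c hc
    exact Bc_mono h h' q hc)

/-- connecting map of a triple `S'' ⊆ S' ⊆ S`. -/
noncomputable def Hd (T : Ω → Ω → (V →ₗ[k] V)) {S S' S'' : Set Ω} (hT : Flat T S) (_h : S' ⊆ S)
    (q : ℕ) : H T S' S'' q →ₗ[k] H T S S' (q + 1) :=
  Submodule.mapQ _ _
    (((dL T).domRestrict (Zc T S' S'' q)).codRestrict (Zc T S S' (q + 1))
      (fun c => ⟨c.2.2, nz_dT_dT hT _ _⟩)) (by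
    intro c hc
    obtain ⟨b, hb, h⟩ := hc
    refine ⟨(c : List Ω → V) - AS.dT T b, h, ?_⟩
    have : (dL T (c : List Ω → V)) - AS.dT T ((c : List Ω → V) - AS.dT T b) = AS.dT T (AS.dT T b) := by
      rw [dT_sub, dL_apply]; abel
    exact this ▸ nz_dT_dT hT b _)

end tw

section groupvalued

variable {Ω G : Type*} [PseudoMetricSpace Ω] [Group G]

/-- group valued flat functions -/
def GFlatAt (T : Ω → Ω → G) (a : Ω) : Prop :=
  ∃ ε > 0, ∀ x y z, dist x a < ε → dist y a < ε → dist z a < ε → T x y * T y z = T x z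

def GFlat (T : Ω → Ω → G) (S : Set Ω) : Prop := ∀ a ∈ S, GFlatAt T a

/-- `T'` is obtained from `T` by the gauge transformation `u` near `S` -/
def GaugeBy (T T' : Ω → Ω → G) (S : Set Ω) (u : Ω → G) : Prop :=
  ∀ a ∈ S, ∃ ε > 0, ∀ x y, dist x a < ε → dist y a < ε → T' x y = (u x)⁻¹ * T x y * u y

def GaugeEq (T T' : Ω → Ω → G) (S : Set Ω) : Prop := ∃ u : Ω → G, GaugeBy T T' S u

/-- the coefficient system attached to a group valued function and a representation -/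
def sys {k V : Type*} [CommRing k] [AddCommGroup V] [Module k V] (T : Ω → Ω → G)
    (ρ : G →* (V →ₗ[k] V)) : Ω → Ω → (V →ₗ[k] V) := fun x y => ρ (T x y)

theorem GFlatAt.one {T : Ω → Ω → G} {a : Ω} (h : GFlatAt T a) :
    ∃ ε > 0, ∀ x, dist x a < ε → T x x = 1 := by
  obtain ⟨e, he, h⟩ := h
  refine ⟨e, he, fun x hx => ?_⟩
  have := h x x x hx hx hx
  exact mul_eq_left.1 this

theorem GFlat.sys {k V : Type*} [CommRing k] [AddCommGroup V] [Module k V] {T : Ω → Ω → G}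
    {S : Set Ω} (h : GFlat T S) (ρ : G →* (V →ₗ[k] V)) : Flat (AS.sys T ρ) S := by
  intro a ha
  obtain ⟨e, he, h1⟩ := h a ha
  refine ⟨e, he, fun x y z hx hy hz => ⟨?_, ?_⟩⟩
  · show ρ (T x y) ∘ₗ ρ (T y z) = ρ (T x z)
    rw [← h1 x y z hx hy hz, map_mul]; rfl
  · show ρ (T x x) = LinearMap.id
    have := h1 x x x hx hx hx
    rw [mul_eq_left.1 this, map_one]; rfl

/-- `g` is the transport of `T` along the path `γ : [0,1] → Ω`: there is a primitive `F` along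
the path with `F 0 = 1`, `F 1 = g`. (Transport along a path from `x` to `y` is `T x y`.) -/
def HasTr (T : Ω → Ω → G) (γ : ℝ → Ω) (g : G) : Prop :=
  ∃ F : ℝ → G, F 0 = 1 ∧ F 1 = g ∧ ∀ s ∈ Icc (0 : ℝ) 1, ∃ ε > 0, ∀ t ∈ Icc (0 : ℝ) 1,
    ∀ t' ∈ Icc (0 : ℝ) 1, |t - s| < ε → |t' - s| < ε → T (γ t) (γ t') = (F t)⁻¹ * F t'

end groupvalued

end Pool.Agent.Helper60.AS
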