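import Pool.Agent.Helper60.AS.FT

/-! Good unions of convex sets (enlarged grid cubes). -/

set_option autoImplicit false

namespace Pool.Agent.Helper60.AS

open Set

/-- `Q` is a finite union of compact convex sets whose nonempty intersections have nonempty interior;
`U` is the union of the interiors -/
def IsGood (Q U : Set (ℂ × ℂ)) : Prop := ∃ s : Finset (Set (ℂ × ℂ)),
  (∀ C ∈ s, Convex ℝ C ∧ IsCompact C) ∧
  (∀ t ⊆ s, t.Nonempty → (⋂ C ∈ t, C).Nonempty → (interior (⋂ C ∈ t, C)).Nonempty) ∧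
  Q = (⋃ C ∈ s, C) ∧ U = ⋃ C ∈ s, interior C

/-- linear coordinates on `ℂ × ℂ` -/
noncomputable def e4 : (ℂ × ℂ) ≃L[ℝ] (Fin 4 → ℝ) :=
  ContinuousLinearEquiv.ofFinrankEq (by simp)

/-- enlarged grid cube -/
def gc (δ : ℝ) (m : Fin 4 → ℤ) : Set (ℂ × ℂ) :=
  e4 ⁻¹' Metric.closedBall (fun i => (m i : ℝ) * δ) (3 * δ / 4)

/-- its interior -/
def gb (δ : ℝ) (m : Fin 4 → ℤ) : Set (ℂ × ℂ) :=
  e4 ⁻¹' Metric.ball (fun i => (m i : ℝ) * δ) (3 * δ / 4)

theorem mem_gc {δ : ℝ} (hδ : 0 < δ) {m : Fin 4 → ℤ} {p : ℂ × ℂ} :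
    p ∈ gc δ m ↔ ∀ i, |e4 p i - (m i : ℝ) * δ| ≤ 3 * δ / 4 := by
  unfold gc
  rw [mem_preimage, Metric.mem_closedBall, dist_pi_le_iff (by positivity)]
  simp only [Real.dist_eq]

theorem mem_gb {δ : ℝ} (hδ : 0 < δ) {m : Fin 4 → ℤ} {p : ℂ × ℂ} :
    p ∈ gb δ m ↔ ∀ i, |e4 p i - (m i : ℝ) * δ| < 3 * δ / 4 := by
  unfold gb
  rw [mem_preimage, Metric.mem_ball, dist_pi_lt_iff (by positivity)]
  simp only [Real.dist_eq]

theorem gb_subset_interior (δ : ℝ) (m : Fin 4 → ℤ) : gb δ m ⊆ interior (gc δ m) :=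
  interior_maximal (preimage_mono Metric.ball_subset_closedBall)
    (Metric.isOpen_ball.preimage e4.continuous)

theorem gc_convex (δ : ℝ) (m : Fin 4 → ℤ) : Convex ℝ (gc δ m) :=
  (convex_closedBall _ _).is_linear_preimage e4.toLinearMap.isLinear

theorem gc_compact (δ : ℝ) (m : Fin 4 → ℤ) : IsCompact (gc δ m) :=
  e4.toHomeomorph.isCompact_preimage.2 (isCompact_closedBall _ _)

/-- sandwiching by good pairs -/
theorem exists_good {Y O : Set (ℂ × ℂ)} (hY : IsCompact Y) (hO : IsOpen O) (h : Y ⊆ O) :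
    ∃ Q U, IsGood Q U ∧ Y ⊆ U ∧ Q ⊆ O := by
  classical
  -- transport
  have hY' : IsCompact (e4 '' Y) := hY.image e4.continuous
  have hO' : IsOpen (e4.symm ⁻¹' O) := hO.preimage e4.symm.continuous
  have h' : e4 '' Y ⊆ e4.symm ⁻¹' O := by
    rintro _ ⟨y, hy, rfl⟩
    simpa using h hy
  obtain ⟨ε, hε, hsub⟩ := hY'.exists_cthickening_subset_open hO' h'
  set δ : ℝ := ε / 2 with hδdef
  have hδ : 0 < δ := by positivity
  -- finitely many cubes
  obtain ⟨R, hR⟩ := hY'.isBounded.subset_closedBall (0 : Fin 4 → ℝ)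
  obtain ⟨N, hN⟩ := exists_nat_gt ((R + δ) / δ)
  have hfin : {m : Fin 4 → ℤ | (gc δ m ∩ Y).Nonempty}.Finite := by
    refine (Set.finite_Icc (fun _ : Fin 4 => (-(N : ℤ))) (fun _ => (N : ℤ))).subset ?_
    rintro m ⟨p, hp, hpY⟩
    rw [mem_gc hδ] at hp
    have hpR := hR (mem_image_of_mem e4 hpY)
    rw [mem_closedBall_zero_iff] at hpR
    have key : ∀ i, |(m i : ℝ)| < N := by
      intro i
      have h1 := hp i
      have h2 : |e4 p i| ≤ R := (norm_le_pi_norm (e4 p) i).trans hpR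
      have h3 : |(m i : ℝ) * δ| ≤ R + δ := by
        have : |(m i : ℝ) * δ| ≤ |e4 p i| + |e4 p i - (m i : ℝ) * δ| := by
          have := abs_sub_abs_le_abs_sub ((m i : ℝ) * δ) (e4 p i)
          rw [abs_sub_comm] at this
          linarith
        linarith
      rw [abs_mul, abs_of_pos hδ] at h3
      have h4 : |(m i : ℝ)| ≤ (R + δ) / δ := by
        rw [le_div_iff₀ hδ]; exact h3
      exact h4.trans_lt hN
    constructor
    · intro i
      have := (abs_lt.1 (key i)).1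
      have h5 : ((-(N : ℤ) : ℤ) : ℝ) ≤ (m i : ℝ) := by push_cast; linarith
      exact_mod_cast h5
    · intro i
      have := (abs_lt.1 (key i)).2
      have h5 : ((m i : ℤ) : ℝ) ≤ ((N : ℤ) : ℝ) := by push_cast; linarith
      exact_mod_cast h5
  let s : Finset (Set (ℂ × ℂ)) := hfin.toFinset.image (gc δ)
  have hs : ∀ C ∈ s, ∃ m, (gc δ m ∩ Y).Nonempty ∧ C = gc δ m := by
    intro C hC
    obtain ⟨m, hm, rfl⟩ := Finset.mem_image.1 hC
    exact ⟨m, by simpa using hm, rfl⟩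
  refine ⟨⋃ C ∈ s, C, ⋃ C ∈ s, interior C, ⟨s, ?_, ?_, rfl, rfl⟩, ?_, ?_⟩
  · intro C hC
    obtain ⟨m, -, rfl⟩ := hs C hC
    exact ⟨gc_convex δ m, gc_compact δ m⟩
  · intro t ht _ hne
    obtain ⟨x, hx⟩ := hne
    -- the centre point
    let z : ℂ × ℂ := e4.symm (fun i => ((⌈e4 x i / δ - 3 / 4⌉ : ℝ) + 1 / 2) * δ)
    have hz : ∀ i, e4 z i = ((⌈e4 x i / δ - 3 / 4⌉ : ℝ) + 1 / 2) * δ := by
      intro i
      simp [z]
    have hopen : IsOpen (⋂ C ∈ t, interior C) :=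
      isOpen_biInter_finset (fun C _ => isOpen_interior)
    have hsubs : (⋂ C ∈ t, interior C) ⊆ ⋂ C ∈ t, C :=
      iInter₂_mono (fun C _ => interior_subset)
    refine ⟨z, interior_maximal hsubs hopen ?_⟩
    rw [mem_iInter₂]
    intro C hC
    obtain ⟨m, -, rfl⟩ := hs C (ht hC)
    apply gb_subset_interior
    rw [mem_gb hδ]
    intro i
    have hxm : x ∈ gc δ m := (mem_iInter₂.1 hx) _ hC
    rw [mem_gc hδ] at hxm
    have h1 := hxm i
    rw [hz]
    set a : ℝ := e4 x i / δ with ha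
    have hxa : e4 x i = a * δ := by rw [ha]; field_simp
    rw [hxa, ← sub_mul, abs_mul, abs_of_pos hδ] at h1
    have h2 : |a - (m i : ℝ)| ≤ 3 / 4 := by
      by_contra hcon
      push Not at hcon
      nlinarith
    have h3 := abs_le.1 h2
    set f : ℤ := ⌈a - 3 / 4⌉ with hf
    have h4 : (a - 3 / 4 : ℝ) ≤ f := Int.le_ceil _
    have h5 : f ≤ m i := Int.ceil_le.2 (by linarith)
    have h6 : ((m i : ℤ) : ℝ) < ((f + 2 : ℤ) : ℝ) := by push_cast; linarith
    have h7 : m i < f + 2 := by exact_mod_cast h6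
    have h8 : m i = f ∨ m i = f + 1 := by omega
    rw [← sub_mul, abs_mul, abs_of_pos hδ]
    have h9 : |(f : ℝ) + 1 / 2 - (m i : ℝ)| = 1 / 2 := by
      rcases h8 with h8 | h8 <;> rw [h8]
      · rw [show (f : ℝ) + 1 / 2 - f = 1 / 2 by ring]; exact abs_of_pos (by norm_num)
      · push_cast
        rw [show (f : ℝ) + 1 / 2 - (f + 1) = -(1 / 2) by ring, abs_neg]
        exact abs_of_pos (by norm_num)
    rw [h9]
    linarith
  · intro y hy
    let m : Fin 4 → ℤ := fun i => round (e4 y i / δ)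
    have hym : y ∈ gb δ m := by
      rw [mem_gb hδ]
      intro i
      have h1 : |e4 y i / δ - (m i : ℝ)| ≤ 1 / 2 := abs_sub_round _
      have h2 : e4 y i - (m i : ℝ) * δ = (e4 y i / δ - (m i : ℝ)) * δ := by field_simp
      rw [h2, abs_mul, abs_of_pos hδ]
      nlinarith
    rw [mem_iUnion₂]
    refine ⟨gc δ m, ?_, gb_subset_interior δ m hym⟩
    apply Finset.mem_image_of_mem
    rw [Set.Finite.mem_toFinset]
    exact ⟨y, interior_subset (gb_subset_interior δ m hym), hy⟩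
  · intro x hx
    obtain ⟨C, hC, hxC⟩ := mem_iUnion₂.1 hx
    obtain ⟨m, ⟨y, hyC, hyY⟩, rfl⟩ := hs C hC
    have h1 : e4 x ∈ Metric.cthickening ε (e4 '' Y) := by
      apply Metric.mem_cthickening_of_dist_le (e4 x) (e4 y) ε _ (mem_image_of_mem _ hyY)
      have hx1 : dist (e4 x) (fun i => (m i : ℝ) * δ) ≤ 3 * δ / 4 := hxC
      have hy1 : dist (e4 y) (fun i => (m i : ℝ) * δ) ≤ 3 * δ / 4 := hyC
      have := dist_triangle_right (e4 x) (e4 y) (fun i => (m i : ℝ) * δ)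
      linarith
    have h2 := hsub h1
    simpa using h2

end Pool.Agent.Helper60.AS
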