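import Pool.Agent.Helper60.AS.HI

/-! Degree ≤ 1 cohomology through the semidirect product: valid for arbitrary sets. -/

set_option autoImplicit false
set_option linter.unusedSectionVars false
set_option linter.unusedVariables false

namespace Pool.Agent.Helper60.AS

open Set

variable {Ω Ω' G k V : Type*} [PseudoMetricSpace Ω] [PseudoMetricSpace Ω'] [Group G] [CommRing k]
  [AddCommGroup V] [Module k V]

/-- the semidirect product `V ⋊ G` for a representation `ρ` -/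
@[ext] structure Aff (ρ : G →* (V →ₗ[k] V)) where
  v : V
  g : G

namespace Aff

variable {ρ : G →* (V →ₗ[k] V)}

instance : Mul (Aff ρ) := ⟨fun a b => ⟨a.v + ρ a.g b.v, a.g * b.g⟩⟩
instance : One (Aff ρ) := ⟨⟨0, 1⟩⟩
instance : Inv (Aff ρ) := ⟨fun a => ⟨-(ρ a.g⁻¹ a.v), a.g⁻¹⟩⟩

@[simp] theorem mul_v (a b : Aff ρ) : (a * b).v = a.v + ρ a.g b.v := rfl
@[simp] theorem mul_g (a b : Aff ρ) : (a * b).g = a.g * b.g := rfl
@[simp] theorem one_v : (1 : Aff ρ).v = 0 := rfl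
@[simp] theorem one_g : (1 : Aff ρ).g = 1 := rfl
@[simp] theorem inv_v (a : Aff ρ) : (a⁻¹).v = -(ρ a.g⁻¹ a.v) := rfl
@[simp] theorem inv_g (a : Aff ρ) : (a⁻¹).g = a.g⁻¹ := rfl

instance : Group (Aff ρ) where
  mul_assoc a b c := by ext <;> simp [map_mul, mul_assoc, add_assoc]
  one_mul a := by ext <;> simp
  mul_one a := by ext <;> simp
  inv_mul_cancel a := by ext <;> simp

/-- projection to `G` -/
def proj (ρ : G →* (V →ₗ[k] V)) : Aff ρ →* G where
  toFun a := a.g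
  map_one' := rfl
  map_mul' _ _ := rfl

end Aff

variable {T : Ω → Ω → G} {S R : Set Ω} {c c' : List Ω → V} (ρ : G →* (V →ₗ[k] V))

/-- the `Aff ρ` valued function of a 1-cochain -/
def aff (T : Ω → Ω → G) (c : List Ω → V) (x y : Ω) : Aff ρ := ⟨c [x, y], T x y⟩

@[simp] theorem aff_v (T : Ω → Ω → G) (c : List Ω → V) (x y : Ω) : (aff ρ T c x y).v = c [x, y] := rfl
@[simp] theorem aff_g (T : Ω → Ω → G) (c : List Ω → V) (x y : Ω) : (aff ρ T c x y).g = T x y := rfl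

theorem h1_dT3 (T : Ω → Ω → G) (c : List Ω → V) (x y z : Ω) :
    dT (sys T ρ) c [x, y, z] = ρ (T x y) (c [y, z]) - c [x, z] + c [x, y] := dT_three _ _ _ _ _

theorem h1_dT2 (T : Ω → Ω → G) (c : List Ω → V) (x y : Ω) :
    dT (sys T ρ) c [x, y] = ρ (T x y) (c [y]) - c [x] := dT_two _ _ _ _

theorem h1_list3 {l : List Ω} (hl : l.length = 3) : ∃ x y z, l = [x, y, z] := by
  match l, hl with
  | [x, y, z], _ => exact ⟨x, y, z, rfl⟩

theorem h1_list2 {l : List Ω} (hl : l.length = 2) : ∃ x y, l = [x, y] := by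
  match l, hl with
  | [x, y], _ => exact ⟨x, y, rfl⟩

theorem h1_list1 {l : List Ω} (hl : l.length = 1) : ∃ x, l = [x] := by
  match l, hl with
  | [x], _ => exact ⟨x, rfl⟩

theorem gflat_aff (hT : GFlat T S) : GFlat (aff ρ T c) S ↔ c ∈ Zc (sys T ρ) S ∅ 1 := by
  constructor
  · intro h
    refine ⟨NZ.empty, fun a ha => ?_⟩
    obtain ⟨e, he, h⟩ := h a ha
    refine ⟨e, he, fun l hl hx => ?_⟩
    obtain ⟨x, y, z, rfl⟩ := h1_list3 hl
    have h1 := congrArg Aff.v (h x y z (hx x (by simp)) (hx y (by simp)) (hx z (by simp)))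
    simp only [Aff.mul_v, aff_v, aff_g] at h1
    rw [h1_dT3, ← h1]
    abel
  · rintro ⟨-, h⟩ a ha
    obtain ⟨e, he, h⟩ := h a ha
    obtain ⟨e', he', h'⟩ := hT a ha
    refine ⟨min e e', lt_min he he', fun x y z hx hy hz => ?_⟩
    have h1 := h [x, y, z] rfl (by
      intro w hw
      simp only [List.mem_cons, List.not_mem_nil, or_false] at hw
      rcases hw with rfl | rfl | rfl
      exacts [hx.trans_le (min_le_left _ _), hy.trans_le (min_le_left _ _),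
        hz.trans_le (min_le_left _ _)])
    rw [h1_dT3] at h1
    ext
    · simp only [Aff.mul_v, aff_v, aff_g]
      have : c [x, z] = c [x, z] + (ρ (T x y) (c [y, z]) - c [x, z] + c [x, y]) := by
        rw [h1, add_zero]
      rw [this]; abel
    · exact h' x y z (hx.trans_le (min_le_right _ _)) (hy.trans_le (min_le_right _ _))
        (hz.trans_le (min_le_right _ _))

/-- the 1-cochain of an `Aff ρ` valued function over `T` -/
def unaff {ρ : G →* (V →ₗ[k] V)} (F : Ω → Ω → Aff ρ) : List Ω → V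
  | [x, y] => (F x y).v
  | _ => 0

/-- an `Aff ρ`-valued flat function over `T` is a cocycle -/
theorem unaff_mem (hT : GFlat T S) {F : Ω → Ω → Aff ρ} (hF : GFlat F S)
    (h : ∀ x y, (F x y).g = T x y) : unaff F ∈ Zc (sys T ρ) S ∅ 1 ∧ aff ρ T (unaff F) = F := by
  have h1 : aff ρ T (unaff F) = F := by
    funext x y
    ext
    · rfl
    · exact (h x y).symm
  refine ⟨?_, h1⟩
  rw [← gflat_aff ρ hT, h1]
  exact hF

theorem mem_Bc_one (hT : GFlat T S) : c ∈ Bc (sys T ρ) S ∅ 1 ↔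
    ∃ u : Ω → V, ∀ a ∈ S, ∃ ε > 0, ∀ x y, dist x a < ε → dist y a < ε →
      c [x, y] = ρ (T x y) (u y) - u x := by
  constructor
  · rintro ⟨b, -, h⟩
    refine ⟨fun x => b [x], fun a ha => ?_⟩
    obtain ⟨e, he, h⟩ := h a ha
    refine ⟨e, he, fun x y hx hy => ?_⟩
    have h1 := h [x, y] rfl (by
      intro w hw
      simp only [List.mem_cons, List.not_mem_nil, or_false] at hw
      rcases hw with rfl | rfl
      exacts [hx, hy])
    rw [Pi.sub_apply, h1_dT2] at h1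
    exact sub_eq_zero.1 h1
  · rintro ⟨u, h⟩
    refine ⟨fun l => match l with
      | [x] => u x
      | _ => 0, NZ.empty, fun a ha => ?_⟩
    obtain ⟨e, he, h⟩ := h a ha
    refine ⟨e, he, fun l hl hx => ?_⟩
    obtain ⟨x, y, rfl⟩ := h1_list2 hl
    rw [Pi.sub_apply, h1_dT2, h x y (hx x (by simp)) (hx y (by simp)), sub_self]

/-- the two components of a gauge relation in `Aff ρ` -/
theorem aff_gauge_eqs {ρ : G →* (V →ₗ[k] V)} {F F' a b : Aff ρ} (h : F' = a⁻¹ * F * b) :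
    a.v + ρ a.g F'.v = F.v + ρ F.g b.v ∧ a.g * F'.g = F.g * b.g := by
  have h1 : a * F' = F * b := by rw [h]; group
  exact ⟨congrArg Aff.v h1, congrArg Aff.g h1⟩

theorem h1_cont {K : ℝ → Ω → Ω} {s : ℝ} {a : Ω}
    (hK : ContinuousAt (fun p : ℝ × Ω => K p.1 p.2) (s, a)) : ContinuousAt (K s) a :=
  ContinuousAt.comp (f := fun x : Ω => (s, x)) (g := fun p : ℝ × Ω => K p.1 p.2) hK
    (by fun_prop)

theorem h1_cont' {K : ℝ → Ω → Ω} {a : Ω}
    (hK : ∀ s ∈ Icc (0:ℝ) 1, ContinuousAt (fun p : ℝ × Ω => K p.1 p.2) (s, a)) :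
    ContinuousOn (fun s => K s a) (Icc 0 1) := by
  intro s hs
  have : ContinuousAt (fun s => K s a) s :=
    ContinuousAt.comp (f := fun x : ℝ => (x, a)) (g := fun p : ℝ × Ω => K p.1 p.2) (hK s hs)
      (by fun_prop)
  exact this.continuousWithinAt

theorem h1_near {F : Ω → Ω} {a : Ω} (hF : ContinuousAt F a) {e : ℝ} (he : 0 < e) :
    ∃ δ > 0, ∀ x, dist x a < δ → dist (F x) (F a) < e := by
  obtain ⟨δ, hδ, h⟩ := Metric.continuousAt_iff.1 hF e he
  exact ⟨δ, hδ, fun x hx => h hx⟩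

/-- restriction of cocycles to a deformation retract: `K` deforms `R` within `S` (into `S'`).
`H¹(S) → H¹(S')` is injective if `S` deforms into `S'` within `S`. -/
theorem H1_inj {S' : Set Ω} (hT : GFlat T S) (h' : S' ⊆ S) {K : ℝ → Ω → Ω}
    (hK : ∀ s ∈ Icc (0:ℝ) 1, ∀ a ∈ S, ContinuousAt (fun p : ℝ × Ω => K p.1 p.2) (s, a))
    (hm : ∀ s ∈ Icc (0:ℝ) 1, ∀ a ∈ S, K s a ∈ S) (h0 : ∀ x, K 0 x = x)
    (h1 : ∀ a ∈ S, K 1 a ∈ S') (hc : c ∈ Zc (sys T ρ) S ∅ 1) (hb : c ∈ Bc (sys T ρ) S' ∅ 1) :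
    c ∈ Bc (sys T ρ) S ∅ 1 := by
  have hA : GFlat (aff ρ T c) S := (gflat_aff ρ hT).2 hc
  obtain ⟨u, hu, -⟩ := transport_lemma (R := S) hA hK hm
  obtain ⟨w, hw⟩ := (mem_Bc_one ρ (hT.mono h')).1 hb
  rw [mem_Bc_one ρ hT]
  refine ⟨fun x => ρ (u x).g (w (K 1 x)) - (u x).v, fun a ha => ?_⟩
  obtain ⟨e1, he1, hu⟩ := hu a ha
  obtain ⟨e2, he2, hw⟩ := hw (K 1 a) (h1 a ha)
  obtain ⟨d, hd, hKd⟩ := h1_near (h1_cont (hK 1 (right_mem_Icc.2 zero_le_one) a ha)) he2
  refine ⟨min e1 d, lt_min he1 hd, fun x y hx hy => ?_⟩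
  obtain ⟨ev, eg⟩ := aff_gauge_eqs (hu x y (hx.trans_le (min_le_left _ _))
    (hy.trans_le (min_le_left _ _)))
  have ew := hw (K 1 x) (K 1 y) (hKd x (hx.trans_le (min_le_right _ _)))
    (hKd y (hy.trans_le (min_le_right _ _)))
  simp only [aff_v, aff_g, h0] at ev eg
  rw [ew, map_sub, ← Module.End.mul_apply, ← map_mul, eg, map_mul, Module.End.mul_apply] at ev
  show c [x, y] = ρ (T x y) (ρ (u y).g (w (K 1 y)) - (u y).v) - (ρ (u x).g (w (K 1 x)) - (u x).v)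
  rw [map_sub]
  have : c [x, y] = c [x, y] + ρ (T x y) (u y).v - ρ (T x y) (u y).v := by abel
  rw [this, ← ev]
  abel

/-- surjectivity: every cocycle on `S'` is the restriction of a cocycle on `S` (up to coboundary),
if `K` also preserves `S'` -/
theorem H1_surj {S' : Set Ω} (hT : GFlat T S) (h' : S' ⊆ S) {K : ℝ → Ω → Ω}
    (hK : ∀ s ∈ Icc (0:ℝ) 1, ∀ a ∈ S, ContinuousAt (fun p : ℝ × Ω => K p.1 p.2) (s, a))
    (hm : ∀ s ∈ Icc (0:ℝ) 1, ∀ a ∈ S, K s a ∈ S) (h0 : ∀ x, K 0 x = x)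
    (h1 : ∀ a ∈ S, K 1 a ∈ S') (h2 : ∀ s ∈ Icc (0:ℝ) 1, ∀ a ∈ S', K s a ∈ S')
    (hc : c ∈ Zc (sys T ρ) S' ∅ 1) : ∃ c' ∈ Zc (sys T ρ) S ∅ 1, c' - c ∈ Bc (sys T ρ) S' ∅ 1 := by
  have hT' := hT.mono h'
  have hA : GFlat (aff ρ T c) S' := (gflat_aff ρ hT').2 hc
  obtain ⟨g, hg, hgt⟩ := transport_lemma (R := S) hT hK hm
  obtain ⟨u, hu, hut⟩ := transport_lemma (R := S') hA (fun s hs a ha => hK s hs a (h' ha)) h2
  -- the two gauges agree near `S'`
  have hug : ∀ a ∈ S', ∃ e > 0, ∀ x, dist x a < e → (u x).g = g x := by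
    intro a ha
    obtain ⟨e1, he1, hu1⟩ := hu a ha
    obtain ⟨e2, he2, hg1⟩ := hg a (h' ha)
    have haa : (u a).g = g a := by
      have h3 : HasTr T (fun s => K s a) (u a).g := (hut a ha).map (Aff.proj ρ)
      exact h3.unique (hgt a (h' ha))
    refine ⟨min e1 e2, lt_min he1 he2, fun x hx => ?_⟩
    obtain ⟨-, eg⟩ := aff_gauge_eqs (hu1 x a (hx.trans_le (min_le_left _ _))
      (by rw [dist_self]; exact he1))
    have eg2 := hg1 x a (hx.trans_le (min_le_right _ _)) (by rw [dist_self]; exact he2)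
    simp only [aff_g, h0] at eg eg2
    have e3 : g x * T (K 1 x) (K 1 a) = T x a * g a := by rw [eg2]; group
    rw [haa, ← e3] at eg
    exact mul_right_cancel eg
  let c' : List Ω → V := fun l => match l with
    | [x, y] => ρ (g x) (c [K 1 x, K 1 y])
    | _ => 0
  have hc'v : ∀ x y, c' [x, y] = ρ (g x) (c [K 1 x, K 1 y]) := fun x y => rfl
  refine ⟨c', ?_, ?_⟩
  · rw [← gflat_aff ρ hT]
    have hP : GFlat (fun x y => aff ρ T c (K 1 x) (K 1 y)) S :=
      hA.pull (fun a ha => h1_cont (hK 1 (right_mem_Icc.2 zero_le_one) a ha)) (fun a ha => h1 a ha)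
    intro a ha
    obtain ⟨e1, he1, hP⟩ := hP a ha
    obtain ⟨e2, he2, hg1⟩ := hg a ha
    refine ⟨min e1 e2, lt_min he1 he2, fun x y z hx hy hz => ?_⟩
    have key : ∀ x y, dist x a < min e1 e2 → dist y a < min e1 e2 → aff ρ T c' x y =
        (⟨0, g x⟩ : Aff ρ) * aff ρ T c (K 1 x) (K 1 y) * (⟨0, g y⟩ : Aff ρ)⁻¹ := by
      intro x y hx hy
      have eg2 := hg1 x y (hx.trans_le (min_le_right _ _)) (hy.trans_le (min_le_right _ _))
      simp only [h0] at eg2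
      ext
      · simp [hc'v]
      · simp only [Aff.mul_g, aff_g, Aff.inv_g]
        rw [eg2]; group
    have hP3 : aff ρ T c (K 1 x) (K 1 y) * aff ρ T c (K 1 y) (K 1 z) =
        aff ρ T c (K 1 x) (K 1 z) := hP x y z (hx.trans_le (min_le_left _ _))
      (hy.trans_le (min_le_left _ _)) (hz.trans_le (min_le_left _ _))
    rw [key x y hx hy, key y z hy hz, key x z hx hz, ← hP3]
    group
  · rw [mem_Bc_one ρ hT']
    refine ⟨fun x => (u x).v, fun a ha => ?_⟩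
    obtain ⟨e1, he1, hu1⟩ := hu a ha
    obtain ⟨e2, he2, hug⟩ := hug a ha
    refine ⟨min e1 e2, lt_min he1 he2, fun x y hx hy => ?_⟩
    obtain ⟨ev, -⟩ := aff_gauge_eqs (hu1 x y (hx.trans_le (min_le_left _ _))
      (hy.trans_le (min_le_left _ _)))
    simp only [aff_v, aff_g, h0] at ev
    rw [hug x (hx.trans_le (min_le_right _ _))] at ev
    rw [Pi.sub_apply, hc'v]
    have : ρ (g x) (c [K 1 x, K 1 y]) = (u x).v + ρ (g x) (c [K 1 x, K 1 y]) - (u x).v := by abel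
    rw [this, ev]
    abel

/-- (CL in degree one, any set): loops with `1 - ρ(g)` invertible kill `H¹` -/
theorem circle_lemma_one (hT : GFlat T S) {K : ℝ → Ω → Ω}
    (hK : ∀ s ∈ Icc (0:ℝ) 1, ∀ a ∈ S, ContinuousAt (fun p : ℝ × Ω => K p.1 p.2) (s, a))
    (hm : ∀ s ∈ Icc (0:ℝ) 1, ∀ a ∈ S, K s a ∈ S) (h0 : ∀ x, K 0 x = x) (h1 : ∀ x, K 1 x = x)
    (hΦ : ∀ x ∈ S, ∀ g, HasTr T (fun s => K s x) g → IsUnit (1 - ρ g)) :
    HV (sys T ρ) S ∅ 1 := by
  intro c hc
  have hA : GFlat (aff ρ T c) S := (gflat_aff ρ hT).2 hc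
  obtain ⟨u, hu, hut⟩ := transport_lemma (R := S) hA hK hm
  rw [mem_Bc_one ρ hT]
  let m : Ω → V := fun x => Ring.inverse (1 - ρ (u x).g) (u x).v
  refine ⟨fun x => - m x, fun a ha => ?_⟩
  obtain ⟨e1, he1, hu1⟩ := hu a ha
  have haU : IsUnit (1 - ρ (u a).g) := hΦ a ha _ ((hut a ha).map (Aff.proj ρ))
  -- the equations near `a`
  have heq : ∀ x y, dist x a < e1 → dist y a < e1 →
      (u x).v + ρ (u x).g (c [x, y]) = c [x, y] + ρ (T x y) (u y).v ∧
        (u x).g * T x y = T x y * (u y).g := by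
    intro x y hx hy
    have h3 := aff_gauge_eqs (hu1 x y hx hy)
    simp only [aff_v, aff_g, h0, h1] at h3
    exact h3
  have hxU : ∀ x, dist x a < e1 → IsUnit (1 - ρ (u x).g) := by
    intro x hx
    have h3 := (heq x a hx (by rw [dist_self]; exact he1)).2
    have h4 : (u x).g = T x a * (u a).g * (T x a)⁻¹ := by rw [← h3]; group
    have h5 : 1 - ρ (u x).g = ρ (T x a) * (1 - ρ (u a).g) * ρ (T x a)⁻¹ := by
      rw [h4, map_mul, map_mul, mul_sub, sub_mul, mul_one, ← map_mul ρ (T x a) (T x a)⁻¹,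
        mul_inv_cancel, map_one]
    rw [h5]
    exact (((Group.isUnit (T x a)).map ρ).mul haU).mul ((Group.isUnit (T x a)⁻¹).map ρ)
  have hmx : ∀ x, dist x a < e1 → (1 - ρ (u x).g) (m x) = (u x).v := by
    intro x hx
    show (1 - ρ (u x).g) (Ring.inverse (1 - ρ (u x).g) (u x).v) = _
    rw [← Module.End.mul_apply, Ring.mul_inverse_cancel _ (hxU x hx), Module.End.one_apply]
  refine ⟨e1, he1, fun x y hx hy => ?_⟩
  obtain ⟨ev, eg⟩ := heq x y hx hy
  have inj : Function.Injective (1 - ρ (u x).g : V →ₗ[k] V) := by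
    intro p q hpq
    have h6 := congrArg (Ring.inverse (1 - ρ (u x).g) : Module.End k V) hpq
    rwa [← Module.End.mul_apply, ← Module.End.mul_apply, Ring.inverse_mul_cancel _ (hxU x hx),
      Module.End.one_apply, Module.End.one_apply] at h6
  apply inj
  rw [map_neg, sub_neg_eq_add, map_add, hmx x hx, map_neg]
  have h7 : (1 - ρ (u x).g) (ρ (T x y) (m y)) = ρ (T x y) (u y).v := by
    have h10 : ∀ w : V, ρ (u x).g (ρ (T x y) w) = ρ (T x y) (ρ (u y).g w) := by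
      intro w
      rw [← Module.End.mul_apply, ← Module.End.mul_apply, ← map_mul, ← map_mul, eg]
    have h11 := hmx y hy
    rw [LinearMap.sub_apply, Module.End.one_apply] at h11 ⊢
    rw [h10, ← h11, map_sub]
  rw [h7, LinearMap.sub_apply, Module.End.one_apply]
  have h8 : c [x, y] = c [x, y] + ρ (T x y) (u y).v - ρ (T x y) (u y).v := by abel
  have h9 : c [x, y] - ρ (u x).g (c [x, y]) = (c [x, y] + ρ (T x y) (u y).v) -
      ρ (u x).g (c [x, y]) - ρ (T x y) (u y).v := by abel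
  rw [h9, ← ev]
  abel

/-- near a point of `S`, a 0-cocycle is parallel -/
theorem h1_zero_rel (hc : c ∈ Zc (sys T ρ) S ∅ 0) {a : Ω} (ha : a ∈ S) :
    ∃ e > 0, ∀ x y, dist x a < e → dist y a < e → c [x] = ρ (T x y) (c [y]) := by
  obtain ⟨e, he, h⟩ := hc.2 a ha
  refine ⟨e, he, fun x y hx hy => ?_⟩
  have h1 := h [x, y] rfl (by
    intro w hw
    simp only [List.mem_cons, List.not_mem_nil, or_false] at hw
    rcases hw with rfl | rfl
    exacts [hx, hy])
  rw [h1_dT2] at h1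
  exact (sub_eq_zero.1 h1).symm

/-- a 0-cocycle vanishing at the points of `S` is a coboundary -/
theorem h1_Bc0 (hT : GFlat T S) (hc : c ∈ Zc (sys T ρ) S ∅ 0) (h : ∀ a ∈ S, c [a] = 0) :
    c ∈ Bc (sys T ρ) S ∅ 0 := by
  refine ⟨0, NZ.zero, fun a ha => ?_⟩
  obtain ⟨e, he, h2⟩ := h1_zero_rel ρ hc ha
  refine ⟨e, he, fun l hl hx => ?_⟩
  obtain ⟨x, rfl⟩ := h1_list1 hl
  rw [dT_zero, sub_zero, h2 x a (hx x (by simp)) (by rw [dist_self]; exact he), h a ha, map_zero]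

/-- the cocycle condition along a loop: a 0-cocycle is invariant under the holonomy -/
theorem zero_cocycle_tr (hT : GFlat T S) {γ : ℝ → Ω} (hγ : ContinuousOn γ (Icc 0 1))
    (hm : ∀ s ∈ Icc (0:ℝ) 1, γ s ∈ S) {g : G} (hg : HasTr T γ g) (hc : c ∈ Zc (sys T ρ) S ∅ 0) :
    c [γ 0] = ρ g (c [γ 1]) := by
  obtain ⟨F, hF0, hF1, hF⟩ := hg
  have key : ∀ s ∈ Icc (0:ℝ) 1, ∀ t ∈ Icc (0:ℝ) 1, ρ (F s) (c [γ s]) = ρ (F t) (c [γ t]) := by
    intro s hs t ht
    refine isPreconnected_Icc.induction₂ (fun s t => ρ (F s) (c [γ s]) = ρ (F t) (c [γ t]))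
      ?_ ?_ ?_ hs ht
    · intro s hs
      obtain ⟨e1, he1, hF⟩ := hF s hs
      obtain ⟨e2, he2, h2⟩ := h1_zero_rel ρ hc (hm s hs)
      have h3 : ∀ᶠ t in nhdsWithin s (Icc 0 1), dist (γ t) (γ s) < e2 :=
        (hγ s hs).eventually (Metric.ball_mem_nhds _ he2)
      have h4 : ∀ᶠ t in nhdsWithin s (Icc (0:ℝ) 1), dist t s < e1 :=
        nhdsWithin_le_nhds (Metric.ball_mem_nhds _ he1)
      filter_upwards [h3, h4, self_mem_nhdsWithin] with t ht3 ht4 ht
      have h5 := hF s hs t ht (by simpa using he1) (by rwa [Real.dist_eq] at ht4)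
      have h6 := h2 (γ s) (γ t) (by rw [dist_self]; exact he2) ht3
      rw [h6, h5, ← Module.End.mul_apply, ← map_mul, mul_inv_cancel_left]
    · intro x y z _ _ _ h1 h2
      exact h1.trans h2
    · intro x y _ _ h1
      exact h1.symm
  have h3 := key 0 (left_mem_Icc.2 zero_le_one) 1 (right_mem_Icc.2 zero_le_one)
  rwa [hF0, hF1, map_one, Module.End.one_apply] at h3

/-- (CL in degree zero) -/
theorem circle_lemma_zero (hT : GFlat T S) {K : ℝ → Ω → Ω}
    (hK : ∀ s ∈ Icc (0:ℝ) 1, ∀ a ∈ S, ContinuousAt (fun p : ℝ × Ω => K p.1 p.2) (s, a))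
    (hm : ∀ s ∈ Icc (0:ℝ) 1, ∀ a ∈ S, K s a ∈ S) (h0 : ∀ x, K 0 x = x) (h1 : ∀ x, K 1 x = x)
    (hΦ : ∀ x ∈ S, ∀ g, HasTr T (fun s => K s x) g → IsUnit (1 - ρ g)) :
    HV (sys T ρ) S ∅ 0 := by
  intro c hc
  apply h1_Bc0 ρ hT hc
  intro a ha
  have hγ : ContinuousOn (fun s => K s a) (Icc 0 1) := h1_cont' (fun s hs => hK s hs a ha)
  obtain ⟨g, hg⟩ := exists_hasTr (γ := fun s => K s a) hT hγ (fun s hs => hm s hs a ha)
  have h3 := zero_cocycle_tr ρ hT hγ (fun s hs => hm s hs a ha) hg hc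
  simp only [h0, h1] at h3
  have h4 : (1 - ρ g) (c [a]) = 0 := by
    rw [LinearMap.sub_apply, Module.End.one_apply, ← h3, sub_self]
  have h5 := congrArg (Ring.inverse (1 - ρ g) : Module.End k V) h4
  rwa [← Module.End.mul_apply, Ring.inverse_mul_cancel _ (hΦ a ha g hg), Module.End.one_apply,
    map_zero] at h5

/-- a nonzero 0-cocycle does not vanish at any point of a preconnected set; one point (or loop) with
`1 - ρ g` injective kills `H⁰` -/
theorem H0_vanish (hT : GFlat T S) (hS : IsPreconnected S) {γ : ℝ → Ω} (hγ : ContinuousOn γ (Icc 0 1))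
    (hm : ∀ s ∈ Icc (0:ℝ) 1, γ s ∈ S) (hl : γ 0 = γ 1) {g : G} (hg : HasTr T γ g)
    (hi : Function.Injective (1 - ρ g : V →ₗ[k] V)) : HV (sys T ρ) S ∅ 0 := by
  intro c hc
  apply h1_Bc0 ρ hT hc
  have h3 := zero_cocycle_tr ρ hT hγ hm hg hc
  rw [← hl] at h3
  have h4 : c [γ 0] = 0 := by
    apply hi
    rw [LinearMap.sub_apply, Module.End.one_apply, ← h3, sub_self, map_zero]
  have hm0 : γ 0 ∈ S := hm 0 (left_mem_Icc.2 zero_le_one)
  intro b hb
  refine hS.induction₂ (fun x y => c [x] = 0 ↔ c [y] = 0) ?_ ?_ ?_ hm0 hb |>.1 h4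
  · intro a ha
    obtain ⟨e, he, h2⟩ := h1_zero_rel ρ hc ha
    have h5 : ∀ᶠ y in nhdsWithin a S, dist y a < e :=
      nhdsWithin_le_nhds (Metric.ball_mem_nhds _ he)
    filter_upwards [h5] with y hy
    constructor
    · intro h6
      rw [h2 y a hy (by rw [dist_self]; exact he), h6, map_zero]
    · intro h6
      rw [h2 a y (by rw [dist_self]; exact he) hy, h6, map_zero]
  · intro x y z _ _ _ h1 h2
    exact h1.trans h2
  · intro x y _ _ h1
    exact h1.symm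

end Pool.Agent.Helper60.AS
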