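import Pool.Agent.Helper60.AS.Germ

/-! Group valued flat functions: transport along paths, homotopy, classification on spaces that
retract to a point, a circle or a torus; gluing. -/

set_option autoImplicit false

namespace Pool.Agent.Helper60.AS

open Set

variable {Ω Ω' G G' : Type*} [PseudoMetricSpace Ω] [PseudoMetricSpace Ω'] [Group G] [Group G']
variable {T T' : Ω → Ω → G} {S S' : Set Ω} {γ : ℝ → Ω} {g g' : G}

theorem GFlat.mono (h : GFlat T S) (h' : S' ⊆ S) : GFlat T S' := fun a ha => h a (h' ha)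

theorem GaugeBy.mono {u : Ω → G} (h : GaugeBy T T' S u) (h' : S' ⊆ S) : GaugeBy T T' S' u :=
  fun a ha => h a (h' ha)

theorem GaugeEq.refl (T : Ω → Ω → G) (S : Set Ω) : GaugeEq T T S :=
  ⟨fun _ => 1, fun _ _ => ⟨1, one_pos, fun x y _ _ => by simp⟩⟩

theorem GaugeBy.symm {u : Ω → G} (h : GaugeBy T T' S u) : GaugeBy T' T S (fun x => (u x)⁻¹) := by
  intro a ha
  obtain ⟨e, he, h⟩ := h a ha
  refine ⟨e, he, fun x y hx hy => ?_⟩
  rw [h x y hx hy]
  group

theorem GaugeEq.symm (h : GaugeEq T T' S) : GaugeEq T' T S := by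
  obtain ⟨u, hu⟩ := h
  exact ⟨_, hu.symm⟩

theorem GaugeBy.trans {T'' : Ω → Ω → G} {u v : Ω → G} (h : GaugeBy T T' S u)
    (h' : GaugeBy T' T'' S v) : GaugeBy T T'' S (fun x => u x * v x) := by
  intro a ha
  obtain ⟨e, he, h⟩ := h a ha
  obtain ⟨e', he', h'⟩ := h' a ha
  refine ⟨min e e', lt_min he he', fun x y hx hy => ?_⟩
  rw [h' x y (hx.trans_le (min_le_right _ _)) (hy.trans_le (min_le_right _ _)),
    h x y (hx.trans_le (min_le_left _ _)) (hy.trans_le (min_le_left _ _))]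
  group

theorem GaugeEq.trans {T'' : Ω → Ω → G} (h : GaugeEq T T' S) (h' : GaugeEq T' T'' S) :
    GaugeEq T T'' S := by
  obtain ⟨u, hu⟩ := h
  obtain ⟨v, hv⟩ := h'
  exact ⟨_, hu.trans hv⟩

theorem GaugeEq.flat (h : GaugeEq T T' S) (hT : GFlat T S) : GFlat T' S := by
  obtain ⟨u, hu⟩ := h
  intro a ha
  obtain ⟨e, he, h⟩ := hu a ha
  obtain ⟨e', he', h'⟩ := hT a ha
  refine ⟨min e e', lt_min he he', fun x y z hx hy hz => ?_⟩
  have hx1 := hx.trans_le (min_le_left _ _)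
  have hy1 := hy.trans_le (min_le_left _ _)
  have hz1 := hz.trans_le (min_le_left _ _)
  rw [h x y hx1 hy1, h y z hy1 hz1, h x z hx1 hz1,
    ← h' x y z (hx.trans_le (min_le_right _ _)) (hy.trans_le (min_le_right _ _))
      (hz.trans_le (min_le_right _ _))]
  group

theorem GaugeBy.map (φ : G →* G') {u : Ω → G} (h : GaugeBy T T' S u) :
    GaugeBy (fun x y => φ (T x y)) (fun x y => φ (T' x y)) S (fun x => φ (u x)) := by
  intro a ha
  obtain ⟨e, he, h⟩ := h a ha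
  refine ⟨e, he, fun x y hx hy => ?_⟩
  show φ (T' x y) = (φ (u x))⁻¹ * φ (T x y) * φ (u y)
  rw [h x y hx hy]
  simp only [map_mul, map_inv]

theorem GaugeEq.map (φ : G →* G') (h : GaugeEq T T' S) :
    GaugeEq (fun x y => φ (T x y)) (fun x y => φ (T' x y)) S := by
  obtain ⟨u, hu⟩ := h
  exact ⟨_, hu.map φ⟩

theorem GFlat.map (φ : G →* G') (hT : GFlat T S) : GFlat (fun x y => φ (T x y)) S := by
  intro a ha
  obtain ⟨e, he, h⟩ := hT a ha
  refine ⟨e, he, fun x y z hx hy hz => ?_⟩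
  show φ (T x y) * φ (T y z) = φ (T x z)
  rw [← map_mul, h x y z hx hy hz]

/-- pullback of a flat function by a map which is continuous at the points of `R` -/
theorem GFlat.pull {F : Ω' → Ω} {R : Set Ω'} (hT : GFlat T S) (hF : ∀ a ∈ R, ContinuousAt F a)
    (hm : MapsTo F R S) : GFlat (fun x y => T (F x) (F y)) R := by
  intro a ha
  obtain ⟨e, he, h⟩ := hT (F a) (hm ha)
  obtain ⟨δ, hδ, hd⟩ := Metric.continuousAt_iff.1 (hF a ha) e he
  exact ⟨δ, hδ, fun x y z hx hy hz => h _ _ _ (hd hx) (hd hy) (hd hz)⟩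

theorem GaugeBy.pull {F : Ω' → Ω} {R : Set Ω'} {u : Ω → G} (hT : GaugeBy T T' S u)
    (hF : ∀ a ∈ R, ContinuousAt F a) (hm : MapsTo F R S) :
    GaugeBy (fun x y => T (F x) (F y)) (fun x y => T' (F x) (F y)) R (fun x => u (F x)) := by
  intro a ha
  obtain ⟨e, he, h⟩ := hT (F a) (hm ha)
  obtain ⟨δ, hδ, hd⟩ := Metric.continuousAt_iff.1 (hF a ha) e he
  exact ⟨δ, hδ, fun x y hx hy => h _ _ (hd hx) (hd hy)⟩

/-! ### primitives -/

/-- Lebesgue number lemma for an antitone property of sets -/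
theorem lebesgue_prop {X : Type*} [PseudoMetricSpace X] {K : Set X} (hK : IsCompact K)
    {P : Set X → Prop} (hP : ∀ A B : Set X, A ⊆ B → P B → P A)
    (h : ∀ a ∈ K, ∃ ε > 0, P (Metric.ball a ε)) : ∃ δ > 0, ∀ a ∈ K, P (Metric.ball a δ) := by
  choose! e he hPe using h
  obtain ⟨δ, hδ, hd⟩ := lebesgue_number_lemma_of_metric (s := K) (ι := K)
    (c := fun a => Metric.ball (a : X) (e a)) hK (fun a => Metric.isOpen_ball) (by
      intro a ha
      exact mem_iUnion.2 ⟨⟨a, ha⟩, Metric.mem_ball_self (he a ha)⟩)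
  refine ⟨δ, hδ, fun a ha => ?_⟩
  obtain ⟨i, hi⟩ := hd a ha
  exact hP _ _ hi (hPe i i.2)

/-- existence of primitives, uniform version -/
theorem exists_prim_aux (τ : ℝ → ℝ → G) {δ : ℝ} (hδ : 0 < δ)
    (h : ∀ x ∈ Icc (0:ℝ) 1, ∀ y ∈ Icc (0:ℝ) 1, ∀ z ∈ Icc (0:ℝ) 1, |x - y| < δ → |y - z| < δ →
      |x - z| < δ → τ x y * τ y z = τ x z) :
    ∃ F : ℝ → G, F 0 = 1 ∧ ∀ t ∈ Icc (0:ℝ) 1, ∀ t' ∈ Icc (0:ℝ) 1, |t - t'| < δ →
      τ t t' = (F t)⁻¹ * F t' := by
  obtain ⟨N, hN0, hN⟩ : ∃ N : ℕ, 0 < N ∧ (1:ℝ) / N < δ := by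
    obtain ⟨n, hn⟩ := exists_nat_one_div_lt hδ
    exact ⟨n + 1, Nat.succ_pos _, by exact_mod_cast hn⟩
  have hNr : (0:ℝ) < N := by exact_mod_cast hN0
  have h1 : ∀ x ∈ Icc (0:ℝ) 1, τ x x = 1 := by
    intro x hx
    have := h x hx x hx x hx (by simpa using hδ) (by simpa using hδ) (by simpa using hδ)
    exact mul_eq_left.1 this
  have hinv : ∀ x ∈ Icc (0:ℝ) 1, ∀ y ∈ Icc (0:ℝ) 1, |x - y| < δ → τ x y = (τ y x)⁻¹ := by
    intro x hx y hy hxy
    have := h x hx y hy x hx hxy (by rwa [abs_sub_comm]) (by simpa using hδ)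
    rw [h1 x hx] at this
    exact eq_inv_of_mul_eq_one_left this
  have key : ∀ n : ℕ, n ≤ N → ∃ F : ℝ → G, F 0 = 1 ∧ ∀ t ∈ Icc (0:ℝ) (n / N),
      ∀ t' ∈ Icc (0:ℝ) (n/N), |t - t'| < δ → τ t t' = (F t)⁻¹ * F t' := by
    intro n
    induction n with
    | zero =>
      intro _
      refine ⟨fun _ => 1, rfl, ?_⟩
      intro t ht t' ht' _
      simp only [Nat.cast_zero, zero_div, Icc_self, mem_singleton_iff] at ht ht'
      subst ht; subst ht'
      rw [h1 0 ⟨le_refl _, zero_le_one⟩]; simp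
    | succ n ih =>
      intro hn
      obtain ⟨F, hF0, hF⟩ := ih (by omega)
      set c : ℝ := n / N with hc
      have hc0 : 0 ≤ c := by positivity
      have hcn : ((n + 1 : ℕ) : ℝ) / N = c + 1 / N := by rw [hc]; push_cast; ring
      have hc1 : c + 1 / N ≤ 1 := by
        rw [← hcn, div_le_one hNr]; exact_mod_cast hn
      have h1N : 0 < (1:ℝ) / N := by positivity
      have hcm : c ∈ Icc (0:ℝ) 1 := ⟨hc0, by linarith⟩
      rw [hcn]
      refine ⟨fun t => if t ≤ c then F t else F c * τ c t, by simp [hc0, hF0], ?_⟩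
      intro t ht t' ht' htt
      have htm : t ∈ Icc (0:ℝ) 1 := ⟨ht.1, ht.2.trans hc1⟩
      have htm' : t' ∈ Icc (0:ℝ) 1 := ⟨ht'.1, ht'.2.trans hc1⟩
      rw [abs_lt] at htt
      by_cases h2 : t ≤ c <;> by_cases h3 : t' ≤ c
      · simp only [h2, h3, if_true]
        exact hF t ⟨ht.1, h2⟩ t' ⟨ht'.1, h3⟩ (abs_lt.2 htt)
      · simp only [h2, h3, if_true, if_false]
        push Not at h3
        have e1 : |t - c| < δ := by rw [abs_lt]; constructor <;> linarith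
        have e2 : |c - t'| < δ := by rw [abs_lt]; constructor <;> linarith
        rw [← h t htm c hcm t' htm' e1 e2 (abs_lt.2 htt),
          hF t ⟨ht.1, h2⟩ c ⟨hc0, le_refl _⟩ e1]
        group
      · simp only [h2, h3, if_true, if_false]
        push Not at h2
        have e1 : |t - c| < δ := by rw [abs_lt]; constructor <;> linarith
        have e2 : |c - t'| < δ := by rw [abs_lt]; constructor <;> linarith
        rw [← h t htm c hcm t' htm' e1 e2 (abs_lt.2 htt),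
          hF c ⟨hc0, le_refl _⟩ t' ⟨ht'.1, h3⟩ e2, hinv t htm c hcm e1]
        group
      · simp only [h2, h3, if_false]
        push Not at h2 h3
        have e1 : |t - c| < δ := by rw [abs_lt]; constructor <;> linarith [ht.2]
        have e2 : |c - t'| < δ := by rw [abs_lt]; constructor <;> linarith [ht'.2]
        rw [← h t htm c hcm t' htm' e1 e2 (abs_lt.2 htt), hinv t htm c hcm e1]
        group
  obtain ⟨F, hF0, hF⟩ := key N le_rfl
  refine ⟨F, hF0, ?_⟩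
  rw [div_self hNr.ne'] at hF
  exact hF

/-- existence of primitives, local version -/
theorem exists_prim (τ : ℝ → ℝ → G)
    (h : ∀ s ∈ Icc (0:ℝ) 1, ∃ ε > 0, ∀ x ∈ Icc (0:ℝ) 1, ∀ y ∈ Icc (0:ℝ) 1, ∀ z ∈ Icc (0:ℝ) 1,
      |x - s| < ε → |y - s| < ε → |z - s| < ε → τ x y * τ y z = τ x z) :
    ∃ F : ℝ → G, F 0 = 1 ∧ ∃ δ > 0, ∀ t ∈ Icc (0:ℝ) 1, ∀ t' ∈ Icc (0:ℝ) 1, |t - t'| < δ →
      τ t t' = (F t)⁻¹ * F t' := by
  obtain ⟨δ, hδ, hd⟩ := lebesgue_prop (K := Icc (0:ℝ) 1) isCompact_Icc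
    (P := fun A => ∀ x ∈ A ∩ Icc (0:ℝ) 1, ∀ y ∈ A ∩ Icc (0:ℝ) 1, ∀ z ∈ A ∩ Icc (0:ℝ) 1,
      τ x y * τ y z = τ x z)
    (fun A B hAB hB x hx y hy z hz => hB x ⟨hAB hx.1, hx.2⟩ y ⟨hAB hy.1, hy.2⟩ z ⟨hAB hz.1, hz.2⟩)
    (by
      intro s hs
      obtain ⟨e, he, h⟩ := h s hs
      refine ⟨e, he, fun x hx y hy z hz => h x hx.2 y hy.2 z hz.2 ?_ ?_ ?_⟩
      · exact hx.1
      · exact hy.1
      · exact hz.1)
  obtain ⟨F, hF0, hF⟩ := exists_prim_aux τ hδ (fun x hx y hy z hz hxy hyz hxz =>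
    hd x hx x ⟨Metric.mem_ball_self hδ, hx⟩ y ⟨by
      rw [Metric.mem_ball, Real.dist_eq, abs_sub_comm]; exact hxy, hy⟩ z ⟨by
      rw [Metric.mem_ball, Real.dist_eq, abs_sub_comm]; exact hxz, hz⟩)
  exact ⟨F, hF0, δ, hδ, hF⟩

/-! ### transport along paths -/

theorem exists_hasTr (hT : GFlat T S) (hγ : ContinuousOn γ (Icc 0 1))
    (h : ∀ s ∈ Icc (0:ℝ) 1, γ s ∈ S) : ∃ g, HasTr T γ g := by
  obtain ⟨F, hF0, δ, hδ, hF⟩ := exists_prim (fun s t => T (γ s) (γ t)) (by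
    intro s hs
    obtain ⟨e, he, h1⟩ := hT _ (h s hs)
    obtain ⟨δ, hδ, hd⟩ := Metric.continuousOn_iff.1 hγ s hs e he
    exact ⟨δ, hδ, fun x hx y hy z hz h2 h3 h4 => h1 _ _ _ (hd x hx h2) (hd y hy h3) (hd z hz h4)⟩)
  refine ⟨F 1, F, hF0, rfl, fun s hs => ⟨δ / 2, by positivity, fun t ht t' ht' h1 h2 => ?_⟩⟩
  apply hF t ht t' ht'
  calc |t - t'| = |(t - s) - (t' - s)| := by ring_nf
    _ ≤ |t - s| + |t' - s| := abs_sub _ _
    _ < δ := by linarith

/-- a locally constant function on `[0,1]` -/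
theorem eq_of_loc_const {X : Type*} {f : ℝ → X}
    (h : ∀ s ∈ Icc (0:ℝ) 1, ∃ ε > 0, ∀ t ∈ Icc (0:ℝ) 1, ∀ t' ∈ Icc (0:ℝ) 1, |t - s| < ε →
      |t' - s| < ε → f t = f t') : ∀ s ∈ Icc (0:ℝ) 1, f s = f 0 := by
  have hl : IsLocallyConstant (fun s : Icc (0:ℝ) 1 => f s) := by
    rw [IsLocallyConstant.iff_eventually_eq]
    intro s
    obtain ⟨e, he, h⟩ := h s s.2
    filter_upwards [Metric.ball_mem_nhds s he] with t ht
    exact h t t.2 s s.2 ht (by simpa using he)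
  have : PreconnectedSpace (Icc (0:ℝ) 1) := Subtype.preconnectedSpace isPreconnected_Icc
  intro s hs
  exact hl.apply_eq_of_preconnectedSpace ⟨s, hs⟩ ⟨0, left_mem_Icc.2 zero_le_one⟩

theorem HasTr.unique (h : HasTr T γ g) (h' : HasTr T γ g') : g = g' := by
  obtain ⟨F, hF0, hF1, hF⟩ := h
  obtain ⟨F', hF0', hF1', hF'⟩ := h'
  have key := eq_of_loc_const (f := fun t => F' t * (F t)⁻¹) (by
    intro s hs
    obtain ⟨e, he, h⟩ := hF s hs
    obtain ⟨e', he', h'⟩ := hF' s hs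
    refine ⟨min e e', lt_min he he', fun t ht t' ht' h1 h2 => ?_⟩
    have e1 := h t ht t' ht' (h1.trans_le (min_le_left _ _)) (h2.trans_le (min_le_left _ _))
    have e2 := h' t ht t' ht' (h1.trans_le (min_le_right _ _)) (h2.trans_le (min_le_right _ _))
    have e3 : F t' = F t * T (γ t) (γ t') := by rw [e1]; group
    have e4 : F' t' = F' t * T (γ t) (γ t') := by rw [e2]; group
    show F' t * (F t)⁻¹ = F' t' * (F t')⁻¹
    rw [e3, e4]; group) 1 (right_mem_Icc.2 zero_le_one)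
  simp only [hF0, hF0', hF1, hF1'] at key
  simpa using (mul_inv_eq_one.1 (by simpa using key)).symm

theorem HasTr.congr {γ' : ℝ → Ω} (h : HasTr T γ g) (e : ∀ s ∈ Icc (0:ℝ) 1, γ' s = γ s) :
    HasTr T γ' g := by
  obtain ⟨F, hF0, hF1, hF⟩ := h
  refine ⟨F, hF0, hF1, fun s hs => ?_⟩
  obtain ⟨ε, he, h⟩ := hF s hs
  exact ⟨ε, he, fun t ht t' ht' h1 h2 => by rw [e t ht, e t' ht']; exact h t ht t' ht' h1 h2⟩

theorem HasTr.map (φ : G →* G') (h : HasTr T γ g) : HasTr (fun x y => φ (T x y)) γ (φ g) := by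
  obtain ⟨F, hF0, hF1, hF⟩ := h
  refine ⟨fun s => φ (F s), by simp [hF0], by simp [hF1], fun s hs => ?_⟩
  obtain ⟨ε, he, h⟩ := hF s hs
  refine ⟨ε, he, fun t ht t' ht' h1 h2 => ?_⟩
  show φ (T (γ t) (γ t')) = (φ (F t))⁻¹ * φ (F t')
  rw [h t ht t' ht' h1 h2, map_mul, map_inv]

theorem HasTr.const (hT : GFlat T S) {a : Ω} (ha : a ∈ S) : HasTr T (fun _ => a) 1 := by
  refine ⟨fun _ => 1, rfl, rfl, fun s hs => ⟨1, one_pos, fun t ht t' ht' h1 h2 => ?_⟩⟩
  obtain ⟨e, he, h⟩ := (hT a ha).one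
  rw [h a (by simpa using he)]; simp

theorem HasTr.gauge {u : Ω → G} (hu : GaugeBy T T' S u) (hγ : ContinuousOn γ (Icc 0 1))
    (h : ∀ s ∈ Icc (0:ℝ) 1, γ s ∈ S) (hg : HasTr T γ g) :
    HasTr T' γ ((u (γ 0))⁻¹ * g * u (γ 1)) := by
  obtain ⟨F, hF0, hF1, hF⟩ := hg
  refine ⟨fun t => (u (γ 0))⁻¹ * F t * u (γ t), by simp [hF0], by simp [hF1], fun s hs => ?_⟩
  obtain ⟨e, he, h1⟩ := hF s hs
  obtain ⟨e', he', h2⟩ := hu _ (h s hs)
  obtain ⟨δ, hδ, hd⟩ := Metric.continuousOn_iff.1 hγ s hs e' he'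
  refine ⟨min e δ, lt_min he hδ, fun t ht t' ht' h3 h4 => ?_⟩
  rw [h2 (γ t) (γ t') (hd t ht (h3.trans_le (min_le_right _ _)))
    (hd t' ht' (h4.trans_le (min_le_right _ _))),
    h1 t ht t' ht' (h3.trans_le (min_le_left _ _)) (h4.trans_le (min_le_left _ _))]
  group

theorem HasTr.symm (h : HasTr T γ g) : HasTr T (fun s => γ (1 - s)) g⁻¹ := by
  obtain ⟨F, hF0, hF1, hF⟩ := h
  refine ⟨fun s => g⁻¹ * F (1 - s), by simp [hF1], by simp [hF0], fun s hs => ?_⟩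
  obtain ⟨ε, he, h⟩ := hF (1 - s) ⟨by linarith [hs.2], by linarith [hs.1]⟩
  refine ⟨ε, he, fun t ht t' ht' h1 h2 => ?_⟩
  rw [h (1 - t) ⟨by linarith [ht.2], by linarith [ht.1]⟩ (1 - t')
    ⟨by linarith [ht'.2], by linarith [ht'.1]⟩]
  · group
  · rw [show (1 - t) - (1 - s) = -(t - s) by ring, abs_neg]; exact h1
  · rw [show (1 - t') - (1 - s) = -(t' - s) by ring, abs_neg]; exact h2

/-- a subdivided path: if `γ` restricted to `[0,c]` and `[c,1]` (affinely rescaled) has transports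
`g`, `g'` then `γ` has transport `g * g'` -/
theorem HasTr.split {c : ℝ} (hc : 0 < c) (hc1 : c < 1) (hT : GFlat T S)
    (hγ : ContinuousOn γ (Icc 0 1)) (hm : γ c ∈ S) (h1 : HasTr T (fun s => γ (c * s)) g)
    (h2 : HasTr T (fun s => γ (c + (1 - c) * s)) g') : HasTr T γ (g * g') := by
  obtain ⟨F, hF0, hF1, hF⟩ := h1
  obtain ⟨F', hF0', hF1', hF'⟩ := h2
  have hc2 : 0 < 1 - c := by linarith
  -- local statements on `[0,c]` and `[c,1]`
  have A : ∀ s ∈ Icc (0:ℝ) c, ∃ ε > 0, ∀ t ∈ Icc (0:ℝ) c, ∀ t' ∈ Icc (0:ℝ) c, |t - s| < ε →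
      |t' - s| < ε → T (γ t) (γ t') = (F (t / c))⁻¹ * F (t' / c) := by
    intro s hs
    obtain ⟨e, he, h⟩ := hF (s / c) ⟨div_nonneg hs.1 hc.le, (div_le_one hc).2 hs.2⟩
    refine ⟨c * e, by positivity, fun t ht t' ht' h1 h2 => ?_⟩
    have := h (t / c) ⟨div_nonneg ht.1 hc.le, (div_le_one hc).2 ht.2⟩ (t' / c)
      ⟨div_nonneg ht'.1 hc.le, (div_le_one hc).2 ht'.2⟩
      (by rw [← sub_div, abs_div, abs_of_pos hc, div_lt_iff₀ hc]; linarith)
      (by rw [← sub_div, abs_div, abs_of_pos hc, div_lt_iff₀ hc]; linarith)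
    simp only at this
    rwa [mul_div_cancel₀ _ hc.ne', mul_div_cancel₀ _ hc.ne'] at this
  have B : ∀ s ∈ Icc c (1:ℝ), ∃ ε > 0, ∀ t ∈ Icc c (1:ℝ), ∀ t' ∈ Icc c (1:ℝ), |t - s| < ε →
      |t' - s| < ε → T (γ t) (γ t') = (F' ((t - c) / (1 - c)))⁻¹ * F' ((t' - c) / (1 - c)) := by
    intro s hs
    have hI : ∀ t ∈ Icc c (1:ℝ), (t - c) / (1 - c) ∈ Icc (0:ℝ) 1 := fun t ht =>
      ⟨div_nonneg (by linarith [ht.1]) hc2.le, (div_le_one hc2).2 (by linarith [ht.2])⟩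
    obtain ⟨e, he, h⟩ := hF' ((s - c) / (1 - c)) (hI s hs)
    refine ⟨(1 - c) * e, by positivity, fun t ht t' ht' h1 h2 => ?_⟩
    have := h _ (hI t ht) _ (hI t' ht')
      (by rw [← sub_div, abs_div, abs_of_pos hc2, div_lt_iff₀ hc2]; ring_nf at h1 ⊢; linarith)
      (by rw [← sub_div, abs_div, abs_of_pos hc2, div_lt_iff₀ hc2]; ring_nf at h2 ⊢; linarith)
    simp only at this
    rw [mul_div_cancel₀ _ hc2.ne', mul_div_cancel₀ _ hc2.ne'] at this
    simpa using this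
  let E : ℝ → G := fun t => if t ≤ c then F (t / c) else g * F' ((t - c) / (1 - c))
  have E1 : ∀ t, t ≤ c → E t = F (t / c) := fun t ht => if_pos ht
  have Ec : E c = g := by rw [E1 c le_rfl, div_self hc.ne', hF1]
  have E2 : ∀ t, c ≤ t → E t = g * F' ((t - c) / (1 - c)) := by
    intro t ht
    rcases ht.eq_or_lt with rfl | ht
    · rw [Ec, sub_self, zero_div, hF0', mul_one]
    · exact if_neg (not_le.2 ht)
  refine ⟨E, ?_, ?_, ?_⟩
  · rw [E1 0 hc.le, zero_div, hF0]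
  · rw [E2 1 hc1.le, div_self hc2.ne', hF1']
  · intro s hs
    rcases lt_trichotomy s c with h3 | h3 | h3
    · obtain ⟨e, he, h⟩ := A s ⟨hs.1, h3.le⟩
      refine ⟨min e (c - s), lt_min he (by linarith), fun t ht t' ht' h1 h2 => ?_⟩
      have ht1 : t ≤ c := by
        have := (abs_lt.1 (h1.trans_le (min_le_right _ _))).2; linarith
      have ht2 : t' ≤ c := by
        have := (abs_lt.1 (h2.trans_le (min_le_right _ _))).2; linarith
      rw [E1 t ht1, E1 t' ht2]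
      exact h t ⟨ht.1, ht1⟩ t' ⟨ht'.1, ht2⟩ (h1.trans_le (min_le_left _ _))
        (h2.trans_le (min_le_left _ _))
    · subst h3
      obtain ⟨e1, he1, hA⟩ := A s ⟨hc.le, le_rfl⟩
      obtain ⟨e2, he2, hB⟩ := B s ⟨le_rfl, hc1.le⟩
      obtain ⟨e3, he3, hC⟩ := hT _ hm
      obtain ⟨δ, hδ, hd⟩ := Metric.continuousOn_iff.1 hγ s hs e3 he3
      refine ⟨min (min e1 e2) δ, lt_min (lt_min he1 he2) hδ, fun t ht t' ht' h1 h2 => ?_⟩
      have a1 : |t - s| < e1 := h1.trans_le ((min_le_left _ _).trans (min_le_left _ _))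
      have a2 : |t - s| < e2 := h1.trans_le ((min_le_left _ _).trans (min_le_right _ _))
      have a3 : dist (γ t) (γ s) < e3 := hd t ht (h1.trans_le (min_le_right _ _))
      have b1 : |t' - s| < e1 := h2.trans_le ((min_le_left _ _).trans (min_le_left _ _))
      have b2 : |t' - s| < e2 := h2.trans_le ((min_le_left _ _).trans (min_le_right _ _))
      have b3 : dist (γ t') (γ s) < e3 := hd t' ht' (h2.trans_le (min_le_right _ _))
      -- reduce to the comparison with the middle point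
      have key : ∀ r ∈ Icc (0:ℝ) 1, |r - s| < e1 → |r - s| < e2 → dist (γ r) (γ s) < e3 →
          T (γ r) (γ s) = (E r)⁻¹ * E s := by
        intro r hr c1 c2 c3
        rcases le_total r s with h4 | h4
        · rw [E1 r h4, E1 s le_rfl]
          exact hA r ⟨hr.1, h4⟩ s ⟨hc.le, le_rfl⟩ c1 (by simpa using he1)
        · rw [E2 r h4, E2 s le_rfl, hB r ⟨h4, hr.2⟩ s ⟨le_rfl, hc1.le⟩ c2 (by simpa using he2)]
          group
      have key' : T (γ s) (γ t') = (E s)⁻¹ * E t' := by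
        have h5 := hC (γ t') (γ s) (γ t') b3 (by simpa using he3) b3
        have h6 := hC (γ t') (γ t') (γ t') b3 b3 b3
        rw [mul_eq_left.1 h6, key t' ht' b1 b2 b3] at h5
        rw [← mul_right_inj ((E t')⁻¹ * E s), h5]; group
      rw [← hC (γ t) (γ s) (γ t') a3 (by simpa using he3) b3, key t ht a1 a2 a3, key']
      group
    · obtain ⟨e, he, h⟩ := B s ⟨h3.le, hs.2⟩
      refine ⟨min e (s - c), lt_min he (by linarith), fun t ht t' ht' h1 h2 => ?_⟩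
      have ht1 : c ≤ t := by
        have := (abs_lt.1 (h1.trans_le (min_le_right _ _))).1; linarith
      have ht2 : c ≤ t' := by
        have := (abs_lt.1 (h2.trans_le (min_le_right _ _))).1; linarith
      rw [E2 t ht1, E2 t' ht2]
      rw [h t ⟨ht1, ht.2⟩ t' ⟨ht2, ht'.2⟩ (h1.trans_le (min_le_left _ _))
        (h2.trans_le (min_le_left _ _))]
      group

/-- concatenation of two paths -/
noncomputable def cat (γ₁ γ₂ : ℝ → Ω) : ℝ → Ω := fun s => if s ≤ 1/2 then γ₁ (2*s) else γ₂ (2*s-1)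

theorem continuousOn_cat {γ₁ γ₂ : ℝ → Ω} (c1 : ContinuousOn γ₁ (Icc 0 1))
    (c2 : ContinuousOn γ₂ (Icc 0 1)) (he : γ₁ 1 = γ₂ 0) : ContinuousOn (cat γ₁ γ₂) (Icc 0 1) := by
  have h1 : ContinuousOn (cat γ₁ γ₂) (Icc 0 (1/2)) := by
    refine ContinuousOn.congr (f := fun s => γ₁ (2 * s)) ?_ ?_
    · refine c1.comp (by fun_prop) ?_
      intro s hs
      exact ⟨by linarith [hs.1], by linarith [hs.2]⟩
    · intro s hs
      exact if_pos hs.2
  have h2 : ContinuousOn (cat γ₁ γ₂) (Icc (1/2) 1) := by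
    refine ContinuousOn.congr (f := fun s => γ₂ (2 * s - 1)) ?_ ?_
    · refine c2.comp (by fun_prop) ?_
      intro s hs
      exact ⟨by linarith [hs.1], by linarith [hs.2]⟩
    · intro s hs
      rcases hs.1.eq_or_lt with rfl | hs1
      · show (if (1/2:ℝ) ≤ 1/2 then γ₁ (2 * (1/2)) else γ₂ (2 * (1/2) - 1)) = γ₂ (2 * (1/2) - 1)
        rw [if_pos le_rfl]; norm_num; exact he
      · exact if_neg (not_le.2 hs1)
  have h3 : Icc (0:ℝ) 1 = Icc 0 (1/2) ∪ Icc (1/2) 1 :=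
    (Icc_union_Icc_eq_Icc (by norm_num) (by norm_num)).symm
  rw [h3]
  exact h1.union_of_isClosed h2 isClosed_Icc isClosed_Icc

theorem HasTr.trans {γ₁ γ₂ : ℝ → Ω} (hT : GFlat T S) (c1 : ContinuousOn γ₁ (Icc 0 1))
    (c2 : ContinuousOn γ₂ (Icc 0 1)) (hm : γ₁ 1 ∈ S) (h1 : HasTr T γ₁ g)
    (h2 : HasTr T γ₂ g') (he : γ₁ 1 = γ₂ 0) : HasTr T (cat γ₁ γ₂) (g * g') := by
  refine HasTr.split (c := 1/2) (by norm_num) (by norm_num) hT (continuousOn_cat c1 c2 he) ?_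
    (h1.congr ?_) (h2.congr ?_)
  · show (if (1/2:ℝ) ≤ 1/2 then γ₁ (2 * (1/2)) else γ₂ (2 * (1/2) - 1)) ∈ S
    rw [if_pos le_rfl]; norm_num; exact hm
  · intro s hs
    show (if (1/2 * s:ℝ) ≤ 1/2 then γ₁ (2 * (1/2 * s)) else γ₂ (2 * (1/2 * s) - 1)) = γ₁ s
    rw [if_pos (by linarith [hs.2])]
    congr 1; ring
  · intro s hs
    show (if (1/2 + (1 - 1/2) * s:ℝ) ≤ 1/2 then γ₁ (2 * (1/2 + (1 - 1/2) * s))
      else γ₂ (2 * (1/2 + (1 - 1/2) * s) - 1)) = γ₂ s
    rcases hs.1.eq_or_lt with rfl | hs1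
    · rw [if_pos (by norm_num)]; norm_num; exact he
    · rw [if_neg (by linarith)]
      congr 1; ring

/-! ### the transport lemma -/

/-- (TL) homotopic maps pull `T` back to gauge equivalent flat functions; the gauge is the
transport along the tracks of the homotopy. `K s : Ω' → Ω`, continuity is required jointly at the
points of `R` (in the ambient space). -/
theorem transport_lemma {R : Set Ω'} (hT : GFlat T S) {K : ℝ → Ω' → Ω}
    (hK : ∀ s ∈ Icc (0:ℝ) 1, ∀ a ∈ R, ContinuousAt (fun p : ℝ × Ω' => K p.1 p.2) (s, a))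
    (hm : ∀ s ∈ Icc (0:ℝ) 1, ∀ a ∈ R, K s a ∈ S) :
    ∃ u : Ω' → G, GaugeBy (fun x y => T (K 0 x) (K 0 y)) (fun x y => T (K 1 x) (K 1 y)) R u ∧
      ∀ a ∈ R, HasTr T (fun s => K s a) (u a) := by
  classical
  have loc : ∀ a ∈ R, ∃ δ > 0, ∀ s ∈ Icc (0:ℝ) 1, ∀ p q r : ℝ × Ω', dist p (s, a) < δ →
      dist q (s, a) < δ → dist r (s, a) < δ →
      T (K p.1 p.2) (K q.1 q.2) * T (K q.1 q.2) (K r.1 r.2) = T (K p.1 p.2) (K r.1 r.2) := by
    intro a ha
    obtain ⟨δ, hδ, hd⟩ := lebesgue_prop (X := ℝ × Ω') (K := Icc (0:ℝ) 1 ×ˢ {a})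
      (isCompact_Icc.prod isCompact_singleton)
      (P := fun A => ∀ p ∈ A, ∀ q ∈ A, ∀ r ∈ A,
        T (K p.1 p.2) (K q.1 q.2) * T (K q.1 q.2) (K r.1 r.2) = T (K p.1 p.2) (K r.1 r.2))
      (fun A B hAB hB p hp q hq r hr => hB p (hAB hp) q (hAB hq) r (hAB hr))
      (by
        rintro ⟨s, a'⟩ ⟨hs, ha'⟩
        simp only [mem_singleton_iff] at ha' hs
        subst ha'
        obtain ⟨e, he, h1⟩ := hT _ (hm s hs a' ha)
        obtain ⟨δ, hδ, hd⟩ := Metric.continuousAt_iff.1 (hK s hs a' ha) e he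
        exact ⟨δ, hδ, fun p hp q hq r hr => h1 _ _ _ (hd hp) (hd hq) (hd hr)⟩)
    exact ⟨δ, hδ, fun s hs p q r hp hq hr => hd (s, a) ⟨hs, rfl⟩ p hp q hq r hr⟩
  have dp : ∀ {s t : ℝ} {x a : Ω'} {δ : ℝ}, |t - s| < δ → dist x a < δ →
      dist ((t, x) : ℝ × Ω') (s, a) < δ := by
    intro s t x a δ h1 h2
    rw [Prod.dist_eq]; exact max_lt h1 h2
  let u : Ω' → G := fun x => if h : ∃ g, HasTr T (fun s => K s x) g then h.choose else 1
  have hu : ∀ x g, HasTr T (fun s => K s x) g → u x = g := by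
    intro x g hg
    have h : ∃ g, HasTr T (fun s => K s x) g := ⟨g, hg⟩
    have : u x = h.choose := dif_pos h
    rw [this]
    exact HasTr.unique h.choose_spec hg
  -- existence of transports near `a`
  have ex : ∀ a ∈ R, ∀ δ > 0, (∀ s ∈ Icc (0:ℝ) 1, ∀ p q r : ℝ × Ω', dist p (s, a) < δ →
      dist q (s, a) < δ → dist r (s, a) < δ →
      T (K p.1 p.2) (K q.1 q.2) * T (K q.1 q.2) (K r.1 r.2) = T (K p.1 p.2) (K r.1 r.2)) →
      ∀ x, dist x a < δ → HasTr T (fun s => K s x) (u x) := by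
    intro a ha δ hδ hl x hx
    obtain ⟨F, hF0, δ', hδ', hF⟩ := exists_prim (fun s t => T (K s x) (K t x)) (by
      intro s hs
      exact ⟨δ, hδ, fun p _ q _ r _ h1 h2 h3 =>
        hl s hs (p, x) (q, x) (r, x) (dp h1 hx) (dp h2 hx) (dp h3 hx)⟩)
    have : HasTr T (fun s => K s x) (F 1) := by
      refine ⟨F, hF0, rfl, fun s hs => ⟨δ' / 2, by positivity, fun t ht t' ht' h1 h2 => ?_⟩⟩
      apply hF t ht t' ht'
      calc |t - t'| = |(t - s) - (t' - s)| := by ring_nf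
        _ ≤ |t - s| + |t' - s| := abs_sub _ _
        _ < δ' := by linarith
    rw [hu x _ this]; exact this
  refine ⟨u, ?_, ?_⟩
  · intro a ha
    obtain ⟨δ, hδ, hl⟩ := loc a ha
    refine ⟨δ, hδ, fun x y hx hy => ?_⟩
    obtain ⟨F, hF0, hF1, hF⟩ := ex a ha δ hδ hl x hx
    obtain ⟨F', hF0', hF1', hF'⟩ := ex a ha δ hδ hl y hy
    have key := eq_of_loc_const (f := fun t => F t * T (K t x) (K t y) * (F' t)⁻¹) (by
      intro s hs
      obtain ⟨e, he, h⟩ := hF s hs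
      obtain ⟨e', he', h'⟩ := hF' s hs
      refine ⟨min (min e e') δ, lt_min (lt_min he he') hδ, fun t ht t' ht' h1 h2 => ?_⟩
      have e1 := h t ht t' ht' (h1.trans_le ((min_le_left _ _).trans (min_le_left _ _)))
        (h2.trans_le ((min_le_left _ _).trans (min_le_left _ _)))
      have e2 := h' t ht t' ht' (h1.trans_le ((min_le_left _ _).trans (min_le_right _ _)))
        (h2.trans_le ((min_le_left _ _).trans (min_le_right _ _)))
      have d1 := h1.trans_le (min_le_right _ _)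
      have d2 := h2.trans_le (min_le_right _ _)
      have e3 : F t' = F t * T (K t x) (K t' x) := by rw [e1]; group
      have e4 : F' t' = F' t * T (K t y) (K t' y) := by rw [e2]; group
      have f1 := hl s hs (t, x) (t', x) (t', y) (dp d1 hx) (dp d2 hx) (dp d2 hy)
      have f2 := hl s hs (t, x) (t, y) (t', y) (dp d1 hx) (dp d1 hy) (dp d2 hy)
      simp only at f1 f2
      show F t * T (K t x) (K t y) * (F' t)⁻¹ = F t' * T (K t' x) (K t' y) * (F' t')⁻¹
      rw [e3, e4, mul_assoc (F t) (T (K t x) (K t' x)), f1, ← f2]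
      group) 1 (right_mem_Icc.2 zero_le_one)
    simp only [hF0, hF0', hF1, hF1', one_mul, inv_one, mul_one] at key
    show T (K 1 x) (K 1 y) = (u x)⁻¹ * T (K 0 x) (K 0 y) * u y
    rw [← key]; group
  · intro a ha
    obtain ⟨δ, hδ, hl⟩ := loc a ha
    exact ex a ha δ hδ hl a (by simpa using hδ)

/-- clamping to `[0,1]` -/
noncomputable def cl (s : ℝ) : ℝ := max 0 (min 1 s)

theorem continuous_cl : Continuous cl := by unfold cl; fun_prop
theorem cl_mem (s : ℝ) : cl s ∈ Icc (0:ℝ) 1 :=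
  ⟨le_max_left _ _, max_le zero_le_one (min_le_left _ _)⟩
theorem cl_of_mem {s : ℝ} (hs : s ∈ Icc (0:ℝ) 1) : cl s = s := by
  unfold cl; rw [min_eq_right hs.2, max_eq_right hs.1]
theorem cl_zero : cl 0 = 0 := cl_of_mem ⟨le_rfl, zero_le_one⟩
theorem cl_one : cl 1 = 1 := cl_of_mem ⟨zero_le_one, le_rfl⟩

/-- square lemma: homotopy invariance -/
theorem HasTr.square {K : ℝ → ℝ → Ω} (hT : GFlat T S)
    (hK : ContinuousOn (fun p : ℝ × ℝ => K p.1 p.2) (Icc 0 1 ×ˢ Icc 0 1))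
    (hm : ∀ s ∈ Icc (0:ℝ) 1, ∀ t ∈ Icc (0:ℝ) 1, K s t ∈ S) {a b g₀ g₁ : G}
    (h0 : HasTr T (fun t => K 0 t) g₀) (h1 : HasTr T (fun t => K 1 t) g₁)
    (ha : HasTr T (fun s => K s 0) a) (hb : HasTr T (fun s => K s 1) b) : a * g₁ = g₀ * b := by
  have hc : Continuous (fun p : ℝ × ℝ => K (cl p.1) (cl p.2)) :=
    hK.comp_continuous (f := fun p : ℝ × ℝ => (cl p.1, cl p.2))
      ((continuous_cl.comp continuous_fst).prodMk (continuous_cl.comp continuous_snd))
      (fun p => ⟨cl_mem _, cl_mem _⟩)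
  obtain ⟨u, hu, hu'⟩ := transport_lemma (Ω' := ℝ) (R := Icc (0:ℝ) 1) hT
    (K := fun s t => K (cl s) (cl t)) (fun s _ a _ => hc.continuousAt)
    (fun s _ a _ => hm _ (cl_mem _) _ (cl_mem _))
  have ea : u 0 = a := HasTr.unique (hu' 0 (left_mem_Icc.2 zero_le_one))
    (ha.congr fun s hs => by rw [cl_of_mem hs, cl_zero])
  have eb : u 1 = b := HasTr.unique (hu' 1 (right_mem_Icc.2 zero_le_one))
    (hb.congr fun s hs => by rw [cl_of_mem hs, cl_one])
  have h0' : HasTr (fun x y : ℝ => T (K (cl 0) (cl x)) (K (cl 0) (cl y))) (fun t => t) g₀ :=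
    h0.congr (γ' := fun t => K (cl 0) (cl t)) fun s hs => by rw [cl_of_mem hs, cl_zero]
  have h1' : HasTr (fun x y : ℝ => T (K (cl 1) (cl x)) (K (cl 1) (cl y))) (fun t => t) g₁ :=
    h1.congr (γ' := fun t => K (cl 1) (cl t)) fun s hs => by rw [cl_of_mem hs, cl_one]
  have h2 := HasTr.gauge hu continuousOn_id (fun s hs => hs) h0'
  have h3 : g₁ = (u 0)⁻¹ * g₀ * u 1 := HasTr.unique h1' h2
  rw [ea, eb] at h3
  rw [h3]; group

/-- two paths with the same end points in a set which is the image of a convex set: special case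
of the square lemma, homotopy relative to the end points -/
theorem HasTr.homotopic {K : ℝ → ℝ → Ω} (hT : GFlat T S)
    (hK : ContinuousOn (fun p : ℝ × ℝ => K p.1 p.2) (Icc 0 1 ×ˢ Icc 0 1))
    (hm : ∀ s ∈ Icc (0:ℝ) 1, ∀ t ∈ Icc (0:ℝ) 1, K s t ∈ S)
    (h0 : ∀ s ∈ Icc (0:ℝ) 1, K s 0 = K 0 0) (h1 : ∀ s ∈ Icc (0:ℝ) 1, K s 1 = K 0 1)
    (h : HasTr T (fun t => K 0 t) g) : HasTr T (fun t => K 1 t) g := by
  have z : (0:ℝ) ∈ Icc (0:ℝ) 1 := left_mem_Icc.2 zero_le_one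
  have o : (1:ℝ) ∈ Icc (0:ℝ) 1 := right_mem_Icc.2 zero_le_one
  obtain ⟨g₁, hg₁⟩ := exists_hasTr (γ := fun t => K 1 t) hT
    (hK.comp (f := fun t : ℝ => ((1:ℝ), t)) (by fun_prop) (fun t ht => ⟨o, ht⟩))
    (fun t ht => hm 1 o t ht)
  have key := HasTr.square hT hK hm h hg₁
    ((HasTr.const hT (hm 0 z 0 z)).congr (γ' := fun s => K s 0) h0)
    ((HasTr.const hT (hm 0 z 1 o)).congr (γ' := fun s => K s 1) h1)
  rw [one_mul, mul_one] at key
  rw [← key]; exact hg₁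

/-- a space which is contractible in `S` (through maps that start at the identity) -/
theorem gauge_trivial {R : Set Ω} (hT : GFlat T S) {K : ℝ → Ω → Ω} {p : Ω}
    (hK : ∀ s ∈ Icc (0:ℝ) 1, ∀ a ∈ R, ContinuousAt (fun p : ℝ × Ω => K p.1 p.2) (s, a))
    (hm : ∀ s ∈ Icc (0:ℝ) 1, ∀ a ∈ R, K s a ∈ S) (h0 : ∀ x, K 0 x = x) (h1 : ∀ x, K 1 x = p) :
    ∃ v : Ω → G, ∀ a ∈ R, ∃ ε > 0, ∀ x y, dist x a < ε → dist y a < ε →
      T x y = (v x)⁻¹ * v y := by
  obtain ⟨u, hu, _⟩ := transport_lemma hT hK hm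
  refine ⟨fun x => (u x)⁻¹, fun a ha => ?_⟩
  have hp : T p p = 1 := by
    have hpS : p ∈ S := by
      rw [← h1 a]; exact hm 1 (right_mem_Icc.2 zero_le_one) a ha
    obtain ⟨e, he, h⟩ := (hT p hpS).one
    exact h p (by simpa using he)
  obtain ⟨e, he, h⟩ := hu a ha
  refine ⟨e, he, fun x y hx hy => ?_⟩
  have := h x y hx hy
  simp only [h0, h1, hp] at this
  rw [inv_inv, ← mul_left_inj (u y), ← mul_right_inj (u x)⁻¹, ← mul_assoc, ← mul_assoc, ← this]
  group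

/-- loops in the same free homotopy class have conjugate transports -/
theorem HasTr.free_homotopic {K : ℝ → ℝ → Ω} (hT : GFlat T S)
    (hK : ContinuousOn (fun p : ℝ × ℝ => K p.1 p.2) (Icc 0 1 ×ˢ Icc 0 1))
    (hm : ∀ s ∈ Icc (0:ℝ) 1, ∀ t ∈ Icc (0:ℝ) 1, K s t ∈ S) (hl : ∀ s ∈ Icc (0:ℝ) 1, K s 0 = K s 1)
    {g₀ g₁ : G} (h0 : HasTr T (fun t => K 0 t) g₀) (h1 : HasTr T (fun t => K 1 t) g₁) :
    ∃ a, HasTr T (fun s => K s 0) a ∧ g₁ = a⁻¹ * g₀ * a := by
  have z : (0:ℝ) ∈ Icc (0:ℝ) 1 := left_mem_Icc.2 zero_le_one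
  obtain ⟨a, ha⟩ := exists_hasTr (γ := fun s => K s 0) hT
    (hK.comp (f := fun s : ℝ => (s, (0:ℝ))) (by fun_prop) (fun s hs => ⟨hs, z⟩))
    (fun s hs => hm s hs 0 z)
  refine ⟨a, ha, ?_⟩
  have key := HasTr.square hT hK hm h0 h1 ha (ha.congr fun s hs => (hl s hs).symm)
  rw [← mul_right_inj a, key]; group

/-- moving the base point of a loop: if `γ` is a loop (1-periodic) then the loop started at `c`
has conjugate transport -/
theorem HasTr.rotate (hT : GFlat T S) (hγ : Continuous γ) (hm : ∀ s, γ s ∈ S)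
    (hper : ∀ s, γ (s + 1) = γ s) (c : ℝ) {g₀ g₁ : G} (h0 : HasTr T γ g₀)
    (h1 : HasTr T (fun s => γ (c + s)) g₁) : ∃ a, g₁ = a⁻¹ * g₀ * a := by
  obtain ⟨a, _, ha⟩ := HasTr.free_homotopic (K := fun s t => γ (c * s + t)) hT
    (Continuous.continuousOn (by fun_prop)) (fun s _ t _ => hm _)
    (fun s _ => by rw [hper, add_zero]) (g₀ := g₀) (g₁ := g₁)
    (h0.congr fun s _ => by simp) (h1.congr fun s _ => by simp)
  exact ⟨a, ha⟩

/-- a gauge transformation from `T` to itself is determined by its value at one point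
(`S` path connected): it is constant along paths in the sense `u (γ 1) = g⁻¹ u (γ 0) g`. -/
theorem GaugeBy.along {u : Ω → G} (hu : GaugeBy T T S u) (hγ : ContinuousOn γ (Icc 0 1))
    (hm : ∀ s ∈ Icc (0:ℝ) 1, γ s ∈ S) (hg : HasTr T γ g) : u (γ 1) = g⁻¹ * u (γ 0) * g := by
  have h := HasTr.unique hg (HasTr.gauge hu hγ hm hg)
  have h2 : u (γ 1) = g⁻¹ * u (γ 0) * ((u (γ 0))⁻¹ * g * u (γ 1)) := by group
  rw [← h] at h2
  exact h2

/-! ### angles -/

/-- continuity of an angle function modulo 1 -/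
def AngCont (a : Ω → ℝ) (S : Set Ω) : Prop := ∀ x₀ ∈ S, ∀ ε > 0, ∃ δ > 0, ∀ x y,
  dist x x₀ < δ → dist y x₀ < δ → |a x - a y - (round (a x - a y) : ℝ)| < ε

/-- the integer valued flat function of an angle function -/
noncomputable def cint (a : Ω → ℝ) (x y : Ω) : ℤ := round (a x - a y)

/-- the angle (divided by `2π`) of a function with values in `ℂ` -/
noncomputable def ang (f : Ω → ℂ) (x : Ω) : ℝ := Complex.arg (f x) / (2 * Real.pi)

theorem round_eq_of_abs_lt {x : ℝ} {m : ℤ} (h : |x - m| < 1 / 2) : round x = m := by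
  have h1 := abs_sub_round x
  have h2 : |((round x - m : ℤ) : ℝ)| < 1 := by
    push_cast
    calc |(round x : ℝ) - m| = |(x - m) - (x - round x)| := by ring_nf
      _ ≤ |x - m| + |x - round x| := abs_sub _ _
      _ < 1 := by linarith
  have h3 : |round x - m| < 1 := by exact_mod_cast h2
  have := Int.abs_lt_one_iff.1 h3
  omega

theorem angCont_ang {f : Ω → ℂ} (hf : ∀ x ∈ S, ContinuousAt f x) (h0 : ∀ x ∈ S, f x ≠ 0) :
    AngCont (ang f) S := by
  intro x₀ hx₀ ε hε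
  have h1 : ContinuousAt (fun p : ℂ × ℂ => Complex.arg (p.1 / p.2)) (f x₀, f x₀) := by
    refine ContinuousAt.comp (g := Complex.arg) ?_ ?_
    · show ContinuousAt Complex.arg (f x₀ / f x₀)
      rw [div_self (h0 _ hx₀)]; exact Complex.continuousAt_arg (by simp)
    · exact continuousAt_fst.div continuousAt_snd (h0 _ hx₀)
  have h2 : (fun p : ℂ × ℂ => Complex.arg (p.1 / p.2)) (f x₀, f x₀) = 0 := by
    show Complex.arg (f x₀ / f x₀) = 0
    rw [div_self (h0 _ hx₀), Complex.arg_one]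
  have hpi := Real.pi_pos
  obtain ⟨η, hη, hd⟩ := Metric.continuousAt_iff.1 h1 (2 * Real.pi * ε) (by positivity)
  have hn : 0 < ‖f x₀‖ := norm_pos_iff.2 (h0 _ hx₀)
  obtain ⟨δ, hδ, hδ'⟩ := Metric.continuousAt_iff.1 (hf x₀ hx₀) (min η ‖f x₀‖) (lt_min hη hn)
  have hne : ∀ x, dist x x₀ < δ → f x ≠ 0 := by
    intro x hx h
    have := (hδ' hx).trans_le (min_le_right _ _)
    rw [h, dist_zero_left] at this
    exact lt_irrefl _ this
  refine ⟨δ, hδ, fun x y hx hy => ?_⟩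
  have h3 := hd (x := (f x, f y)) (by
    rw [Prod.dist_eq]
    exact max_lt ((hδ' hx).trans_le (min_le_left _ _)) ((hδ' hy).trans_le (min_le_left _ _)))
  have h2' : Complex.arg ((f x₀, f x₀).1 / (f x₀, f x₀).2) = 0 := h2
  rw [h2', Real.dist_eq, sub_zero] at h3
  simp only at h3
  obtain ⟨k, hk⟩ := Real.Angle.angle_eq_iff_two_pi_dvd_sub.1
    ((Complex.arg_div_coe_angle (hne x hx) (hne y hy)).trans (Real.Angle.coe_sub _ _).symm)
  have h4 : ang f x - ang f y - ((-k : ℤ) : ℝ) = Complex.arg (f x / f y) / (2 * Real.pi) := by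
    unfold ang
    push_cast
    field_simp
    linarith
  calc |ang f x - ang f y - (round (ang f x - ang f y) : ℝ)|
      ≤ |ang f x - ang f y - ((-k : ℤ) : ℝ)| := round_le _ _
    _ = |Complex.arg (f x / f y)| / (2 * Real.pi) := by
        rw [h4, abs_div, abs_of_pos (by positivity : (0:ℝ) < 2 * Real.pi)]
    _ < ε := by rw [div_lt_iff₀ (by positivity)]; linarith

/-- the integer valued flat function of an angle, written multiplicatively -/
noncomputable def mint (a : Ω → ℝ) (x y : Ω) : Multiplicative ℤ := Multiplicative.ofAdd (cint a x y)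

theorem AngCont.cint_add {a : Ω → ℝ} (h : AngCont a S) : ∀ x₀ ∈ S, ∃ ε > 0, ∀ x y z,
    dist x x₀ < ε → dist y x₀ < ε → dist z x₀ < ε → cint a x y + cint a y z = cint a x z := by
  intro x₀ hx₀
  obtain ⟨δ, hδ, hd⟩ := h x₀ hx₀ (1/6) (by norm_num)
  refine ⟨δ, hδ, fun x y z hx hy hz => ?_⟩
  have h1 := abs_lt.1 (hd x y hx hy)
  have h2 := abs_lt.1 (hd y z hy hz)
  have h3 := abs_lt.1 (hd x z hx hz)
  have h4 : |((cint a x y + cint a y z - cint a x z : ℤ) : ℝ)| < 1 := by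
    unfold cint
    push_cast
    rw [abs_lt]
    constructor <;> linarith [h1.1, h1.2, h2.1, h2.2, h3.1, h3.2]
  have h5 : |cint a x y + cint a y z - cint a x z| < 1 := by exact_mod_cast h4
  have := Int.abs_lt_one_iff.1 h5
  omega

theorem gflat_mint {a : Ω → ℝ} (h : AngCont a S) : GFlat (mint a) S := by
  intro x₀ hx₀
  obtain ⟨e, he, h⟩ := h.cint_add x₀ hx₀
  refine ⟨e, he, fun x y z hx hy hz => ?_⟩
  unfold mint
  rw [← ofAdd_add, h x y z hx hy hz]

theorem gflat_zpow {a : Ω → ℝ} (h : AngCont a S) (g : G) : GFlat (fun x y => g ^ cint a x y) S := by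
  intro x₀ hx₀
  obtain ⟨e, he, h⟩ := h.cint_add x₀ hx₀
  refine ⟨e, he, fun x y z hx hy hz => ?_⟩
  show g ^ cint a x y * g ^ cint a y z = g ^ cint a x z
  rw [← zpow_add, h x y z hx hy hz]

/-- transport of `mint a` along a path = total variation of a lift of the angle `a ∘ γ`
(loops: `A 1 - A 0 = n` is an integer) -/
theorem hasTr_mint {a : Ω → ℝ} (h : AngCont a S) (hγ : ContinuousOn γ (Icc 0 1))
    (hm : ∀ s ∈ Icc (0:ℝ) 1, γ s ∈ S) {A : ℝ → ℝ} (hA : ContinuousOn A (Icc 0 1))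
    (hAa : ∀ s ∈ Icc (0:ℝ) 1, ∃ m : ℤ, A s = a (γ s) + m) (n : ℤ) (hn : A 1 - A 0 = n)
    (hl : a (γ 1) = a (γ 0)) : HasTr (mint a) γ (Multiplicative.ofAdd n) := by
  choose! m hm' using hAa
  have z : (0:ℝ) ∈ Icc (0:ℝ) 1 := left_mem_Icc.2 zero_le_one
  have o : (1:ℝ) ∈ Icc (0:ℝ) 1 := right_mem_Icc.2 zero_le_one
  refine ⟨fun t => Multiplicative.ofAdd (m t - m 0), by simp, ?_, ?_⟩
  · have h1 : ((m 1 - m 0 : ℤ) : ℝ) = n := by
      push_cast
      rw [← hn, hm' 0 z, hm' 1 o, hl]; ring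
    have h2 : m 1 - m 0 = n := by exact_mod_cast h1
    simp only [h2]
  · intro s hs
    obtain ⟨δ, hδ, hd⟩ := Metric.continuousOn_iff.1 hA s hs (1/4) (by norm_num)
    refine ⟨δ, hδ, fun t ht t' ht' h1 h2 => ?_⟩
    have h3 := abs_lt.1 (hd t ht h1)
    have h4 := abs_lt.1 (hd t' ht' h2)
    have h5 : cint a (γ t) (γ t') = m t' - m t := by
      unfold cint
      apply round_eq_of_abs_lt
      push_cast
      rw [abs_lt]
      have e1 := hm' t ht
      have e2 := hm' t' ht'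
      constructor <;> linarith [h3.1, h3.2, h4.1, h4.2]
    show mint a (γ t) (γ t') = (Multiplicative.ofAdd (m t - m 0))⁻¹ * Multiplicative.ofAdd (m t' - m 0)
    unfold mint
    rw [h5, ← ofAdd_neg, ← ofAdd_add]
    congr 1
    ring

/-- flat functions on a set which retracts to a torus -/
theorem torus_classify {R : Set Ω} (hT : GFlat T S) {K : ℝ → Ω → Ω} {τ : ℝ × ℝ → Ω}
    {a b : Ω → ℝ} {h : G}
    (hK : ∀ s ∈ Icc (0:ℝ) 1, ∀ x ∈ R, ContinuousAt (fun p : ℝ × Ω => K p.1 p.2) (s, x))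
    (hm : ∀ s ∈ Icc (0:ℝ) 1, ∀ x ∈ R, K s x ∈ S) (h0 : ∀ x, K 0 x = x)
    (hτ : Continuous τ) (hτm : ∀ s, τ s ∈ S) (hper : ∀ s t, τ (s + 1, t) = τ (s, t))
    (hper' : ∀ s t, τ (s, t + 1) = τ (s, t))
    (ha : AngCont a R) (hb : AngCont b R) (h1 : ∀ x, K 1 x = τ (a x, b x))
    (hg : HasTr T (fun s => τ (s, 0)) g) (hh : HasTr T (fun s => τ (0, s)) h) :
    g * h = h * g ∧ GaugeEq T (fun x y => g ^ cint a x y * h ^ cint b x y) R := by
  obtain ⟨u, hu, hu'⟩ := transport_lemma (Ω' := ℝ × ℝ) (R := univ) hT (K := fun s p => τ (s • p))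
    (fun s _ p _ => Continuous.continuousAt (by fun_prop)) (fun s _ p _ => hτm _)
  have u0 : u 0 = 1 := HasTr.unique (hu' 0 (mem_univ _))
    ((HasTr.const hT (hτm 0)).congr fun s _ => by simp)
  have u1 : u (1, 0) = g := HasTr.unique (hu' (1, 0) (mem_univ _))
    (hg.congr fun s _ => by simp)
  have u2 : u (0, 1) = h := HasTr.unique (hu' (0, 1) (mem_univ _))
    (hh.congr fun s _ => by simp)
  have hT0 : T (τ 0) (τ 0) = 1 := by
    obtain ⟨e, he, h⟩ := (hT (τ 0) (hτm 0)).one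
    exact h _ (by simpa using he)
  have loc : ∀ p : ℝ × ℝ, ∃ ε > 0, ∀ q r, dist q p < ε → dist r p < ε →
      T (τ q) (τ r) = (u q)⁻¹ * u r := by
    intro p
    obtain ⟨e, he, h⟩ := hu p (mem_univ _)
    refine ⟨e, he, fun q r hq hr => ?_⟩
    have := h q r hq hr
    simp only [zero_smul, one_smul, hT0, mul_one] at this
    exact this
  have uniq : ∀ v : ℝ × ℝ → G, (∀ p, ∃ ε > 0, ∀ q r, dist q p < ε → dist r p < ε →
      T (τ q) (τ r) = (v q)⁻¹ * v r) → ∀ p, v p = v 0 * u p := by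
    intro v hv p
    have hl : IsLocallyConstant (fun p => v p * (u p)⁻¹) := by
      rw [IsLocallyConstant.iff_eventually_eq]
      intro p
      obtain ⟨e, he, h⟩ := hv p
      obtain ⟨e', he', h'⟩ := loc p
      filter_upwards [Metric.ball_mem_nhds p (lt_min he he')] with q hq
      have hq1 := lt_of_lt_of_le (Metric.mem_ball.1 hq) (min_le_left _ _)
      have hq2 := lt_of_lt_of_le (Metric.mem_ball.1 hq) (min_le_right _ _)
      have e1 := h p q (by simpa using he) hq1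
      have e2 := h' p q (by simpa using he') hq2
      have e3 : v q = v p * T (τ p) (τ q) := by rw [e1]; group
      have e4 : u q = u p * T (τ p) (τ q) := by rw [e2]; group
      rw [e3, e4]; group
    have := hl.apply_eq_of_preconnectedSpace p 0
    simp only [u0, inv_one, mul_one] at this
    rw [← this]; group
  have v1 : ∀ p : ℝ × ℝ, u (p + (1, 0)) = g * u p := by
    intro p
    have := uniq (fun p => u (p + (1, 0))) (by
      intro p
      obtain ⟨e, he, h⟩ := loc (p + (1, 0))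
      refine ⟨e, he, fun q r hq hr => ?_⟩
      have := h (q + (1, 0)) (r + (1, 0)) (by rwa [dist_add_right]) (by rwa [dist_add_right])
      rw [← this]
      have e1 : ∀ q : ℝ × ℝ, τ (q + (1, 0)) = τ q := by
        rintro ⟨s, t⟩
        have := hper s t
        simpa using this
      rw [e1, e1]) p
    simpa [u1] using this
  have v2 : ∀ p : ℝ × ℝ, u (p + (0, 1)) = h * u p := by
    intro p
    have := uniq (fun p => u (p + (0, 1))) (by
      intro p
      obtain ⟨e, he, h⟩ := loc (p + (0, 1))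
      refine ⟨e, he, fun q r hq hr => ?_⟩
      have := h (q + (0, 1)) (r + (0, 1)) (by rwa [dist_add_right]) (by rwa [dist_add_right])
      rw [← this]
      have e1 : ∀ q : ℝ × ℝ, τ (q + (0, 1)) = τ q := by
        rintro ⟨s, t⟩
        have := hper' s t
        simpa using this
      rw [e1, e1]) p
    simpa [u2] using this
  have comm : g * h = h * g := by
    have e1 := v1 (0, 1)
    have e2 := v2 (1, 0)
    rw [u2] at e1
    rw [u1] at e2
    rw [← e1, ← e2]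
    congr 1
    simp
  have w1 : ∀ (m : ℤ) (p : ℝ × ℝ), u (p + ((m : ℝ), 0)) = g ^ m * u p := by
    intro m
    induction m using Int.induction_on with
    | zero =>
      intro p
      rw [Int.cast_zero, show ((0:ℝ), (0:ℝ)) = 0 from rfl, add_zero, zpow_zero, one_mul]
    | succ n ih =>
      intro p
      have e : p + (((n + 1 : ℤ) : ℝ), (0:ℝ)) = (p + ((n : ℝ), 0)) + (1, 0) := by
        ext <;> simp [add_assoc]
      have ih' := ih p
      simp only [Int.cast_natCast] at ih'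
      rw [e, v1, ih', ← mul_assoc, ← zpow_one_add]
      congr 2
      ring
    | pred n ih =>
      intro p
      have e : (p + (((-n - 1 : ℤ) : ℝ), (0:ℝ))) + (1, 0) = p + (((-n : ℤ) : ℝ), 0) := by
        ext <;> simp
        ring
      have h3 := v1 (p + (((-n - 1 : ℤ) : ℝ), (0:ℝ)))
      rw [e, ih p] at h3
      rw [← mul_right_inj g, ← h3, ← mul_assoc, ← zpow_one_add]
      congr 2
      ring
  have w2 : ∀ (m : ℤ) (p : ℝ × ℝ), u (p + (0, (m : ℝ))) = h ^ m * u p := by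
    intro m
    induction m using Int.induction_on with
    | zero =>
      intro p
      rw [Int.cast_zero, show ((0:ℝ), (0:ℝ)) = 0 from rfl, add_zero, zpow_zero, one_mul]
    | succ n ih =>
      intro p
      have e : p + ((0:ℝ), ((n + 1 : ℤ) : ℝ)) = (p + (0, (n : ℝ))) + (0, 1) := by
        ext <;> simp [add_assoc]
      have ih' := ih p
      simp only [Int.cast_natCast] at ih'
      rw [e, v2, ih', ← mul_assoc, ← zpow_one_add]
      congr 2
      ring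
    | pred n ih =>
      intro p
      have e : (p + ((0:ℝ), ((-n - 1 : ℤ) : ℝ))) + (0, 1) = p + (0, ((-n : ℤ) : ℝ)) := by
        ext <;> simp
        ring
      have h3 := v2 (p + ((0:ℝ), ((-n - 1 : ℤ) : ℝ)))
      rw [e, ih p] at h3
      rw [← mul_right_inj h, ← h3, ← mul_assoc, ← zpow_one_add]
      congr 2
      ring
  have per : ∀ (m n : ℤ) (p : ℝ × ℝ), τ (p + ((m : ℝ), (n : ℝ))) = τ p := by
    intro m n
    rintro ⟨s, t⟩
    have p1 : Function.Periodic (fun s => τ (s, t)) 1 := fun s => hper s t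
    have p2 : Function.Periodic (fun t => τ (s + m, t)) 1 := fun t => hper' _ t
    have q1 := p1.int_mul m s
    have q2 := p2.int_mul n t
    simp only [mul_one] at q1 q2
    show τ (s + m, t + n) = τ (s, t)
    rw [q2, q1]
  -- uniform version
  obtain ⟨δ, hδ, hd⟩ := lebesgue_prop (X := ℝ × ℝ) (K := Icc (0:ℝ) 1 ×ˢ Icc (0:ℝ) 1)
    (isCompact_Icc.prod isCompact_Icc)
    (P := fun A => ∀ q ∈ A, ∀ r ∈ A, T (τ q) (τ r) = (u q)⁻¹ * u r)
    (fun A B hAB hB p hp q hq => hB p (hAB hp) q (hAB hq))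
    (by
      intro p _
      obtain ⟨e, he, h⟩ := loc p
      exact ⟨e, he, fun q hq r hr => h q r hq hr⟩)
  have unif : ∀ q r : ℝ × ℝ, dist q r < δ → T (τ q) (τ r) = (u q)⁻¹ * u r := by
    intro q r hqr
    set m : ℤ := ⌊r.1⌋ with hm
    set n : ℤ := ⌊r.2⌋ with hn
    set q' : ℝ × ℝ := q - ((m : ℝ), (n : ℝ)) with hq'
    set r' : ℝ × ℝ := r - ((m : ℝ), (n : ℝ)) with hr'
    have eq : q = q' + ((m : ℝ), (n : ℝ)) := by rw [hq']; abel
    have er : r = r' + ((m : ℝ), (n : ℝ)) := by rw [hr']; abel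
    have hr'm : r' ∈ Icc (0:ℝ) 1 ×ˢ Icc (0:ℝ) 1 := by
      have h1 : r'.1 = Int.fract r.1 := rfl
      have h2 : r'.2 = Int.fract r.2 := rfl
      refine ⟨⟨?_, ?_⟩, ⟨?_, ?_⟩⟩
      · rw [h1]; exact Int.fract_nonneg _
      · rw [h1]; exact (Int.fract_lt_one _).le
      · rw [h2]; exact Int.fract_nonneg _
      · rw [h2]; exact (Int.fract_lt_one _).le
    have hdd : dist q' r' < δ := by rw [hq', hr', dist_sub_right]; exact hqr
    have h3 := hd r' hr'm q' hdd r' (Metric.mem_ball_self hδ)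
    have spl : ∀ p : ℝ × ℝ, u (p + ((m : ℝ), (n : ℝ))) = h ^ n * (g ^ m * u p) := by
      intro p
      have : p + ((m : ℝ), (n : ℝ)) = (p + ((m : ℝ), 0)) + (0, (n : ℝ)) := by
        ext <;> simp
      rw [this, w2, w1]
    rw [eq, er, per, per, spl, spl, h3]
    group
  refine ⟨comm, ?_⟩
  obtain ⟨w, hw, _⟩ := transport_lemma hT hK hm
  have G1 : GaugeEq T (fun x y => T (K 1 x) (K 1 y)) R := by
    refine ⟨w, ?_⟩
    simpa only [h0] using hw
  have G2 : GaugeBy (fun x y => g ^ cint a x y * h ^ cint b x y) (fun x y => T (K 1 x) (K 1 y)) R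
      (fun x => u (a x, b x)) := by
    intro x₀ hx₀
    obtain ⟨e1, he1, ha⟩ := ha x₀ hx₀ δ hδ
    obtain ⟨e2, he2, hb⟩ := hb x₀ hx₀ δ hδ
    refine ⟨min e1 e2, lt_min he1 he2, fun x y hx hy => ?_⟩
    have a1 := ha x y (hx.trans_le (min_le_left _ _)) (hy.trans_le (min_le_left _ _))
    have b1 := hb x y (hx.trans_le (min_le_right _ _)) (hy.trans_le (min_le_right _ _))
    set c := cint a x y with hc
    set d := cint b x y with hd
    set q : ℝ × ℝ := (a x - c, b x - d) with hq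
    have e3 : ((a x, b x) : ℝ × ℝ) = q + ((c : ℝ), (d : ℝ)) := by
      rw [hq]; ext <;> simp
    have e4 : T (τ q) (τ (a y, b y)) = (u q)⁻¹ * u (a y, b y) := by
      apply unif
      rw [Prod.dist_eq]
      apply max_lt
      · rw [Real.dist_eq, hq]
        show |a x - c - a y| < δ
        rw [show a x - (c:ℝ) - a y = a x - a y - c by ring]; exact a1
      · rw [Real.dist_eq, hq]
        show |b x - d - b y| < δ
        rw [show b x - (d:ℝ) - b y = b x - b y - d by ring]; exact b1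
    have spl : u (q + ((c : ℝ), (d : ℝ))) = h ^ d * (g ^ c * u q) := by
      have : q + ((c : ℝ), (d : ℝ)) = (q + ((c : ℝ), 0)) + (0, (d : ℝ)) := by
        ext <;> simp
      rw [this, w2, w1]
    have hcomm : g ^ c * h ^ d = h ^ d * g ^ c := ((show Commute g h from comm).zpow_zpow c d)
    show T (K 1 x) (K 1 y) = (u (a x, b x))⁻¹ * (g ^ c * h ^ d) * u (a y, b y)
    rw [h1, h1, e3, per, e4, spl, hcomm]
    group
  exact G1.trans (GaugeEq.symm ⟨_, G2⟩)

/-- flat functions on a set which retracts to a circle -/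
theorem circle_classify {R : Set Ω} (hT : GFlat T S) {K : ℝ → Ω → Ω} {τ : ℝ → Ω} {a : Ω → ℝ}
    (hK : ∀ s ∈ Icc (0:ℝ) 1, ∀ x ∈ R, ContinuousAt (fun p : ℝ × Ω => K p.1 p.2) (s, x))
    (hm : ∀ s ∈ Icc (0:ℝ) 1, ∀ x ∈ R, K s x ∈ S) (h0 : ∀ x, K 0 x = x)
    (hτ : Continuous τ) (hτm : ∀ s, τ s ∈ S) (hper : ∀ s, τ (s + 1) = τ s)
    (ha : AngCont a R) (h1 : ∀ x, K 1 x = τ (a x)) (hg : HasTr T τ g) :
    GaugeEq T (fun x y => g ^ cint a x y) R := by
  have h := (torus_classify (R := R) hT (τ := fun p => τ p.1) (a := a) (b := fun _ => 0) (h := 1)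
    hK hm h0 (hτ.comp continuous_fst) (fun s => hτm _) (fun s t => hper s) (fun s t => rfl) ha
    (by
      intro x₀ _ ε hε
      exact ⟨1, one_pos, fun x y _ _ => by simpa using hε⟩)
    h1 hg (HasTr.const hT (hτm 0))).2
  simpa using h

/-! ### gluing -/

theorem infEDist_aux {A B : Set Ω} (cB : IsClosed B) {a : Ω} (ha : a ∈ A)
    (hb : a ∉ B) : ∃ ε > 0, ∀ x, dist x a < ε → Metric.infEDist x A < Metric.infEDist x B := by
  have h0 : Metric.infEDist a A = 0 := Metric.infEDist_zero_of_mem ha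
  have h1 : 0 < Metric.infEDist a B := by
    rw [pos_iff_ne_zero]
    intro h
    exact hb ((Metric.mem_iff_infEDist_zero_of_closed cB).2 h)
  have ho : IsOpen {x | Metric.infEDist x A < Metric.infEDist x B} :=
    isOpen_lt Metric.continuous_infEDist Metric.continuous_infEDist
  obtain ⟨e, he, h⟩ := Metric.isOpen_iff.1 ho a (by rw [mem_setOf_eq, h0]; exact h1)
  exact ⟨e, he, fun x hx => h hx⟩

/-- gluing of gauges, same setting -/
theorem gauge_glue' {A B U : Set Ω} (cA : IsClosed A) (cB : IsClosed B) (oU : IsOpen U)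
    {u₁ u₂ : Ω → G} (h1 : GaugeBy T T' (A ∩ U) u₁) (h2 : GaugeBy T T' (B ∩ U) u₂)
    (h : ∀ a ∈ A ∩ B ∩ U, ∃ ε > 0, ∀ x, dist x a < ε → u₁ x = u₂ x) :
    ∃ u, GaugeBy T T' ((A ∪ B) ∩ U) u ∧ (∀ x, u x = u₁ x ∨ u x = u₂ x) ∧
      (∀ a ∈ A ∩ U, ∃ ε > 0, ∀ x, dist x a < ε → u x = u₁ x) ∧
      (∀ a ∈ B ∩ U, ∃ ε > 0, ∀ x, dist x a < ε → u x = u₂ x) := by
  classical
  let u : Ω → G := fun x => if Metric.infEDist x A ≤ Metric.infEDist x B then u₁ x else u₂ x
  have hor : ∀ x, u x = u₁ x ∨ u x = u₂ x := by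
    intro x
    by_cases hx : Metric.infEDist x A ≤ Metric.infEDist x B
    · exact Or.inl (if_pos hx)
    · exact Or.inr (if_neg hx)
  have k1 : ∀ a ∈ A ∩ U, ∃ ε > 0, ∀ x, dist x a < ε → u x = u₁ x := by
    rintro a ⟨ha, haU⟩
    by_cases hb : a ∈ B
    · obtain ⟨e, he, h'⟩ := h a ⟨⟨ha, hb⟩, haU⟩
      refine ⟨e, he, fun x hx => ?_⟩
      rcases hor x with h3 | h3
      · exact h3
      · rw [h3, h' x hx]
    · obtain ⟨e, he, h'⟩ := infEDist_aux cB ha hb
      exact ⟨e, he, fun x hx => if_pos (h' x hx).le⟩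
  have k2 : ∀ a ∈ B ∩ U, ∃ ε > 0, ∀ x, dist x a < ε → u x = u₂ x := by
    rintro a ⟨ha, haU⟩
    by_cases hb : a ∈ A
    · obtain ⟨e, he, h'⟩ := h a ⟨⟨hb, ha⟩, haU⟩
      refine ⟨e, he, fun x hx => ?_⟩
      rcases hor x with h3 | h3
      · rw [h3, h' x hx]
      · exact h3
    · obtain ⟨e, he, h'⟩ := infEDist_aux cA ha hb
      exact ⟨e, he, fun x hx => if_neg (not_le.2 (h' x hx))⟩
  refine ⟨u, ?_, hor, k1, k2⟩
  rintro a ⟨ha | ha, haU⟩
  · obtain ⟨e, he, h3⟩ := k1 a ⟨ha, haU⟩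
    obtain ⟨e', he', h4⟩ := h1 a ⟨ha, haU⟩
    refine ⟨min e e', lt_min he he', fun x y hx hy => ?_⟩
    rw [h3 x (hx.trans_le (min_le_left _ _)), h3 y (hy.trans_le (min_le_left _ _))]
    exact h4 x y (hx.trans_le (min_le_right _ _)) (hy.trans_le (min_le_right _ _))
  · obtain ⟨e, he, h3⟩ := k2 a ⟨ha, haU⟩
    obtain ⟨e', he', h4⟩ := h2 a ⟨ha, haU⟩
    refine ⟨min e e', lt_min he he', fun x y hx hy => ?_⟩
    rw [h3 x (hx.trans_le (min_le_left _ _)), h3 y (hy.trans_le (min_le_left _ _))]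
    exact h4 x y (hx.trans_le (min_le_right _ _)) (hy.trans_le (min_le_right _ _))

theorem gauge_glue (c1 : IsClosed S) (c2 : IsClosed S') {u₁ u₂ : Ω → G} (h1 : GaugeBy T T' S u₁)
    (h2 : GaugeBy T T' S' u₂)
    (h : ∀ a ∈ S ∩ S', ∃ ε > 0, ∀ x, dist x a < ε → u₁ x = u₂ x) : GaugeEq T T' (S ∪ S') := by
  obtain ⟨u, hu, _⟩ := gauge_glue' (T := T) (T' := T') (U := univ) c1 c2 isOpen_univ
    (by simpa using h1) (by simpa using h2) (by simpa using h)
  exact ⟨u, by simpa using hu⟩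

/-- gluing of flat functions. `S = A ∩ U`, `S' = B ∩ U` with `A, B` closed, `U` open. -/
theorem gflat_glue {A B U : Set Ω} (cA : IsClosed A) (cB : IsClosed B) (oU : IsOpen U)
    {T₁ T₂ : Ω → Ω → G} (h1 : GFlat T₁ (A ∩ U)) (h2 : GFlat T₂ (B ∩ U))
    (h : GaugeEq T₁ T₂ (A ∩ B ∩ U)) :
    ∃ T : Ω → Ω → G, GFlat T ((A ∪ B) ∩ U) ∧ GaugeEq T T₁ (A ∩ U) ∧ GaugeEq T T₂ (B ∩ U) := by
  classical
  obtain ⟨w, hw⟩ := h
  let T : Ω → Ω → G := fun x y => if Metric.infEDist x A ≤ Metric.infEDist x B then T₁ x y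
    else w x * T₂ x y * (w y)⁻¹
  have hor : ∀ x y, T x y = T₁ x y ∨ T x y = w x * T₂ x y * (w y)⁻¹ := by
    intro x y
    by_cases hx : Metric.infEDist x A ≤ Metric.infEDist x B
    · exact Or.inl (if_pos hx)
    · exact Or.inr (if_neg hx)
  have k1 : ∀ a ∈ A ∩ U, ∃ ε > 0, ∀ x y, dist x a < ε → dist y a < ε → T x y = T₁ x y := by
    rintro a ⟨ha, haU⟩
    by_cases hb : a ∈ B
    · obtain ⟨e, he, h'⟩ := hw a ⟨⟨ha, hb⟩, haU⟩
      refine ⟨e, he, fun x y hx hy => ?_⟩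
      rcases hor x y with h3 | h3
      · exact h3
      · rw [h3, h' x y hx hy]; group
    · obtain ⟨e, he, h'⟩ := infEDist_aux cB ha hb
      exact ⟨e, he, fun x y hx _ => if_pos (h' x hx).le⟩
  have k2 : ∀ a ∈ B ∩ U, ∃ ε > 0, ∀ x y, dist x a < ε → dist y a < ε →
      T x y = w x * T₂ x y * (w y)⁻¹ := by
    rintro a ⟨ha, haU⟩
    by_cases hb : a ∈ A
    · obtain ⟨e, he, h'⟩ := hw a ⟨⟨hb, ha⟩, haU⟩
      refine ⟨e, he, fun x y hx hy => ?_⟩
      rcases hor x y with h3 | h3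
      · rw [h3, h' x y hx hy]; group
      · exact h3
    · obtain ⟨e, he, h'⟩ := infEDist_aux cA ha hb
      exact ⟨e, he, fun x y hx _ => if_neg (not_le.2 (h' x hx))⟩
  have G1 : GaugeEq T T₁ (A ∩ U) := by
    refine ⟨fun _ => 1, fun a ha => ?_⟩
    obtain ⟨e, he, h⟩ := k1 a ha
    exact ⟨e, he, fun x y hx hy => by rw [h x y hx hy]; simp⟩
  have G2 : GaugeEq T T₂ (B ∩ U) := by
    refine ⟨w, fun a ha => ?_⟩
    obtain ⟨e, he, h⟩ := k2 a ha
    exact ⟨e, he, fun x y hx hy => by rw [h x y hx hy]; group⟩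
  refine ⟨T, ?_, G1, G2⟩
  rintro a ⟨ha | ha, haU⟩
  · exact (G1.symm.flat h1) a ⟨ha, haU⟩
  · exact (G2.symm.flat h2) a ⟨ha, haU⟩

end Pool.Agent.Helper60.AS
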