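import Pool.Agent.Helper60.AS.Coef
import Pool.Agent.Helper60.AS.Tr

set_option autoImplicit false
set_option linter.unusedSectionVars false

namespace Pool.Agent.Helper60.AS

open Set

variable {Ω Ω' k V : Type*} [PseudoMetricSpace Ω] [PseudoMetricSpace Ω'] [CommRing k]
  [AddCommGroup V] [Module k V]
variable {T : Ω → Ω → (V →ₗ[k] V)} {S S' S₁ R R₁ : Set Ω} {c : List Ω → V} {q n : ℕ}

/-! ### uniform scales -/

theorem hi_unif (hS : IsCompact S) {Q : Set Ω → Prop} (hQ : ∀ U V, U ⊆ V → Q V → Q U)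
    (h : ∀ a ∈ S, ∃ ε > 0, Q (Metric.ball a ε)) : ∃ ε > 0, ∀ a ∈ S, Q (Metric.ball a ε) := by
  choose! r hr0 hr using h
  obtain ⟨δ, hδ, h1⟩ := lebesgue_number_lemma_of_metric (ι := S) (c := fun a => Metric.ball a.1 (r a.1)) hS
    (fun _ => Metric.isOpen_ball) (fun x hx => mem_iUnion.2 ⟨⟨x, hx⟩, Metric.mem_ball_self (hr0 x hx)⟩)
  refine ⟨δ, hδ, fun a ha => ?_⟩
  obtain ⟨i, hi⟩ := h1 a ha
  exact hQ _ _ hi (hr _ i.2)

/-- uniform scale on a compact set -/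
theorem NZ.uniform (hS : IsCompact S) (h : NZ S n c) : ∃ ε > 0, ∀ l : List Ω, l.length = n →
    ∀ a ∈ S, (∀ x ∈ l, dist x a < ε) → c l = 0 := by
  obtain ⟨ε, hε, h1⟩ := hi_unif hS (Q := fun U => ∀ l : List Ω, l.length = n → (∀ x ∈ l, x ∈ U) → c l = 0)
    (fun U V hUV hV l hl hx => hV l hl fun x hxl => hUV (hx x hxl)) h
  exact ⟨ε, hε, fun l hl a ha hx => h1 a ha l hl hx⟩

theorem Flat.uniform (hS : IsCompact S) (h : Flat T S) : ∃ ε > 0, ∀ a ∈ S, ∀ x y z,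
    dist x a < ε → dist y a < ε → dist z a < ε → T x y ∘ₗ T y z = T x z ∧ T x x = LinearMap.id := by
  obtain ⟨ε, hε, h1⟩ := hi_unif hS (Q := fun U => ∀ x y z, x ∈ U → y ∈ U → z ∈ U →
      T x y ∘ₗ T y z = T x z ∧ T x x = LinearMap.id)
    (fun U V hUV hV x y z hx hy hz => hV x y z (hUV hx) (hUV hy) (hUV hz)) h
  exact ⟨ε, hε, fun a ha x y z hx hy hz => h1 a ha x y z hx hy hz⟩

/-- pullback along maps which are continuous at the points of `R` -/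
theorem NZ.pb {F : Ω' → Ω} {R : Set Ω'} (h : NZ S n c) (hF : ∀ a ∈ R, ContinuousAt F a)
    (hm : MapsTo F R S) : NZ R n (AS.pb F c) := by
  intro a ha
  obtain ⟨ε, hε, h1⟩ := h (F a) (hm ha)
  obtain ⟨δ, hδ, h2⟩ := Metric.continuousAt_iff.1 (hF a ha) ε hε
  refine ⟨δ, hδ, fun l hl hx => ?_⟩
  refine h1 _ (by simpa using hl) fun y hy => ?_
  obtain ⟨x, hxl, rfl⟩ := List.mem_map.1 hy
  exact h2 (hx x hxl)

theorem Flat.pT {F : Ω' → Ω} {R : Set Ω'} (h : Flat T S) (hF : ∀ a ∈ R, ContinuousAt F a)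
    (hm : MapsTo F R S) : Flat (AS.pT F T) R := by
  intro a ha
  obtain ⟨ε, hε, h1⟩ := h (F a) (hm ha)
  obtain ⟨δ, hδ, h2⟩ := Metric.continuousAt_iff.1 (hF a ha) ε hε
  exact ⟨δ, hδ, fun x y z hx hy hz => h1 _ _ _ (h2 hx) (h2 hy) (h2 hz)⟩

theorem pb_mem_Zc {F : Ω' → Ω} {R R' : Set Ω'} (hF : ∀ a ∈ R, ContinuousAt F a)
    (hF' : ∀ a ∈ R', ContinuousAt F a) (hm : MapsTo F R S) (hm' : MapsTo F R' S')
    (hc : c ∈ Zc T S S' q) : pb F c ∈ Zc (pT F T) R R' q := by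
  obtain ⟨h1, h2⟩ := mem_Zc.1 hc
  refine mem_Zc.2 ⟨h1.pb hF' hm', ?_⟩
  rw [dT_pb]
  exact h2.pb hF hm

theorem pb_mem_Bc {F : Ω' → Ω} {R R' : Set Ω'} (hF : ∀ a ∈ R, ContinuousAt F a)
    (hF' : ∀ a ∈ R', ContinuousAt F a) (hm : MapsTo F R S) (hm' : MapsTo F R' S')
    (hc : c ∈ Bc T S S' q) : pb F c ∈ Bc (pT F T) R R' q := by
  obtain ⟨b, h1, h2⟩ := mem_Bc.1 hc
  refine mem_Bc.2 ⟨pb F b, h1.pb hF' hm', ?_⟩
  rw [dT_pb]
  exact h2.pb hF hm

theorem hi_Hres_mk {S₁ S₁' S₂ S₂' : Set Ω} (h : S₂ ⊆ S₁) (h' : S₂' ⊆ S₁') {c : List Ω → V} (hc : c ∈ Zc T S₁ S₁' q) :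
    Hres T h h' q (H.mk T S₁ S₁' q ⟨c, hc⟩) = H.mk T S₂ S₂' q ⟨c, Zc_mono h h' q hc⟩ := rfl

theorem hi_pb_pb_symm (e : Ω' ≃ₜ Ω) (c : List Ω → V) : pb e.symm (pb e c) = c := by
  funext l
  simp [pb, Function.comp_def]

theorem hi_pb_symm_pb (e : Ω' ≃ₜ Ω) (c : List Ω' → V) : pb e (pb e.symm c) = c := by
  funext l
  simp [pb, Function.comp_def]

theorem hi_pT_pT_symm (e : Ω' ≃ₜ Ω) (T : Ω → Ω → (V →ₗ[k] V)) : pT e.symm (pT e T) = T := by
  funext x y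
  simp [pT]

theorem hi_homeo_Zc (e : Ω' ≃ₜ Ω) (T : Ω → Ω → (V →ₗ[k] V)) (S S' : Set Ω) (q : ℕ) (c : List Ω → V) :
    c ∈ Zc T S S' q ↔ pb e c ∈ Zc (pT e T) (e ⁻¹' S) (e ⁻¹' S') q := by
  constructor
  · exact fun h => pb_mem_Zc (fun _ _ => e.continuous.continuousAt) (fun _ _ => e.continuous.continuousAt)
      (fun _ h => h) (fun _ h => h) h
  · intro h
    have := pb_mem_Zc (F := e.symm) (R := S) (R' := S') (fun _ _ => e.symm.continuous.continuousAt)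
      (fun _ _ => e.symm.continuous.continuousAt) (fun x hx => by simpa using hx) (fun x hx => by simpa using hx) h
    rwa [hi_pb_pb_symm, hi_pT_pT_symm] at this

theorem hi_homeo_Bc (e : Ω' ≃ₜ Ω) (T : Ω → Ω → (V →ₗ[k] V)) (S S' : Set Ω) (q : ℕ) (c : List Ω → V) :
    c ∈ Bc T S S' q ↔ pb e c ∈ Bc (pT e T) (e ⁻¹' S) (e ⁻¹' S') q := by
  constructor
  · exact fun h => pb_mem_Bc (fun _ _ => e.continuous.continuousAt) (fun _ _ => e.continuous.continuousAt)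
      (fun _ h => h) (fun _ h => h) h
  · intro h
    have := pb_mem_Bc (F := e.symm) (R := S) (R' := S') (fun _ _ => e.symm.continuous.continuousAt)
      (fun _ _ => e.symm.continuous.continuousAt) (fun x hx => by simpa using hx) (fun x hx => by simpa using hx) h
    rwa [hi_pb_pb_symm, hi_pT_pT_symm] at this

/-- pulling back by a homeomorphism of the ambient spaces -/
theorem homeo_H (e : Ω' ≃ₜ Ω) (T : Ω → Ω → (V →ₗ[k] V)) (S S' : Set Ω) (q : ℕ) :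
    Nonempty (H T S S' q ≃ₗ[k] H (pT e T) (e ⁻¹' S) (e ⁻¹' S') q) := by
  let f : Zc T S S' q →ₗ[k] Zc (pT e T) (e ⁻¹' S) (e ⁻¹' S') q :=
    { toFun := fun c => ⟨pb e c.1, (hi_homeo_Zc e T S S' q c.1).1 c.2⟩
      map_add' := fun a b => rfl
      map_smul' := fun r a => rfl }
  let φ : H T S S' q →ₗ[k] H (pT e T) (e ⁻¹' S) (e ⁻¹' S') q :=
    Submodule.mapQ _ _ f (fun c hc => (hi_homeo_Bc e T S S' q c.1).1 hc)
  refine ⟨LinearEquiv.ofBijective φ ⟨?_, ?_⟩⟩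
  · rw [← LinearMap.ker_eq_bot, LinearMap.ker_eq_bot']
    intro x hx
    obtain ⟨⟨c, hc⟩, rfl⟩ := H.mk_surjective q x
    rw [H.mk_eq_zero]
    have h1 : H.mk (pT e T) (e ⁻¹' S) (e ⁻¹' S') q (f ⟨c, hc⟩) = 0 := hx
    rw [H.mk_eq_zero] at h1
    exact (hi_homeo_Bc e T S S' q c).2 h1
  · intro x
    obtain ⟨⟨c, hc⟩, rfl⟩ := H.mk_surjective q x
    have h2 : pb e.symm c ∈ Zc T S S' q := by
      rw [hi_homeo_Zc e, hi_pb_symm_pb]; exact hc
    refine ⟨H.mk T S S' q ⟨pb e.symm c, h2⟩, ?_⟩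
    change H.mk (pT e T) (e ⁻¹' S) (e ⁻¹' S') q (f ⟨pb e.symm c, h2⟩) = _
    congr 1
    exact Subtype.ext (hi_pb_symm_pb e c)

theorem homeo_HV (e : Ω' ≃ₜ Ω) (T : Ω → Ω → (V →ₗ[k] V)) (S S' : Set Ω) (q : ℕ) :
    HV T S S' q ↔ HV (pT e T) (e ⁻¹' S) (e ⁻¹' S') q := by
  constructor
  · intro h c hc
    have h2 : pb e.symm c ∈ Zc T S S' q := by
      rw [hi_homeo_Zc e, hi_pb_symm_pb]; exact hc
    have h3 := (hi_homeo_Bc e T S S' q _).1 (h h2)
    rwa [hi_pb_symm_pb] at h3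
  · intro h c hc
    exact (hi_homeo_Bc e T S S' q c).2 (h ((hi_homeo_Zc e T S S' q c).1 hc))

/-- multiply by the transport from `x` to `F x`: a cochain with values over `F x` becomes one with
values over `x` -/
def tg (T : Ω → Ω → (V →ₗ[k] V)) (F : Ω → Ω) : Ω → (V →ₗ[k] V) := fun x => T x (F x)

/-! ### gauge transformations and prism operators -/

theorem hi_NA_gm {W : Type*} [AddCommGroup W] [Module k W] {a : Ω} {c : List Ω → V} (u : Ω → (V →ₗ[k] W)) (h : NA a n c) :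
    NA a n (AS.gm u c) := by
  obtain ⟨ε, hε, h1⟩ := h
  refine ⟨ε, hε, fun l hl hx => ?_⟩
  cases l with
  | nil => rfl
  | cons x l => rw [gm_cons, h1 _ hl hx, map_zero]

theorem hi_NZ_gm {W : Type*} [AddCommGroup W] [Module k W] {c : List Ω → V} (u : Ω → (V →ₗ[k] W)) (h : NZ S n c) :
    NZ S n (AS.gm u c) := fun a ha => hi_NA_gm u (h a ha)

/-- `u` intertwines `T'` and `T` near `S` -/
def hi_Comm (T T' : Ω → Ω → (V →ₗ[k] V)) (u : Ω → (V →ₗ[k] V)) (S : Set Ω) : Prop :=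
  ∀ a ∈ S, ∃ δ > 0, ∀ x y, dist x a < δ → dist y a < δ → T x y ∘ₗ u y = u x ∘ₗ T' x y

theorem hi_Comm.mono {T' : Ω → Ω → (V →ₗ[k] V)} {u : Ω → (V →ₗ[k] V)} (h : hi_Comm T T' u S) (hR : R ⊆ S) :
    hi_Comm T T' u R := fun a ha => h a (hR ha)

theorem hi_Comm.nz {T' : Ω → Ω → (V →ₗ[k] V)} {u : Ω → (V →ₗ[k] V)} (h : hi_Comm T T' u S) (c : List Ω → V) (n : ℕ) :
    NZ S n (dT T (gm u c) - gm u (dT T' c)) := by
  intro a ha
  obtain ⟨δ, hδ, h1⟩ := h a ha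
  refine ⟨δ, hδ, fun l _ hx => ?_⟩
  rw [Pi.sub_apply, sub_eq_zero]
  exact dT_gm T' T u c l fun x hx' y hy' => h1 x y (hx x hx') (hx y hy')

theorem hi_gm_sub {W : Type*} [AddCommGroup W] [Module k W] (u : Ω → (V →ₗ[k] W)) (b c : List Ω → V) :
    gm u (b - c) = gm u b - gm u c := by
  funext l
  cases l with
  | nil => simp
  | cons x l => simp

theorem hi_gm_mem_Zc {T' : Ω → Ω → (V →ₗ[k] V)} {u : Ω → (V →ₗ[k] V)} (h : hi_Comm T T' u S) (hc : c ∈ Zc T' S S₁ q) :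
    gm u c ∈ Zc T S S₁ q := by
  obtain ⟨h1, h2⟩ := mem_Zc.1 hc
  refine mem_Zc.2 ⟨hi_NZ_gm u h1, ?_⟩
  have h3 := (h.nz c (q + 2)).add (hi_NZ_gm u h2)
  rwa [sub_add_cancel] at h3

theorem hi_gm_mem_Bc {T' : Ω → Ω → (V →ₗ[k] V)} {u : Ω → (V →ₗ[k] V)} (h : hi_Comm T T' u S) (hc : c ∈ Bc T' S S₁ q) :
    gm u c ∈ Bc T S S₁ q := by
  obtain ⟨b, h1, h2⟩ := mem_Bc.1 hc
  refine mem_Bc.2 ⟨gm u b, hi_NZ_gm u h1, ?_⟩
  have h3 := (hi_NZ_gm u h2).sub (h.nz b (q + 1))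
  rw [hi_gm_sub] at h3
  have e : gm u c - gm u (dT T' b) - (dT T (gm u b) - gm u (dT T' b)) = gm u c - dT T (gm u b) := by abel
  rwa [e] at h3

/-- one prism step -/
theorem hi_step {u : Ω → (V →ₗ[k] V)} {f g : Ω → Ω} {ε : ℝ} (hR : R₁ ⊆ R) (hu : hi_Comm T (pT f T) u R)
    (hcl : ∀ a ∈ R, ∃ δ > 0, ∀ x, dist x a < δ → dist (f x) (f a) < ε ∧ dist (g x) (f a) < ε)
    (hf : ∀ a ∈ R, f a ∈ R) (hf₁ : ∀ a ∈ R₁, f a ∈ R₁)
    (hd : ∀ l : List Ω, l.length = q + 2 → ∀ a ∈ R, (∀ x ∈ l, dist x a < ε) → dT T c l = 0)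
    (hz : ∀ l : List Ω, l.length = q + 1 → ∀ a ∈ R₁, (∀ x ∈ l, dist x a < ε) → c l = 0) :
    gm u (pb f c) - gm (fun x => u x ∘ₗ T (f x) (g x)) (pb g c) ∈ Bc T R R₁ q := by
  have hpr : ∀ (c' : List Ω → V) (m : ℕ) (a : Ω), a ∈ R →
      (∀ l : List Ω, l.length = m + 1 → (∀ x ∈ l, dist x (f a) < ε) → c' l = 0) →
      ∃ δ > 0, ∀ l : List Ω, l.length = m → (∀ x ∈ l, dist x a < δ) → pr f g c' l = 0 := by
    intro c' m a ha h
    obtain ⟨δ, hδ, h1⟩ := hcl a ha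
    refine ⟨δ, hδ, fun l hl hx => ?_⟩
    rw [pr_congr f g l c' 0]
    · simp
    · intro l' hl' hl''
      refine h l' (by omega) fun y hy => ?_
      obtain ⟨x, hx', rfl | rfl⟩ := hl'' y hy
      · exact (h1 x (hx x hx')).1
      · exact (h1 x (hx x hx')).2
  refine mem_Bc.2 ⟨-(gm u (pr f g c)), ?_, ?_⟩
  · refine NZ.neg (hi_NZ_gm u fun a ha => ?_)
    exact hpr c q a (hR ha) fun l hl hx => hz l hl (f a) (hf₁ a ha) hx
  · intro a ha
    obtain ⟨δ₁, hδ₁, h1⟩ := hpr (dT T c) (q + 1) a ha fun l hl hx => hd l hl (f a) (hf a ha) hx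
    obtain ⟨δ₂, hδ₂, h2⟩ := hu.nz (pr f g c) (q + 1) a ha
    refine ⟨min δ₁ δ₂, lt_min hδ₁ hδ₂, fun l hl hx => ?_⟩
    have e1 := h1 l hl fun x hx' => (hx x hx').trans_le (min_le_left _ _)
    have e2 := h2 l hl fun x hx' => (hx x hx').trans_le (min_le_right _ _)
    cases l with
    | nil => simp at hl
    | cons x l =>
      have e3 := prism T f g c x l
      rw [e1, add_zero] at e3
      rw [Pi.sub_apply, sub_eq_zero, gm_cons] at e2
      rw [dT_neg, sub_neg_eq_add, Pi.add_apply, Pi.sub_apply, gm_cons, gm_cons, e2, e3, LinearMap.comp_apply, map_sub]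
      abel

/-- a map which is contiguous to the identity near `S` acts trivially on cohomology (any `S`) -/
theorem contig (hT : Flat T S) (hS : S' ⊆ S) {F : Ω → Ω} (hF : ∀ a ∈ S, ContinuousAt F a ∧ F a = a)
    (hc : c ∈ Zc T S S' q) : c - gm (tg T F) (pb F c) ∈ Bc T S S' q := by
  obtain ⟨h1, h2⟩ := mem_Zc.1 hc
  have hpr : ∀ (c' : List Ω → V) (m : ℕ) (a : Ω), a ∈ S → NA a (m + 1) c' → NA a m (pr id F c') := by
    rintro c' m a ha ⟨ε, hε, h⟩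
    obtain ⟨δ, hδ, h3⟩ := Metric.continuousAt_iff.1 (hF a ha).1 ε hε
    refine ⟨min δ ε, lt_min hδ hε, fun l hl hx => ?_⟩
    rw [pr_congr id F l c' 0]
    · simp
    · intro l' hl' hl''
      refine h l' (by omega) fun y hy => ?_
      obtain ⟨x, hx', he | he⟩ := hl'' y hy
      · rw [he]; exact (hx x hx').trans_le (min_le_right _ _)
      · have h4 := h3 ((hx x hx').trans_le (min_le_left _ _))
        rw [(hF a ha).2] at h4
        rw [he]; exact h4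
  refine mem_Bc.2 ⟨-(pr id F c), fun a ha => (hpr c q a (hS ha) (h1 a ha)).neg, fun a ha => ?_⟩
  obtain ⟨δ, hδ, h3⟩ := hpr (dT T c) (q + 1) a ha (h2 a ha)
  refine ⟨δ, hδ, fun l hl hx => ?_⟩
  have e1 := h3 l hl hx
  cases l with
  | nil => simp at hl
  | cons x l =>
    have e3 := prism T id F c x l
    rw [e1, add_zero] at e3
    have e4 : dT T (pr id F c) (x :: l) = dT (pT id T) (pr id F c) (x :: l) := rfl
    rw [dT_neg, sub_neg_eq_add, Pi.add_apply, Pi.sub_apply, gm_cons, e4, e3]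
    have e5 : pb id c (x :: l) = c (x :: l) := by simp [pb]
    rw [e5]
    unfold tg
    simp only [id]
    abel

/-! ### chains of maps -/

/-- the gauge along a chain of maps -/
def hi_Ug (T : Ω → Ω → (V →ₗ[k] V)) (F : ℕ → Ω → Ω) (x : Ω) : ℕ → (V →ₗ[k] V)
  | 0 => LinearMap.id
  | i + 1 => hi_Ug T F x i ∘ₗ T (F i x) (F (i + 1) x)

theorem hi_chain_a {ε : ℝ} (hT : ∀ a ∈ S, ∀ x y z, dist x a < ε → dist y a < ε → dist z a < ε →
      T x y ∘ₗ T y z = T x z ∧ T x x = LinearMap.id) {F : ℕ → Ω → Ω} {M : ℕ} (h0 : ∀ x, F 0 x = x)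
    (hS : ∀ i ≤ M, ∀ a ∈ S, F i a ∈ S)
    (hcl : ∀ i < M, ∀ a ∈ S, ∃ δ > 0, ∀ x, dist x a < δ → dist (F i x) (F i a) < ε ∧ dist (F (i + 1) x) (F i a) < ε) :
    ∀ i ≤ M, hi_Comm T (pT (F i) T) (fun x => hi_Ug T F x i) S := by
  intro i
  induction i with
  | zero =>
    intro _ a _
    refine ⟨1, one_pos, fun x y _ _ => ?_⟩
    simp only [hi_Ug, pT, h0, LinearMap.id_comp, LinearMap.comp_id]
  | succ i ih =>
    intro hi a ha
    obtain ⟨δ₁, hδ₁, h1⟩ := ih (by omega) a ha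
    obtain ⟨δ₂, hδ₂, h2⟩ := hcl i (by omega) a ha
    refine ⟨min δ₁ δ₂, lt_min hδ₁ hδ₂, fun x y hx hy => ?_⟩
    have e1 := h1 x y (hx.trans_le (min_le_left _ _)) (hy.trans_le (min_le_left _ _))
    have ex := h2 x (hx.trans_le (min_le_right _ _))
    have ey := h2 y (hy.trans_le (min_le_right _ _))
    have hfa := hS i (by omega) a ha
    have e2 := (hT _ hfa (F i x) (F i y) (F (i + 1) y) ex.1 ey.1 ey.2).1
    have e3 := (hT _ hfa (F i x) (F (i + 1) x) (F (i + 1) y) ex.1 ex.2 ey.2).1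
    simp only [hi_Ug]
    rw [← LinearMap.comp_assoc, e1, LinearMap.comp_assoc, LinearMap.comp_assoc]
    congr 1
    change T (F i x) (F i y) ∘ₗ T (F i y) (F (i + 1) y) = T (F i x) (F (i + 1) x) ∘ₗ T (F (i + 1) x) (F (i + 1) y)
    rw [e2, e3]

theorem hi_chain_b {ε : ℝ} (hT : ∀ a ∈ S, ∀ x y z, dist x a < ε → dist y a < ε → dist z a < ε →
      T x y ∘ₗ T y z = T x z ∧ T x x = LinearMap.id) {F : ℕ → Ω → Ω} {M : ℕ} (h0 : ∀ x, F 0 x = x)
    (hS : ∀ i ≤ M, ∀ a ∈ S, F i a ∈ S)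
    (hcl : ∀ i < M, ∀ a ∈ S, ∃ δ > 0, ∀ x, dist x a < δ → dist (F i x) (F i a) < ε ∧ dist (F (i + 1) x) (F i a) < ε)
    (hRS : R ⊆ S) (hR : R₁ ⊆ R) (hFR : ∀ i ≤ M, ∀ a ∈ R, F i a ∈ R) (hFR₁ : ∀ i ≤ M, ∀ a ∈ R₁, F i a ∈ R₁)
    (hd : ∀ l : List Ω, l.length = q + 2 → ∀ a ∈ R, (∀ x ∈ l, dist x a < ε) → dT T c l = 0)
    (hz : ∀ l : List Ω, l.length = q + 1 → ∀ a ∈ R₁, (∀ x ∈ l, dist x a < ε) → c l = 0) :
    ∀ i ≤ M, c - gm (fun x => hi_Ug T F x i) (pb (F i) c) ∈ Bc T R R₁ q := by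
  intro i
  induction i with
  | zero =>
    intro _
    refine mem_Bc.2 ⟨0, NZ.zero, ?_⟩
    rw [dT_zero, sub_zero]
    intro a _
    refine ⟨1, one_pos, fun l hl _ => ?_⟩
    cases l with
    | nil => simp at hl
    | cons x l =>
      have : pb (F 0) c (x :: l) = c (x :: l) := by
        have h1 : F 0 = id := funext h0
        rw [h1]; simp [pb]
      rw [Pi.sub_apply, gm_cons, this]
      simp [hi_Ug]
  | succ i ih =>
    intro hi
    have h1 := ih (by omega)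
    have h2 := hi_step (T := T) (R := R) (R₁ := R₁) (c := c) (q := q) (u := fun x => hi_Ug T F x i) (f := F i) (g := F (i + 1))
      hR ((hi_chain_a hT h0 hS hcl i (by omega)).mono hRS) (fun a ha => hcl i (by omega) a (hRS ha))
      (hFR i (by omega)) (hFR₁ i (by omega)) hd hz
    have h3 := (Bc T R R₁ q).add_mem h1 h2
    have e : c - gm (fun x => hi_Ug T F x i) (pb (F i) c) +
        (gm (fun x => hi_Ug T F x i) (pb (F i) c) - gm (fun x => hi_Ug T F x i ∘ₗ T (F i x) (F (i + 1) x)) (pb (F (i + 1)) c)) =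
        c - gm (fun x => hi_Ug T F x (i + 1)) (pb (F (i + 1)) c) := by
      simp only [hi_Ug]; abel
    rwa [e] at h3

/-- a nearest point map of a compact set -/
theorem hi_exists_near (hS : IsCompact S) : ∃ π : Ω → Ω, (∀ x ∈ S, π x = x) ∧
    ∀ a ∈ S, ∀ x, π x ∈ S ∧ dist (π x) a ≤ 2 * dist x a := by
  classical
  have h : ∀ x : Ω, ∃ y, (x ∈ S → y = x) ∧ ∀ a ∈ S, y ∈ S ∧ dist y a ≤ 2 * dist x a := by
    intro x
    by_cases hx : x ∈ S
    · refine ⟨x, fun _ => rfl, fun a _ => ⟨hx, ?_⟩⟩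
      have := dist_nonneg (x := x) (y := a)
      linarith
    · rcases S.eq_empty_or_nonempty with he | hne
      · refine ⟨x, fun h => absurd h hx, fun a ha => ?_⟩
        rw [he] at ha; exact ha.elim
      · obtain ⟨y, hy, hd⟩ := hS.exists_infDist_eq_dist hne x
        refine ⟨y, fun h => absurd h hx, fun a ha => ⟨hy, ?_⟩⟩
        have h1 : Metric.infDist x S ≤ dist x a := Metric.infDist_le_dist_of_mem ha
        have h2 := dist_triangle_left y a x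
        linarith
  choose π h1 h2 using h
  exact ⟨π, h1, fun a ha x => h2 x a ha⟩


theorem hi_Bc_of_nz (h : NZ S (q + 1) c) : c ∈ Bc T S S' q :=
  mem_Bc.2 ⟨0, NZ.zero, by rw [dT_zero, sub_zero]; exact h⟩

theorem hi_nz_of_cons {c : List Ω → V} (h : ∀ x l, c (x :: l) = 0) : NZ S (q + 1) c := fun a _ =>
  ⟨1, one_pos, fun l hl _ => by
    cases l with
    | nil => simp at hl
    | cons x l => exact h x l⟩

/-- the chain of maps of a homotopy -/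
noncomputable def hi_Fc (K : ℝ → Ω → Ω) (N : ℕ) (π : Ω → Ω) : ℕ → Ω → Ω
  | 0 => fun x => x
  | i + 1 => fun x => K ((i : ℝ) / N) (π x)

theorem hi_exists_chain (hS : IsCompact S) {K : ℝ → Ω → Ω}
    (hK : ContinuousOn (fun p : ℝ × Ω => K p.1 p.2) (Icc 0 1 ×ˢ S))
    (h0 : ∀ x ∈ S, K 0 x = x) {ε : ℝ} (hε : 0 < ε) : ∃ N : ℕ, 0 < N ∧
    (∀ s ∈ Icc (0:ℝ) 1, ∀ s' ∈ Icc (0:ℝ) 1, |s - s'| ≤ 2 / N → ∀ x ∈ S, dist (K s x) (K s' x) < ε) ∧
    ∀ π : Ω → Ω, (∀ x ∈ S, π x = x) → (∀ a ∈ S, ∀ x, π x ∈ S ∧ dist (π x) a ≤ 2 * dist x a) →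
      ∀ i < N + 1, ∀ a ∈ S, ∃ δ > 0, ∀ x, dist x a < δ →
        dist (hi_Fc K N π i x) (hi_Fc K N π i a) < ε ∧ dist (hi_Fc K N π (i + 1) x) (hi_Fc K N π i a) < ε := by
  have hcomp : IsCompact (Icc (0:ℝ) 1 ×ˢ S) := isCompact_Icc.prod hS
  obtain ⟨η, hη, hu⟩ := Metric.uniformContinuousOn_iff.1 (hcomp.uniformContinuousOn_of_continuous hK) ε hε
  obtain ⟨N, hN⟩ := exists_nat_gt (2 / η)
  have hN0 : (0 : ℝ) < N := lt_trans (by positivity) hN
  have hNη : 2 / (N : ℝ) < η := by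
    rw [div_lt_iff₀ hN0]
    rw [div_lt_iff₀ hη] at hN
    linarith
  refine ⟨N, by exact_mod_cast hN0, ?_, ?_⟩
  · intro s hs s' hs' hss x hx
    refine hu (s, x) ⟨hs, hx⟩ (s', x) ⟨hs', hx⟩ ?_
    rw [Prod.dist_eq, dist_self, max_eq_left dist_nonneg, Real.dist_eq]
    exact hss.trans_lt hNη
  · intro π hπ hπ' i hi a ha
    cases i with
    | zero =>
      refine ⟨ε / 2, by positivity, fun x hx => ?_⟩
      simp only [hi_Fc]
      have h1 := hπ' a ha x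
      rw [Nat.cast_zero, zero_div, h0 _ h1.1]
      exact ⟨by linarith, by linarith [h1.2]⟩
    | succ i =>
      refine ⟨η / 2, by positivity, fun x hx => ?_⟩
      simp only [hi_Fc]
      have h1 := hπ' a ha x
      rw [hπ a ha]
      have hi0 : (0 : ℝ) ≤ (i : ℝ) / N := by positivity
      have hi1 : ((i + 1 : ℕ) : ℝ) / N ≤ 1 := by
        rw [div_le_one hN0]
        exact_mod_cast (by omega : i + 1 ≤ N)
      have hi2 : (i : ℝ) / N ≤ ((i + 1 : ℕ) : ℝ) / N := by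
        push_cast; gcongr; linarith
      have hd : ((i + 1 : ℕ) : ℝ) / N - (i : ℝ) / N = 1 / N := by
        push_cast; field_simp; ring
      have h2N : 1 / (N : ℝ) ≤ 2 / N := by gcongr; norm_num
      constructor
      · refine hu (_, _) ⟨⟨hi0, hi2.trans hi1⟩, h1.1⟩ (_, _) ⟨⟨hi0, hi2.trans hi1⟩, ha⟩ ?_
        rw [Prod.dist_eq, dist_self, max_eq_right dist_nonneg]
        exact h1.2.trans_lt (by linarith)
      · refine hu (_, _) ⟨⟨hi0.trans hi2, hi1⟩, h1.1⟩ (_, _) ⟨⟨hi0, hi2.trans hi1⟩, ha⟩ ?_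
        rw [Prod.dist_eq, max_lt_iff]
        refine ⟨?_, h1.2.trans_lt (by linarith)⟩
        change dist (((i + 1 : ℕ) : ℝ) / N) ((i : ℝ) / N) < η
        rw [Real.dist_eq, hd, abs_of_pos (by positivity)]
        linarith

theorem hi_Fc_mem {K : ℝ → Ω → Ω} {N : ℕ} (hN : 0 < N) {π : Ω → Ω} {Q : Set Ω} (hQ : Q ⊆ S) (hπ : ∀ x ∈ S, π x = x)
    (mQ : ∀ s ∈ Icc (0:ℝ) 1, MapsTo (K s) Q Q) : ∀ i ≤ N + 1, ∀ a ∈ Q, hi_Fc K N π i a ∈ Q := by
  intro i hi a ha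
  cases i with
  | zero => exact ha
  | succ i =>
    simp only [hi_Fc]
    rw [hπ a (hQ ha)]
    have hN0 : (0 : ℝ) < N := by exact_mod_cast hN
    refine mQ _ ⟨by positivity, ?_⟩ ha
    rw [div_le_one hN0]
    exact_mod_cast (by omega : i ≤ N)

/-- the end map of a homotopy -/
theorem hi_Fc_last {K : ℝ → Ω → Ω} {N : ℕ} (hN : 0 < N) {π : Ω → Ω} : hi_Fc K N π (N + 1) = fun x => K 1 (π x) := by
  funext x
  simp only [hi_Fc]
  rw [div_self (by exact_mod_cast hN.ne')]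

theorem hi_end_continuousAt {K : ℝ → Ω → Ω} (hK : ContinuousOn (fun p : ℝ × Ω => K p.1 p.2) (Icc 0 1 ×ˢ S))
    {π : Ω → Ω} (hπ : ∀ x ∈ S, π x = x) (hπ' : ∀ a ∈ S, ∀ x, π x ∈ S ∧ dist (π x) a ≤ 2 * dist x a) {a : Ω}
    (ha : a ∈ S) : ContinuousAt (fun x => K 1 (π x)) a := by
  rw [Metric.continuousAt_iff]
  intro ε hε
  obtain ⟨η, hη, h⟩ := Metric.continuousOn_iff.1 hK (1, a) ⟨⟨zero_le_one, le_rfl⟩, ha⟩ ε hε
  refine ⟨η / 2, by positivity, fun x hx => ?_⟩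
  have h1 := hπ' a ha x
  have h2 := h (1, π x) ⟨⟨zero_le_one, le_rfl⟩, h1.1⟩ (by
    rw [Prod.dist_eq, dist_self, max_eq_right dist_nonneg]
    exact h1.2.trans_lt (by linarith))
  rw [hπ a ha]
  exact h2

/-- homotopy invariance, basic form -/
theorem hi_push_core (hS : IsCompact S) (cR : IsCompact R) (cR1 : IsCompact R₁) (h2 : R ⊆ S) (h4 : R₁ ⊆ R)
    (hT : Flat T S) {K : ℝ → Ω → Ω}
    (hK : ContinuousOn (fun p : ℝ × Ω => K p.1 p.2) (Icc 0 1 ×ˢ S))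
    (h0 : ∀ x ∈ S, K 0 x = x) (mS : ∀ s ∈ Icc (0:ℝ) 1, MapsTo (K s) S S)
    (mR : ∀ s ∈ Icc (0:ℝ) 1, MapsTo (K s) R R) (mR1 : ∀ s ∈ Icc (0:ℝ) 1, MapsTo (K s) R₁ R₁)
    {π : Ω → Ω} (hπ : ∀ x ∈ S, π x = x) (hπ' : ∀ a ∈ S, ∀ x, π x ∈ S ∧ dist (π x) a ≤ 2 * dist x a)
    (hc : c ∈ Zc T R R₁ q) :
    ∃ u : Ω → (V →ₗ[k] V), hi_Comm T (pT (fun x => K 1 (π x)) T) u S ∧
      c - gm u (pb (fun x => K 1 (π x)) c) ∈ Bc T R R₁ q := by
  obtain ⟨hz, hd⟩ := mem_Zc.1 hc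
  obtain ⟨ε₁, hε₁, u1⟩ := hz.uniform cR1
  obtain ⟨ε₂, hε₂, u2⟩ := hd.uniform cR
  obtain ⟨ε₃, hε₃, u3⟩ := hT.uniform hS
  obtain ⟨ε, hε, e1, e2, e3⟩ : ∃ ε > 0, ε ≤ ε₁ ∧ ε ≤ ε₂ ∧ ε ≤ ε₃ :=
    ⟨min ε₁ (min ε₂ ε₃), by positivity, min_le_left _ _, (min_le_right _ _).trans (min_le_left _ _),
      (min_le_right _ _).trans (min_le_right _ _)⟩
  obtain ⟨N, hN, -, hcl⟩ := hi_exists_chain hS hK h0 hε
  have hcl' := hcl π hπ hπ'
  have hT' : ∀ a ∈ S, ∀ x y z, dist x a < ε → dist y a < ε → dist z a < ε →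
      T x y ∘ₗ T y z = T x z ∧ T x x = LinearMap.id := fun a ha x y z hx hy hz =>
    u3 a ha x y z (hx.trans_le e3) (hy.trans_le e3) (hz.trans_le e3)
  have ca := hi_chain_a (T := T) hT' (F := hi_Fc K N π) (M := N + 1) (fun _ => rfl) (hi_Fc_mem hN (le_refl S) hπ mS) hcl'
    (N + 1) le_rfl
  have cb := hi_chain_b (T := T) (R := R) (R₁ := R₁) (c := c) (q := q) hT' (F := hi_Fc K N π) (M := N + 1) (fun _ => rfl)
    (hi_Fc_mem hN (le_refl S) hπ mS) hcl' h2 h4 (hi_Fc_mem hN h2 hπ mR) (hi_Fc_mem hN (h4.trans h2) hπ mR1)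
    (fun l hl a ha hx => u2 l hl a ha fun x hx' => (hx x hx').trans_le e2)
    (fun l hl a ha hx => u1 l hl a ha fun x hx' => (hx x hx').trans_le e1) (N + 1) le_rfl
  rw [hi_Fc_last hN] at ca cb
  exact ⟨_, ca, cb⟩

theorem hi_mk_eq_of_sub {c c' : List Ω → V} (hc : c ∈ Zc T S S' q) (hc' : c' ∈ Zc T S S' q) (h : c' - c ∈ Bc T S S' q) :
    H.mk T S S' q ⟨c, hc⟩ = H.mk T S S' q ⟨c', hc'⟩ := by
  rw [eq_comm, ← sub_eq_zero, ← map_sub, H.mk_eq_zero]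
  exact h

/-- (HI) push: let `K` be a homotopy of the compact pair `(S, S₁)` to itself starting at the
identity and preserving the subpair `(R, R₁)`, such that `K 1` maps `(S, S₁)` into `(R, R₁)`.
Then restriction `H(S, S₁) → H(R, R₁)` is bijective. -/
theorem push_bij [ProperSpace Ω] (hS : IsCompact S) (c1 : IsClosed S₁) (cR : IsClosed R) (cR1 : IsClosed R₁)
    (h1 : S₁ ⊆ S) (h2 : R ⊆ S) (h3 : R₁ ⊆ S₁) (h4 : R₁ ⊆ R) (hT : Flat T S) (K : ℝ → Ω → Ω)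
    (hK : ContinuousOn (fun p : ℝ × Ω => K p.1 p.2) (Icc 0 1 ×ˢ S))
    (h0 : ∀ x ∈ S, K 0 x = x) (mS : ∀ s ∈ Icc (0:ℝ) 1, MapsTo (K s) S S)
    (mS1 : ∀ s ∈ Icc (0:ℝ) 1, MapsTo (K s) S₁ S₁) (mR : ∀ s ∈ Icc (0:ℝ) 1, MapsTo (K s) R R)
    (mR1 : ∀ s ∈ Icc (0:ℝ) 1, MapsTo (K s) R₁ R₁) (e : MapsTo (K 1) S R) (e1 : MapsTo (K 1) S₁ R₁)
    (q : ℕ) : Function.Bijective (Hres T h2 h3 q : H T S S₁ q →ₗ[k] H T R R₁ q) := by
  obtain ⟨π, hπ, hπ'⟩ := hi_exists_near hS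
  have hcont : ∀ a ∈ S, ContinuousAt (fun x => K 1 (π x)) a := fun a ha => hi_end_continuousAt hK hπ hπ' ha
  have hm : MapsTo (fun x => K 1 (π x)) S R := fun a ha => by
    change K 1 (π a) ∈ R
    rw [hπ a ha]; exact e ha
  have hm1 : MapsTo (fun x => K 1 (π x)) S₁ R₁ := fun a ha => by
    change K 1 (π a) ∈ R₁
    rw [hπ a (h1 ha)]; exact e1 ha
  constructor
  · rw [← LinearMap.ker_eq_bot, LinearMap.ker_eq_bot']
    intro x hx
    obtain ⟨⟨c, hc⟩, rfl⟩ := H.mk_surjective q x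
    rw [hi_Hres_mk, H.mk_eq_zero] at hx
    rw [H.mk_eq_zero]
    obtain ⟨u, hu, hb⟩ := hi_push_core hS hS (hS.of_isClosed_subset c1 h1) (le_refl S) h1 hT hK h0 mS mS mS1 hπ hπ' hc
    have h5 : pb (fun x => K 1 (π x)) c ∈ Bc (pT (fun x => K 1 (π x)) T) S S₁ q :=
      pb_mem_Bc hcont (fun a ha => hcont a (h1 ha)) hm hm1 hx
    have h6 := (Bc T S S₁ q).add_mem hb (hi_gm_mem_Bc hu h5)
    rwa [sub_add_cancel] at h6
  · intro y
    obtain ⟨⟨c, hc⟩, rfl⟩ := H.mk_surjective q y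
    obtain ⟨u, hu, hb⟩ := hi_push_core hS (hS.of_isClosed_subset cR h2) (hS.of_isClosed_subset cR1 (h4.trans h2)) h2 h4 hT hK h0 mS mR mR1
      hπ hπ' hc
    have h5 : pb (fun x => K 1 (π x)) c ∈ Zc (pT (fun x => K 1 (π x)) T) S S₁ q :=
      pb_mem_Zc hcont (fun a ha => hcont a (h1 ha)) hm hm1 hc
    have h6 := hi_gm_mem_Zc hu h5
    refine ⟨H.mk T S S₁ q ⟨_, h6⟩, ?_⟩
    rw [hi_Hres_mk]
    exact hi_mk_eq_of_sub _ hc hb

/-- special case: `S` can be pushed into `S₁` within the pair -/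
theorem push_HV [ProperSpace Ω] (hS : IsCompact S) (c1 : IsClosed S₁) (h1 : S₁ ⊆ S) (hT : Flat T S) (K : ℝ → Ω → Ω)
    (hK : ContinuousOn (fun p : ℝ × Ω => K p.1 p.2) (Icc 0 1 ×ˢ S))
    (h0 : ∀ x ∈ S, K 0 x = x) (mS : ∀ s ∈ Icc (0:ℝ) 1, MapsTo (K s) S S)
    (mS1 : ∀ s ∈ Icc (0:ℝ) 1, MapsTo (K s) S₁ S₁) (e : MapsTo (K 1) S S₁) (q : ℕ) :
    HV T S S₁ q := by
  intro c hc
  have hb := push_bij (T := T) hS c1 c1 c1 h1 h1 (le_refl S₁) (le_refl S₁) hT K hK h0 mS mS1 mS1 mS1 e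
    (fun a ha => e (h1 ha)) q
  have h2 : Hres T h1 (le_refl S₁) q (H.mk T S S₁ q ⟨c, hc⟩) = 0 := by
    rw [hi_Hres_mk, H.mk_eq_zero]
    exact hi_Bc_of_nz (mem_Zc.1 hc).1
  have h3 := hb.1 (h2.trans (map_zero _).symm)
  rwa [H.mk_eq_zero] at h3

/-! ### the circle lemma -/

section circle

variable {G : Type*} [Group G]

/-- product of transports along a subdivided path -/
noncomputable def hi_Pp (Tg : Ω → Ω → G) (γ : ℝ → Ω) (N : ℕ) : ℕ → G
  | 0 => 1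
  | i + 1 => hi_Pp Tg γ N i * Tg (γ ((i : ℝ) / N)) (γ (((i + 1 : ℕ) : ℝ) / N))

theorem hi_hasTr_poly {Tg : Ω → Ω → G} {γ : ℝ → Ω} {N : ℕ} (hN : 0 < N) {ε : ℝ} (hε : 0 < ε)
    (hT : ∀ s ∈ Icc (0:ℝ) 1, ∀ x y z, dist x (γ s) < ε → dist y (γ s) < ε → dist z (γ s) < ε →
      Tg x y * Tg y z = Tg x z)
    (hmesh : ∀ s ∈ Icc (0:ℝ) 1, ∀ s' ∈ Icc (0:ℝ) 1, |s - s'| ≤ 2 / N → dist (γ s) (γ s') < ε) :
    HasTr Tg γ (hi_Pp Tg γ N N) := by
  have hN0 : (0 : ℝ) < N := by exact_mod_cast hN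
  have hone : ∀ s ∈ Icc (0:ℝ) 1, Tg (γ s) (γ s) = 1 := by
    intro s hs
    have h1 := hT s hs (γ s) (γ s) (γ s) (by rwa [dist_self]) (by rwa [dist_self]) (by rwa [dist_self])
    exact mul_eq_left.1 h1
  set F : ℝ → G := fun t => hi_Pp Tg γ N ⌊t * N⌋₊ * Tg (γ ((⌊t * N⌋₊ : ℝ) / N)) (γ t) with hF
  have hfl : ∀ t ∈ Icc (0:ℝ) 1, ((⌊t * N⌋₊ : ℝ)) ≤ t * N ∧ t * N < ⌊t * N⌋₊ + 1 := fun t ht =>
    ⟨Nat.floor_le (by have := ht.1; positivity), Nat.lt_floor_add_one _⟩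
  have key : ∀ t ∈ Icc (0:ℝ) 1, ∀ j : ℕ, (⌊t * N⌋₊ = j ∨ ⌊t * N⌋₊ = j + 1) →
      F t = hi_Pp Tg γ N j * Tg (γ ((j : ℝ) / N)) (γ t) := by
    intro t ht j hj
    rcases hj with hj | hj
    · rw [hF]; simp only [hj]
    · obtain ⟨f1, f2⟩ := hfl t ht
      rw [hj] at f1 f2
      rw [hF]; simp only [hj]
      rw [hi_Pp, mul_assoc]
      congr 1
      push_cast at f1 f2
      have i1 : ((j + 1 : ℕ) : ℝ) / N ≤ t := by
        rw [div_le_iff₀ hN0]; push_cast; exact f1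
      have i2 : t < ((j : ℝ) + 2) / N := by
        rw [lt_div_iff₀ hN0]; linarith
      have i3 : (0 : ℝ) ≤ (j : ℝ) / N := by positivity
      have i4 : ((j + 1 : ℕ) : ℝ) / N = (j : ℝ) / N + 1 / N := by push_cast; ring
      have i5 : ((j : ℝ) + 2) / N = (j : ℝ) / N + 2 / N := by ring
      have i6 : (0 : ℝ) < 1 / N := by positivity
      have i7 : (2 : ℝ) / N = 2 * (1 / N) := by ring
      have m0 : (j : ℝ) / N ∈ Icc (0:ℝ) 1 := ⟨i3, by linarith [ht.2]⟩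
      have m1 : ((j + 1 : ℕ) : ℝ) / N ∈ Icc (0:ℝ) 1 := ⟨by linarith, i1.trans ht.2⟩
      refine hT _ m0 _ _ _ (by rwa [dist_self]) (hmesh _ m1 _ m0 ?_) (hmesh _ ht _ m0 ?_)
      · rw [i4, add_sub_cancel_left, abs_of_pos i6]; linarith
      · rw [abs_le]; constructor <;> linarith
  refine ⟨F, ?_, ?_, ?_⟩
  · have h0 : (0 : ℝ) ∈ Icc (0:ℝ) 1 := ⟨le_rfl, zero_le_one⟩
    rw [key 0 h0 0 (Or.inl (by simp))]
    rw [hi_Pp, one_mul, Nat.cast_zero, zero_div, hone 0 h0]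
  · have h1 : (1 : ℝ) ∈ Icc (0:ℝ) 1 := ⟨zero_le_one, le_rfl⟩
    rw [key 1 h1 N (Or.inl (by simp)), div_self hN0.ne', hone 1 h1, mul_one]
  · intro s hs
    refine ⟨1 / (2 * N), by positivity, fun t ht t' ht' hst hst' => ?_⟩
    obtain ⟨f1, f2⟩ := hfl t ht
    obtain ⟨f1', f2'⟩ := hfl t' ht'
    have htt : |t - t'| < 1 / N := by
      have h1 : |t - t'| ≤ |t - s| + |t' - s| := by
        rw [abs_sub_comm t' s]; exact abs_sub_le t s t'
      have h2 : 1 / (2 * (N : ℝ)) + 1 / (2 * N) = 1 / N := by field_simp; ring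
      linarith
    rw [abs_lt] at htt
    have ht1 : t * N < t' * N + 1 := by
      have : t < t' + 1 / N := by linarith
      calc t * N < (t' + 1 / N) * N := by gcongr
        _ = t' * N + 1 := by field_simp
    have ht2 : t' * N < t * N + 1 := by
      have : t' < t + 1 / N := by linarith
      calc t' * N < (t + 1 / N) * N := by gcongr
        _ = t * N + 1 := by field_simp
    have g1 : ⌊t * N⌋₊ < ⌊t' * N⌋₊ + 2 := by
      have : (⌊t * N⌋₊ : ℝ) < ⌊t' * N⌋₊ + 2 := by linarith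
      exact_mod_cast this
    have g2 : ⌊t' * N⌋₊ < ⌊t * N⌋₊ + 2 := by
      have : (⌊t' * N⌋₊ : ℝ) < ⌊t * N⌋₊ + 2 := by linarith
      exact_mod_cast this
    obtain ⟨j, hj, hj'⟩ : ∃ j, (⌊t * N⌋₊ = j ∨ ⌊t * N⌋₊ = j + 1) ∧ (⌊t' * N⌋₊ = j ∨ ⌊t' * N⌋₊ = j + 1) :=
      ⟨min ⌊t * N⌋₊ ⌊t' * N⌋₊, by omega, by omega⟩
    rw [key t ht j hj, key t' ht' j hj']
    have hjt : (j : ℝ) ≤ t * N ∧ t * N < j + 2 := by
      rcases hj with h | h <;> rw [h] at f1 f2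
      · exact ⟨f1, by linarith⟩
      · push_cast at f1 f2; exact ⟨by linarith, by linarith⟩
    have hjt' : (j : ℝ) ≤ t' * N ∧ t' * N < j + 2 := by
      rcases hj' with h | h <;> rw [h] at f1' f2'
      · exact ⟨f1', by linarith⟩
      · push_cast at f1' f2'; exact ⟨by linarith, by linarith⟩
    have i1 : (j : ℝ) / N ≤ t := by rw [div_le_iff₀ hN0]; exact hjt.1
    have i1' : (j : ℝ) / N ≤ t' := by rw [div_le_iff₀ hN0]; exact hjt'.1
    have i2 : t < (j : ℝ) / N + 2 / N := by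
      have : t < ((j : ℝ) + 2) / N := by rw [lt_div_iff₀ hN0]; exact hjt.2
      calc t < ((j : ℝ) + 2) / N := this
        _ = _ := by ring
    have i2' : t' < (j : ℝ) / N + 2 / N := by
      have : t' < ((j : ℝ) + 2) / N := by rw [lt_div_iff₀ hN0]; exact hjt'.2
      calc t' < ((j : ℝ) + 2) / N := this
        _ = _ := by ring
    have m0 : (j : ℝ) / N ∈ Icc (0:ℝ) 1 := ⟨by positivity, i1.trans ht.2⟩
    have h3 := hT _ m0 (γ ((j : ℝ) / N)) (γ t) (γ t') (by rwa [dist_self])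
      (hmesh _ ht _ m0 (by rw [abs_le]; constructor <;> [skip; skip] <;> [linarith [i1, show (0:ℝ) < 2 / N by positivity]; linarith]))
      (hmesh _ ht' _ m0 (by rw [abs_le]; constructor <;> [skip; skip] <;> [linarith [i1', show (0:ℝ) < 2 / N by positivity]; linarith]))
    rw [← h3]
    group

/-- group version of `hi_Ug` -/
def hi_gU (Tg : Ω → Ω → G) (F : ℕ → Ω → Ω) (x : Ω) : ℕ → G
  | 0 => 1
  | i + 1 => hi_gU Tg F x i * Tg (F i x) (F (i + 1) x)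

theorem hi_Ug_sys (Tg : Ω → Ω → G) (ρ : G →* (V →ₗ[k] V)) (F : ℕ → Ω → Ω) (x : Ω) (i : ℕ) :
    hi_Ug (sys Tg ρ) F x i = ρ (hi_gU Tg F x i) := by
  induction i with
  | zero => simp only [hi_Ug, hi_gU, map_one]; rfl
  | succ i ih => simp only [hi_Ug, hi_gU, map_mul, ih]; rfl

/-- (CL) circle lemma: if loops move every point around in the pair `(S, S₁)` and the transport
`g` around each of them has `1 - ρ g` invertible, all cohomology vanishes. -/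
theorem circle_lemma [ProperSpace Ω] {G : Type*} [Group G] (hS : IsCompact S) (c1 : IsClosed S₁) (h1 : S₁ ⊆ S)
    {Tg : Ω → Ω → G} (hT : GFlat Tg S) (ρ : G →* (V →ₗ[k] V)) (K : ℝ → Ω → Ω)
    (hK : ContinuousOn (fun p : ℝ × Ω => K p.1 p.2) (Icc 0 1 ×ˢ S))
    (h0 : ∀ x ∈ S, K 0 x = x) (hl : ∀ x ∈ S, K 1 x = x)
    (mS : ∀ s ∈ Icc (0:ℝ) 1, MapsTo (K s) S S) (mS1 : ∀ s ∈ Icc (0:ℝ) 1, MapsTo (K s) S₁ S₁)
    (hΦ : ∀ x ∈ S, ∀ g, HasTr Tg (fun s => K s x) g → IsUnit (1 - ρ g)) (q : ℕ) :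
    HV (sys Tg ρ) S S₁ q := by
  intro c hc
  obtain ⟨hz, hd⟩ := mem_Zc.1 hc
  obtain ⟨π, hπ, hπ'⟩ := hi_exists_near hS
  obtain ⟨ε₁, hε₁, u1⟩ := hz.uniform (hS.of_isClosed_subset c1 h1)
  obtain ⟨ε₂, hε₂, u2⟩ := hd.uniform hS
  obtain ⟨ε₃, hε₃, u3⟩ := hi_unif hS (Q := fun U => ∀ x y z, x ∈ U → y ∈ U → z ∈ U → Tg x y * Tg y z = Tg x z)
    (fun U V hUV hV x y z hx hy hz => hV x y z (hUV hx) (hUV hy) (hUV hz)) hT
  obtain ⟨ε, hε, e1, e2, e3⟩ : ∃ ε > 0, ε ≤ ε₁ ∧ ε ≤ ε₂ ∧ ε ≤ ε₃ :=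
    ⟨min ε₁ (min ε₂ ε₃), by positivity, min_le_left _ _, (min_le_right _ _).trans (min_le_left _ _),
      (min_le_right _ _).trans (min_le_right _ _)⟩
  have hTg : ∀ a ∈ S, ∀ x y z, dist x a < ε → dist y a < ε → dist z a < ε → Tg x y * Tg y z = Tg x z :=
    fun a ha x y z hx hy hz => u3 a ha x y z (hx.trans_le e3) (hy.trans_le e3) (hz.trans_le e3)
  have hone : ∀ a ∈ S, Tg a a = 1 := by
    intro a ha
    have h1 := hTg a ha a a a (by rwa [dist_self]) (by rwa [dist_self]) (by rwa [dist_self])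
    exact mul_eq_left.1 h1
  have hT' : ∀ a ∈ S, ∀ x y z, dist x a < ε → dist y a < ε → dist z a < ε →
      sys Tg ρ x y ∘ₗ sys Tg ρ y z = sys Tg ρ x z ∧ sys Tg ρ x x = LinearMap.id := by
    intro a ha x y z hx hy hz
    constructor
    · change ρ (Tg x y) * ρ (Tg y z) = ρ (Tg x z)
      rw [← map_mul, hTg a ha x y z hx hy hz]
    · change ρ (Tg x x) = 1
      rw [mul_eq_left.1 (hTg a ha x x x hx hx hx), map_one]
  obtain ⟨N, hN, hmesh, hcl⟩ := hi_exists_chain hS hK h0 hε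
  have hN0 : (0 : ℝ) < N := by exact_mod_cast hN
  have hcl' := hcl π hπ hπ'
  set F : ℕ → Ω → Ω := fun i => if i ≤ N + 1 then hi_Fc K N π i else fun x => x with hF
  have F1 : ∀ i ≤ N + 1, F i = hi_Fc K N π i := fun i hi => by rw [hF]; simp only [hi, if_true]
  have F2 : F (N + 2) = fun x => x := by
    rw [hF]; simp only [show ¬ (N + 2 ≤ N + 1) by omega, if_false]
  have hFm : ∀ Q ⊆ S, (∀ s ∈ Icc (0:ℝ) 1, MapsTo (K s) Q Q) → ∀ i ≤ N + 2, ∀ a ∈ Q, F i a ∈ Q := by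
    intro Q hQ mQ i hi a ha
    by_cases h : i ≤ N + 1
    · rw [F1 i h]; exact hi_Fc_mem hN hQ hπ mQ i h a ha
    · rw [show i = N + 2 by omega, F2]; exact ha
  have hFcl : ∀ i < N + 2, ∀ a ∈ S, ∃ δ > 0, ∀ x, dist x a < δ →
      dist (F i x) (F i a) < ε ∧ dist (F (i + 1) x) (F i a) < ε := by
    intro i hi a ha
    by_cases h : i < N + 1
    · rw [F1 i h.le, F1 (i + 1) h]; exact hcl' i h a ha
    · have h2 : i = N + 1 := by omega
      subst h2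
      rw [F2, F1 (N + 1) le_rfl, hi_Fc_last hN]
      obtain ⟨δ, hδ, h3⟩ := Metric.continuousAt_iff.1 (hi_end_continuousAt hK hπ hπ' ha) ε hε
      refine ⟨min δ ε, lt_min hδ hε, fun x hx => ⟨h3 (hx.trans_le (min_le_left _ _)), ?_⟩⟩
      change dist x (K 1 (π a)) < ε
      rw [hπ a ha, hl a ha]
      exact hx.trans_le (min_le_right _ _)
  have ca := hi_chain_a (T := sys Tg ρ) hT' (F := F) (M := N + 2) (fun x => by rw [F1 0 (by omega)]; rfl)
    (hFm S (le_refl S) mS) hFcl (N + 2) le_rfl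
  have cb := hi_chain_b (T := sys Tg ρ) (R := S) (R₁ := S₁) (c := c) (q := q) hT' (F := F) (M := N + 2)
    (fun x => by rw [F1 0 (by omega)]; rfl) (hFm S (le_refl S) mS) hFcl (le_refl S) h1 (hFm S (le_refl S) mS)
    (hFm S₁ h1 mS1) (fun l hl a ha hx => u2 l hl a ha fun x hx' => (hx x hx').trans_le e2)
    (fun l hl a ha hx => u1 l hl a ha fun x hx' => (hx x hx').trans_le e1) (N + 2) le_rfl
  have hpbid : pb (F (N + 2)) c = c := by
    rw [F2]; funext l; simp [pb]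
  have hpTid : pT (F (N + 2)) (sys Tg ρ) = sys Tg ρ := by
    rw [F2]; rfl
  rw [hpTid] at ca
  rw [hpbid] at cb
  simp only [hi_Ug_sys] at ca cb
  set g : Ω → G := fun x => hi_gU Tg F x (N + 2) with hg
  -- the transport at the points of `S`
  have htr : ∀ a ∈ S, HasTr Tg (fun s => K s a) (g a) := by
    intro a ha
    have h2 := hi_hasTr_poly (Tg := Tg) (γ := fun s => K s a) hN hε
      (fun s hs x y z hx hy hz => hTg _ (mS s hs ha) x y z hx hy hz)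
      (fun s hs s' hs' hss => hmesh s hs s' hs' hss a ha)
    have h3 : ∀ i ≤ N, hi_gU Tg F a (i + 1) = hi_Pp Tg (fun s => K s a) N i := by
      intro i
      induction i with
      | zero =>
        intro _
        simp only [hi_gU, hi_Pp]
        rw [F1 0 (by omega), F1 (0 + 1) (by omega)]
        simp only [hi_Fc]
        rw [Nat.cast_zero, zero_div, hπ a ha, h0 a ha, hone a ha, one_mul]
      | succ i ih =>
        intro hi
        rw [hi_gU, ih (by omega), hi_Pp]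
        congr 1
        rw [F1 (i + 1) (by omega), F1 (i + 1 + 1) (by omega)]
        simp only [hi_Fc]
        rw [hπ a ha]
    have h4 : g a = hi_Pp Tg (fun s => K s a) N N := by
      rw [hg]
      simp only
      rw [hi_gU, h3 N le_rfl, F2, F1 (N + 1) le_rfl, hi_Fc_last hN]
      simp only
      rw [hπ a ha, hl a ha, hone a ha, mul_one]
    rw [h4]; exact h2
  -- `1 - u` is invertible near `S`
  set v : Ω → (V →ₗ[k] V) := fun x => 1 - ρ (g x) with hv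
  have hvc : hi_Comm (sys Tg ρ) (sys Tg ρ) v S := by
    intro a ha
    obtain ⟨δ, hδ, h2⟩ := ca a ha
    refine ⟨δ, hδ, fun x y hx hy => ?_⟩
    have h3 := h2 x y hx hy
    change sys Tg ρ x y * (1 - ρ (g y)) = (1 - ρ (g x)) * sys Tg ρ x y
    have h4 : sys Tg ρ x y * ρ (g y) = ρ (g x) * sys Tg ρ x y := h3
    rw [mul_sub, sub_mul, h4, mul_one, one_mul]
  have hvu : ∀ a ∈ S, ∃ δ > 0, ∀ x, dist x a < δ → IsUnit (v x) := by
    intro a ha
    obtain ⟨δ, hδ, h2⟩ := hvc a ha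
    refine ⟨δ, hδ, fun x hx => ?_⟩
    have h3 : ρ (Tg a x) * v x = v a * ρ (Tg a x) := h2 a x (by rwa [dist_self]) hx
    have h4 : v x = ρ (Tg a x)⁻¹ * (v a * ρ (Tg a x)) := by
      rw [← h3, ← mul_assoc, ← map_mul, inv_mul_cancel, map_one, one_mul]
    have hun : ∀ g : G, IsUnit (ρ g) := fun g => (Group.isUnit g).map ρ
    rw [h4]
    exact (hun _).mul ((hΦ a ha (g a) (htr a ha)).mul (hun _))
  set w : Ω → (V →ₗ[k] V) := fun x => Ring.inverse (v x) with hw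
  have hwc : hi_Comm (sys Tg ρ) (sys Tg ρ) w S := by
    intro a ha
    obtain ⟨δ₁, hδ₁, h2⟩ := hvc a ha
    obtain ⟨δ₂, hδ₂, h3⟩ := hvu a ha
    refine ⟨min δ₁ δ₂, lt_min hδ₁ hδ₂, fun x y hx hy => ?_⟩
    have h4 : sys Tg ρ x y * v y = v x * sys Tg ρ x y := h2 x y (hx.trans_le (min_le_left _ _))
      (hy.trans_le (min_le_left _ _))
    have ux := h3 x (hx.trans_le (min_le_right _ _))
    have uy := h3 y (hy.trans_le (min_le_right _ _))
    change sys Tg ρ x y * Ring.inverse (v y) = Ring.inverse (v x) * sys Tg ρ x y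
    calc sys Tg ρ x y * Ring.inverse (v y)
        = Ring.inverse (v x) * (v x * sys Tg ρ x y) * Ring.inverse (v y) := by
          rw [← mul_assoc, Ring.inverse_mul_cancel _ ux, one_mul]
      _ = Ring.inverse (v x) * (sys Tg ρ x y * v y) * Ring.inverse (v y) := by rw [h4]
      _ = Ring.inverse (v x) * sys Tg ρ x y := by
          rw [mul_assoc, mul_assoc (sys Tg ρ x y), Ring.mul_inverse_cancel _ uy, mul_one]
  have h5 : gm v c ∈ Bc (sys Tg ρ) S S₁ q := by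
    have h6 : gm v c - (c - gm (fun x => ρ (g x)) c) ∈ Bc (sys Tg ρ) S S₁ q := by
      refine hi_Bc_of_nz (hi_nz_of_cons fun x l => ?_)
      rw [Pi.sub_apply, Pi.sub_apply, gm_cons, gm_cons, hv]
      simp
    have h7 := (Bc (sys Tg ρ) S S₁ q).add_mem h6 cb
    rwa [sub_add_cancel] at h7
  have h6 := hi_gm_mem_Bc hwc h5
  have h7 : c - gm w (gm v c) ∈ Bc (sys Tg ρ) S S₁ q := by
    refine hi_Bc_of_nz fun a ha => ?_
    obtain ⟨δ₂, hδ₂, h3⟩ := hvu a ha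
    refine ⟨δ₂, hδ₂, fun l hl hx => ?_⟩
    cases l with
    | nil => simp at hl
    | cons x l =>
      rw [Pi.sub_apply, gm_cons, gm_cons]
      have h8 : w x (v x (c (x :: l))) = c (x :: l) := by
        change (Ring.inverse (v x) * v x) (c (x :: l)) = _
        rw [Ring.inverse_mul_cancel _ (h3 x (hx x (by simp)))]
        rfl
      rw [h8, sub_self]
  have h8 := (Bc (sys Tg ρ) S S₁ q).add_mem h7 h6
  rwa [sub_add_cancel] at h8

end circle

/-! ### points and convex sets -/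

theorem hi_HV_point {p : Ω} (hT : Flat T {p}) (q : ℕ) : HV T {p} ∅ (q + 1) := by
  intro c hc
  obtain ⟨ε₁, hε₁, h1⟩ := (mem_Zc.1 hc).2 p rfl
  obtain ⟨ε₂, hε₂, h2⟩ := hT p rfl
  refine mem_Bc.2 ⟨gm (fun y => T y p) (fun l => c (p :: l)), NZ.empty, fun a ha => ?_⟩
  rw [mem_singleton_iff.1 ha]
  refine ⟨min ε₁ ε₂, lt_min hε₁ hε₂, fun l hl hx => ?_⟩
  cases l with
  | nil => simp at hl
  | cons x l =>
    cases l with
    | nil => simp at hl
    | cons y m =>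
      have hxp : dist x p < ε₂ := (hx x (by simp)).trans_le (min_le_right _ _)
      have hyp : dist y p < ε₂ := (hx y (by simp)).trans_le (min_le_right _ _)
      have hpp : dist p p < ε₂ := by rwa [dist_self]
      have e1 := h1 (p :: x :: y :: m) (by simp at hl ⊢; omega) (by
        intro z hz
        rcases List.mem_cons.1 hz with rfl | hz
        · rwa [dist_self]
        · exact (hx z hz).trans_le (min_le_left _ _))
      rw [dT_cons, tw_cons, d0_cons, sub_eq_zero] at e1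
      -- e1 : T p x (c (x :: y :: m)) = c (p :: y :: m) - d0 (fun l' => c (p :: x :: l')) (y :: m)
      have e2 : c (x :: y :: m) = T x p (T p x (c (x :: y :: m))) := by
        have h3 := LinearMap.congr_fun (h2 x p x hxp hpp hxp).1 (c (x :: y :: m))
        rw [LinearMap.comp_apply] at h3
        rw [h3, (h2 x x x hxp hxp hxp).2]; rfl
      rw [Pi.sub_apply, sub_eq_zero, dT_cons, tw_cons, gm_cons, e2, e1, map_sub]
      have e3 := LinearMap.congr_fun (h2 x y p hxp hyp hpp).1 (c (p :: y :: m))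
      rw [LinearMap.comp_apply] at e3
      rw [e3]
      congr 1
      exact (d0_map (T x p).toAddMonoidHom (fun l' => c (p :: x :: l')) (y :: m)).symm

/-- cohomology of a point / of a nonempty compact convex set (in a real normed space), for a system
which is flat near it -/
theorem hi_convex_bij {E : Type*} [NormedAddCommGroup E] [NormedSpace ℝ E] [ProperSpace E]
    {T : E → E → (V →ₗ[k] V)} {C : Set E} (hC : Convex ℝ C) (hc : IsCompact C) (hT : Flat T C) {p : E} (hp : p ∈ C)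
    (q : ℕ) : Function.Bijective (Hres T (singleton_subset_iff.2 hp) (le_refl ∅) q :
      H T C ∅ q →ₗ[k] H T {p} ∅ q) := by
  refine push_bij hc isClosed_empty isClosed_singleton isClosed_empty (empty_subset _) _ (le_refl ∅) (empty_subset _) hT
    (fun s x => (1 - s) • x + s • p) ?_ ?_ ?_ ?_ ?_ ?_ ?_ ?_ q
  · have : Continuous fun P : ℝ × E => (1 - P.1) • P.2 + P.1 • p := by fun_prop
    exact this.continuousOn
  · intro x _; simp
  · intro s hs x hx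
    exact hC hx hp (by linarith [hs.2]) hs.1 (by ring)
  · intro s _ x hx; exact hx.elim
  · intro s _ x hx
    rw [mem_singleton_iff] at hx
    change (1 - s) • x + s • p ∈ ({p} : Set E)
    rw [hx, ← add_smul]; simp
  · intro s _ x hx; exact hx.elim
  · intro x _
    change (1 - (1:ℝ)) • x + (1:ℝ) • p ∈ ({p} : Set E)
    simp
  · intro x hx; exact hx.elim

theorem HV_convex {E : Type*} [NormedAddCommGroup E] [NormedSpace ℝ E] [ProperSpace E]
    {T : E → E → (V →ₗ[k] V)} {C : Set E} (hC : Convex ℝ C) (hc : IsCompact C) (hT : Flat T C) (q : ℕ) :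
    HV T C ∅ (q + 1) := by
  rcases C.eq_empty_or_nonempty with he | ⟨p, hp⟩
  · intro c _
    rw [he]
    exact hi_Bc_of_nz NZ.empty
  · intro c hcz
    have h1 := hi_convex_bij hC hc hT hp (q + 1)
    have h2 : Hres T (singleton_subset_iff.2 hp) (le_refl ∅) (q + 1) (H.mk T C ∅ (q + 1) ⟨c, hcz⟩) = 0 := by
      rw [hi_Hres_mk, H.mk_eq_zero]
      exact hi_HV_point (hT.mono (singleton_subset_iff.2 hp)) q (Zc_mono (singleton_subset_iff.2 hp) (le_refl ∅) _ hcz)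
    have h3 := h1.1 (h2.trans (map_zero _).symm)
    rwa [H.mk_eq_zero] at h3

/-- degree zero: evaluation at a point of a convex set is an isomorphism -/
theorem H0_convex {E : Type*} [NormedAddCommGroup E] [NormedSpace ℝ E] [ProperSpace E]
    {T : E → E → (V →ₗ[k] V)} {C : Set E} (hC : Convex ℝ C) (hc : IsCompact C) (hT : Flat T C)
    {p : E} (hp : p ∈ C) :
    (∀ v : V, ∃ c ∈ Zc T C ∅ 0, c [p] = v) ∧ ∀ c ∈ Zc T C ∅ 0, c [p] = 0 → c ∈ Bc T C ∅ 0 := by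
  obtain ⟨ε, hε, h⟩ := hT p hp
  have hb := hi_convex_bij hC hc hT hp 0
  have hpp : dist p p < ε := by rwa [dist_self]
  constructor
  · intro v
    have h0 : gm (fun x => T x p) (fun _ => v) ∈ Zc T {p} ∅ 0 := by
      refine mem_Zc.2 ⟨NZ.empty, fun a ha => ?_⟩
      rw [mem_singleton_iff.1 ha]
      refine ⟨ε, hε, fun l hl hx => ?_⟩
      match l, hl with
      | [x, y], _ =>
        have hx' := hx x (by simp)
        have hy' := hx y (by simp)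
        rw [dT_two, gm_cons, gm_cons, sub_eq_zero]
        exact LinearMap.congr_fun (h x y p hx' hy' hpp).1 v
    obtain ⟨x, hx⟩ := hb.2 (H.mk T {p} ∅ 0 ⟨_, h0⟩)
    obtain ⟨⟨c, hcz⟩, rfl⟩ := H.mk_surjective 0 x
    refine ⟨c, hcz, ?_⟩
    rw [hi_Hres_mk, ← sub_eq_zero, ← map_sub, H.mk_eq_zero] at hx
    obtain ⟨b, -, hb'⟩ := mem_Bc.1 hx
    obtain ⟨δ, hδ, h2⟩ := hb' p rfl
    have h3 := h2 [p] (by simp) (by simpa using hδ)
    rw [Pi.sub_apply, dT_one, sub_zero] at h3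
    have h4 : c [p] - T p p v = 0 := h3
    rw [sub_eq_zero] at h4
    rw [h4, (h p p p hpp hpp hpp).2]; rfl
  · intro c hcz hcp
    have h2 : Hres T (singleton_subset_iff.2 hp) (le_refl ∅) 0 (H.mk T C ∅ 0 ⟨c, hcz⟩) = 0 := by
      rw [hi_Hres_mk, H.mk_eq_zero]
      refine hi_Bc_of_nz fun a ha => ?_
      rw [mem_singleton_iff.1 ha]
      obtain ⟨δ, hδ, h3⟩ := (mem_Zc.1 hcz).2 p hp
      refine ⟨δ, hδ, fun l hl hx => ?_⟩
      match l, hl with
      | [x], _ =>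
        have h4 := h3 [x, p] (by simp) (by
          intro z hz
          rcases List.mem_cons.1 hz with rfl | hz
          · exact hx z (by simp)
          · rw [List.mem_singleton.1 hz, dist_self]; exact hδ)
        rw [dT_two, hcp, map_zero, zero_sub, neg_eq_zero] at h4
        exact h4
    have h3 := hb.1 (h2.trans (map_zero _).symm)
    rwa [H.mk_eq_zero] at h3

/-! ### rounding -/

/-- (rounding) every relative cocycle of a compact pair is cohomologous, up to the canonical gauge,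
to its pullback along any map `F : Ω → S` close enough to the identity on a neighbourhood and
mapping a neighbourhood of `S₁` into `S₁`. Such an `F` with finite image exists. -/
theorem rounding [ProperSpace Ω] (hS : IsCompact S) (c1 : IsClosed S₁) (h1 : S₁ ⊆ S) (hT : Flat T S) (hc : c ∈ Zc T S S₁ q) :
    ∃ ε > 0, ∀ F : Ω → Ω, (∀ a ∈ S, ∃ δ > 0, ∀ x, dist x a < δ → dist (F x) x < ε ∧ F x ∈ S) →
      (∀ a ∈ S₁, ∃ δ > 0, ∀ x, dist x a < δ → F x ∈ S₁) →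
      c - gm (tg T F) (pb F c) ∈ Bc T S S₁ q ∧ Flat (pT F T) S := by
  obtain ⟨hz, hd⟩ := mem_Zc.1 hc
  obtain ⟨ε₁, hε₁, u1⟩ := hz.uniform (hS.of_isClosed_subset c1 h1)
  obtain ⟨ε₂, hε₂, u2⟩ := hd.uniform hS
  obtain ⟨ε₃, hε₃, u3⟩ := hT.uniform hS
  obtain ⟨ε, hε, e1, e2, e3⟩ : ∃ ε > 0, 2 * ε ≤ ε₁ ∧ 2 * ε ≤ ε₂ ∧ 2 * ε ≤ ε₃ :=
    ⟨min ε₁ (min ε₂ ε₃) / 2, by positivity, by linarith [min_le_left ε₁ (min ε₂ ε₃)],
      by linarith [(min_le_right ε₁ (min ε₂ ε₃)).trans (min_le_left _ _)],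
      by linarith [(min_le_right ε₁ (min ε₂ ε₃)).trans (min_le_right _ _)]⟩
  refine ⟨ε, hε, fun F hF _ => ?_⟩
  have hnear : ∀ a ∈ S, ∃ δ > 0, ∀ x, dist x a < δ → dist x a < 2 * ε ∧ dist (F x) a < 2 * ε := by
    intro a ha
    obtain ⟨δ, hδ, h⟩ := hF a ha
    refine ⟨min δ ε, lt_min hδ hε, fun x hx => ?_⟩
    have h1 := (h x (hx.trans_le (min_le_left _ _))).1
    have h2 : dist x a < ε := hx.trans_le (min_le_right _ _)
    exact ⟨by linarith, by linarith [dist_triangle (F x) x a]⟩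
  constructor
  · have h2 := hi_step (T := T) (R := S) (R₁ := S₁) (c := c) (q := q) (u := fun _ => LinearMap.id) (f := id) (g := F)
      (ε := 2 * ε) h1 (fun a _ => ⟨1, one_pos, fun x y _ _ => rfl⟩) hnear (fun a ha => ha) (fun a ha => ha)
      (fun l hl a ha hx => u2 l hl a ha fun x hx' => (hx x hx').trans_le e2)
      (fun l hl a ha hx => u1 l hl a ha fun x hx' => (hx x hx').trans_le e1)
    have h3 : c - gm (tg T F) (pb F c) - (gm (fun _ : Ω => (LinearMap.id : V →ₗ[k] V)) (pb id c) -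
        gm (fun x => (LinearMap.id : V →ₗ[k] V) ∘ₗ T (id x) (F x)) (pb F c)) ∈ Bc T S S₁ q := by
      refine hi_Bc_of_nz (hi_nz_of_cons fun x l => ?_)
      simp [tg, pb]
    have h4 := (Bc T S S₁ q).add_mem h3 h2
    rwa [sub_add_cancel] at h4
  · intro a ha
    obtain ⟨δ, hδ, h⟩ := hnear a ha
    exact ⟨δ, hδ, fun x y z hx hy hz => u3 a ha _ _ _ ((h x hx).2.trans_le e3) ((h y hy).2.trans_le e3)
      ((h z hz).2.trans_le e3)⟩

/-- existence of rounding maps with finite image -/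
theorem exists_round (hS : IsCompact S) (c1 : IsClosed S₁) (h1 : S₁ ⊆ S) {ε : ℝ} (hε : 0 < ε) :
    ∃ F : Ω → Ω, (range F).Finite ∧
      (∀ a ∈ S, ∃ δ > 0, ∀ x, dist x a < δ → dist (F x) x < ε ∧ F x ∈ S) ∧
      (∀ a ∈ S₁, ∃ δ > 0, ∀ x, dist x a < δ → F x ∈ S₁) := by
  classical
  rcases S.eq_empty_or_nonempty with he | ⟨s₀, hs₀⟩
  · rcases isEmpty_or_nonempty Ω with hΩ | ⟨⟨p⟩⟩
    · exact ⟨id, Set.toFinite _, fun a => (hΩ.false a).elim, fun a => (hΩ.false a).elim⟩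
    · refine ⟨fun _ => p, (Set.finite_singleton p).subset (by rintro _ ⟨x, rfl⟩; rfl), fun a ha => ?_, fun a ha => ?_⟩
      · rw [he] at ha; exact ha.elim
      · have := h1 ha
        rw [he] at this; exact this.elim
  · obtain ⟨t₁, ht₁, hf₁, hc₁⟩ := (hS.of_isClosed_subset c1 h1).finite_cover_balls (e := ε / 2) (by positivity)
    obtain ⟨t, ht, hf, hc⟩ := hS.finite_cover_balls (e := ε / 2) (by positivity)
    set F : Ω → Ω := fun x => if h : ∃ y ∈ t₁, dist y x < ε then h.choose else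
      if h : ∃ y ∈ t, dist y x < ε then h.choose else s₀ with hF
    have F1 : ∀ x, (∃ y ∈ t₁, dist y x < ε) → F x ∈ t₁ ∧ dist (F x) x < ε := by
      intro x h
      rw [hF]; simp only [h, dif_pos]
      exact h.choose_spec
    have F2 : ∀ x, ¬ (∃ y ∈ t₁, dist y x < ε) → (∃ y ∈ t, dist y x < ε) → F x ∈ t ∧ dist (F x) x < ε := by
      intro x h h'
      rw [hF]; simp only [h, h', dif_pos, not_false_eq_true, dif_neg]
      exact h'.choose_spec
    have near : ∀ (t' S' : Set Ω), S' ⊆ ⋃ x ∈ t', Metric.ball x (ε / 2) → ∀ a ∈ S', ∀ x, dist x a < ε / 2 →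
        ∃ y ∈ t', dist y x < ε := by
      intro t' S' h a ha x hx
      have h2 := h ha
      simp only [mem_iUnion, Metric.mem_ball] at h2
      obtain ⟨y, hy, hd⟩ := h2
      refine ⟨y, hy, ?_⟩
      have h3 := dist_triangle y a x
      rw [dist_comm y a, dist_comm a x] at h3
      linarith
    refine ⟨F, ?_, ?_, ?_⟩
    · refine ((hf₁.union hf).union (Set.finite_singleton s₀)).subset ?_
      rintro _ ⟨x, rfl⟩
      by_cases h : ∃ y ∈ t₁, dist y x < ε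
      · exact Or.inl (Or.inl (F1 x h).1)
      · by_cases h' : ∃ y ∈ t, dist y x < ε
        · exact Or.inl (Or.inr (F2 x h h').1)
        · right
          rw [hF]; simp only [h, h', not_false_eq_true, dif_neg]; rfl
    · intro a ha
      refine ⟨ε / 2, by positivity, fun x hx => ?_⟩
      by_cases h : ∃ y ∈ t₁, dist y x < ε
      · exact ⟨(F1 x h).2, h1 (ht₁ (F1 x h).1)⟩
      · have h' := near t S hc a ha x hx
        exact ⟨(F2 x h h').2, ht (F2 x h h').1⟩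
    · intro a ha
      refine ⟨ε / 2, by positivity, fun x hx => ?_⟩
      exact ht₁ (F1 x (near t₁ S₁ hc₁ a ha x hx)).1

end Pool.Agent.Helper60.AS
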