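import Pool.Agent.Helper60.AS.FT
import Pool.Agent.Helper60.AS.Good
import Pool.Agent.Helper60.AS.Dual2

/-! Poincare duality for good unions of convex sets in `ℂ × ℂ` (real dimension 4). -/

set_option autoImplicit false

namespace Pool.Agent.Helper60.AS

open Set

/-- the duality pairing: `T` flat on the open set `O`, `B` an invariant nondegenerate form.
`P i j` is a bilinear form on cochains, used for `i + j = 4`. -/
theorem exists_pairing {k V : Type*} [Field k] [AddCommGroup V] [Module k V] [FiniteDimensional k V]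
    {T : ℂ × ℂ → ℂ × ℂ → (V →ₗ[k] V)} {O : Set (ℂ × ℂ)} (hO : IsOpen O)
    (hbd : Bornology.IsBounded O) (hT : Flat T O)
    (B : V →ₗ[k] V →ₗ[k] k) (hB : ∀ v, (∀ w, B v w = 0) → v = 0) (hB' : ∀ w, (∀ v, B v w = 0) → w = 0)
    (hinv : ∀ x y v w, B (T x y v) (T x y w) = B v w) (i j : ℕ) (hij : i + j = 4) :
    ∃ P : (List (ℂ × ℂ) → V) →ₗ[k] (List (ℂ × ℂ) → V) →ₗ[k] k,
      (∀ U Y : Set (ℂ × ℂ), IsOpen U → U ⊆ Y → Y ⊆ O →
        ∀ f g, (f ∈ Zc T Y ∅ i → g ∈ Bc T univ Uᶜ j → P f g = 0) ∧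
          (f ∈ Bc T Y ∅ i → g ∈ Zc T univ Uᶜ j → P f g = 0)) ∧
      (∀ Q U : Set (ℂ × ℂ), IsGood Q U → Q ⊆ O →
        (∀ f ∈ Zc T Q ∅ i, (∀ g ∈ Zc T univ Uᶜ j, P f g = 0) → f ∈ Bc T Q ∅ i) ∧
        (∀ g ∈ Zc T univ Uᶜ j, (∀ f ∈ Zc T Q ∅ i, P f g = 0) → g ∈ Bc T univ Uᶜ j)) := by
  classical
  obtain ⟨I, hI1, hI2⟩ := Body.exists_I (k := k) hbd
  have h : Dual.Ctx T B O I := ⟨hT, hinv, hI1⟩
  refine ⟨(LinearMap.llcomp k (List (ℂ × ℂ) → V) (List (ℂ × ℂ) → k) k I) ∘ₗ cupL T B i, ?_, ?_⟩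
  · intro U Y _ hUY hY f g
    exact ⟨fun hf hg => h.zb hij hUY hY hf hg, fun hf hg => h.bz hij hUY hY hf hg⟩
  · rintro Q U ⟨s, hs, hg, rfl, rfl⟩ hQ
    have hd : Dual.PDual T B I (⋃ C ∈ s, C) (⋃ C ∈ s, interior C) :=
      Dual.good h hB hI2 s (fun C => C) hs hg hQ
    refine ⟨fun f hf hP => hd.inj i j hij f hf hP, fun g hg' hP => ?_⟩
    by_contra hcon
    obtain ⟨φ, hφ, hφ'⟩ := Submodule.exists_le_ker_of_notMem hcon
    obtain ⟨f, hf, hfw⟩ := hd.surj i j hij φ fun g hg => LinearMap.mem_ker.1 (hφ' hg)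
    apply hφ
    rw [← hfw g hg']
    exact hP f hf

end Pool.Agent.Helper60.AS
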