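import Pool.Agent.Helper60.AS.H1

/-! Trivial `Aff ρ`-valued flat functions versus coboundaries. -/

set_option autoImplicit false

namespace Pool.Agent.Helper60.AS

open Set

variable {Ω G k V : Type*} [PseudoMetricSpace Ω] [Group G] [CommRing k]
  [AddCommGroup V] [Module k V]

/-- an `Aff ρ`-valued function is trivial near `S` if it is gauge equivalent to one with zero
translation part -/
def Tri {ρ : G →* (V →ₗ[k] V)} (F : Ω → Ω → Aff ρ) (S : Set Ω) : Prop :=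
  ∃ F' : Ω → Ω → Aff ρ, GaugeEq F F' S ∧ ∀ x y, (F' x y).v = 0

variable {ρ : G →* (V →ₗ[k] V)} {F F' : Ω → Ω → Aff ρ} {S S' : Set Ω} {T : Ω → Ω → G}
  {c : List Ω → V}

theorem Tri.congr (h : GaugeEq F F' S) (ht : Tri F S) : Tri F' S := by
  obtain ⟨F'', h'', hv⟩ := ht
  exact ⟨F'', h.symm.trans h'', hv⟩

theorem Tri.mono (ht : Tri F S) (h : S' ⊆ S) : Tri F S' := by
  obtain ⟨F'', ⟨u, hu⟩, hv⟩ := ht
  exact ⟨F'', ⟨u, hu.mono h⟩, hv⟩

/-- a 1-cocycle is a coboundary iff its `Aff`-valued function is trivial -/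
theorem tri_iff (hT : GFlat T S) : Tri (aff ρ T c) S ↔ c ∈ Bc (sys T ρ) S ∅ 1 := by
  rw [mem_Bc_one ρ hT]
  constructor
  · rintro ⟨F', ⟨u, hu⟩, hv⟩
    refine ⟨fun x => -(u x).v, fun a ha => ?_⟩
    obtain ⟨e, he, hu⟩ := hu a ha
    refine ⟨e, he, fun x y hx hy => ?_⟩
    obtain ⟨ev, -⟩ := aff_gauge_eqs (hu x y hx hy)
    simp only [aff_v, aff_g, hv, map_zero, add_zero] at ev
    show c [x, y] = ρ (T x y) (-(u y).v) - -(u x).v
    rw [map_neg, ev]
    abel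
  · rintro ⟨w, hw⟩
    refine ⟨fun x y => ⟨0, T x y⟩, ⟨fun x => ⟨-w x, 1⟩, fun a ha => ?_⟩, fun x y => rfl⟩
    obtain ⟨e, he, hw⟩ := hw a ha
    refine ⟨e, he, fun x y hx hy => ?_⟩
    ext
    · simp only [Aff.mul_v, Aff.inv_v, Aff.inv_g, Aff.mul_g, aff_v, aff_g, inv_one, map_one, one_mul,
        Module.End.one_apply, hw x y hx hy, map_neg]
      abel
    · simp only [Aff.mul_g, Aff.inv_g, aff_g, inv_one, one_mul, mul_one]

end Pool.Agent.Helper60.AS
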